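import Pool.Agent.Lib.MP_391708_nt.X3.SpecVB
import Pool.Agent.Lib.MP_391708_nt.X.NTS
import Pool.Agent.Lib.MP_391708_nt.X.LGD

/-!
# THEOREM X3 (MP_391708), part VB, module AVP: properties of the truncated sum of the Möbius function
-/

set_option autoImplicit false

namespace Pool.Agent.Lib.MP391708.XB3

open Finset Filter Topology Pool.Agent.Lib.MP391708.MR
open Pool.Agent.Lib.MP391708.X (ChiG hk Dist Fam PI)
open scoped ComplexConjugate

namespace AVPM

open Pool.Agent.Lib.MP391708.X.LGDM (mem_PI prod_dvd_iff exists_assoc)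

theorem mem_TT {V : ℝ} {T : Finset Gi} :
    T ∈ TT V ↔ T ⊆ PI V ∧ ∏ π ∈ T, (nm π : ℝ) ≤ V := by
  classical
  unfold TT
  rw [mem_filter, mem_powerset]

theorem nm_prod (T : Finset Gi) : ((nm (∏ π ∈ T, π) : ℕ) : ℝ) = ∏ π ∈ T, (nm π : ℝ) := by
  classical
  induction T using Finset.induction_on with
  | empty => simp
  | insert a s ha ih =>
    rw [prod_insert ha, prod_insert ha, nm_mul]
    push_cast
    rw [ih]

theorem PI_mono {V x : ℝ} (h : V ≤ x) : PI V ⊆ PI x := by
  intro π hπ
  rw [mem_PI] at hπ ⊢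
  exact ⟨hπ.1.trans h, hπ.2⟩

open scoped Classical in
theorem card_le (V : ℝ) (b : Gi) :
    |AV V b| ≤ (((TT V).filter (fun T => (∏ π ∈ T, π) ∣ b)).card : ℝ) := by
  unfold AV
  refine (abs_sum_le_sum_abs _ _).trans ?_
  rw [← nsmul_one, ← sum_const]
  refine sum_le_sum fun T _ => ?_
  rw [abs_pow, abs_neg, abs_one, one_pow]

end AVPM

open AVPM in
theorem specAVP : SpecAVP := by
  classical
  refine ⟨?_, ?_, ?_, ?_⟩
  · intro V b hV hb
    have hub : IsUnit b := isUnit_iff_nm.2 hb
    have h1 : (TT V).filter (fun T => (∏ π ∈ T, π) ∣ b) = {∅} := by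
      refine Finset.ext fun T => ?_
      rw [mem_filter, mem_singleton, mem_TT]
      constructor
      · rintro ⟨⟨h1, -⟩, h2⟩
        by_contra hT
        obtain ⟨π, hπ⟩ := Finset.nonempty_iff_ne_empty.2 hT
        have h3 : π ∣ b := (dvd_prod_of_mem (fun π : Gi => π) hπ).trans h2
        have h4 := (X.LGDM.mem_PI.1 (h1 hπ)).2.1
        exact h4.not_isUnit (isUnit_of_dvd_unit h3 hub)
      · rintro rfl
        refine ⟨⟨empty_subset _, ?_⟩, ?_⟩
        · rw [prod_empty]
          exact hV
        · rw [prod_empty]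
          exact one_dvd b
    unfold AV
    rw [h1, sum_singleton, card_empty, pow_zero]
  · intro V b hb0 hb1 hbV
    have h1 : (TT V).filter (fun T => (∏ π ∈ T, π) ∣ b) =
        ((PI V).filter (fun π => π ∣ b)).powerset := by
      refine Finset.ext fun T => ?_
      rw [mem_filter, mem_TT, mem_powerset]
      constructor
      · rintro ⟨⟨h1, -⟩, h2⟩ π hπ
        rw [mem_filter]
        exact ⟨h1 hπ, (dvd_prod_of_mem (fun π : Gi => π) hπ).trans h2⟩
      · intro h
        have h1 : T ⊆ PI V := h.trans (filter_subset _ _)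
        have h2 : (∏ π ∈ T, π) ∣ b :=
          (X.LGDM.prod_dvd_iff h1 b).2 fun π hπ => (mem_filter.1 (h hπ)).2
        refine ⟨⟨h1, ?_⟩, h2⟩
        rw [← nm_prod]
        have h3 : nm (∏ π ∈ T, π) ≤ nm b := Nat.le_of_dvd (nm_pos hb0) (nm_dvd h2)
        exact le_trans (by exact_mod_cast h3) hbV
    have hne : ((PI V).filter (fun π => π ∣ b)).Nonempty := by
      have hnu : ¬ IsUnit b := fun h => hb1 (isUnit_iff_nm.1 h)
      obtain ⟨p, hp, hpb⟩ := WfDvdMonoid.exists_irreducible_factor hnu hb0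
      have hpp : Prime p := hp.prime
      obtain ⟨q, hq, hqn, hq1, hq2⟩ := X.LGDM.exists_assoc p hpp.ne_zero
      refine ⟨q, ?_⟩
      have hqb : q ∣ b := hq.dvd_iff_dvd_left.1 hpb
      rw [mem_filter, X.LGDM.mem_PI]
      refine ⟨⟨?_, hq.prime hpp, hq1, hq2⟩, hqb⟩
      have h3 : nm q ≤ nm b := Nat.le_of_dvd (nm_pos hb0) (nm_dvd hqb)
      exact le_trans (by exact_mod_cast h3) hbV
    unfold AV
    rw [h1]
    have h2 := Finset.sum_powerset_neg_one_pow_card_of_nonempty hne
    have h3 := congrArg (fun n : ℤ => (n : ℝ)) h2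
    push_cast at h3
    exact h3
  · intro V x b hVx
    refine (card_le V b).trans ?_
    have h1 : (TT V).filter (fun T => (∏ π ∈ T, π) ∣ b) ⊆
        ((PI x).filter (fun π => π ∣ b)).powerset := by
      intro T hT
      rw [mem_filter, mem_TT] at hT
      rw [mem_powerset]
      intro π hπ
      rw [mem_filter]
      exact ⟨PI_mono hVx (hT.1.1 hπ), (dvd_prod_of_mem (fun π : Gi => π) hπ).trans hT.2⟩
    have h2 := card_le_card h1
    rw [card_powerset] at h2
    unfold oo
    exact_mod_cast h2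
  · intro V y hV hy
    have h1 : ∀ b ∈ disc y, |AV V b| ≤ 9 * V := by
      intro b _
      refine (card_le V b).trans ?_
      have h2 := X.specNTS V V (by linarith)
      refine le_trans ?_ h2
      have h3 : ((TT V).filter (fun T => (∏ π ∈ T, π) ∣ b)).card ≤ (TT V).card :=
        card_le_card (filter_subset _ _)
      have h4 : (TT V) = (PI V).powerset.filter (fun T => ∏ π ∈ T, (nm π : ℝ) ≤ V) := by
        unfold TT
        rfl
      rw [h4] at h3
      refine le_trans (b := (((PI V).powerset.filter (fun T => ∏ π ∈ T, (nm π : ℝ) ≤ V)).card : ℝ))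
        (by rw [h4]; exact_mod_cast h3) (le_of_eq ?_)
      congr!
    calc ∑ b ∈ disc y, |AV V b| ≤ ∑ _b ∈ disc y, 9 * V := sum_le_sum h1
      _ = ((disc y).card : ℝ) * (9 * V) := by rw [sum_const, nsmul_eq_mul]
      _ ≤ (9 * y) * (9 * V) := mul_le_mul_of_nonneg_right (card_disc_le hy) (by positivity)
      _ = 81 * V * y := by ring

end Pool.Agent.Lib.MP391708.XB3
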