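import Pool.Agent.Lib.MP_391708_nt.X3.SpecVB
import Pool.Agent.Lib.MP_391708_nt.X.VPL
import Pool.Agent.Lib.MP_391708_nt.X.RKN

/-!
# THEOREM X3 (MP_391708), part VB, module BAD (helper46): prime powers and inert primes, trivial bound
-/

set_option autoImplicit false

namespace Pool.Agent.Lib.MP391708.XB3

open Finset Filter Topology Pool.Agent.Lib.MP391708.MR
open Pool.Agent.Lib.MP391708.X (ChiG hk Dist Fam PI)
open scoped ComplexConjugate

namespace BADM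

open Pool.Agent.Lib.MP391708.X.VPLM (mem_PI' mem_GP' two_le two_leR rest_sub)
open Pool.Agent.Lib.MP391708.X.RKNM (sumW)

theorem nm_pow (z : Gi) (k : ℕ) : nm (z ^ k) = nm z ^ k := by
  induction k with
  | zero =>
    rw [pow_zero, pow_zero]
    exact isUnit_iff_nm.1 isUnit_one
  | succ k ih => rw [pow_succ, nm_mul, ih, pow_succ]

/-- the inner sum -/
theorem inner (hAVP : SpecAVP) (V x : ℝ) (hV : 1 ≤ V) (hx : 0 ≤ x) (F : Gi → ℂ)
    (h1 : ∀ z, ‖F z‖ ≤ 1) (h2 : ∀ z, F z ≠ 0 → z ≠ 0 ∧ (nm z : ℝ) ≤ x) (c : Gi) (hc : c ≠ 0) :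
    ‖∑ b ∈ disc x, ((AV V b : ℝ) : ℂ) * F (c * b)‖ ≤ 81 * V * (x / nm c) := by
  have hn : (0 : ℝ) < nm c := by
    have : nm c ≠ 0 := fun h => hc (nm_eq_zero.1 h)
    positivity
  refine le_trans ?_ (hAVP.2.2.2 V (x / nm c) hV (by positivity))
  have h3 : ∀ b ∈ disc x, ‖((AV V b : ℝ) : ℂ) * F (c * b)‖ ≤
      if b ∈ disc (x / nm c) then |AV V b| else 0 := by
    intro b hb
    rw [mem_disc] at hb
    by_cases hF : F (c * b) = 0
    · rw [hF, mul_zero, norm_zero]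
      split_ifs
      · exact abs_nonneg _
      · exact le_rfl
    · obtain ⟨-, h5⟩ := h2 _ hF
      rw [nm_mul] at h5
      push_cast at h5
      have h6 : b ∈ disc (x / nm c) := by
        rw [mem_disc]
        refine ⟨hb.1, ?_⟩
        rw [le_div_iff₀ hn]
        linarith
      rw [if_pos h6, norm_mul, Complex.norm_real, Real.norm_eq_abs]
      calc |AV V b| * ‖F (c * b)‖ ≤ |AV V b| * 1 :=
            mul_le_mul_of_nonneg_left (h1 _) (abs_nonneg _)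
        _ = |AV V b| := mul_one _
  refine (norm_sum_le _ _).trans ((sum_le_sum h3).trans ?_)
  rw [← sum_filter]
  refine sum_le_sum_of_subset_of_nonneg ?_ fun _ _ _ => abs_nonneg _
  intro b hb
  rw [mem_filter] at hb
  exact hb.2

/-- `1/n ≤ U^(-1/4) n^(-3/4)` -/
theorem inv_le {U n : ℝ} (hU : 0 < U) (hn : U ≤ n) :
    1 / n ≤ U ^ (-(1 / 4) : ℝ) * n ^ (-(3 / 4) : ℝ) := by
  have hn0 : 0 < n := hU.trans_le hn
  have h1 : 1 / n = n ^ (-(1 / 4) : ℝ) * n ^ (-(3 / 4) : ℝ) := by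
    rw [← Real.rpow_add hn0]
    norm_num
    rw [Real.rpow_neg_one]
  rw [h1]
  refine mul_le_mul_of_nonneg_right ?_ (Real.rpow_nonneg hn0.le _)
  exact Real.rpow_le_rpow_of_nonpos hU hn (by norm_num)

/-- squares and higher powers -/
theorem pow_bd {a : ℝ} (ha : 1 ≤ a) {k : ℕ} (hk : 2 ≤ k) : (a ^ k) ^ (-(3 / 4) : ℝ) ≤ 1 / a := by
  have h0 : 0 < a := by linarith
  have h1 : a ^ 2 ≤ a ^ k := pow_le_pow_right₀ ha hk
  calc (a ^ k) ^ (-(3 / 4) : ℝ) ≤ (a ^ 2) ^ (-(3 / 4) : ℝ) :=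
        Real.rpow_le_rpow_of_nonpos (by positivity) h1 (by norm_num)
    _ = a ^ (-(3 / 2) : ℝ) := by
        rw [← Real.rpow_natCast, ← Real.rpow_mul h0.le]
        norm_num
    _ ≤ a ^ (-1 : ℝ) := Real.rpow_le_rpow_of_exponent_le ha (by norm_num)
    _ = 1 / a := by rw [Real.rpow_neg_one, one_div]

theorem harm (N : ℕ) : ∑ n ∈ range (N + 1), 1 / (n : ℝ) ≤ 1 + Real.log N := by
  rw [sum_range_succ', Nat.cast_zero, div_zero, add_zero]
  have h1 : ∑ k ∈ range N, 1 / (((k + 1 : ℕ)) : ℝ) = ((harmonic N : ℚ) : ℝ) := by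
    unfold harmonic
    push_cast
    refine sum_congr rfl fun k _ => ?_
    rw [one_div]
  rw [h1]
  exact harmonic_le_one_add_log N

open scoped Classical in
/-- the sum of the weights -/
theorem weights (x U : ℝ) (L : ℕ) (hx : 1 ≤ x) (hU : 2 ≤ U) :
    ∑ q ∈ (PP x L).filter (fun q => U < (nm q.1 : ℝ) ^ q.2 ∧ ¬ (q.2 = 1 ∧ q.1 ∈ GP U x)),
      ((nm q.1 : ℝ) ^ q.2) ^ (-(3 / 4) : ℝ) ≤
    L * (18 + 9 * Real.log x) + (1 + Real.log x) := by
  set A := (PP x L).filter (fun q => U < (nm q.1 : ℝ) ^ q.2 ∧ ¬ (q.2 = 1 ∧ q.1 ∈ GP U x)) with hA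
  have hx0 : 0 ≤ x := by linarith
  have hmem : ∀ q ∈ A, q.1 ∈ PI x ∧ 1 ≤ q.2 ∧ q.2 ≤ L ∧ U < (nm q.1 : ℝ) ^ q.2 ∧
      ¬ (q.2 = 1 ∧ q.1 ∈ GP U x) := by
    intro q hq
    rw [hA, mem_filter, PP, mem_product, mem_Icc] at hq
    exact ⟨hq.1.1, hq.1.2.1, hq.1.2.2, hq.2.1, hq.2.2⟩
  rw [← sum_filter_add_sum_filter_not A (fun q => 2 ≤ q.2)]
  refine add_le_add ?_ ?_
  · -- k ≥ 2
    calc ∑ q ∈ A.filter (fun q => 2 ≤ q.2), ((nm q.1 : ℝ) ^ q.2) ^ (-(3 / 4) : ℝ)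
        ≤ ∑ q ∈ A.filter (fun q => 2 ≤ q.2), 1 / (nm q.1 : ℝ) := by
          refine sum_le_sum fun q hq => ?_
          rw [mem_filter] at hq
          have h1 := (hmem q hq.1).1
          rw [mem_PI'] at h1
          have h2 : (1 : ℝ) ≤ nm q.1 := by linarith [two_leR h1.2.1]
          exact pow_bd h2 hq.2
      _ ≤ ∑ q ∈ PP x L, 1 / (nm q.1 : ℝ) := by
          refine sum_le_sum_of_subset_of_nonneg ?_ fun _ _ _ => by positivity
          exact (filter_subset _ _).trans (filter_subset _ _)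
      _ = L * ∑ π ∈ PI x, 1 / (nm π : ℝ) := by
          unfold PP
          rw [sum_product, mul_sum]
          refine sum_congr rfl fun π _ => ?_
          simp only
          rw [sum_const, Nat.card_Icc, nsmul_eq_mul, Nat.add_sub_cancel]
      _ ≤ L * (18 + 9 * Real.log x) := by
          refine mul_le_mul_of_nonneg_left ?_ (Nat.cast_nonneg _)
          refine le_trans ?_ (sumW x hx)
          refine sum_le_sum_of_subset_of_nonneg ?_ fun _ _ _ => by positivity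
          intro π hπ
          rw [mem_PI'] at hπ
          rw [mem_disc]
          exact ⟨hπ.2.1.ne_zero, hπ.1⟩
  · -- k = 1
    have hsub : A.filter (fun q => ¬ 2 ≤ q.2) ⊆
        (range (⌊x⌋₊ + 1)).image (fun n : ℕ => ((⟨(n : ℤ), 0⟩ : Gi), 1)) := by
      intro q hq
      rw [mem_filter] at hq
      obtain ⟨h1, h2, h3, h4, h5⟩ := hmem q hq.1
      have h6 : q.2 = 1 := by omega
      have h7 : q.1 ∈ PI x \ GP 3 x := by
        rw [Finset.mem_sdiff]
        refine ⟨h1, fun h8 => h5 ⟨h6, ?_⟩⟩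
        rw [mem_GP'] at h8 ⊢
        refine ⟨h8.1, h8.2.1, h8.2.2.1, h8.2.2.2.1, h8.2.2.2.2.1, ?_⟩
        rw [h6, pow_one] at h4
        exact h4
      have h8 := rest_sub x hx0 h7
      rw [mem_insert] at h8
      rcases h8 with h8 | h8
      · exfalso
        rw [h6, pow_one, h8] at h4
        have h9 : nm (⟨1, 1⟩ : Gi) = 2 := by
          unfold nm
          norm_num
        rw [h9] at h4
        norm_num at h4
        linarith
      · rw [mem_image] at h8 ⊢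
        obtain ⟨n, hn, hn'⟩ := h8
        refine ⟨n, hn, ?_⟩
        rw [hn', ← h6]
    calc ∑ q ∈ A.filter (fun q => ¬ 2 ≤ q.2), ((nm q.1 : ℝ) ^ q.2) ^ (-(3 / 4) : ℝ)
        ≤ ∑ q ∈ (range (⌊x⌋₊ + 1)).image (fun n : ℕ => ((⟨(n : ℤ), 0⟩ : Gi), 1)),
            ((nm q.1 : ℝ) ^ q.2) ^ (-(3 / 4) : ℝ) := by
          refine sum_le_sum_of_subset_of_nonneg hsub fun _ _ _ => ?_
          exact Real.rpow_nonneg (by positivity) _
      _ = ∑ n ∈ range (⌊x⌋₊ + 1), ((nm (⟨(n : ℤ), 0⟩ : Gi) : ℝ) ^ 1) ^ (-(3 / 4) : ℝ) := by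
          rw [sum_image]
          intro a _ b _ hab
          have h1 : (⟨(a : ℤ), 0⟩ : Gi) = ⟨(b : ℤ), 0⟩ := (Prod.mk.inj hab).1
          have h2 := congrArg Zsqrtd.re h1
          simpa using h2
      _ ≤ ∑ n ∈ range (⌊x⌋₊ + 1), 1 / (n : ℝ) := by
          refine sum_le_sum fun n _ => ?_
          have h1 : nm (⟨(n : ℤ), 0⟩ : Gi) = n ^ 2 := by
            unfold nm
            simp only
            rw [zero_pow (by norm_num), add_zero]
            have : ((n : ℤ)) ^ 2 = ((n ^ 2 : ℕ) : ℤ) := by push_cast; ring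
            rw [this, Int.natAbs_natCast]
          rw [h1, pow_one]
          rcases Nat.eq_zero_or_pos n with h2 | h2
          · rw [h2]
            norm_num
          · push_cast
            have h3 : (1 : ℝ) ≤ n := by exact_mod_cast h2
            exact pow_bd h3 le_rfl
      _ ≤ 1 + Real.log (⌊x⌋₊ : ℕ) := harm _
      _ ≤ 1 + Real.log x := by
          have h1 : 1 ≤ ⌊x⌋₊ := Nat.one_le_floor_iff x |>.2 hx
          have h2 : (0 : ℝ) < (⌊x⌋₊ : ℕ) := by exact_mod_cast h1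
          have h3 := Real.log_le_log h2 (Nat.floor_le hx0)
          linarith

end BADM

open BADM in
theorem specBAD (hAVP : SpecAVP) : SpecBAD := by
  classical
  refine ⟨4, by norm_num, ?_⟩
  have hlog : ∀ᶠ x : ℝ in atTop, 9000 ≤ Real.log x := Real.tendsto_log_atTop.eventually_ge_atTop _
  filter_upwards [hlog, eventually_ge_atTop (1 : ℝ)] with x hl hx U V L F hU hV hL h1 h2
  have hx0 : 0 ≤ x := by linarith
  have hU0 : 0 < U := by linarith
  have hV0 : 0 < V := by linarith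
  set l := Real.log x with hldef
  have hl0 : 0 < l := by linarith
  have hUr : 0 ≤ U ^ (-(1 / 4) : ℝ) := Real.rpow_nonneg hU0.le _
  have hterm : ∀ q ∈ (PP x L).filter (fun q => U < (nm q.1 : ℝ) ^ q.2 ∧
      ¬ (q.2 = 1 ∧ q.1 ∈ GP U x)),
      ‖((Real.log (nm q.1) : ℝ) : ℂ) * ∑ b ∈ disc x, ((AV V b : ℝ) : ℂ) * F (q.1 ^ q.2 * b)‖ ≤
        81 * V * x * l * U ^ (-(1 / 4) : ℝ) * ((nm q.1 : ℝ) ^ q.2) ^ (-(3 / 4) : ℝ) := by
    intro q hq
    rw [mem_filter, PP, mem_product, mem_Icc] at hq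
    have h3 := hq.1.1
    rw [Pool.Agent.Lib.MP391708.X.VPLM.mem_PI'] at h3
    have h4 : (2 : ℝ) ≤ nm q.1 := Pool.Agent.Lib.MP391708.X.VPLM.two_leR h3.2.1
    have h5 : q.1 ^ q.2 ≠ 0 := pow_ne_zero _ h3.2.1.ne_zero
    have h6 := inner hAVP V x hV hx0 F h1 h2 (q.1 ^ q.2) h5
    have h7 : ((nm (q.1 ^ q.2) : ℕ) : ℝ) = (nm q.1 : ℝ) ^ q.2 := by
      rw [nm_pow]
      push_cast
      rfl
    rw [h7] at h6
    have h8 := inv_le hU0 hq.2.1.le
    have h9 : 0 ≤ Real.log (nm q.1) := Real.log_nonneg (by linarith)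
    have h10 : Real.log (nm q.1) ≤ l := Real.log_le_log (by linarith) h3.1
    rw [norm_mul, Complex.norm_real, Real.norm_eq_abs, abs_of_nonneg h9]
    calc Real.log (nm q.1) * ‖∑ b ∈ disc x, ((AV V b : ℝ) : ℂ) * F (q.1 ^ q.2 * b)‖
        ≤ l * (81 * V * (x / (nm q.1 : ℝ) ^ q.2)) :=
          mul_le_mul h10 h6 (norm_nonneg _) hl0.le
      _ = 81 * V * x * l * (1 / (nm q.1 : ℝ) ^ q.2) := by ring
      _ ≤ 81 * V * x * l * (U ^ (-(1 / 4) : ℝ) * ((nm q.1 : ℝ) ^ q.2) ^ (-(3 / 4) : ℝ)) :=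
          mul_le_mul_of_nonneg_left h8 (by positivity)
      _ = _ := by ring
  refine (norm_sum_le _ _).trans ((sum_le_sum hterm).trans ?_)
  rw [← mul_sum]
  have h3 := weights x U L hx hU
  have h4 : (L : ℝ) * (18 + 9 * l) + (1 + l) ≤ 110 * l ^ 2 := by
    have h5 : (L : ℝ) * (18 + 9 * l) ≤ 4 * l * (18 + 9 * l) :=
      mul_le_mul_of_nonneg_right hL (by linarith)
    nlinarith
  have h5 : l ^ (4 : ℝ) = l ^ 4 := by
    rw [← Real.rpow_natCast]
    norm_num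
  rw [h5]
  calc 81 * V * x * l * U ^ (-(1 / 4) : ℝ) *
      ∑ q ∈ (PP x L).filter (fun q => U < (nm q.1 : ℝ) ^ q.2 ∧ ¬ (q.2 = 1 ∧ q.1 ∈ GP U x)),
        ((nm q.1 : ℝ) ^ q.2) ^ (-(3 / 4) : ℝ)
      ≤ 81 * V * x * l * U ^ (-(1 / 4) : ℝ) * (110 * l ^ 2) :=
        mul_le_mul_of_nonneg_left (h3.trans h4) (by positivity)
    _ = V * x * U ^ (-(1 / 4) : ℝ) * (8910 * l ^ 3) := by ring
    _ ≤ V * x * U ^ (-(1 / 4) : ℝ) * l ^ 4 := by
        refine mul_le_mul_of_nonneg_left ?_ (by positivity)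
        have h6 : l ^ 4 = l * l ^ 3 := by ring
        rw [h6]
        exact mul_le_mul_of_nonneg_right (by linarith) (by positivity)

end Pool.Agent.Lib.MP391708.XB3
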