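import Pool.Agent.Lib.MP_391708_nt.X3.Defs

/-!
# THEOREM X3 (MP_391708): the interface between part VB (Vaughan's identity in `ℤ[i]`) and part U
-/

set_option autoImplicit false

namespace Pool.Agent.Lib.MP391708.X3

open Finset Filter Topology Pool.Agent.Lib.MP391708.MR
open Pool.Agent.Lib.MP391708.X (ChiG hk Dist Fam rgh VP Ix psi ix1 UOK lc On)
open scoped ComplexConjugate

/-- all the split primes (open first quadrant) of the radial cell `e^(v/h) ≤ N(π) < e^((v+1)/h)` -/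
noncomputable def cl (h : ℝ) (v : ℕ) : Finset Gi :=
  (GP 0 (Real.exp ((v + 1) / h))).filter (fun π => ⌊h * Real.log (nm π)⌋₊ = v)

/-- the character is large on some radial cell of primes with norm between `N^(1/10)` and `N^(12/10)` -/
def Big (N h A₁ : ℝ) (i : Ix) : Prop := ∃ v : ℕ, h * Real.log N / 10 ≤ v ∧ (v : ℝ) ≤ 12 / 10 * (h * Real.log N) ∧
  Real.exp (v / h) * Real.log N ^ (-A₁) < ‖∑ π ∈ cl h v, psi i π‖

/-- VB: a set of at most `N^c` nontrivial characters which are not large on the cells has a small mean square over the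
primes of norm about `N` (Vaughan's identity; in the bilinear part the primes are in full cells of fineness `h = (log N)^A₃`) -/
def SpecVB : Prop := ∃ c : ℝ, 0 < c ∧ ∀ A₄ : ℝ, 0 < A₄ → ∃ A₃ A₁ : ℝ, 1 ≤ A₃ ∧ 1 ≤ A₁ ∧ ∀ᶠ N : ℝ in atTop,
  ∀ (W : Finset Ix) (M X X' : ℝ), N ^ (9 / 10 : ℝ) ≤ M → M ≤ N ^ (11 / 10 : ℝ) → M ≤ X → X ≤ X' → X' ≤ 2 * M →
  (∀ i ∈ W, 1 ≤ i.1 ∧ (i.1 : ℝ) ≤ N ^ c ∧ ChiG (i.1 : Gi) i.2.1 ∧ |(i.2.2 : ℝ)| ≤ N ^ 2 ∧ psi i ⟨0, 1⟩ = 1 ∧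
    Dist i.2.1 ix1.2.1 i.2.2 ix1.2.2 ∧ ¬ Big N (Real.log N ^ A₃) A₁ i) →
  (∀ i ∈ W, ∀ j ∈ W, i ≠ j → Dist i.2.1 j.2.1 i.2.2 j.2.2) → (W.card : ℝ) ≤ N ^ c →
    ∑ i ∈ W, ‖∑ π ∈ GP X X', psi i π‖ ^ 2 ≤ M ^ 2 * Real.log N ^ (-A₄)

end Pool.Agent.Lib.MP391708.X3
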