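import Pool.Agent.Lib.MP_391708_nt.X3.SpecVB
import Pool.Agent.Lib.MP_391708_nt.MR.Basic

/-!
# THEOREM X3 (MP_391708), part VB, module CLF (helper26): the cells of an interval of primes
-/

set_option autoImplicit false

namespace Pool.Agent.Lib.MP391708.XB3

open Finset Filter Topology Pool.Agent.Lib.MP391708.MR
open Pool.Agent.Lib.MP391708.X (ChiG hk Dist Fam PI)
open scoped ComplexConjugate

namespace CLFM

lemma key {h : ℝ} (hh : 0 < h) {n : ℕ} (hn : 1 ≤ n) (m : ℕ) :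
    ((⌈Real.exp (m / h)⌉₊ : ℝ) - 1 < n) ↔ m ≤ ⌊h * Real.log n⌋₊ := by
  have hn0 : (0 : ℝ) < n := by exact_mod_cast hn
  have hn1 : (1 : ℝ) ≤ n := by exact_mod_cast hn
  have h1 : ((⌈Real.exp (m / h)⌉₊ : ℝ) - 1 < n) ↔ ⌈Real.exp (m / h)⌉₊ ≤ n := by
    rw [sub_lt_iff_lt_add, ← Nat.lt_add_one_iff]
    constructor
    · intro h2
      exact_mod_cast h2
    · intro h2
      exact_mod_cast h2
  rw [h1, Nat.ceil_le, ← Real.le_log_iff_exp_le hn0, div_le_iff₀' hh, Nat.le_floor_iff]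
  exact mul_nonneg hh.le (Real.log_nonneg hn1)

end CLFM

open CLFM in
/-- **CLF**. -/
theorem specCLF : SpecCLF := by
  classical
  intro h v₀ v₁ v hh
  have hh0 : 0 < h := by linarith
  ext π
  have hL : π ∈ cell h ((⌈Real.exp (v₀ / h)⌉₊ : ℝ) - 1) ((⌈Real.exp (v₁ / h)⌉₊ : ℝ) - 1) v ↔
      (0 < π.re ∧ 0 < π.im ∧ (nm π).Prime ∧ (nm π) % 4 = 1) ∧
        (v₀ ≤ ⌊h * Real.log (nm π)⌋₊ ∧ ⌊h * Real.log (nm π)⌋₊ < v₁) ∧
        ⌊h * Real.log (nm π)⌋₊ = v := by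
    unfold cell
    rw [mem_filter, mem_GP]
    constructor
    · rintro ⟨⟨h1, h2, h3, h4, h5, h6⟩, h7⟩
      refine ⟨⟨h1, h2, h3, h4⟩, ⟨(key hh0 h3.one_lt.le v₀).1 h5, ?_⟩, h7⟩
      by_contra h8
      exact absurd ((key hh0 h3.one_lt.le v₁).2 (not_lt.1 h8)) (not_lt.2 h6)
    · rintro ⟨⟨h1, h2, h3, h4⟩, ⟨h5, h6⟩, h7⟩
      refine ⟨⟨h1, h2, h3, h4, (key hh0 h3.one_lt.le v₀).2 h5, ?_⟩, h7⟩
      by_contra h8
      exact absurd ((key hh0 h3.one_lt.le v₁).1 (not_le.1 h8)) (not_le.2 h6)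
  rw [hL]
  by_cases hv : v₀ ≤ v ∧ v < v₁
  · rw [if_pos hv]
    unfold X3.cl
    rw [mem_filter, mem_GP]
    constructor
    · rintro ⟨⟨h1, h2, h3, h4⟩, _, h7⟩
      have hn0 : (0 : ℝ) < nm π := by exact_mod_cast h3.pos
      refine ⟨⟨h1, h2, h3, h4, hn0, ?_⟩, h7⟩
      have h8 : h * Real.log (nm π) < v + 1 := by
        rw [← h7]
        exact Nat.lt_floor_add_one _
      have h9 : Real.log (nm π) ≤ (v + 1) / h := by
        rw [le_div_iff₀' hh0]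
        exact h8.le
      exact (Real.log_le_iff_le_exp hn0).1 h9
    · rintro ⟨⟨h1, h2, h3, h4, _, _⟩, h7⟩
      exact ⟨⟨h1, h2, h3, h4⟩, by rw [h7]; exact hv, h7⟩
  · rw [if_neg hv]
    constructor
    · rintro ⟨_, h5, h7⟩
      rw [h7] at h5
      exact absurd h5 hv
    · intro h1
      exact absurd h1 (notMem_empty _)

end Pool.Agent.Lib.MP391708.XB3
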