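import Pool.Agent.Lib.MP_391708_nt.X3.SpecVB
import Pool.Agent.Lib.MP_391708_nt.X.VPL
import Pool.Agent.Lib.MP_391708_nt.X.LGD
import Pool.Agent.Lib.MP_391708_nt.MR.PG
import Pool.Agent.Lib.MP_391708_nt.MR.Basic

/-!
# THEOREM X3 (MP_391708), part VB: module DVM (a divisor moment) (helper15)
-/

set_option autoImplicit false

namespace Pool.Agent.Lib.MP391708.XB3

open Finset Filter Topology Pool.Agent.Lib.MP391708.MR
open Pool.Agent.Lib.MP391708.X (ChiG hk Dist Fam PI VP)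
open scoped ComplexConjugate

namespace DVMM

open scoped Classical in
/-- multiples of `d` in a disc -/
lemma card_mult {d : Gi} (hd : d ≠ 0) {x : ℝ} (hx : 0 ≤ x) :
    (((disc x).filter (fun z => d ∣ z)).card : ℝ) ≤ 9 * x / (nm d : ℝ) := by
  have hd0 : (0 : ℝ) < nm d := nm_posR hd
  have h1 : ((disc x).filter (fun z => d ∣ z)).card ≤ (disc (x / (nm d : ℝ))).card := by
    refine Finset.card_le_card_of_surjOn (fun z => d * z) ?_
    intro z hz
    rw [Finset.mem_coe, mem_filter, mem_disc] at hz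
    obtain ⟨⟨hz0, hzx⟩, w, rfl⟩ := hz
    have hw : w ≠ 0 := by
      rintro rfl
      exact hz0 (mul_zero d)
    refine ⟨w, ?_, rfl⟩
    rw [Finset.mem_coe, mem_disc]
    refine ⟨hw, ?_⟩
    rw [le_div_iff₀ hd0]
    rw [nm_mul] at hzx
    push_cast at hzx
    linarith
  have h2 : ((disc (x / (nm d : ℝ))).card : ℝ) ≤ 9 * (x / (nm d : ℝ)) :=
    card_disc_le (by positivity)
  calc (((disc x).filter (fun z => d ∣ z)).card : ℝ) ≤ ((disc (x / (nm d : ℝ))).card : ℝ) := by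
        exact_mod_cast h1
    _ ≤ 9 * (x / (nm d : ℝ)) := h2
    _ = _ := by ring

open scoped Classical in
/-- the divisor function as a sum over sets of primes -/
lemma pow_oo (x : ℝ) (z : Gi) : (16 : ℝ) ^ (oo x z) =
    ∑ T ∈ (PI x).powerset, if (∏ π ∈ T, π) ∣ z then (15 : ℝ) ^ T.card else 0 := by
  have h1 : (16 : ℝ) ^ (oo x z) = ∏ π ∈ PI x, (1 + if π ∣ z then (15 : ℝ) else 0) := by
    unfold oo
    rw [← Finset.prod_const, Finset.prod_filter]
    refine Finset.prod_congr rfl fun π _ => ?_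
    split_ifs <;> norm_num
  rw [h1, Finset.prod_one_add]
  refine Finset.sum_congr rfl fun T hT => ?_
  have hT' : T ⊆ PI x := Finset.mem_powerset.1 hT
  by_cases h : (∏ π ∈ T, π) ∣ z
  · rw [if_pos h]
    have h2 := (X.LGDM.prod_dvd_iff hT' z).1 h
    rw [← Finset.prod_const]
    exact Finset.prod_congr rfl fun π hπ => if_pos (h2 π hπ)
  · rw [if_neg h]
    have h2 : ¬ ∀ π ∈ T, π ∣ z := fun h3 => h ((X.LGDM.prod_dvd_iff hT' z).2 h3)
    push Not at h2
    obtain ⟨π, hπ, h3⟩ := h2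
    exact Finset.prod_eq_zero hπ (if_neg h3)

lemma nm_prodR (T : Finset Gi) : ((nm (∏ π ∈ T, π) : ℕ) : ℝ) = ∏ π ∈ T, (nm π : ℝ) := by
  classical
  induction T using Finset.induction_on with
  | empty => simp
  | insert a T ha ih =>
    rw [Finset.prod_insert ha, Finset.prod_insert ha, nm_mul]
    push_cast
    rw [ih]

lemma two_le {π : Gi} (h : Prime π) : (2 : ℝ) ≤ nm π := by
  have h1 : nm π ≠ 0 := fun h0 => h.ne_zero (nm_eq_zero.1 h0)
  have h2 : nm π ≠ 1 := fun h0 => h.not_isUnit (isUnit_iff_nm.2 h0)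
  have h3 : 2 ≤ nm π := by omega
  exact_mod_cast h3

lemma factor {t : ℝ} (h0 : 0 ≤ t) (h1 : t ≤ 1 / 2) : 1 + 15 * t ≤ ((1 - t)⁻¹) ^ 15 := by
  have h2 : 1 + ((15 : ℕ) : ℝ) * t ≤ (1 + t) ^ 15 := one_add_mul_le_pow (by linarith) 15
  have h3 : 1 + t ≤ (1 - t)⁻¹ := by
    rw [← one_div, le_div_iff₀ (by linarith)]
    nlinarith
  have h4 : (1 + t) ^ 15 ≤ ((1 - t)⁻¹) ^ 15 := pow_le_pow_left₀ (by linarith) h3 15
  push_cast at h2
  linarith

/-- the sum over the disc -/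
lemma sum_le {x : ℝ} (hx : 0 ≤ x) :
    ∑ z ∈ disc x, (16 : ℝ) ^ (oo x z) ≤ 9 * x * ((VP x)⁻¹) ^ 15 := by
  classical
  have h1 : ∑ z ∈ disc x, (16 : ℝ) ^ (oo x z) =
      ∑ T ∈ (PI x).powerset, (15 : ℝ) ^ T.card *
        (((disc x).filter (fun z => (∏ π ∈ T, π) ∣ z)).card : ℝ) := by
    rw [Finset.sum_congr rfl fun z _ => pow_oo x z, Finset.sum_comm]
    refine Finset.sum_congr rfl fun T _ => ?_
    rw [← Finset.sum_filter, Finset.sum_const, nsmul_eq_mul, mul_comm]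
  have h2 : ∀ T ∈ (PI x).powerset, (15 : ℝ) ^ T.card *
      (((disc x).filter (fun z => (∏ π ∈ T, π) ∣ z)).card : ℝ) ≤
      9 * x * ∏ π ∈ T, (15 / (nm π : ℝ)) := by
    intro T hT
    have hT' : T ⊆ PI x := Finset.mem_powerset.1 hT
    have hne : (∏ π ∈ T, π) ≠ 0 := by
      rw [Finset.prod_ne_zero_iff]
      intro π hπ
      exact (X.LGDM.mem_PI.1 (hT' hπ)).2.1.ne_zero
    have h3 := card_mult hne hx
    rw [nm_prodR] at h3
    calc (15 : ℝ) ^ T.card * (((disc x).filter (fun z => (∏ π ∈ T, π) ∣ z)).card : ℝ) ≤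
        (15 : ℝ) ^ T.card * (9 * x / ∏ π ∈ T, (nm π : ℝ)) :=
          mul_le_mul_of_nonneg_left h3 (by positivity)
      _ = 9 * x * ∏ π ∈ T, (15 / (nm π : ℝ)) := by
        rw [Finset.prod_div_distrib, Finset.prod_const]
        ring
  rw [h1]
  refine (Finset.sum_le_sum h2).trans ?_
  rw [← Finset.mul_sum, ← Finset.prod_one_add]
  refine mul_le_mul_of_nonneg_left ?_ (by positivity)
  unfold X.VP
  rw [← Finset.prod_inv_distrib, ← Finset.prod_pow]
  refine Finset.prod_le_prod (fun π _ => by positivity) fun π hπ => ?_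
  have h5 := two_le (X.LGDM.mem_PI.1 hπ).2.1
  have h6 : 1 / (nm π : ℝ) ≤ 1 / 2 := one_div_le_one_div_of_le (by norm_num) h5
  have h7 := factor (t := 1 / (nm π : ℝ)) (by positivity) h6
  calc 1 + 15 / (nm π : ℝ) = 1 + 15 * (1 / (nm π : ℝ)) := by ring
    _ ≤ _ := h7

end DVMM

/-- **DVM** -/
theorem specDVM : SpecDVM := by
  obtain ⟨c, C, hc, hC, h⟩ := X.specVPL specPG
  refine ⟨16, by norm_num, ?_⟩
  filter_upwards [eventually_ge_atTop 2,
    Real.tendsto_log_atTop.eventually_ge_atTop (max 1 (9 / c ^ 15))] with x hx hl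
  have hl1 : 1 ≤ Real.log x := (le_max_left _ _).trans hl
  have hl2 : 9 / c ^ 15 ≤ Real.log x := (le_max_right _ _).trans hl
  have hL0 : 0 < Real.log x := by linarith
  refine (DVMM.sum_le (by linarith)).trans ?_
  have h1 := (h x hx).1
  have h2 : 0 < c / Real.log x := by positivity
  have h3 : (X.VP x)⁻¹ ≤ (c / Real.log x)⁻¹ := inv_anti₀ h2 h1
  have h4 : 0 ≤ (X.VP x)⁻¹ := inv_nonneg.2 (h2.le.trans h1)
  have h5 : ((X.VP x)⁻¹) ^ 15 ≤ ((c / Real.log x)⁻¹) ^ 15 := pow_le_pow_left₀ h4 h3 15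
  have h6 : ((c / Real.log x)⁻¹) ^ 15 = Real.log x ^ 15 / c ^ 15 := by
    rw [inv_div, div_pow]
  rw [h6] at h5
  have h7 : Real.log x ^ (16 : ℝ) = Real.log x ^ 15 * Real.log x := by
    rw [Real.rpow_ofNat, pow_succ]
  rw [h7]
  calc 9 * x * ((X.VP x)⁻¹) ^ 15 ≤ 9 * x * (Real.log x ^ 15 / c ^ 15) :=
        mul_le_mul_of_nonneg_left h5 (by positivity)
    _ = x * (Real.log x ^ 15 * (9 / c ^ 15)) := by ring
    _ ≤ x * (Real.log x ^ 15 * Real.log x) := by
      refine mul_le_mul_of_nonneg_left (mul_le_mul_of_nonneg_left hl2 (by positivity)) (by linarith)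

end Pool.Agent.Lib.MP391708.XB3
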