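import Pool.Agent.Lib.MP_391708_nt.X.Defs

/-!
# THEOREM X3 (MP_391708): exactly `k ≥ 3` primes, common definitions

The same objects as in `XP/Defs.lean`, without `π₄`: `n + i b = y z₁ π₃ π₂` (up to a unit), `N(y z₁) ∈ (K, 2K]`, `K = N/T`,
`N(π₃) ∈ (P, 2P]`, `N(π₂) ∈ (M₂, 2M₂]`, `M₂ = N T/(8 P)`; `y` is a product of `k - 3` primes of norm a power of `log N`.
`P, h, w` are powers of `log N`, `P (log N)^cT ≤ T ≤ N^δ`.

From `X/Defs.lean` we use: `Ix`, `psi`, `ix1`, `UOK`, `lc`, `On`; from `X/SpecHM.lean`: `ChiG`, `hk`, `Dist`, `Fam`, `rgh`.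
-/

set_option autoImplicit false

namespace Pool.Agent.Lib.MP391708.X3

open Finset Filter Topology Pool.Agent.Lib.MP391708.MR
open Pool.Agent.Lib.MP391708.X (ChiG hk Dist Fam rgh VP Ix psi ix1 UOK lc On)
open scoped ComplexConjugate

/-- the parameters of one box: `N` the scale, `T` the number of points of a line, `P` the norm of `π₃`, `h` the fineness of
the radial cells, `w` the sifting limit -/
structure Par where
  N : ℝ
  T : ℝ
  P : ℝ
  h : ℝ
  w : ℝ

namespace Par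

/-- the norm of the outer variable `ζ = y z₁` -/
noncomputable def K (p : Par) : ℝ := p.N / p.T

/-- the norm of `π₂` -/
noncomputable def M2 (p : Par) : ℝ := p.N * p.T / (8 * p.P)

end Par

/-- the parameters of a box, with `h`, `w` powers of `log N` -/
noncomputable def par (N T P ch cw : ℝ) : Par where
  N := N
  T := T
  P := P
  h := Real.log N ^ ch
  w := Real.log N ^ cw

/-- the admissible boxes: `ℓ^cP ≤ P ≤ ℓ^(2cP)`, `P ℓ^cT ≤ T ≤ N^δ`, `T P ℓ^cB ≤ B ≤ √(2N)` -/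
structure Box (δ cP cT cB N T P B : ℝ) : Prop where
  P1 : Real.log N ^ cP ≤ P
  P2 : P ≤ Real.log N ^ (2 * cP)
  T1 : P * Real.log N ^ cT ≤ T
  T2 : T ≤ N ^ δ
  B1 : T * P * Real.log N ^ cB ≤ B
  B2 : B ^ 2 ≤ 2 * N

open scoped Classical in
/-- the number of rough elements of the lattice cell -/
noncomputable def RR (p : Par) (j : ℕ) : ℝ := (((lc p.h j).filter (rgh p.w)).card : ℝ)

/-- the sum of `ψ` over the `π₂` in the cell `v`, all associates -/
noncomputable def S2 (p : Par) (i : Ix) (v : ℕ) : ℂ := 4 * ∑ π ∈ cell p.h p.M2 (2 * p.M2) v, psi i π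

/-- the coefficients of the model -/
noncomputable def cc (p : Par) (i : Ix) (v : ℕ) : ℂ := S2 p i v / (RR p v : ℂ)

open scoped Classical in
/-- the number of representations `z = u π₂`, `u` a unit, `π₂` in the cell `v` -/
noncomputable def eta (p : Par) (v : ℕ) (z : Gi) : ℂ :=
  (((cell p.h p.M2 (2 * p.M2) v).filter (fun π => Associated π z)).card : ℂ)

open scoped Classical in
/-- the model of `eta` -/
noncomputable def kap (p : Par) (U : Finset Ix) (v : ℕ) (z : Gi) : ℂ :=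
  if z ∈ lc p.h v ∧ rgh p.w z then ∑ i ∈ U, cc p i v * conj (psi i z) else 0

/-- the range of the cells of `π₂` -/
noncomputable def I2 (p : Par) : Finset ℕ := VV p.h p.M2 (2 * p.M2)

/-- `∑ eta` over all cells -/
noncomputable def Eta (p : Par) (z : Gi) : ℂ := ∑ v ∈ I2 p, eta p v z

/-- `∑ kap` over all cells -/
noncomputable def Kap (p : Par) (U : Finset Ix) (z : Gi) : ℂ := ∑ v ∈ I2 p, kap p U v z

open scoped Classical in
/-- the sum of `g(z')` over the `π₃` and the `z'` with `Im (ζ π₃ z') = b`, `Re > 0` -/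
noncomputable def ls (p : Par) (ζ : Gi) (b : ℕ) (g : Gi → ℂ) : ℂ :=
  ∑ π ∈ GP p.P (2 * p.P), ∑ z ∈ (disc (p.N * p.T)).filter (On (ζ * π) b), g z

/-- the variance: all primitive outer points `ζ` with norm in `(K, 2K]`, all `b ∈ (B, 2B]` -/
noncomputable def Var (p : Par) (B : ℝ) (g : Gi → ℂ) : ℝ :=
  ∑ b ∈ Ioc ⌊B⌋₊ ⌊2 * B⌋₊, ∑ ζ ∈ (ann p.K (2 * p.K)).filter prim, ‖ls p ζ b g‖ ^ 2

/-- the sum over `z₁` for a fixed `y` -/
noncomputable def sy (p : Par) (y : Gi) (b : ℕ) (g : Gi → ℂ) : ℂ :=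
  ∑ z₁ ∈ GP (p.K / nm y) (2 * p.K / nm y), ls p (y * z₁) b g

end Pool.Agent.Lib.MP391708.X3
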