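import Pool.Agent.Lib.MP_391708_nt.X3.Final0
import Pool.Agent.Lib.MP_391708_nt.X3.U.FIN

/-!
# THEOREM X3 (MP_391708): the end
-/

set_option autoImplicit false

namespace Pool.Agent.Lib.MP391708.X3

open Pool.Agent.Lib.MP391708

/-- THEOREM X3, without hypotheses: the theorem of the long lengths for every `k ≥ 3`. -/
theorem mainX3 : MainX3 := mainX3Of X3U.specFIN

end Pool.Agent.Lib.MP391708.X3
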