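import Pool.Agent.Lib.MP_391708_nt.X3.Spec
import Pool.Agent.Lib.MP_391708_nt.XP.SpecO

/-!
# THEOREM X3 (MP_391708), part O: from VAR and MT to the final statement, `k ≥ 3`

`XP/SpecO.lean` with one cell variable less.  Form of a module: file `X3/O/XXX.lean`, `import Pool.Agent.Lib.MP_391708_nt.X3.SpecO`,
namespace `Pool.Agent.Lib.MP391708.X3`, own lemmas in the namespace `XXXM`, `theorem specXXX (hYYY : SpecYYY) .. : SpecXXX` (the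
hypotheses are the Specs named after USES, in this order).  START FROM `XP/O/XXX.lean`.  `X.YOK`, `X.SpecYSET`, `XP.SpecSSB`, `XP.SpecHGB`
are used as they are.  `ℓ = log N`.

The order of the primes is `y < π₃ < z₁ < π₂`: `K = N/T ≤ N/2`, `M2 = N T/(8P) ≥ N` (`T ≥ P ℓ^cT`).
-/

set_option autoImplicit false

namespace Pool.Agent.Lib.MP391708.X3

open Finset Filter Topology Pool.Agent.Lib.MP391708.MR
open Pool.Agent.Lib.MP391708.X (ChiG hk Dist Fam rgh VP Ix psi ix1 UOK lc On cnt PrK YOK)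
open Pool.Agent.Lib.MP391708.XL (VS PS)
open Pool.Agent.Lib.MP391708.XP (gB IsConst count Q)
open scoped ComplexConjugate

/-- the box with the index `(i, j)`: `T = 2^i`, `P = 2^j` -/
noncomputable def bp (N ch cw : ℝ) (q : ℕ × ℕ) : Par := par N (2 ^ q.1) (2 ^ q.2) ch cw

/-- CSX (120 lines).  Cauchy–Schwarz.  The proof of `XP/O/CSX.lean` with the new `Par` (only `p.K`, `p.P`, `p.T` are used). -/
def SpecCSX : Prop := ∀ (r : ℕ) (p : Par) (Y : Finset Gi) (z B : ℝ) (g : Gi → ℂ), 2 ≤ p.P → 0 < p.T → 1 ≤ p.K →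
  p.P ^ 2 < p.K → YOK r z p.P Y →
  ∑ b ∈ Ioc ⌊B⌋₊ ⌊2 * B⌋₊, ‖∑ y ∈ Y, sy p y b g‖ ^ 2 ≤ 20 * p.K * Var p B g

/-- CNB (400 lines; helper2).  The sum with `Eta` over all the boxes counts every `n` at most once.
Proof.  As `XP/O/CNB.lean`.  The primes of the tuple are recovered from `n`: the prime factors of `N(y)` are `≤ R`,
`N(π₃) ∈ (R, P₁]`, `N(z₁) ∈ (P₁, L₁]`, `N(π₂) > L₁`; the index of the box from the dyadic intervals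
which contain `N(π₃)`, `N(y) N(z₁)`. -/
def SpecCNB : Prop := ∀ (k : ℕ) (N ch cw R P₁ L₁ z : ℝ) (Y : Finset Gi) (b : ℕ) (S : Finset (ℕ × ℕ)),
  3 ≤ k → 3 ≤ N → 1 ≤ R → YOK (k - 3) z R Y → 1 ≤ b →
  (∀ q ∈ S, R ≤ (bp N ch cw q).P ∧ 2 * (bp N ch cw q).P ≤ P₁ ∧ P₁ * R ≤ (bp N ch cw q).K ∧
    2 * (bp N ch cw q).K ≤ L₁ ∧ L₁ ≤ (bp N ch cw q).M2) →
  (∑ q ∈ S, ∑ y ∈ Y, sy (bp N ch cw q) y b (Eta (bp N ch cw q))).re ≤ (cnt k b N : ℝ)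

/-- BXC (100 lines; from XP.SpecBXC).  There are many boxes.
Proof.  Take the set `S'` of `XP.SpecBXC` and its image `S` under `(i, j, m) ↦ (i, j)`: `XP.Box` gives `Box`; the fibre over `(i, j)` has at most
`ℓ` elements (`2^m ≤ N^0.45`, so `m ≤ 0.45 ℓ/log 2 ≤ 0.65 ℓ`, and `m ≥ 1`), so `c ℓ log B ≤ ∑_(S') ≤ ℓ ∑_S`. -/
def SpecBXC : Prop := ∀ δ cP cT cB : ℝ, 0 < δ → δ ≤ 1 → 1 ≤ cP → 0 ≤ cT → 0 ≤ cB → ∃ c cB' : ℝ, 0 < c ∧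
  ∀ᶠ N : ℝ in atTop, ∀ B : ℝ, Real.log N ^ cB' ≤ B → B ^ 2 ≤ 2 * N → ∃ S : Finset (ℕ × ℕ),
    (∀ q ∈ S, Box δ cP cT cB N (2 ^ q.1) (2 ^ q.2) B) ∧ (S.card : ℝ) ≤ Real.log N ^ 4 ∧
    c * Real.log B ≤ ∑ q ∈ S, 1 / Real.log (2 ^ q.2)

/-- ONE (350 lines).  USES VAR, MT, X.SpecYSET, CNB, CSX, BXC, XP.SpecSSB, XL.SpecLSM (only the last clause (E)).
Proof.  As `XP/O/ONE.lean`.  Given `k ≥ 3`, `A`.  VAR with `A + 16`: `cw aU aQ aF ch0 δ0`.  MT (`c₀` absolute): `ch0' δ0'`.  `ch` = the larger `ch0`, `δ` = the least of `δ0`, `δ0'`, `1/100`.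
YSET with `r = k - 3`, `a = max cw aQ`: `A'`.  `cP` larger than the two `cP0`, `2 A' + 2`; `cT ≥` the two `cT0`, `10`; `cB ≥` the two `cB0`.
BXC for `δ cP cT cB`: `c₁`, `cB'`.  Let `N` be large, `B` with `ℓ^cB' ≤ B`, `B² ≤ 2N`, `S` from BXC, `Y` from YSET (`x = ℓ`, norms `≤ ℓ^A' ≤ ℓ^(cP/2)`).
For `q ∈ S` let `U_q` be from VAR, `D_q(b) = ∑_y sy(Eta - Kap U_q)`.  CSX and VAR: `∑_b ‖D_q(b)‖² ≤ 20 K ℓ^(-A-16) B K T² = 20 ℓ^(-A-16) B N²`.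
MT for every `y ∈ Y`, `∑_y 1/N(y) ≥ 1`: `Re ∑_y sy(Kap U_q) ≥ m_q := c₀ (VS/VP) N/(ℓ² log P_q)`.
CNB with `R = ℓ^(cP/2)`, `P₁ = N^0.1`, `L₁ = N` (`P ≤ ℓ^(2cP)`, `N^0.99 ≤ K = N/T ≤ N/2`, `M2 = N T/(8P) ≥ N ℓ^cT/8 ≥ N`).
If `‖D_q(b)‖ ≤ m_q/2` for all `q ∈ S`, then `cnt ≥ ∑_q m_q/2 ≥ (c₀/2)(VS/VP)(N/ℓ²) c₁ log B ≥ c gB(b) N log B/ℓ²` (SSB with `w = ℓ^cw ≥ ℓ ≥ log b`).
Otherwise some `‖D_q(b)‖ > m_q/2 ≥ N/ℓ⁵`: the number of such `b` is `≤ #S · 20 ℓ^(-A-16) B N²/(N ℓ^(-5))² ≤ 20 ℓ^(-A-2) B ≤ B ℓ^(-A)`. -/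
def SpecONEstmt : Prop := SpecVAR → SpecMT → X.SpecYSET → SpecCNB → SpecCSX → SpecBXC → XP.SpecSSB → XL.SpecLSM → SpecONE

/-- UNP (300 lines).  USES ONE, XP.SpecHGB.  The union over the lengths and over `k` (as `XP/O/UNP.lean`, with `3 ≤ k`). -/
def SpecUNP : Prop := SpecONE → XP.SpecHGB → MainX3

end Pool.Agent.Lib.MP391708.X3
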