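import Pool.Agent.Lib.MP_391708_nt.X.SpecVAR
import Pool.Agent.Lib.MP_391708_nt.X.V.PCN
import Pool.Agent.Lib.MP_391708_nt.MR.Basic

/-!
# Theorem X for `k = 3` (MP_391708), module WPC: weighted count of pairs near a line

For a nonzero `z` the number `nz X D z` of the nonzero `u`, `nm u ≤ X`, `|Im (conj u * z)| ≤ D`, is at most
`30 D √X / √(nm z)`, except for the few `z` near a short vector.  So in a sum `∑ f(z)² nz X D z` the sup norm of `f`
enters only with `Y (1 + log Y)²`.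
-/

set_option autoImplicit false

namespace Pool.Agent.Lib.MP391708.X3

open Finset Filter Topology Pool.Agent.Lib.MP391708.MR
open Pool.Agent.Lib.MP391708.XV (crs pcn cont SpecPCN)

/-- the number of the nonzero `u` with `nm u ≤ X` and `|Im (conj u * z)| ≤ D` -/
noncomputable def nz (X D : ℝ) (z : Gi) : ℕ :=
  ((disc X).filter (fun u => |(crs u z : ℝ)| ≤ D)).card

/-- WPC (from PCN).  Weighted count of pairs near a line.
PROOF.  Let `Q(u) = D² nm u + X crs(u, z)²`, a positive quadratic form with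
`Q(u) Q(v) - (D⁴ + X D² nm z) crs(u, v)²` a square, `Q ≤ 2 X D²` on the set `A` of the `u`.  Let `u₀ ∈ A` be a minimum of `Q`
(primitive).  On `A` the integer `crs(u₀, u)` takes at most `2 √(2 Q₀/nm z) + 1` values, and each value at most
`2 √(8 X D²/Q₀) + 1` times (the differences are multiples of `u₀`).  So `#A ≤ 30 max(D √X/√(nm z), D √X/√Q₀)`.  If `Q₀ < nm z` then
`nm u₀ < Y/D²`, `|crs(u₀, z)| ≤ √(Y/X)` and `D √X/√Q₀ ≤ √X/√(nm u₀)`: sum over all such `u₀`, PCN on dyadic shells. -/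
def SpecWPC : Prop := ∃ C : ℝ, 0 < C ∧ ∀ (ρ X Y D F : ℝ) (S : Finset Gi) (f : Gi → ℝ),
  1 ≤ ρ → 1 ≤ X → X ≤ Y → 2 ≤ D → 0 ≤ F → S ⊆ disc Y → (∀ z ∈ S, Y / ρ ≤ (nm z : ℝ)) →
  (∀ z ∈ S, |f z| ≤ F) →
    ∑ z ∈ S, f z ^ 2 * (nz X D z : ℝ) ≤
      C * (Real.sqrt ρ * (D * Real.sqrt X / Real.sqrt Y) * ∑ z ∈ S, f z ^ 2 +
        F ^ 2 * Y * (1 + Real.log Y) ^ 2)

namespace WPCM

/-- the quadratic form -/
noncomputable def Q (X D : ℝ) (z u : Gi) : ℝ := D ^ 2 * (nm u : ℝ) + X * (crs u z : ℝ) ^ 2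

theorem crs_cast (x y : Gi) : (crs x y : ℝ) = (x.re : ℝ) * y.im - (x.im : ℝ) * y.re := by
  unfold crs
  push_cast
  ring

theorem Q_mul (X D : ℝ) (z u v : Gi) :
    Q X D z u * Q X D z v - (D ^ 4 + X * D ^ 2 * (nm z : ℝ)) * (crs u v : ℝ) ^ 2 =
      (D ^ 2 * ((u.re : ℝ) * v.re + (u.im : ℝ) * v.im) + X * (crs u z : ℝ) * (crs v z : ℝ)) ^ 2 := by
  unfold Q
  rw [crs_cast, crs_cast, crs_cast, nm_castR, nm_castR, nm_castR]
  ring

theorem Q_nonneg {X D : ℝ} (hX : 0 ≤ X) (z u : Gi) : 0 ≤ Q X D z u := by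
  unfold Q
  positivity

theorem Q_pos {X D : ℝ} (hX : 0 ≤ X) (hD : 0 < D) (z : Gi) {u : Gi} (hu : u ≠ 0) :
    0 < Q X D z u := by
  unfold Q
  have : (0 : ℝ) < nm u := nm_posR hu
  positivity

theorem Q_sub {X D : ℝ} (hX : 0 ≤ X) (z u v : Gi) :
    Q X D z (u - v) ≤ 2 * Q X D z u + 2 * Q X D z v := by
  unfold Q
  rw [crs_cast, crs_cast, crs_cast, nm_castR, nm_castR, nm_castR]
  have h1 : ((u - v).re : ℝ) = (u.re : ℝ) - v.re := by simp
  have h2 : ((u - v).im : ℝ) = (u.im : ℝ) - v.im := by simp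
  rw [h1, h2]
  nlinarith [mul_nonneg (sq_nonneg D) (sq_nonneg ((u.re : ℝ) + v.re)),
    mul_nonneg (sq_nonneg D) (sq_nonneg ((u.im : ℝ) + v.im)),
    mul_nonneg hX (sq_nonneg (((u.re : ℝ) * z.im - (u.im : ℝ) * z.re) +
      ((v.re : ℝ) * z.im - (v.im : ℝ) * z.re)))]

theorem Q_smul (X D : ℝ) (z u : Gi) (j : ℤ) : Q X D z ((j : Gi) * u) = (j : ℝ) ^ 2 * Q X D z u := by
  unfold Q
  rw [crs_cast, crs_cast, nm_castR, nm_castR]
  have h1 : (((j : Gi) * u).re : ℝ) = (j : ℝ) * u.re := by simp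
  have h2 : (((j : Gi) * u).im : ℝ) = (j : ℝ) * u.im := by simp
  rw [h1, h2]
  ring

/-- elements of a line in a primitive direction -/
theorem line {u w : Gi} (hu : prim u) (h : crs u w = 0) : ∃ j : ℤ, w = (j : Gi) * u := by
  have h1 : IsCoprime u.re u.im := Int.isCoprime_iff_gcd_eq_one.2 hu
  obtain ⟨s, t, hst⟩ := h1
  unfold crs at h
  refine ⟨s * w.re + t * w.im, ?_⟩
  have h2 : u.re * w.im = u.im * w.re := by linarith
  apply Zsqrtd.ext
  · simp only [Zsqrtd.re_mul, Zsqrtd.re_intCast, Zsqrtd.im_intCast]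
    calc w.re = (s * u.re + t * u.im) * w.re := by rw [hst, one_mul]
      _ = s * w.re * u.re + t * (u.im * w.re) := by ring
      _ = s * w.re * u.re + t * (u.re * w.im) := by rw [h2]
      _ = _ := by ring
  · simp only [Zsqrtd.im_mul, Zsqrtd.re_intCast, Zsqrtd.im_intCast]
    calc w.im = (s * u.re + t * u.im) * w.im := by rw [hst, one_mul]
      _ = s * (u.re * w.im) + t * w.im * u.im := by ring
      _ = s * (u.im * w.re) + t * w.im * u.im := by rw [h2]
      _ = _ := by ring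


theorem crs_sub (u v w : Gi) : crs u (v - w) = crs u v - crs u w := by
  unfold crs
  simp only [Zsqrtd.re_sub, Zsqrtd.im_sub]
  ring

theorem mem_A {X D : ℝ} {z u : Gi} : u ∈ (disc X).filter (fun u => |(crs u z : ℝ)| ≤ D) ↔
    (u ≠ 0 ∧ (nm u : ℝ) ≤ X) ∧ |(crs u z : ℝ)| ≤ D := by
  rw [mem_filter, mem_disc]

/-- a minimum of `Q` is primitive -/
theorem exists_min {X D : ℝ} (hX : 0 ≤ X) (hD : 0 < D) (z : Gi)
    (hne : ((disc X).filter (fun u => |(crs u z : ℝ)| ≤ D)).Nonempty) :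
    ∃ u ∈ (disc X).filter (fun u => |(crs u z : ℝ)| ≤ D), prim u := by
  obtain ⟨u, hu, hmin⟩ := Finset.exists_min_image _ (Q X D z) hne
  refine ⟨u, hu, ?_⟩
  obtain ⟨⟨hu0, huX⟩, huD⟩ := mem_A.1 hu
  unfold prim
  by_contra hg
  set g : ℕ := Int.gcd u.re u.im with hgd
  have hgpos : 0 < g := by
    rw [hgd, Int.gcd_pos_iff]
    by_contra hc
    push Not at hc
    exact hu0 (by ext <;> simp [hc.1, hc.2])
  have hg2 : 2 ≤ g := by omega
  obtain ⟨a, ha⟩ : (g : ℤ) ∣ u.re := Int.gcd_dvd_left ..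
  obtain ⟨b, hb⟩ : (g : ℤ) ∣ u.im := Int.gcd_dvd_right ..
  have hu1 : u = ((g : ℤ) : Gi) * (⟨a, b⟩ : Gi) := by
    apply Zsqrtd.ext
    · simp [ha]
    · simp [hb]
  have hv0 : (⟨a, b⟩ : Gi) ≠ 0 := by
    intro h
    rw [h, mul_zero] at hu1
    exact hu0 hu1
  have hQ : Q X D z u = ((g : ℤ) : ℝ) ^ 2 * Q X D z ⟨a, b⟩ := by
    conv_lhs => rw [hu1]
    exact Q_smul X D z _ _
  have hgR : (2 : ℝ) ≤ ((g : ℤ) : ℝ) := by exact_mod_cast hg2
  have hg4 : (4 : ℝ) ≤ ((g : ℤ) : ℝ) ^ 2 := by nlinarith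
  have hnm : (nm u : ℝ) = ((g : ℤ) : ℝ) ^ 2 * (nm (⟨a, b⟩ : Gi) : ℝ) := by
    rw [nm_castR, nm_castR]
    conv_lhs => rw [hu1]
    simp
    ring
  have hcr : (crs u z : ℝ) = ((g : ℤ) : ℝ) * (crs (⟨a, b⟩ : Gi) z : ℝ) := by
    rw [crs_cast, crs_cast]
    conv_lhs => rw [hu1]
    simp
    ring
  have hn0 : (0 : ℝ) ≤ nm (⟨a, b⟩ : Gi) := Nat.cast_nonneg _
  have hvA : (⟨a, b⟩ : Gi) ∈ (disc X).filter (fun u => |(crs u z : ℝ)| ≤ D) := by
    refine mem_A.2 ⟨⟨hv0, ?_⟩, ?_⟩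
    · refine le_trans ?_ huX
      rw [hnm]
      nlinarith [mul_nonneg (sub_nonneg.2 hg4) hn0]
    · refine le_trans ?_ huD
      rw [hcr, abs_mul, abs_of_nonneg (by linarith : (0 : ℝ) ≤ ((g : ℤ) : ℝ))]
      nlinarith [abs_nonneg (crs (⟨a, b⟩ : Gi) z : ℝ)]
  have h1 := hmin _ hvA
  have h2 := Q_pos hX hD z hv0
  rw [hQ] at h1
  nlinarith [mul_nonneg (sub_nonneg.2 hg4) h2.le]

/-- the basic count -/
theorem count {X D : ℝ} (hX : 0 < X) (hD : 0 < D) {z : Gi} (hz : z ≠ 0)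
    (hne : ((disc X).filter (fun u => |(crs u z : ℝ)| ≤ D)).Nonempty) :
    ∃ u ∈ (disc X).filter (fun u => |(crs u z : ℝ)| ≤ D),
      (nz X D z : ℝ) ≤ (2 * Real.sqrt (2 * Q X D z u / nm z) + 1) *
        (2 * Real.sqrt (8 * (X * D ^ 2) / Q X D z u) + 1) ∧ Q X D z u ≤ 2 * (X * D ^ 2) := by
  obtain ⟨u0, hu0, hp⟩ := exists_min hX.le hD z hne
  set A := (disc X).filter (fun u => |(crs u z : ℝ)| ≤ D) with hA
  have hQA : ∀ u ∈ A, Q X D z u ≤ 2 * (X * D ^ 2) := by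
    intro u hu
    obtain ⟨⟨_, h1⟩, h2⟩ := mem_A.1 hu
    have h3 : (crs u z : ℝ) ^ 2 ≤ D ^ 2 := sq_le_sq' (by linarith [abs_le.1 h2]) (abs_le.1 h2).2
    unfold Q
    nlinarith [mul_le_mul_of_nonneg_left h1 (sq_nonneg D), mul_le_mul_of_nonneg_left h3 hX.le]
  have hQ0 : 0 < Q X D z u0 := Q_pos hX.le hD z (mem_A.1 hu0).1.1
  have hn : (0 : ℝ) < nm z := nm_posR hz
  refine ⟨u0, hu0, ?_, hQA u0 hu0⟩
  set K : ℕ := ⌊Real.sqrt (2 * Q X D z u0 / nm z)⌋₊ with hK
  set J : ℕ := ⌊Real.sqrt (8 * (X * D ^ 2) / Q X D z u0)⌋₊ with hJ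
  -- the values
  have hval : A.image (fun u => crs u0 u) ⊆ Icc (-(K : ℤ)) K := by
    intro k hk
    obtain ⟨u, hu, rfl⟩ := mem_image.1 hk
    have h1 := Q_mul X D z u0 u
    have h2 : 0 ≤ (D ^ 2 * ((u0.re : ℝ) * u.re + (u0.im : ℝ) * u.im) +
      X * (crs u0 z : ℝ) * (crs u z : ℝ)) ^ 2 := sq_nonneg _
    have h3 : Q X D z u0 * Q X D z u ≤ Q X D z u0 * (2 * (X * D ^ 2)) :=
      mul_le_mul_of_nonneg_left (hQA u hu) hQ0.le
    have h4 : 0 ≤ D ^ 4 * (crs u0 u : ℝ) ^ 2 := by positivity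
    have h5 : (X * D ^ 2) * ((nm z : ℝ) * (crs u0 u : ℝ) ^ 2) ≤ (X * D ^ 2) * (2 * Q X D z u0) := by
      nlinarith
    have h6 : (nm z : ℝ) * (crs u0 u : ℝ) ^ 2 ≤ 2 * Q X D z u0 :=
      le_of_mul_le_mul_left h5 (by positivity)
    have h7 : |(crs u0 u : ℝ)| ≤ Real.sqrt (2 * Q X D z u0 / nm z) := by
      apply Real.abs_le_sqrt
      rw [le_div_iff₀ hn]
      linarith
    have h8 : (crs u0 u).natAbs ≤ K := by
      rw [hK]
      apply Nat.le_floor
      rw [Nat.cast_natAbs]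
      push_cast
      exact h7
    rw [mem_Icc]
    omega
  -- the fibres
  have hfib : ∀ k ∈ A.image (fun u => crs u0 u), (A.filter (fun u => crs u0 u = k)).card ≤
      2 * J + 1 := by
    intro k hk
    obtain ⟨v, hv, hvk⟩ := mem_image.1 hk
    have hsub : A.filter (fun u => crs u0 u = k) ⊆
        (Icc (-(J : ℤ)) J).image (fun j : ℤ => v + (j : Gi) * u0) := by
      intro u hu
      obtain ⟨huA, huk⟩ := mem_filter.1 hu
      have h1 : crs u0 (u - v) = 0 := by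
        rw [crs_sub, huk, hvk, sub_self]
      obtain ⟨j, hj⟩ := line hp h1
      have h2 : (j : ℝ) ^ 2 * Q X D z u0 ≤ 8 * (X * D ^ 2) := by
        rw [← Q_smul, ← hj]
        have := Q_sub (X := X) (D := D) hX.le z u v
        linarith [hQA u huA, hQA v hv]
      have h3 : |(j : ℝ)| ≤ Real.sqrt (8 * (X * D ^ 2) / Q X D z u0) := by
        apply Real.abs_le_sqrt
        rw [le_div_iff₀ hQ0]
        exact h2
      have h4 : j.natAbs ≤ J := by
        rw [hJ]
        apply Nat.le_floor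
        rw [Nat.cast_natAbs]
        push_cast
        exact h3
      refine mem_image.2 ⟨j, mem_Icc.2 ⟨by omega, by omega⟩, ?_⟩
      rw [← hj]
      ring
    refine (card_le_card hsub).trans (card_image_le.trans ?_)
    rw [Int.card_Icc]
    omega
  have h1 : A.card ≤ (2 * J + 1) * (A.image (fun u => crs u0 u)).card :=
    card_le_mul_card_image A (2 * J + 1) hfib
  have h2 : (A.image (fun u => crs u0 u)).card ≤ 2 * K + 1 := by
    refine (card_le_card hval).trans ?_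
    rw [Int.card_Icc]
    omega
  have h3 : A.card ≤ (2 * K + 1) * (2 * J + 1) := by
    refine h1.trans ?_
    rw [mul_comm]
    exact Nat.mul_le_mul_right _ h2
  have h4 : (nz X D z : ℝ) ≤ (2 * (K : ℝ) + 1) * (2 * (J : ℝ) + 1) := by
    have h0 : nz X D z = A.card := rfl
    rw [h0]
    exact_mod_cast h3
  have h5 : (K : ℝ) ≤ Real.sqrt (2 * Q X D z u0 / nm z) := Nat.floor_le (Real.sqrt_nonneg _)
  have h6 : (J : ℝ) ≤ Real.sqrt (8 * (X * D ^ 2) / Q X D z u0) := Nat.floor_le (Real.sqrt_nonneg _)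
  refine h4.trans (mul_le_mul (by linarith) (by linarith) (by positivity) ?_)
  have := Real.sqrt_nonneg (2 * Q X D z u0 / nm z)
  linarith

theorem arith {x s r : ℝ} (hx : 0 < x) (hs : 0 < s) (hr : 0 < r) (hsx : s ^ 2 ≤ 2 * x ^ 2) :
    (2 * (3 / 2 * (s / r)) + 1) * (2 * (3 * (x / s)) + 1) ≤ 24 * (x / r) + 8 * (x / s) := by
  have h1 : s ≤ 3 / 2 * x := by nlinarith
  have h2 : 1 ≤ 3 / 2 * (x / s) := by
    rw [← mul_div_assoc, le_div_iff₀ hs, one_mul]
    exact h1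
  have h3 : 0 ≤ s / r := by positivity
  have h4 : s / r * (x / s) = x / r := by field_simp
  calc (2 * (3 / 2 * (s / r)) + 1) * (2 * (3 * (x / s)) + 1)
      ≤ (2 * (3 / 2 * (s / r)) + 1) * (15 / 2 * (x / s)) :=
        mul_le_mul_of_nonneg_left (by linarith) (by positivity)
    _ = 45 / 2 * (s / r * (x / s)) + 15 / 2 * (x / s) := by ring
    _ = 45 / 2 * (x / r) + 15 / 2 * (x / s) := by rw [h4]
    _ ≤ _ := by
        have : 0 ≤ x / r := by positivity
        have : 0 ≤ x / s := by positivity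
        linarith

/-- one `z` -/
theorem one_z {X Y D : ℝ} (hX : 0 < X) (hD : 0 < D) {z : Gi} (hz : z ≠ 0)
    (hzY : (nm z : ℝ) ≤ Y) :
    (nz X D z : ℝ) ≤ 32 * (D * Real.sqrt X / Real.sqrt (nm z)) +
      ∑ u ∈ (disc (Y / D ^ 2)).filter (fun u => |(crs u z : ℝ)| ≤ Real.sqrt (Y / X)),
        32 * (Real.sqrt X / Real.sqrt (nm u)) := by
  have hn : (0 : ℝ) < nm z := nm_posR hz
  have hnn : 0 ≤ 32 * (D * Real.sqrt X / Real.sqrt (nm z)) := by positivity
  have hsn : 0 ≤ ∑ u ∈ (disc (Y / D ^ 2)).filter (fun u => |(crs u z : ℝ)| ≤ Real.sqrt (Y / X)),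
      32 * (Real.sqrt X / Real.sqrt (nm u)) := sum_nonneg fun u _ => by positivity
  rcases ((disc X).filter (fun u => |(crs u z : ℝ)| ≤ D)).eq_empty_or_nonempty with he | hne
  · have h0 : nz X D z = 0 := by
      unfold nz
      rw [he, card_empty]
    rw [h0]
    push_cast
    linarith
  obtain ⟨u0, hu0, hc, hQ2⟩ := count hX hD hz hne
  obtain ⟨⟨h0, h0X⟩, h0D⟩ := mem_A.1 hu0
  have hQ0 : 0 < Q X D z u0 := Q_pos hX.le hD z h0
  have hnu : (0 : ℝ) < nm u0 := nm_posR h0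
  set s := Real.sqrt (Q X D z u0) with hs
  set r := Real.sqrt (nm z) with hr
  have hs0 : 0 < s := Real.sqrt_pos.2 hQ0
  have hr0 : 0 < r := Real.sqrt_pos.2 hn
  have hss : s ^ 2 = Q X D z u0 := Real.sq_sqrt hQ0.le
  have hrr : r ^ 2 = nm z := Real.sq_sqrt hn.le
  set x := D * Real.sqrt X with hx
  have hx0 : 0 < x := mul_pos hD (Real.sqrt_pos.2 hX)
  have hxx : x ^ 2 = X * D ^ 2 := by
    rw [hx, mul_pow, Real.sq_sqrt hX.le]
    ring
  have e1 : Real.sqrt (2 * Q X D z u0 / nm z) ≤ 3 / 2 * (s / r) := by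
    rw [Real.sqrt_le_left (by positivity), ← hss, ← hrr]
    have : (3 / 2 * (s / r)) ^ 2 = 9 / 4 * (s ^ 2 / r ^ 2) := by ring
    rw [this, mul_div_assoc]
    have : 0 ≤ s ^ 2 / r ^ 2 := by positivity
    linarith
  have e2 : Real.sqrt (8 * (X * D ^ 2) / Q X D z u0) ≤ 3 * (x / s) := by
    rw [Real.sqrt_le_left (by positivity), ← hss, ← hxx]
    have : (3 * (x / s)) ^ 2 = 9 * (x ^ 2 / s ^ 2) := by ring
    rw [this, mul_div_assoc]
    have : 0 ≤ x ^ 2 / s ^ 2 := by positivity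
    linarith
  have e3 : (nz X D z : ℝ) ≤ 24 * (x / r) + 8 * (x / s) := by
    refine hc.trans (le_trans ?_ (arith hx0 hs0 hr0 ?_))
    · refine mul_le_mul (by linarith) (by linarith) ?_ (by positivity)
      have := Real.sqrt_nonneg (8 * (X * D ^ 2) / Q X D z u0)
      linarith
    · rw [hss, hxx]
      exact hQ2
  rcases le_total r s with h | h
  · have : x / s ≤ x / r := div_le_div_of_nonneg_left hx0.le hr0 h
    linarith
  · have h1 : x / r ≤ x / s := div_le_div_of_nonneg_left hx0.le hs0 h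
    have h2 : Q X D z u0 ≤ Y := by
      rw [← hss]
      refine le_trans ?_ hzY
      rw [← hrr]
      exact pow_le_pow_left₀ hs0.le h 2
    have h3 : D ^ 2 * (nm u0 : ℝ) ≤ Q X D z u0 := by
      unfold Q
      have := mul_nonneg hX.le (sq_nonneg (crs u0 z : ℝ))
      linarith
    have h4 : X * (crs u0 z : ℝ) ^ 2 ≤ Q X D z u0 := by
      unfold Q
      have := mul_nonneg (sq_nonneg D) hnu.le
      linarith
    have hD2 : 0 < D ^ 2 := by positivity
    have h5 : u0 ∈ (disc (Y / D ^ 2)).filter (fun u => |(crs u z : ℝ)| ≤ Real.sqrt (Y / X)) := by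
      refine mem_A.2 ⟨⟨h0, ?_⟩, ?_⟩
      · rw [le_div_iff₀ hD2]
        linarith
      · apply Real.abs_le_sqrt
        rw [le_div_iff₀ hX]
        linarith
    have h6 : D * Real.sqrt (nm u0) ≤ s := by
      rw [hs]
      apply Real.le_sqrt_of_sq_le
      rw [mul_pow, Real.sq_sqrt hnu.le]
      exact h3
    have h7 : x / s ≤ Real.sqrt X / Real.sqrt (nm u0) := by
      have hsu : 0 < Real.sqrt (nm u0) := Real.sqrt_pos.2 hnu
      rw [div_le_div_iff₀ hs0 hsu, hx]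
      calc D * Real.sqrt X * Real.sqrt (nm u0) = Real.sqrt X * (D * Real.sqrt (nm u0)) := by ring
        _ ≤ Real.sqrt X * s := mul_le_mul_of_nonneg_left h6 (Real.sqrt_nonneg _)
    have h8 : 32 * (Real.sqrt X / Real.sqrt (nm u0)) ≤
        ∑ u ∈ (disc (Y / D ^ 2)).filter (fun u => |(crs u z : ℝ)| ≤ Real.sqrt (Y / X)),
          32 * (Real.sqrt X / Real.sqrt (nm u)) :=
      single_le_sum (f := fun u : Gi => 32 * (Real.sqrt X / Real.sqrt (nm u)))
        (fun u _ => by positivity) h5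
    linarith

/-- dyadic shells -/
theorem dyadic {w : Gi → ℝ} (hw : ∀ u, 0 ≤ w u) {G Y Z : ℝ} (hG : 0 ≤ G) (hY : 1 ≤ Y)
    (hb : ∀ X' : ℝ, X' ≤ Y → ∑ u ∈ disc X', w u ≤ G * Real.sqrt X') (hZ : 4 * Z ≤ Y) :
    ∑ u ∈ disc Z, w u / Real.sqrt (nm u) ≤ 2 * G * (1 + Real.log Y) := by
  have hlog : 0 ≤ Real.log Y := Real.log_nonneg hY
  rcases lt_or_ge Z 1 with h | h
  · rw [disc_empty h, sum_empty]
    positivity
  have hfl : ⌊Z⌋₊ ≠ 0 := by
    have : 1 ≤ ⌊Z⌋₊ := Nat.le_floor (by simpa using h)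
    omega
  set J := Nat.log 4 ⌊Z⌋₊ with hJ
  have h4J : ((4 : ℝ) ^ J) ≤ Z := by
    have h1 : 4 ^ J ≤ ⌊Z⌋₊ := Nat.pow_log_le_self 4 hfl
    have h2 : ((4 ^ J : ℕ) : ℝ) ≤ Z := le_trans (by exact_mod_cast h1) (Nat.floor_le (by linarith))
    push_cast at h2
    exact h2
  have hmaps : ∀ u ∈ disc Z, Nat.log 4 (nm u) ∈ range (J + 1) := by
    intro u hu
    obtain ⟨_, h1⟩ := mem_disc.1 hu
    rw [mem_range, hJ]
    have h2 : nm u ≤ ⌊Z⌋₊ := Nat.le_floor h1
    have := Nat.log_mono_right (b := 4) h2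
    omega
  rw [← sum_fiberwise_of_maps_to hmaps]
  have hj : ∀ j ∈ range (J + 1),
      ∑ u ∈ (disc Z).filter (fun u => Nat.log 4 (nm u) = j), w u / Real.sqrt (nm u) ≤ 2 * G := by
    intro j hj
    have hjJ : j ≤ J := by
      rw [mem_range] at hj
      omega
    have h2j : (0 : ℝ) < 2 ^ j := by positivity
    have hle : ((4 : ℝ) ^ (j + 1)) ≤ Y := by
      have : ((4 : ℝ) ^ j) ≤ 4 ^ J := pow_le_pow_right₀ (by norm_num) hjJ
      rw [pow_succ]
      linarith
    calc ∑ u ∈ (disc Z).filter (fun u => Nat.log 4 (nm u) = j), w u / Real.sqrt (nm u)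
        ≤ ∑ u ∈ (disc Z).filter (fun u => Nat.log 4 (nm u) = j), w u * (1 / 2 ^ j) := by
          refine sum_le_sum fun u hu => ?_
          obtain ⟨hu1, hu2⟩ := mem_filter.1 hu
          obtain ⟨hu0, _⟩ := mem_disc.1 hu1
          have hn0 : nm u ≠ 0 := by
            have := nm_posR hu0
            intro h0
            rw [h0] at this
            simp at this
          have h1 : 4 ^ j ≤ nm u := by
            rw [← hu2]
            exact Nat.pow_log_le_self 4 hn0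
          have h2 : (2 : ℝ) ^ j ≤ Real.sqrt (nm u) := by
            apply Real.le_sqrt_of_sq_le
            have h3 : ((2 : ℝ) ^ j) ^ 2 = ((4 ^ j : ℕ) : ℝ) := by
              push_cast
              rw [← pow_mul, mul_comm j 2, pow_mul]
              norm_num
            rw [h3]
            exact_mod_cast h1
          rw [div_eq_mul_one_div]
          exact mul_le_mul_of_nonneg_left (one_div_le_one_div_of_le h2j h2) (hw u)
      _ ≤ ∑ u ∈ disc ((4 : ℝ) ^ (j + 1)), w u * (1 / 2 ^ j) := by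
          refine sum_le_sum_of_subset_of_nonneg ?_ (fun u _ _ => by
            have := hw u
            positivity)
          intro u hu
          obtain ⟨hu1, hu2⟩ := mem_filter.1 hu
          obtain ⟨hu0, _⟩ := mem_disc.1 hu1
          refine mem_disc.2 ⟨hu0, ?_⟩
          have h1 : nm u < 4 ^ (Nat.log 4 (nm u) + 1) := Nat.lt_pow_succ_log_self (by norm_num) _
          rw [hu2] at h1
          have h2 : ((nm u : ℕ) : ℝ) ≤ ((4 ^ (j + 1) : ℕ) : ℝ) := by exact_mod_cast h1.le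
          push_cast at h2
          exact h2
      _ = (∑ u ∈ disc ((4 : ℝ) ^ (j + 1)), w u) * (1 / 2 ^ j) := by rw [sum_mul]
      _ ≤ (G * Real.sqrt ((4 : ℝ) ^ (j + 1))) * (1 / 2 ^ j) :=
          mul_le_mul_of_nonneg_right (hb _ hle) (by positivity)
      _ = 2 * G := by
          have h1 : Real.sqrt ((4 : ℝ) ^ (j + 1)) = 2 ^ (j + 1) := by
            rw [show (4 : ℝ) ^ (j + 1) = ((2 : ℝ) ^ (j + 1)) ^ 2 by
              rw [← pow_mul, mul_comm (j + 1) 2, pow_mul]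
              norm_num]
            exact Real.sqrt_sq (by positivity)
          rw [h1, pow_succ]
          field_simp
  refine (sum_le_sum hj).trans ?_
  rw [sum_const, card_range, nsmul_eq_mul]
  have hJl : (J : ℝ) ≤ Real.log Y := by
    have h1 : (J : ℝ) * Real.log 4 ≤ Real.log Y := by
      rw [← Real.log_pow]
      exact Real.log_le_log (by positivity) (by linarith)
    have h2 : (1 : ℝ) ≤ Real.log 4 := by
      rw [Real.le_log_iff_exp_le (by norm_num)]
      have := Real.exp_one_lt_d9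
      linarith
    have h3 : (J : ℝ) * 1 ≤ (J : ℝ) * Real.log 4 := mul_le_mul_of_nonneg_left h2 (Nat.cast_nonneg _)
    linarith
  push_cast
  nlinarith

end WPCM

/-- Weighted count of pairs near a line. -/
theorem specWPC (hP : SpecPCN) : SpecWPC := by
  obtain ⟨C, hC, hP⟩ := hP
  refine ⟨128 * C + 32, by positivity, fun ρ X Y D F S f hρ hX hXY hD hF hS hSY hf => ?_⟩
  have hY : 1 ≤ Y := hX.trans hXY
  have hY0 : 0 < Y := by linarith
  have hX0 : 0 < X := by linarith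
  have hD0 : 0 < D := by linarith
  have hlog : 0 ≤ Real.log Y := Real.log_nonneg hY
  have hsX : 0 < Real.sqrt X := Real.sqrt_pos.2 hX0
  have hsY : 0 < Real.sqrt Y := Real.sqrt_pos.2 hY0
  have hsρ : 0 < Real.sqrt ρ := Real.sqrt_pos.2 (by linarith)
  set D' := Real.sqrt (Y / X) with hD'
  have hD'0 : 0 ≤ D' := Real.sqrt_nonneg _
  -- first part
  have h1 : ∀ z ∈ S, f z ^ 2 * (nz X D z : ℝ) ≤
      32 * (Real.sqrt ρ * (D * Real.sqrt X / Real.sqrt Y)) * f z ^ 2 +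
      F ^ 2 * ∑ u ∈ (disc (Y / D ^ 2)).filter (fun u => |(crs u z : ℝ)| ≤ D'),
        32 * (Real.sqrt X / Real.sqrt (nm u)) := by
    intro z hz
    obtain ⟨hz0, hzY⟩ := mem_disc.1 (hS hz)
    have hn : (0 : ℝ) < nm z := nm_posR hz0
    have h2 := WPCM.one_z (D := D) hX0 hD0 hz0 hzY
    have h3 : D * Real.sqrt X / Real.sqrt (nm z) ≤ Real.sqrt ρ * (D * Real.sqrt X / Real.sqrt Y) := by
      have h4 : Real.sqrt Y ≤ Real.sqrt ρ * Real.sqrt (nm z) := by
        rw [← Real.sqrt_mul (by linarith)]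
        apply Real.sqrt_le_sqrt
        have := hSY z hz
        rw [div_le_iff₀ (by linarith)] at this
        linarith
      have hsn : 0 < Real.sqrt (nm z) := Real.sqrt_pos.2 hn
      rw [← mul_div_assoc, div_le_div_iff₀ hsn hsY]
      calc D * Real.sqrt X * Real.sqrt Y ≤ D * Real.sqrt X * (Real.sqrt ρ * Real.sqrt (nm z)) :=
            mul_le_mul_of_nonneg_left h4 (by positivity)
        _ = _ := by ring
    have h5 : f z ^ 2 ≤ F ^ 2 := sq_le_sq' (by linarith [abs_le.1 (hf z hz)]) (abs_le.1 (hf z hz)).2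
    have h6 : 0 ≤ ∑ u ∈ (disc (Y / D ^ 2)).filter (fun u => |(crs u z : ℝ)| ≤ D'),
        32 * (Real.sqrt X / Real.sqrt (nm u)) := sum_nonneg fun u _ => by positivity
    calc f z ^ 2 * (nz X D z : ℝ)
        ≤ f z ^ 2 * (32 * (D * Real.sqrt X / Real.sqrt (nm z)) +
          ∑ u ∈ (disc (Y / D ^ 2)).filter (fun u => |(crs u z : ℝ)| ≤ D'),
            32 * (Real.sqrt X / Real.sqrt (nm u))) := mul_le_mul_of_nonneg_left h2 (sq_nonneg _)
      _ ≤ f z ^ 2 * (32 * (Real.sqrt ρ * (D * Real.sqrt X / Real.sqrt Y))) +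
          f z ^ 2 * ∑ u ∈ (disc (Y / D ^ 2)).filter (fun u => |(crs u z : ℝ)| ≤ D'),
            32 * (Real.sqrt X / Real.sqrt (nm u)) := by
          rw [mul_add]
          have := mul_le_mul_of_nonneg_left h3 (sq_nonneg (f z))
          nlinarith
      _ ≤ _ := by
          have := mul_le_mul_of_nonneg_right h5 h6
          linarith
  refine (sum_le_sum h1).trans ?_
  rw [sum_add_distrib, ← mul_sum, ← mul_sum]
  -- second part
  have h2 : ∑ z ∈ S, ∑ u ∈ (disc (Y / D ^ 2)).filter (fun u => |(crs u z : ℝ)| ≤ D'),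
      32 * (Real.sqrt X / Real.sqrt (nm u)) ≤ 128 * C * Y * (1 + Real.log Y) ^ 2 := by
    have hw : ∑ z ∈ S, ∑ u ∈ (disc (Y / D ^ 2)).filter (fun u => |(crs u z : ℝ)| ≤ D'),
        32 * (Real.sqrt X / Real.sqrt (nm u)) ≤
        ∑ z ∈ disc Y, ∑ u ∈ (disc (Y / D ^ 2)).filter (fun u => |(crs u z : ℝ)| ≤ D'),
          32 * (Real.sqrt X / Real.sqrt (nm u)) :=
      sum_le_sum_of_subset_of_nonneg hS fun z _ _ => sum_nonneg fun u _ => by positivity
    refine hw.trans ?_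
    have he : ∑ z ∈ disc Y, ∑ u ∈ (disc (Y / D ^ 2)).filter (fun u => |(crs u z : ℝ)| ≤ D'),
          32 * (Real.sqrt X / Real.sqrt (nm u)) =
        32 * Real.sqrt X * ∑ u ∈ disc (Y / D ^ 2),
          (((disc Y).filter (fun z => |(crs u z : ℝ)| ≤ D')).card : ℝ) / Real.sqrt (nm u) := by
      simp only [sum_filter]
      rw [sum_comm, mul_sum]
      refine sum_congr rfl fun u _ => ?_
      rw [← sum_filter, sum_const, nsmul_eq_mul]
      ring
    rw [he]
    have hdy := WPCM.dyadic (w := fun u => (((disc Y).filter (fun z => |(crs u z : ℝ)| ≤ D')).card : ℝ))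
      (fun u => Nat.cast_nonneg _) (G := C * (D' + 1) * Real.sqrt Y * (1 + Real.log Y)) (Y := Y)
      (Z := Y / D ^ 2) (by positivity) hY (fun X' hX' => ?_) ?_
    · calc 32 * Real.sqrt X * ∑ u ∈ disc (Y / D ^ 2),
            (((disc Y).filter (fun z => |(crs u z : ℝ)| ≤ D')).card : ℝ) / Real.sqrt (nm u)
          ≤ 32 * Real.sqrt X * (2 * (C * (D' + 1) * Real.sqrt Y * (1 + Real.log Y)) *
            (1 + Real.log Y)) := mul_le_mul_of_nonneg_left hdy (by positivity)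
        _ = 64 * C * (Real.sqrt Y * (Real.sqrt X * D' + Real.sqrt X)) * (1 + Real.log Y) ^ 2 := by ring
        _ ≤ 64 * C * (2 * Y) * (1 + Real.log Y) ^ 2 := by
            have h3 : Real.sqrt X * D' = Real.sqrt Y := by
              rw [hD', ← Real.sqrt_mul hX0.le]
              congr 1
              field_simp
            have h4 : Real.sqrt X ≤ Real.sqrt Y := Real.sqrt_le_sqrt hXY
            have h5 : Real.sqrt Y * (Real.sqrt X * D' + Real.sqrt X) ≤ 2 * Y := by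
              rw [h3]
              nlinarith [Real.mul_self_sqrt hY0.le]
            gcongr
        _ = _ := by ring
    · have hp := hP X' Y D' hX' hY hD'0
      rw [XV.PCNM.pcn_eq] at hp
      rcases lt_or_ge X' 0 with h0 | h0
      · rw [disc_empty (by linarith), sum_empty]
        positivity
      refine hp.trans (le_of_eq ?_)
      rw [Real.sqrt_mul h0]
      ring
    · rw [mul_div_assoc', div_le_iff₀ (by positivity)]
      have hD4 : 4 ≤ D ^ 2 := by nlinarith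
      nlinarith [mul_le_mul_of_nonneg_left hD4 hY0.le]
  have h3 : F ^ 2 * ∑ z ∈ S, ∑ u ∈ (disc (Y / D ^ 2)).filter (fun u => |(crs u z : ℝ)| ≤ D'),
      32 * (Real.sqrt X / Real.sqrt (nm u)) ≤ F ^ 2 * (128 * C * Y * (1 + Real.log Y) ^ 2) :=
    mul_le_mul_of_nonneg_left h2 (sq_nonneg _)
  have h4 : 0 ≤ Real.sqrt ρ * (D * Real.sqrt X / Real.sqrt Y) * ∑ z ∈ S, f z ^ 2 := by
    have : 0 ≤ ∑ z ∈ S, f z ^ 2 := sum_nonneg fun z _ => sq_nonneg _
    positivity
  have h5 : 0 ≤ F ^ 2 * Y * (1 + Real.log Y) ^ 2 := by positivity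
  nlinarith

end Pool.Agent.Lib.MP391708.X3
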