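import Pool.Agent.Lib.MP_391708_nt.X.VM
import Pool.Agent.Lib.MP_391708_nt.X3.WPC

/-!
# Theorem X for `k = 3` (MP_391708), part V: the variance inequality with a mean square

The same as `XV.SpecVAR` (file `X/SpecVAR.lean`, proved in `X/VM.lean`), but in the terms which do not become small
with `cw`, `aF`, `cP`, `cT`, `cB` (small `t`, radial cells) the sup bound `F ^ 2` is replaced by a MEAN SQUARE bound `G`;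
`F` is still a bound for the sup norm, and enters only with factors `T1 / B`, `1 / w`, `√(K/Y)`, and in the terms with `#I #J`.

Modules: file `X3/V/XXX.lean`, `import Pool.Agent.Lib.MP_391708_nt.X3.SpecV`, namespace
`Pool.Agent.Lib.MP391708.XV3`, own lemmas in the namespace `XXXM` (not `LINM` etc. of `XV`: they live in the namespace
`XV` and may be used: `XV.LINM.W_ge`, `XV.BXSM.quo`, ..), `theorem specXXX (hYYY : SpecYYY) .. : SpecXXX`.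
-/

set_option autoImplicit false

namespace Pool.Agent.Lib.MP391708.XV3

open Finset Filter Topology Pool.Agent.Lib.MP391708.MR
open Pool.Agent.Lib.MP391708.XV (md crs om1 om2 ls pos VT ncc TT EE ph hat atyp mc ms SU fU Par)
open Pool.Agent.Lib.MP391708.X3 (nz SpecWPC)
open scoped ComplexConjugate

/-- LIN3.  PROOF.  Copy of `XV.specLIN`: only the last step (`XV.LINM.diag`) changes.  The diagonal terms are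
`∑_{z1 ∈ disc (2 κ K)} om1 κ (nm z1 / K) ∑_{z ∈ S, Re (z1 z) > 0} ‖f z‖² om2 ((z1 z).im / B)`, with `0 ≤ om1 ≤ 1`,
`0 ≤ om2 ≤ 2 * [|(z1 z).im| ≤ 4 B]`; exchange the sums: for fixed `z` the number of the `z1 ∈ disc (2 κ K)` with
`|(z1 z).im| ≤ 4 B` is `nz (2 κ K) (4 B) z` (`u = star z1`, `(z1 z).im = crs (star z1) z`). -/
def SpecLIN3 : Prop := ∀ (κ K B Y : ℝ) (T1 : ℕ) (Z S : Finset Gi) (f : Gi → ℂ),
  1 ≤ κ → 0 < K → 0 < B → 8 * Y ≤ (T1 : ℝ) ^ 2 * K →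
  (∀ z ∈ Z, prim z ∧ K ≤ (nm z : ℝ) ∧ (nm z : ℝ) ≤ κ * K) → S ⊆ disc Y →
    ∑ z1 ∈ Z, ∑ b ∈ Ioc ⌊B⌋ ⌊2 * B⌋, ‖ls S f z1 b‖ ^ 2 ≤
      2 * ∑ z ∈ S, ‖f z‖ ^ 2 * (nz (2 * κ * K) (4 * B) z : ℝ) + 2 * ∑ t ∈ Icc 1 T1, VT κ K B t S f

/-- SML3.  PROOF.  As `XV.specSML`: the pairs `(z, z')` with nonzero kernel (`≤ 2`) have `z' - z = t * u`, `u ∈ disc (2 κ K)`,
`|crs u z| ≤ 4 B`, and `crs u z' = crs u z` (`crs u u = 0`).  `2 ‖f z‖ ‖f z'‖ ≤ ‖f z‖² + ‖f z'‖²`; the sum of `‖f z‖²` over the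
pairs is at most `∑_z ‖f z‖² nz z` (`(z, z') ↦ (z, u)` is injective), the sum of `‖f z'‖²` too (`(z, z') ↦ (z', u)`). -/
def SpecSML3 : Prop := ∀ (κ K B Y : ℝ) (t : ℕ) (S : Finset Gi) (f : Gi → ℂ),
  1 ≤ κ → 0 < K → 0 < B → 1 ≤ t → S ⊆ disc Y →
    |VT κ K B t S f| ≤ 2 * ∑ z ∈ S, ‖f z‖ ^ 2 * (nz (2 * κ * K) (4 * B) z : ℝ)

/-- BXS3 (from XV.SpecKER, XV.SpecEXB: both are proved, `XV.specKER`, `XV.specEXB`).  PROOF.  Copy of `XV.specBXS`; only the estimate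
of the error `Er` changes.  With `G z = ∑_β ‖g_β z‖` it is at most `EE * ∑ G(z) G(z')` over the pairs of elements of `S` with
`t ∣ z' - z`, `|crs z' z| ≤ 8 t B`; `G(z) G(z') ≤ (G(z)² + G(z')²) / 2`, and the condition is symmetric, so it is at most
`EE * ∑_z G(z)² #{z'}`; `z' = z` gives `1`, the `z' ≠ z` are `z + t u` with `u ∈ disc (4 Y / t²)`, `|crs u z| ≤ 8 B`. -/
def SpecBXS3 : Prop := ∀ (κ ρ η Y K B F : ℝ) (t : ℕ) (ι : Type) (I : Finset ι) (L : ι → ℝ)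
  (S : Finset Gi) (g : ι → Gi → ℂ),
  1 ≤ κ → 1 ≤ ρ → 0 ≤ η → η ≤ 1 / 2 → 0 < K → 0 < B → 1 ≤ t → 0 < Y → 32 * ρ * t * B ≤ Y →
  0 ≤ F → S ⊆ disc Y → (∀ β ∈ I, Y / ρ ≤ L β ∧ Real.exp η * L β ≤ Y) →
  (∀ β ∈ I, ∀ z ∈ S, g β z ≠ 0 → L β ≤ (nm z : ℝ) ∧ (nm z : ℝ) ≤ Real.exp η * L β) →
  (∀ z ∈ S, ∑ β ∈ I, ‖g β z‖ ≤ F) →
    |VT κ K B t S (fun z => ∑ β ∈ I, g β z)| ≤
      4 * ∑ β ∈ I, ∑ β' ∈ I, TT t (4 * t * B / Real.sqrt (L β * L β')) S (g β) +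
      EE ρ η Y K B t * (∑ z ∈ S, (∑ β ∈ I, ‖g β z‖) ^ 2 *
        (1 + (nz (4 * Y / (t : ℝ) ^ 2) (8 * B) z : ℝ))) +
      F ^ 2 * (2 * ncc t (2 * κ * K) (4 * B) S)

/-- the sum of the absolute values of the `h j` at `z` -/
noncomputable def HH (J : Finset ℕ) (S : ℕ → Finset Gi) (h : ℕ → Gi → ℂ) (z : Gi) : ℝ := by
  classical exact ∑ j ∈ J, (if z ∈ S j then ‖h j z‖ else 0)

/-- HTM3.  PROOF.  Let `P = ⋃ P i` (disjoint), `H = HH J S h`.  As in `XV.specHTM` (2): the double sum `G(z)` is at most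
`∑_{p ∈ P, p ∣ z} H(z / p)` (for given `p` there is at most one `w` with `p w = z`), and at most `1 + log Y` elements of `P`
divide `z`.  By Cauchy–Schwarz `G(z)² ≤ (1 + log Y) ∑_{p ∣ z} H(z / p)²`, and the sum over `z ∈ T` of the last sum is at most
`∑_{p ∈ P} ∑_w H(w)²`, `w ∈ W` (outside of `W` `H = 0`; `(p, w) ↦ p w`). -/
def SpecHTM3 : Prop := ∀ (Y : ℝ) (I J : Finset ℕ) (P S : ℕ → Finset Gi) (h : ℕ → Gi → ℂ)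
  (T W : Finset Gi), 1 ≤ Y → (∀ i ∈ I, P i ⊆ GP 0 Y) →
  (∀ i ∈ I, ∀ i' ∈ I, i ≠ i' → Disjoint (P i) (P i')) → T ⊆ disc Y → (∀ j ∈ J, S j ⊆ W) →
    ∑ z ∈ T, (∑ i ∈ I, ∑ j ∈ J, ‖mc (P i) (S j) (h j) z‖) ^ 2 ≤
      (1 + Real.log Y) * ((∑ i ∈ I, ((P i).card : ℝ)) * ∑ w ∈ W, HH J S h w ^ 2)

/-- hypotheses of the variance inequality with a mean square -/
structure Par3 (κ ρ K Y B η w M F G : ℝ) (T0 T1 Km : ℕ) (I J : Finset ℕ) (L : ℕ → ℕ → ℝ)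
    (P S : ℕ → Finset Gi) (h : ℕ → Gi → ℂ) : Prop where
  par : Par κ ρ K Y B η w M F T0 T1 Km I J L P S h
  hG0 : 0 ≤ G
  hG : (∑ i ∈ I, ((P i).card : ℝ)) * ∑ z ∈ disc M, HH J S h z ^ 2 ≤ G * Y

/-- FNA3 (from BXS3, HTM3, X3.WPC, XV.SpecTTB, XV.SpecPNC, XV.SpecPCN, XV.SpecNCS, XV.SpecHTM; the XV ones are proved).
PROOF.  Copy of `XV.specFNA`; only the error term (1) changes.  `ell = 1 + log Y`, `g(z) = ∑_(i,j) ‖mc .. z‖`: by HTM3 (`T = SU`,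
`W = disc M`) and `Par3` `∑_{z ∈ SU} g² ≤ ell G Y`.  WPC with `X = 4 Y / t²` (if `X < 1` then `disc X = ∅`, `nz = 0`; `X ≤ Y` since
`t ≥ 2`), `D = 8 B`, `f = g`, `F' = F ell` (`nm z ≥ Y / ρ` on `SU` by `hL`, `hL'`): `√X / √Y = 2 / t`, so
`∑ g² (1 + nz) ≤ ell G Y + C (√ρ (16 B / t) ell G Y + F² ell² Y ell²)`, i.e. at most `C' ell⁴ (G (Y + B Y / t) + F² Y)`. -/
def SpecFNA3 : Prop := ∀ κ ρ : ℝ, 1 ≤ κ → 1 ≤ ρ → ∃ C : ℝ, 0 < C ∧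
  ∀ (K Y B η w M F G τ : ℝ) (T0 T1 Km : ℕ) (I J : Finset ℕ) (L : ℕ → ℕ → ℝ)
    (P S : ℕ → Finset Gi) (h : ℕ → Gi → ℂ) (t : ℕ),
    Par3 κ ρ K Y B η w M F G T0 T1 Km I J L P S h → 0 ≤ τ → T0 < t → t ≤ T1 →
    |VT κ K B t (SU I J P S) (fU I J P S h)| ≤
      C * (1 + Real.log Y) ^ 4 *
        ((η * (Y / ((t : ℝ) ^ 2 * K) + 1) + (t * B / Y) ^ 2 + B ^ 2 / (K * Y)) *
            (G * (Y + B * Y / t) + F ^ 2 * Y) +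
          F ^ 2 * ((B * Real.sqrt (K * Y) / w + B * K + Real.sqrt (K * Y)) +
          ((I.card : ℝ) * J.card) ^ 2 * (τ ^ 2 * (M + B * M ^ 2 / (Y * t)) +
            Y / (t * B * Km) * (Y + B * Y / t)))) +
      C * ((I.card : ℝ) * J.card) * (B / Y) * ((t : ℝ) / ph t) *
        ∑ i ∈ I, ∑ j ∈ J, ∑ q ∈ atyp t Km τ (P i),
          ‖hat t q.1 q.2 (P i) (fun _ => 1)‖ ^ 2 * ‖hat t q.1 q.2 (S j) (h j)‖ ^ 2

/-- VAR3 (from LIN3, SML3, X3.WPC, HTM3, XV.SpecHTM, FNA3): THE VARIANCE INEQUALITY.  PROOF.  Copy of `XV.specVAR`.  LIN3 and SML3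
with `S = SU`, `‖fU z‖ ≤ g(z)`, and WPC with `X = 2 κ K` (`1 ≤ X ≤ Y`), `D = 4 B`, `F' = F ell`: `∑_{z ∈ SU} g² nz ≤`
`C (√ρ 4 B √(2 κ K / Y) ell G Y + F² ell⁴ Y) ≤ C' ell⁴ B Y (G √(K / Y) + F² / B)`; this is used `2 + 4 T0 ≤ 6 T0` times, and
`T0 / B ≤ T1 / B`.  The sum over `t` of FNA3, with `E = η (Y / (T0² K) + 1) + 17 B² / (K Y)`:
`∑ E (G (Y + B Y / t) + F² Y) ≤ E (G 2 B Y ell + F² T1 Y)` (`T1 ≤ B`), where in the second term `E ≤ 1 + Y / (T0² K)` is enough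
(`B² / (K Y) ≤ 1 / 8192` by `hBY`, `hT1`), `T1 B √(K Y) / w ≤ 4 B Y / w`, `T1 B K ≤ 4 B Y √(K / Y)`, `T1 √(K Y) ≤ 4 Y`,
and the terms with `#I #J` as in `XV.specVAR`. -/
def SpecVAR3 : Prop := ∀ κ ρ : ℝ, 1 ≤ κ → 1 ≤ ρ → ∃ C : ℝ, 0 < C ∧
  ∀ (K Y B η w M F G τ : ℝ) (T0 T1 Km : ℕ) (I J : Finset ℕ) (L : ℕ → ℕ → ℝ)
    (P S : ℕ → Finset Gi) (h : ℕ → Gi → ℂ) (Z : Finset Gi),
    Par3 κ ρ K Y B η w M F G T0 T1 Km I J L P S h → 0 ≤ τ →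
    (∀ z ∈ Z, prim z ∧ K ≤ (nm z : ℝ) ∧ (nm z : ℝ) ≤ κ * K) →
    ∑ z1 ∈ Z, ∑ b ∈ Ioc ⌊B⌋ ⌊2 * B⌋, ‖∑ i ∈ I, ∑ j ∈ J, ∑ p ∈ P i,
        ∑ z ∈ (S j).filter (fun z => (z1 * (p * z)).im = b ∧ 0 < (z1 * (p * z)).re), h j z‖ ^ 2 ≤
      C * (1 + Real.log Y) ^ 5 * (B * Y) *
        (G * (T0 * Real.sqrt (K / Y) + η * (Y / ((T0 : ℝ) ^ 2 * K) + 1) + B ^ 2 / (K * Y)) +
          F ^ 2 * (T1 / B * (1 + Y / ((T0 : ℝ) ^ 2 * K)) + 1 / w + Real.sqrt (K / Y) +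
            ((I.card : ℝ) * J.card) ^ 2 * (τ ^ 2 * (T1 * M / (B * Y) + (M / Y) ^ 2) +
              Y / (B * Km) * (1 / B + 1 / T0)))) +
      C * ((I.card : ℝ) * J.card) * (B / Y) * ∑ t ∈ Ioc T0 T1, ((t : ℝ) / ph t) *
        ∑ i ∈ I, ∑ j ∈ J, ∑ q ∈ atyp t Km τ (P i),
          ‖hat t q.1 q.2 (P i) (fun _ => 1)‖ ^ 2 * ‖hat t q.1 q.2 (S j) (h j)‖ ^ 2

end Pool.Agent.Lib.MP391708.XV3
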