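import Pool.Agent.Lib.MP_391708_nt.X3.SpecVB
import Pool.Agent.Lib.MP_391708_nt.X.LGD

/-!
# THEOREM X3 (MP_391708), part VB, module LGN: the logarithm of the norm as a sum over prime powers
-/

set_option autoImplicit false

namespace Pool.Agent.Lib.MP391708.XB3

open Finset Filter Topology Pool.Agent.Lib.MP391708.MR
open Pool.Agent.Lib.MP391708.X (ChiG hk Dist Fam PI)
open scoped ComplexConjugate

namespace LGNM

open Pool.Agent.Lib.MP391708.X.LGDM

open scoped Classical in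
/-- the sum over the prime powers dividing `m` -/
noncomputable def SS (x : ℝ) (L : ℕ) (m : Gi) : ℝ :=
  ∑ π ∈ PI x, ∑ k ∈ Icc 1 L, (if π ^ k ∣ m then Real.log (nm π) else 0)

lemma two_le {π : Gi} (h : Prime π) : 2 ≤ nm π := by
  have h1 := nm_pos h.ne_zero
  have h2 : nm π ≠ 1 := fun h3 => h.not_unit (isUnit_iff_nm.2 h3)
  omega

lemma nm_pow (π : Gi) (k : ℕ) : nm (π ^ k) = nm π ^ k := by
  induction k with
  | zero => simp
  | succ k ih => rw [pow_succ, nm_mul, ih, pow_succ]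

lemma one_prime {x : ℝ} {L : ℕ} {π₀ m' : Gi} (h0 : π₀ ∈ PI x) (hm : m' ≠ 0)
    (hx : (nm (π₀ * m') : ℝ) ≤ x) (hL : x < 2 ^ (L + 1)) (l : ℝ) :
    ∑ k ∈ Icc 1 L, (open scoped Classical in if π₀ ^ k ∣ π₀ * m' then l else 0) =
      l + ∑ k ∈ Icc 1 L, (open scoped Classical in if π₀ ^ k ∣ m' then l else 0) := by
  classical
  have hp := (mem_PI.1 h0).2.1
  have hI : ∀ f : ℕ → ℝ, ∑ k ∈ Icc 1 L, f k = ∑ j ∈ range L, f (j + 1) := by
    intro f
    have : Icc 1 L = Ico 1 (L + 1) := by ext a; simp only [mem_Icc, mem_Ico]; omega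
    rw [this, Finset.sum_Ico_eq_sum_range]
    simp only [Nat.add_sub_cancel]
    exact Finset.sum_congr rfl fun j _ => by rw [add_comm]
  rw [hI, hI]
  set a : ℕ → ℝ := fun j => if π₀ ^ j ∣ m' then l else 0 with ha
  have e1 : ∀ j, (if π₀ ^ (j + 1) ∣ π₀ * m' then l else 0) = a j := by
    intro j
    have : π₀ ^ (j + 1) ∣ π₀ * m' ↔ π₀ ^ j ∣ m' := by
      rw [pow_succ', mul_dvd_mul_iff_left hp.ne_zero]
    rw [ha]
    simp only [this]
  have e2 : a L = 0 := by
    rw [ha]
    simp only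
    rw [if_neg]
    intro hd
    have h1 := Nat.le_of_dvd (nm_pos hm) (nm_dvd hd)
    rw [nm_pow] at h1
    have h2 : 2 ^ L ≤ nm π₀ ^ L := Nat.pow_le_pow_left (two_le hp) L
    have h3 : 2 ^ (L + 1) ≤ nm (π₀ * m') := by
      rw [nm_mul, pow_succ, mul_comm]
      exact Nat.mul_le_mul (two_le hp) (h2.trans h1)
    have h4 : (2 : ℝ) ^ (L + 1) ≤ (nm (π₀ * m') : ℝ) := by exact_mod_cast h3
    linarith
  have e3 : a 0 = l := by rw [ha]; simp
  have e4 := Finset.sum_range_succ a L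
  have e5 := Finset.sum_range_succ' a L
  rw [e4, e2, e3] at e5
  calc ∑ j ∈ range L, (if π₀ ^ (j + 1) ∣ π₀ * m' then l else 0) = ∑ j ∈ range L, a j :=
        Finset.sum_congr rfl fun j _ => e1 j
    _ = l + ∑ j ∈ range L, a (j + 1) := by linarith

lemma step {x : ℝ} {L : ℕ} {π₀ m' : Gi} (h0 : π₀ ∈ PI x) (hm : m' ≠ 0)
    (hx : (nm (π₀ * m') : ℝ) ≤ x) (hL : x < 2 ^ (L + 1)) :
    SS x L (π₀ * m') = Real.log (nm π₀) + SS x L m' := by
  classical
  have e1 : ∀ π ∈ PI x, ∑ k ∈ Icc 1 L, (if π ^ k ∣ π₀ * m' then Real.log (nm π) else 0) =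
      (if π = π₀ then Real.log (nm π₀) else 0) +
        ∑ k ∈ Icc 1 L, (if π ^ k ∣ m' then Real.log (nm π) else 0) := by
    intro π hπ
    by_cases h : π = π₀
    · subst h
      rw [if_pos rfl]
      exact one_prime h0 hm hx hL _
    · rw [if_neg h, zero_add]
      refine Finset.sum_congr rfl fun k _ => ?_
      have h1 := mem_PI.1 hπ
      have h2 := mem_PI.1 h0
      have hco : IsCoprime π π₀ := by
        rw [Irreducible.coprime_iff_not_dvd h1.2.1.irreducible]
        intro hd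
        have h3 : Associated π π₀ := (Prime.dvd_prime_iff_associated h1.2.1 h2.2.1).1 hd
        exact h (assoc_eq h3 h1.2.2.1 h1.2.2.2 h2.2.2.1 h2.2.2.2)
      have h4 : π ^ k ∣ π₀ * m' ↔ π ^ k ∣ m' :=
        ⟨fun h5 => (hco.pow_left (m := k)).dvd_of_dvd_mul_left h5, fun h5 => h5.mul_left _⟩
      simp only [h4]
  unfold SS
  rw [Finset.sum_congr rfl e1, Finset.sum_add_distrib, Finset.sum_ite_eq', if_pos h0]

lemma main (x : ℝ) (L : ℕ) (hL : x < 2 ^ (L + 1)) : ∀ (n : ℕ) (m : Gi), nm m = n → m ≠ 0 → (nm m : ℝ) ≤ x →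
    SS x L m = Real.log (nm m) := by
  classical
  intro n
  induction n using Nat.strong_induction_on with
  | _ n ih =>
    intro m hn hm hx
    by_cases hu : IsUnit m
    · rw [isUnit_iff_nm.1 hu]
      simp only [Nat.cast_one, Real.log_one]
      unfold SS
      refine Finset.sum_eq_zero fun π hπ => Finset.sum_eq_zero fun k hk => ?_
      rw [if_neg]
      intro hd
      have hp := (mem_PI.1 hπ).2.1
      refine hp.not_unit (isUnit_of_dvd_unit ?_ hu)
      exact (dvd_pow_self π (by have := (mem_Icc.1 hk).1; omega)).trans hd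
    · obtain ⟨π, hirr, hd⟩ := WfDvdMonoid.exists_irreducible_factor hu hm
      have hπ := hirr.prime
      obtain ⟨π₀, ha, hnn, hr, hi⟩ := exists_assoc π hπ.ne_zero
      have hπ0 : Prime π₀ := ha.prime hπ
      have hd0 : π₀ ∣ m := ha.symm.dvd.trans hd
      have hle : nm π₀ ≤ nm m := Nat.le_of_dvd (nm_pos hm) (nm_dvd hd0)
      have hmem : π₀ ∈ PI x := mem_PI.2 ⟨by
        have : (nm π₀ : ℝ) ≤ nm m := by exact_mod_cast hle
        linarith, hπ0, hr, hi⟩
      obtain ⟨m', rfl⟩ := hd0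
      have hm' : m' ≠ 0 := right_ne_zero_of_mul hm
      have h2 := two_le hπ0
      have h3 := nm_pos hm'
      have hlt : nm m' < n := by
        rw [← hn, nm_mul]
        nlinarith
      have hx' : (nm m' : ℝ) ≤ x := by
        have : (nm m' : ℝ) ≤ (nm (π₀ * m') : ℝ) := by
          rw [hn]; exact_mod_cast hlt.le
        linarith
      rw [step hmem hm' hx hL, ih _ hlt m' rfl hm' hx', nm_mul]
      push_cast
      rw [Real.log_mul]
      · have := nm_posR hπ0.ne_zero; exact this.ne'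
      · have := nm_posR hm'; exact this.ne'

end LGNM

open LGNM in
theorem specLGN : SpecLGN := by
  classical
  intro x L m hm hx hL
  rw [← main x L hL _ m rfl hm hx]
  unfold LGNM.SS PP
  rw [Finset.sum_filter, Finset.sum_product]

end Pool.Agent.Lib.MP391708.XB3
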