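import Pool.Agent.Lib.MP_391708_nt.X3.SpecVB
import Pool.Agent.Lib.MP_391708_nt.X.VPL

/-!
# Theorem X3, part VB, module T2D (helper9): the separation of the variables
-/

set_option autoImplicit false

namespace Pool.Agent.Lib.MP391708.XB3

open Finset Filter Topology Pool.Agent.Lib.MP391708.MR
open Pool.Agent.Lib.MP391708.X (ChiG hk Dist Fam PI)
open scoped ComplexConjugate

namespace T2DM

theorem mem_GP'' {P Q : ℝ} {z : Gi} : z ∈ GP P Q ↔
    (z ≠ 0 ∧ (nm z : ℝ) ≤ Q) ∧ 0 < z.re ∧ 0 < z.im ∧ (nm z).Prime ∧ (nm z) % 4 = 1 ∧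
      P < (nm z : ℝ) := by
  unfold GP
  rw [mem_filter, mem_disc]

theorem GP_mono {P Q Q' : ℝ} (h : Q ≤ Q') : GP P Q ⊆ GP P Q' := by
  intro z hz
  rw [mem_GP''] at hz ⊢
  exact ⟨⟨hz.1.1, hz.1.2.trans h⟩, hz.2⟩

/-- the cell of `π` -/
noncomputable def fl (h : ℝ) (π : Gi) : ℕ := ⌊h * Real.log (nm π)⌋₊

/-- the first weight -/
noncomputable def w1 (M M' : ℝ) (π b : Gi) : ℝ :=
  open scoped Classical in
  if M < (nm (π * b) : ℝ) ∧ (nm (π * b) : ℝ) ≤ M' then Real.log (nm π) else 0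

/-- the second weight -/
noncomputable def w2 (h M M' : ℝ) (π b : Gi) : ℝ :=
  open scoped Classical in
  if M * Real.exp (-((fl h π : ℝ) / h)) < (nm b : ℝ) ∧
    (nm b : ℝ) ≤ M' * Real.exp (-((fl h π : ℝ) / h)) then (fl h π : ℝ) / h else 0

/-- the range of `b` -/
noncomputable def BB (x V : ℝ) : Finset Gi :=
  open scoped Classical in (disc x).filter (fun b => V < (nm b : ℝ))

theorem mem_BB {x V : ℝ} {b : Gi} : b ∈ BB x V ↔ (b ≠ 0 ∧ (nm b : ℝ) ≤ x) ∧ V < (nm b : ℝ) := by
  unfold BB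
  rw [mem_filter, mem_disc]

theorem fl_le {h : ℝ} (hh : 1 ≤ h) {π : Gi} (hπ : π ≠ 0) :
    Real.exp ((fl h π : ℝ) / h) ≤ (nm π : ℝ) ∧
    (nm π : ℝ) < Real.exp ((fl h π : ℝ) / h) * Real.exp (1 / h) := by
  have h0 : 0 < h := by linarith
  have hn := nm_posR hπ
  have h1 : 0 ≤ h * Real.log (nm π) := mul_nonneg h0.le (Real.log_nonneg (one_le_nm hπ))
  have h2 := Nat.floor_le h1
  have h3 := Nat.lt_floor_add_one (h * Real.log (nm π))
  change (fl h π : ℝ) ≤ h * Real.log (nm π) at h2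
  change h * Real.log (nm π) < (fl h π : ℝ) + 1 at h3
  constructor
  · rw [← Real.le_log_iff_exp_le hn, div_le_iff₀ h0]
    linarith
  · rw [← Real.exp_add, ← Real.log_lt_iff_lt_exp hn, ← add_div, lt_div_iff₀ h0]
    linarith

/-- the first form -/
theorem form1 {ψ : Gi → ℂ} {x U V Q M M' : ℝ} (hV : 1 ≤ V) (hM : 0 ≤ M) (hMM : M ≤ M')
    (hx : M' ≤ x) (hQ : M' ≤ V * Q) :
    T2 ψ x U V M M' = ∑ π ∈ GP U Q, ∑ b ∈ BB x V,
      ((AV V b * w1 M M' π b : ℝ) : ℂ) * ψ (π * b) := by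
  classical
  have hQ0 : 0 ≤ Q := by
    by_contra h
    push Not at h
    nlinarith
  have h1 : ∀ π : Gi, ((Real.log (nm π) : ℝ) : ℂ) * ∑ b ∈ (disc x).filter
      (fun b => V < (nm b : ℝ)), ((AV V b : ℝ) : ℂ) * FF ψ M M' (π * b) =
      ∑ b ∈ BB x V, ((AV V b * w1 M M' π b : ℝ) : ℂ) * ψ (π * b) := by
    intro π
    have e : (disc x).filter (fun b => V < (nm b : ℝ)) = BB x V := by
      ext b
      rw [mem_BB, mem_filter, mem_disc]
    rw [e, Finset.mul_sum]
    refine Finset.sum_congr rfl fun b _ => ?_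
    unfold FF w1
    by_cases hc : M < (nm (π * b) : ℝ) ∧ (nm (π * b) : ℝ) ≤ M'
    · rw [if_pos hc, if_pos hc]
      push_cast
      ring
    · rw [if_neg hc, if_neg hc]
      push_cast
      ring
  have h2 : ∀ Z : ℝ, 0 ≤ Z → (∀ π : Gi, π ≠ 0 → Z < (nm π : ℝ) → ∀ b ∈ BB x V,
      M' < (nm (π * b) : ℝ)) → ∀ Z' : ℝ, Z ≤ Z' →
      ∑ π ∈ GP U Z, ∑ b ∈ BB x V, ((AV V b * w1 M M' π b : ℝ) : ℂ) * ψ (π * b) =
      ∑ π ∈ GP U Z', ∑ b ∈ BB x V, ((AV V b * w1 M M' π b : ℝ) : ℂ) * ψ (π * b) := by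
    intro Z hZ hb Z' hZZ
    refine Finset.sum_subset (GP_mono hZZ) fun π hπ hn => ?_
    refine Finset.sum_eq_zero fun b hbb => ?_
    have h3 : Z < (nm π : ℝ) := by
      by_contra h4
      push Not at h4
      apply hn
      rw [mem_GP''] at hπ ⊢
      exact ⟨⟨hπ.1.1, h4⟩, hπ.2⟩
    have h5 := hb π (mem_GP''.1 hπ).1.1 h3 b hbb
    have h6 : w1 M M' π b = 0 := by
      unfold w1
      rw [if_neg]
      rintro ⟨-, h7⟩
      linarith
    rw [h6, mul_zero]
    push_cast
    ring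
  unfold T2
  rw [Finset.sum_congr rfl fun π _ => h1 π]
  rw [h2 x (by linarith) (fun π hπ hz b hb => ?_) (max x Q) (le_max_left _ _),
    h2 Q hQ0 (fun π hπ hz b hb => ?_) (max x Q) (le_max_right _ _)]
  · rw [mem_BB] at hb
    rw [nm_mul]
    push_cast
    have h3 : (0 : ℝ) < nm b := nm_posR hb.1.1
    have h4 : V * Q ≤ nm b * Q := mul_le_mul_of_nonneg_right hb.2.le hQ0
    have h5 : (nm b : ℝ) * Q < nm b * nm π := mul_lt_mul_of_pos_left hz h3
    nlinarith
  · rw [mem_BB] at hb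
    rw [nm_mul]
    push_cast
    have h3 : (1 : ℝ) ≤ nm b := one_le_nm hb.1.1
    have h4 : (0 : ℝ) < nm π := nm_posR hπ
    nlinarith

/-- the second form -/
theorem form2 {ψ : Gi → ℂ} (hmul : ∀ u v, ψ (u * v) = ψ u * ψ v) {x U V Q M M' h : ℝ}
    (hU : 2 ≤ U) (hh : 1 ≤ h) (hM : 0 ≤ M) (hMM : M ≤ M') (hx : M' ≤ x) :
    MN ψ h U Q V M M' = ∑ π ∈ GP U Q, ∑ b ∈ BB x V,
      ((AV V b * w2 h M M' π b : ℝ) : ℂ) * ψ (π * b) := by
  classical
  have h0 : 0 < h := by linarith
  have h1 : ∀ π ∈ GP U Q, fl h π ∈ VV h U Q := by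
    intro π hπ
    rw [mem_GP''] at hπ
    unfold VV fl
    rw [mem_Icc]
    constructor
    · exact Nat.floor_le_floor (mul_le_mul_of_nonneg_left
        (Real.log_le_log (by linarith) hπ.2.2.2.2.2.le) h0.le)
    · exact Nat.floor_le_floor (mul_le_mul_of_nonneg_left
        (Real.log_le_log (nm_posR hπ.1.1) hπ.1.2) h0.le)
  have h2 : ∀ π : Gi, (((fl h π : ℝ) / h : ℝ) : ℂ) * ψ π * Bc ψ V M M' h (fl h π) =
      ∑ b ∈ BB x V, ((AV V b * w2 h M M' π b : ℝ) : ℂ) * ψ (π * b) := by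
    intro π
    unfold Bc
    rw [Finset.mul_sum]
    have e : (ann (M * Real.exp (-((fl h π : ℝ) / h))) (M' * Real.exp (-((fl h π : ℝ) / h)))).filter
        (fun b => V < (nm b : ℝ)) = (BB x V).filter
        (fun b => M * Real.exp (-((fl h π : ℝ) / h)) < (nm b : ℝ) ∧
          (nm b : ℝ) ≤ M' * Real.exp (-((fl h π : ℝ) / h))) := by
      ext b
      rw [mem_filter, mem_filter, mem_ann, mem_BB]
      constructor
      · rintro ⟨⟨c1, c2, c3⟩, c4⟩
        refine ⟨⟨⟨c1, ?_⟩, c4⟩, c2, c3⟩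
        have c5 : Real.exp (-((fl h π : ℝ) / h)) ≤ 1 := by
          rw [Real.exp_le_one_iff]
          have : 0 ≤ (fl h π : ℝ) / h := by positivity
          linarith
        have c6 : M' * Real.exp (-((fl h π : ℝ) / h)) ≤ M' * 1 :=
          mul_le_mul_of_nonneg_left c5 (by linarith)
        linarith
      · rintro ⟨⟨⟨c1, -⟩, c4⟩, c2, c3⟩
        exact ⟨⟨c1, c2, c3⟩, c4⟩
    rw [e, Finset.sum_filter]
    refine Finset.sum_congr rfl fun b _ => ?_
    unfold w2
    by_cases hc : M * Real.exp (-((fl h π : ℝ) / h)) < (nm b : ℝ) ∧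
          (nm b : ℝ) ≤ M' * Real.exp (-((fl h π : ℝ) / h))
    · rw [if_pos hc, if_pos hc, hmul]
      push_cast
      ring
    · rw [if_neg hc, if_neg hc]
      push_cast
      ring
  rw [← Finset.sum_congr rfl fun π _ => h2 π]
  unfold MN
  rw [← Finset.sum_fiberwise_of_maps_to h1]
  refine Finset.sum_congr rfl fun v _ => ?_
  unfold Pc
  rw [Finset.mul_sum, Finset.sum_mul]
  refine Finset.sum_congr ?_ fun π hπ => ?_
  · ext π
    unfold cell fl
    simp only [mem_filter]
  · rw [mem_filter] at hπ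
    have : fl h π = v := hπ.2
    rw [this]

/-- the bound for the weights -/
theorem wbound {x U V M M' h : ℝ} (hx : 1 ≤ x) (hh : 1 ≤ h) (hV : 1 ≤ V) (hM : 0 ≤ M)
    (hMx : M' ≤ x) {π b : Gi} (hπ : π ≠ 0) (hb : b ∈ BB x V) :
    (w1 M M' π b - w2 h M M' π b ≠ 0 → π * b ∈ ann M (M' * Real.exp (1 / h))) ∧
    (open scoped Classical in |w1 M M' π b - w2 h M M' π b| ≤
      if π * b ∈ ann M (M * Real.exp (1 / h)) ∪ ann M' (M' * Real.exp (1 / h)) then
        Real.log x + 1 else 1 / h) := by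
  classical
  have h0 : 0 < h := by linarith
  rw [mem_BB] at hb
  obtain ⟨⟨hb0, hbx⟩, hbV⟩ := hb
  obtain ⟨f1, f2⟩ := fl_le hh hπ
  have hE : 0 < Real.exp ((fl h π : ℝ) / h) := Real.exp_pos _
  have hE1 : 1 ≤ Real.exp ((fl h π : ℝ) / h) := by
    rw [Real.one_le_exp_iff]
    positivity
  have hh1 : 1 ≤ Real.exp (1 / h) := by
    rw [Real.one_le_exp_iff]
    positivity
  have hEi : Real.exp (-((fl h π : ℝ) / h)) * Real.exp ((fl h π : ℝ) / h) = 1 := by
    rw [← Real.exp_add, neg_add_cancel, Real.exp_zero]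
  have hEi0 : 0 < Real.exp (-((fl h π : ℝ) / h)) := Real.exp_pos _
  have hnb : (1 : ℝ) ≤ nm b := one_le_nm hb0
  have hnπ : (1 : ℝ) ≤ nm π := one_le_nm hπ
  have hmul : (nm (π * b) : ℝ) = nm π * nm b := by
    rw [nm_mul]
    push_cast
    rfl
  have hne : π * b ≠ 0 := mul_ne_zero hπ hb0
  have hlog : |Real.log (nm π) - (fl h π : ℝ) / h| ≤ 1 / h := by
    have g1 : (fl h π : ℝ) / h ≤ Real.log (nm π) := (Real.le_log_iff_exp_le (by linarith)).2 f1
    have g2 : Real.log (nm π) < (fl h π : ℝ) / h + 1 / h := by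
      rw [Real.log_lt_iff_lt_exp (by linarith), Real.exp_add]
      exact f2
    rw [abs_le]
    constructor
    · have : 0 ≤ 1 / h := by positivity
      linarith
    · linarith
  have hlx : 0 ≤ Real.log x := Real.log_nonneg hx
  have hh2 : 1 / h ≤ 1 := by
    rw [div_le_one h0]
    exact hh
  -- the bounds from the second condition
  have hlow : M * Real.exp (-((fl h π : ℝ) / h)) < (nm b : ℝ) → M < (nm (π * b) : ℝ) := by
    intro g
    rw [hmul]
    calc M = M * Real.exp (-((fl h π : ℝ) / h)) * Real.exp ((fl h π : ℝ) / h) := by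
          rw [mul_assoc, hEi, mul_one]
      _ < (nm b : ℝ) * Real.exp ((fl h π : ℝ) / h) := mul_lt_mul_of_pos_right g hE
      _ ≤ (nm b : ℝ) * nm π := mul_le_mul_of_nonneg_left f1 (by linarith)
      _ = nm π * nm b := mul_comm _ _
  have hup : ∀ Z : ℝ, (nm b : ℝ) ≤ Z * Real.exp (-((fl h π : ℝ) / h)) →
      (nm (π * b) : ℝ) ≤ Z * Real.exp (1 / h) := by
    intro Z g
    rw [hmul]
    calc (nm π : ℝ) * nm b ≤ (Real.exp ((fl h π : ℝ) / h) * Real.exp (1 / h)) * nm b :=
          mul_le_mul_of_nonneg_right f2.le (by linarith)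
      _ ≤ (Real.exp ((fl h π : ℝ) / h) * Real.exp (1 / h)) *
          (Z * Real.exp (-((fl h π : ℝ) / h))) := mul_le_mul_of_nonneg_left g (by positivity)
      _ = Z * Real.exp (1 / h) * (Real.exp (-((fl h π : ℝ) / h)) *
          Real.exp ((fl h π : ℝ) / h)) := by ring
      _ = Z * Real.exp (1 / h) := by rw [hEi, mul_one]
  have hM'0 : ∀ g : (nm (π * b) : ℝ) ≤ M', (nm (π * b) : ℝ) ≤ M' * Real.exp (1 / h) := by
    intro g
    have : (0 : ℝ) < nm (π * b) := nm_posR hne
    nlinarith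
  by_cases c1 : M < (nm (π * b) : ℝ) ∧ (nm (π * b) : ℝ) ≤ M'
  · by_cases c2 : M * Real.exp (-((fl h π : ℝ) / h)) < (nm b : ℝ) ∧
        (nm b : ℝ) ≤ M' * Real.exp (-((fl h π : ℝ) / h))
    · have e1 : w1 M M' π b = Real.log (nm π) := by
        unfold w1
        rw [if_pos c1]
      have e2 : w2 h M M' π b = (fl h π : ℝ) / h := by
        unfold w2
        rw [if_pos c2]
      refine ⟨fun _ => mem_ann.2 ⟨hne, c1.1, hM'0 c1.2⟩, ?_⟩
      rw [e1, e2]
      split_ifs
      · linarith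
      · exact hlog
    · have e1 : w1 M M' π b = Real.log (nm π) := by
        unfold w1
        rw [if_pos c1]
      have e2 : w2 h M M' π b = 0 := by
        unfold w2
        rw [if_neg c2]
      refine ⟨fun _ => mem_ann.2 ⟨hne, c1.1, hM'0 c1.2⟩, ?_⟩
      rw [e1, e2, sub_zero]
      have c3 : (nm b : ℝ) ≤ M' * Real.exp (-((fl h π : ℝ) / h)) := by
        have c4 : Real.exp ((fl h π : ℝ) / h) * nm b ≤ M' := by
          calc Real.exp ((fl h π : ℝ) / h) * nm b ≤ nm π * nm b :=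
                mul_le_mul_of_nonneg_right f1 (by linarith)
            _ ≤ M' := by
              rw [← hmul]
              exact c1.2
        calc (nm b : ℝ) = (Real.exp ((fl h π : ℝ) / h) * nm b) *
              Real.exp (-((fl h π : ℝ) / h)) := by
              rw [mul_comm (Real.exp ((fl h π : ℝ) / h)) (nm b : ℝ), mul_assoc,
                mul_comm (Real.exp ((fl h π : ℝ) / h)), hEi, mul_one]
          _ ≤ M' * Real.exp (-((fl h π : ℝ) / h)) := mul_le_mul_of_nonneg_right c4 hEi0.le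
      have c5 : (nm b : ℝ) ≤ M * Real.exp (-((fl h π : ℝ) / h)) := by
        by_contra c6
        push Not at c6
        exact c2 ⟨c6, c3⟩
      rw [if_pos (mem_union_left _ (mem_ann.2 ⟨hne, c1.1, hup M c5⟩)), abs_of_nonneg
        (Real.log_nonneg hnπ)]
      have c7 : (nm π : ℝ) ≤ x := by
        have : (nm π : ℝ) * 1 ≤ nm π * nm b := mul_le_mul_of_nonneg_left hnb (by linarith)
        linarith [c1.2, hmul]
      have := Real.log_le_log (by linarith) c7
      linarith
  · have e1 : w1 M M' π b = 0 := by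
      unfold w1
      rw [if_neg c1]
    by_cases c2 : M * Real.exp (-((fl h π : ℝ) / h)) < (nm b : ℝ) ∧
        (nm b : ℝ) ≤ M' * Real.exp (-((fl h π : ℝ) / h))
    · have e2 : w2 h M M' π b = (fl h π : ℝ) / h := by
        unfold w2
        rw [if_pos c2]
      refine ⟨fun _ => mem_ann.2 ⟨hne, hlow c2.1, hup M' c2.2⟩, ?_⟩
      have c3 : M' < (nm (π * b) : ℝ) := by
        by_contra c4
        push Not at c4
        exact c1 ⟨hlow c2.1, c4⟩
      rw [e1, e2, zero_sub, abs_neg, abs_of_nonneg (by positivity),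
        if_pos (mem_union_right _ (mem_ann.2 ⟨hne, c3, hup M' c2.2⟩))]
      have c5 : Real.exp ((fl h π : ℝ) / h) ≤ x := by
        have c6 : (nm b : ℝ) * Real.exp ((fl h π : ℝ) / h) ≤ M' := by
          calc (nm b : ℝ) * Real.exp ((fl h π : ℝ) / h) ≤
                M' * Real.exp (-((fl h π : ℝ) / h)) * Real.exp ((fl h π : ℝ) / h) :=
                mul_le_mul_of_nonneg_right c2.2 hE.le
            _ = M' := by rw [mul_assoc, hEi, mul_one]
        have c7 : 1 * Real.exp ((fl h π : ℝ) / h) ≤ nm b * Real.exp ((fl h π : ℝ) / h) :=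
          mul_le_mul_of_nonneg_right hnb hE.le
        linarith
      have c8 := (Real.le_log_iff_exp_le (by linarith)).2 c5
      linarith
    · have e2 : w2 h M M' π b = 0 := by
        unfold w2
        rw [if_neg c2]
      rw [e1, e2, sub_zero]
      refine ⟨fun hn => absurd rfl hn, ?_⟩
      rw [abs_zero]
      split_ifs
      · linarith
      · positivity

end T2DM

open T2DM in
open scoped Classical in
theorem specT2D (hAVP : SpecAVP) : SpecT2D := by
  intro x U V Q M M' h hx hh hU hV hM hMM hMx hMQ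
  have h0 : 0 < h := by linarith
  refine ⟨fun n => ∑ π ∈ GP U Q, ∑ b ∈ BB x V,
    if π * b = n then ((AV V b * (w1 M M' π b - w2 h M M' π b) : ℝ) : ℂ) else 0, ?_, ?_⟩
  · intro n hn
    rw [mem_ann] at hn
    obtain ⟨hn0, -, hn2⟩ := hn
    obtain ⟨δ, hδ⟩ : ∃ δ : ℝ, δ = if n ∈ ann M (M * Real.exp (1 / h)) ∪
      ann M' (M' * Real.exp (1 / h)) then Real.log x + 1 else 1 / h := ⟨_, rfl⟩
    rw [← hδ]
    have hδ0 : 0 ≤ δ := by
      rw [hδ]
      split_ifs
      · have := Real.log_nonneg hx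
        linarith
      · positivity
    have hn3 : (nm n : ℝ) ≤ 3 * x := by
      have g1 : Real.exp (1 / h) ≤ 3 := by
        have g2 : Real.exp (1 / h) ≤ Real.exp 1 := by
          rw [Real.exp_le_exp, div_le_one h0]
          exact hh
        have := Real.exp_one_lt_d9
        linarith
      have g3 : M' * Real.exp (1 / h) ≤ M' * 3 := mul_le_mul_of_nonneg_left g1 (by linarith)
      linarith
    have key : ∀ π ∈ GP U Q, ‖∑ b ∈ BB x V, if π * b = n then
        ((AV V b * (w1 M M' π b - w2 h M M' π b) : ℝ) : ℂ) else 0‖ ≤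
        if π ∣ n then 2 ^ (oo (3 * x) n) * δ else 0 := by
      intro π hπ
      have hπ0 : π ≠ 0 := (mem_GP''.1 hπ).1.1
      by_cases hd : π ∣ n
      · rw [if_pos hd]
        obtain ⟨b0, rfl⟩ := hd
        have e : ∀ b ∈ BB x V, (if π * b = π * b0 then
            ((AV V b * (w1 M M' π b - w2 h M M' π b) : ℝ) : ℂ) else 0) =
            if b = b0 then ((AV V b0 * (w1 M M' π b0 - w2 h M M' π b0) : ℝ) : ℂ) else 0 := by
          intro b _
          by_cases hb : b = b0
          · rw [if_pos (by rw [hb]), if_pos hb, hb]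
          · rw [if_neg (fun h' => hb (mul_left_cancel₀ hπ0 h')), if_neg hb]
        rw [Finset.sum_congr rfl e, Finset.sum_ite_eq' (BB x V) b0]
        split_ifs with hb
        · rw [Complex.norm_real, Real.norm_eq_abs, abs_mul]
          obtain ⟨-, g2⟩ := wbound (U := U) hx hh hV hM hMx hπ0 hb
          rw [← hδ] at g2
          have hbV := (mem_BB.1 hb)
          have g3 := hAVP.2.2.1 V (3 * x) b0 (by linarith [hbV.1.2, hbV.2])
          have g4 : (2 : ℝ) ^ (oo (3 * x) b0) ≤ 2 ^ (oo (3 * x) (π * b0)) := by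
            refine pow_le_pow_right₀ (by norm_num) ?_
            unfold oo
            refine Finset.card_le_card fun q hq => ?_
            rw [mem_filter] at hq ⊢
            exact ⟨hq.1, hq.2.trans (dvd_mul_left _ _)⟩
          exact mul_le_mul (g3.trans g4) g2 (abs_nonneg _) (by positivity)
        · rw [norm_zero]
          positivity
      · rw [if_neg hd]
        refine le_of_eq ?_
        rw [norm_eq_zero]
        refine Finset.sum_eq_zero fun b _ => ?_
        rw [if_neg]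
        rintro rfl
        exact hd (dvd_mul_right _ _)
    calc ‖∑ π ∈ GP U Q, ∑ b ∈ BB x V, if π * b = n then
          ((AV V b * (w1 M M' π b - w2 h M M' π b) : ℝ) : ℂ) else 0‖ ≤
        ∑ π ∈ GP U Q, if π ∣ n then 2 ^ (oo (3 * x) n) * δ else 0 :=
          (norm_sum_le _ _).trans (Finset.sum_le_sum key)
      _ = (((GP U Q).filter (fun π => π ∣ n)).card : ℝ) * (2 ^ (oo (3 * x) n) * δ) := by
          rw [← Finset.sum_filter, Finset.sum_const, nsmul_eq_mul]
      _ ≤ (oo (3 * x) n : ℝ) * (2 ^ (oo (3 * x) n) * δ) := by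
          refine mul_le_mul_of_nonneg_right ?_ (by positivity)
          have g1 : ((GP U Q).filter (fun π => π ∣ n)).card ≤ oo (3 * x) n := by
            unfold oo
            refine Finset.card_le_card fun π hπ => ?_
            rw [mem_filter] at hπ ⊢
            refine ⟨?_, hπ.2⟩
            have g2 := X.VPLM.mem_PI'.1 (X.VPLM.GP_sub U Q hπ.1)
            refine X.VPLM.mem_PI'.2 ⟨?_, g2.2⟩
            have g3 : (nm π : ℝ) ≤ nm n := by
              exact_mod_cast Nat.le_of_dvd (nm_pos hn0) (nm_dvd hπ.2)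
            linarith
          exact_mod_cast g1
      _ ≤ 2 ^ (oo (3 * x) n) * (2 ^ (oo (3 * x) n) * δ) := by
          refine mul_le_mul_of_nonneg_right ?_ (by positivity)
          exact_mod_cast (Nat.lt_two_pow_self (n := oo (3 * x) n)).le
      _ = 4 ^ (oo (3 * x) n) * δ := by
          rw [← mul_assoc, ← mul_pow]
          norm_num
  · intro ψ hmul
    rw [form1 hV hM hMM hMx hMQ, form2 hmul hU hh hM hMM hMx, ← Finset.sum_sub_distrib]
    have e1 : ∀ n, (∑ π ∈ GP U Q, ∑ b ∈ BB x V, if π * b = n then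
        ((AV V b * (w1 M M' π b - w2 h M M' π b) : ℝ) : ℂ) else 0) * ψ n =
        ∑ π ∈ GP U Q, ∑ b ∈ BB x V, if π * b = n then
        ((AV V b * (w1 M M' π b - w2 h M M' π b) : ℝ) : ℂ) * ψ (π * b) else 0 := by
      intro n
      rw [Finset.sum_mul]
      refine Finset.sum_congr rfl fun π _ => ?_
      rw [Finset.sum_mul]
      refine Finset.sum_congr rfl fun b _ => ?_
      by_cases hb : π * b = n
      · rw [if_pos hb, if_pos hb, hb]
      · rw [if_neg hb, if_neg hb, zero_mul]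
    rw [Finset.sum_congr rfl fun n _ => e1 n, Finset.sum_comm]
    refine Finset.sum_congr rfl fun π hπ => ?_
    rw [Finset.sum_comm, ← Finset.sum_sub_distrib]
    refine Finset.sum_congr rfl fun b hb => ?_
    rw [Finset.sum_ite_eq (ann M (M' * Real.exp (1 / h))) (π * b)]
    by_cases hz : w1 M M' π b - w2 h M M' π b = 0
    · have : w1 M M' π b = w2 h M M' π b := sub_eq_zero.1 hz
      rw [hz, this]
      simp
    · rw [if_pos ((wbound (U := U) hx hh hV hM hMx (mem_GP''.1 hπ).1.1 hb).1 hz)]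
      push_cast
      ring

end Pool.Agent.Lib.MP391708.XB3
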