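import Pool.Agent.Lib.MP_391708_nt.X3.SpecVB
import Pool.Agent.Lib.MP_391708_nt.X.HM

/-!
# THEOREM X3 (MP_391708), part VB, module T2E: the separation error in mean square (helper72)
-/

set_option autoImplicit false

namespace Pool.Agent.Lib.MP391708.XB3

open Finset Filter Topology Pool.Agent.Lib.MP391708.MR
open Pool.Agent.Lib.MP391708.X (ChiG hk Dist Fam PI)
open scoped ComplexConjugate

namespace T2EM

lemma three_sq (a b c : ℂ) : ‖a + b + c‖ ^ 2 ≤ 3 * (‖a‖ ^ 2 + ‖b‖ ^ 2 + ‖c‖ ^ 2) := by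
  have h1 : ‖a + b + c‖ ≤ ‖a‖ + ‖b‖ + ‖c‖ := norm_add₃_le
  have h2 := norm_nonneg (a + b + c)
  have h3 : ‖a + b + c‖ ^ 2 ≤ (‖a‖ + ‖b‖ + ‖c‖) ^ 2 := pow_le_pow_left₀ h2 h1 2
  nlinarith [sq_nonneg (‖a‖ - ‖b‖), sq_nonneg (‖b‖ - ‖c‖), sq_nonneg (‖a‖ - ‖c‖)]

lemma ann_mono {a b c d : ℝ} (h1 : c ≤ a) (h2 : b ≤ d) : ann a b ⊆ ann c d := by
  intro z hz
  rw [mem_ann] at hz ⊢
  exact ⟨hz.1, lt_of_le_of_lt h1 hz.2.1, hz.2.2.trans h2⟩

lemma ann_disc {a b X : ℝ} (h : b ≤ X) : ann a b ⊆ disc X := by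
  intro z hz
  rw [mem_ann] at hz
  rw [mem_disc]
  exact ⟨hz.1, hz.2.2.trans h⟩

open Classical in
/-- The splitting of the sum. -/
lemma split (e ψ : Gi → ℂ) (A B E : Finset Gi) (hA : A ⊆ E) (hB : B ⊆ E) :
    ∑ n ∈ E, e n * ψ n = ∑ n ∈ A, e n * ψ n + ∑ n ∈ B, (if n ∈ A then 0 else e n) * ψ n +
      ∑ n ∈ E, (if n ∈ A ∨ n ∈ B then 0 else e n) * ψ n := by
  have e1 : ∑ n ∈ A, e n * ψ n = ∑ n ∈ E, if n ∈ A then e n * ψ n else 0 := by
    rw [← Finset.sum_filter]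
    refine Finset.sum_congr ?_ fun _ _ => rfl
    ext n
    rw [Finset.mem_filter]
    exact ⟨fun h => ⟨hA h, h⟩, fun h => h.2⟩
  have e2 : ∑ n ∈ B, (if n ∈ A then 0 else e n) * ψ n =
      ∑ n ∈ E, if n ∈ B then (if n ∈ A then 0 else e n) * ψ n else 0 := by
    rw [← Finset.sum_filter]
    refine Finset.sum_congr ?_ fun _ _ => rfl
    ext n
    rw [Finset.mem_filter]
    exact ⟨fun h => ⟨hB h, h⟩, fun h => h.2⟩
  rw [e1, e2, ← Finset.sum_add_distrib, ← Finset.sum_add_distrib]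
  refine Finset.sum_congr rfl fun n _ => ?_
  by_cases hnA : n ∈ A
  · by_cases hnB : n ∈ B
    · simp [hnA, hnB]
    · simp [hnA, hnB]
  · by_cases hnB : n ∈ B
    · simp [hnA, hnB]
    · simp [hnA, hnB]

/-- Mean squares of bounded coefficients. -/
lemma sq_sum {X D L : ℝ} (hD : ∑ z ∈ disc X, (16 : ℝ) ^ (oo X z) ≤ D) (A : Finset Gi)
    (hA : A ⊆ disc X) (a : Gi → ℂ) (hL : 0 ≤ L) (ha : ∀ n ∈ A, ‖a n‖ ≤ 4 ^ (oo X n) * L) :
    ∑ z ∈ A, ‖a z‖ ^ 2 ≤ L ^ 2 * D := by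
  have h1 : ∀ n ∈ A, ‖a n‖ ^ 2 ≤ L ^ 2 * 16 ^ (oo X n) := by
    intro n hn
    have h2 := pow_le_pow_left₀ (norm_nonneg _) (ha n hn) 2
    refine h2.trans (le_of_eq ?_)
    rw [mul_pow, ← pow_mul, mul_comm (oo X n) 2, pow_mul]
    norm_num
    ring
  refine (Finset.sum_le_sum h1).trans ?_
  rw [← Finset.mul_sum]
  refine mul_le_mul_of_nonneg_left (le_trans ?_ hD) (sq_nonneg L)
  exact Finset.sum_le_sum_of_subset_of_nonneg hA fun n _ _ => by positivity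

/-- The final numerical inequality. -/
lemma numer {x h CD D L : ℝ} (hx : 3 ≤ x) (hh : 1 ≤ h) (hC : 0 < CD)
    (hL : L = Real.log x + 1) (hD : D ≤ 3 * x * Real.log (3 * x) ^ CD)
    (hlog : 855 * 2 ^ CD ≤ Real.log x) :
    3 * (10 * x / h * (L ^ 2 * D) + 10 * x / h * (L ^ 2 * D) + 15 * x * ((1 / h) ^ 2 * D)) ≤
      x ^ 2 * Real.log x ^ (CD + 3) / h := by
  have hx0 : 0 < x := by linarith
  have hh0 : 0 < h := by linarith
  have h2C : (1 : ℝ) ≤ 2 ^ CD := Real.one_le_rpow (by norm_num) hC.le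
  have hl1 : 1 ≤ Real.log x := by nlinarith
  have hl0 : 0 < Real.log x := by linarith
  have h3x : Real.log (3 * x) ≤ 2 * Real.log x := by
    rw [Real.log_mul (by norm_num) hx0.ne']
    have := Real.log_le_log (by norm_num : (0 : ℝ) < 3) hx
    linarith
  have h3x0 : 0 ≤ Real.log (3 * x) := Real.log_nonneg (by linarith)
  have hD' : D ≤ 3 * x * (2 ^ CD * Real.log x ^ CD) := by
    refine hD.trans ?_
    rw [← Real.mul_rpow (by norm_num) hl0.le]
    exact mul_le_mul_of_nonneg_left (Real.rpow_le_rpow h3x0 h3x hC.le) (by positivity)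
  have hLL : L ^ 2 ≤ 4 * Real.log x ^ 2 := by
    rw [hL]
    nlinarith
  have hhh : (1 / h) ^ 2 ≤ 1 / h := by
    have h1 : 1 / h ≤ 1 := by
      rw [div_le_one hh0]
      exact hh
    have h2 : 0 < 1 / h := by positivity
    nlinarith
  set Dm : ℝ := 3 * x * (2 ^ CD * Real.log x ^ CD) with hDm
  have hDm0 : 0 ≤ Dm := by positivity
  have a1 : 10 * x / h * (L ^ 2 * D) ≤ 10 * x / h * (4 * Real.log x ^ 2 * Dm) := by
    refine mul_le_mul_of_nonneg_left ?_ (by positivity)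
    calc L ^ 2 * D ≤ L ^ 2 * Dm := mul_le_mul_of_nonneg_left hD' (sq_nonneg L)
      _ ≤ _ := mul_le_mul_of_nonneg_right hLL hDm0
  have a2 : 15 * x * ((1 / h) ^ 2 * D) ≤ 15 * x * (1 / h * (Real.log x ^ 2 * Dm)) := by
    refine mul_le_mul_of_nonneg_left ?_ (by positivity)
    calc (1 / h) ^ 2 * D ≤ (1 / h) ^ 2 * Dm := mul_le_mul_of_nonneg_left hD' (by positivity)
      _ ≤ 1 / h * Dm := mul_le_mul_of_nonneg_right hhh hDm0
      _ ≤ 1 / h * (Real.log x ^ 2 * Dm) := by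
        refine mul_le_mul_of_nonneg_left ?_ (by positivity)
        have : 1 ≤ Real.log x ^ 2 := by nlinarith
        nlinarith
  have e1 : 3 * (10 * x / h * (4 * Real.log x ^ 2 * Dm) + 10 * x / h * (4 * Real.log x ^ 2 * Dm) +
      15 * x * (1 / h * (Real.log x ^ 2 * Dm))) =
      x ^ 2 * (855 * 2 ^ CD * (Real.log x ^ CD * Real.log x ^ 2)) / h := by
    rw [hDm]
    field_simp
    ring
  have e2 : Real.log x ^ (CD + 3) = Real.log x * (Real.log x ^ CD * Real.log x ^ 2) := by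
    rw [Real.rpow_add hl0, show (3 : ℝ) = ((3 : ℕ) : ℝ) by norm_num, Real.rpow_natCast]
    ring
  calc _ ≤ 3 * (10 * x / h * (4 * Real.log x ^ 2 * Dm) +
      10 * x / h * (4 * Real.log x ^ 2 * Dm) +
      15 * x * (1 / h * (Real.log x ^ 2 * Dm))) := by linarith
    _ = _ := e1
    _ ≤ _ := by
      rw [e2]
      have h5 : 0 ≤ Real.log x ^ CD * Real.log x ^ 2 := by positivity
      have h6 := mul_le_mul_of_nonneg_right hlog h5
      exact div_le_div_of_nonneg_right (mul_le_mul_of_nonneg_left h6 (by positivity)) hh0.le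

end T2EM

open T2EM

theorem specT2E (hD : SpecDVM) (hT : SpecT2D) : SpecT2E := by
  classical
  obtain ⟨CD, hCD0, hCD⟩ := hD
  obtain ⟨c', hc'0, hc'1, hc'⟩ := X.hm_hmt 3 (by norm_num)
  refine ⟨CD + 3, c' / 2, by positivity, by positivity, by linarith, ?_⟩
  have hX : Tendsto (fun x : ℝ => 3 * x) atTop atTop :=
    Tendsto.const_mul_atTop (by norm_num) tendsto_id
  filter_upwards [hX.eventually hCD, hX.eventually hc', eventually_ge_atTop 3,
    Real.tendsto_log_atTop.eventually_ge_atTop (855 * 2 ^ CD)] with x h1 h2 h3 h4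
  intro ι W χ k hF hW U V Q M M' h hh1 hh2 hU hV hM hMM hMx hMQ
  have hx0 : 0 < x := by linarith
  have hh0 : 0 < h := by linarith
  have hX0 : 0 < 3 * x := by linarith
  have hxx : x ≤ 3 * x := by linarith
  have hpc : x ^ (c' / 2) ≤ x ^ c' := Real.rpow_le_rpow_of_exponent_le (by linarith) (by linarith)
  have hpc' : x ^ (c' / 2) ≤ (3 * x) ^ c' :=
    hpc.trans (Real.rpow_le_rpow hx0.le hxx hc'0.le)
  have hF' : Fam W χ k ((3 * x) ^ c') ((3 * x) ^ (3 : ℝ)) := by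
    refine ⟨fun i hi => ?_, fun i hi => ?_, hF.dist⟩
    · obtain ⟨m, hm1, hm2⟩ := hF.chi i hi
      exact ⟨m, hm1.trans hpc', hm2⟩
    · exact (hF.frq i hi).trans (Real.rpow_le_rpow hx0.le hxx (by norm_num))
  have hW' : (W.card : ℝ) ≤ (3 * x) ^ c' := hW.trans hpc'
  obtain ⟨e, he, hψ⟩ := hT x U V Q M M' h (by linarith) hh1 hU hV hM hMM hMx hMQ
  -- sizes
  have ht0 : 0 < 1 / h := by positivity
  have ht1 : 1 / h ≤ 1 := by
    rw [div_le_one hh0]
    exact hh1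
  have hexp1 : Real.exp (1 / h) - 1 ≤ 2 * (1 / h) := by
    have := Real.abs_exp_sub_one_le (x := 1 / h) (by rw [abs_of_pos ht0]; exact ht1)
    rw [abs_of_pos ht0] at this
    exact (le_abs_self _).trans this
  have hexp0 : 1 ≤ Real.exp (1 / h) := Real.one_le_exp ht0.le
  have hM'0 : 0 ≤ M' := hM.trans hMM
  have hexp3 : Real.exp (1 / h) ≤ 3 := by linarith
  set Y1 : ℝ := M * Real.exp (1 / h) with hY1
  set Y2 : ℝ := M' * Real.exp (1 / h) with hY2
  have hMY1 : M ≤ Y1 := by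
    rw [hY1]
    nlinarith
  have hMY2 : M' ≤ Y2 := by
    rw [hY2]
    nlinarith
  have hY12 : Y1 ≤ Y2 := mul_le_mul_of_nonneg_right hMM (Real.exp_pos _).le
  have hY2X : Y2 ≤ 3 * x := by
    calc Y2 ≤ M' * 3 := mul_le_mul_of_nonneg_left hexp3 hM'0
      _ ≤ 3 * x := by linarith
  have hX1 : (3 * x) ^ (1 - c') ≤ 3 * x / h := by
    rw [Real.rpow_sub hX0, Real.rpow_one]
    have h5 : h ≤ (3 * x) ^ c' := hh2.trans hpc'
    exact div_le_div_of_nonneg_left hX0.le hh0 h5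
  have hX2 : (3 * x) ^ (1 - c') ≤ 3 * x := by
    refine hX1.trans ?_
    rw [div_le_iff₀ hh0]
    nlinarith
  have hpi : Real.pi < 3.15 := Real.pi_lt_d2
  have hpi0 := Real.pi_pos
  have hshort : ∀ Z : ℝ, 0 ≤ Z → Z ≤ x →
      Real.pi * (Z * Real.exp (1 / h) - Z) + (3 * x) ^ (1 - c') ≤ 10 * x / h := by
    intro Z hZ0 hZx
    have h6 : Z * Real.exp (1 / h) - Z ≤ x * (2 * (1 / h)) := by
      have : Z * Real.exp (1 / h) - Z = Z * (Real.exp (1 / h) - 1) := by ring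
      rw [this]
      exact mul_le_mul hZx hexp1 (by linarith) hx0.le
    have h7 : Real.pi * (Z * Real.exp (1 / h) - Z) ≤ 3.15 * (x * (2 * (1 / h))) := by
      have h8 : 0 ≤ Z * Real.exp (1 / h) - Z := by nlinarith
      exact mul_le_mul hpi.le h6 h8 (by norm_num)
    have e3 : 3.15 * (x * (2 * (1 / h))) + 3 * x / h = 9.3 * (x / h) := by
      field_simp
      norm_num
    have e4 : 10 * x / h = 10 * (x / h) := by rw [mul_div_assoc]
    have h9 : 0 ≤ x / h := by positivity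
    rw [e4]
    linarith
  have hlong : Real.pi * (Y2 - M) + (3 * x) ^ (1 - c') ≤ 15 * x := by
    have h6 : Real.pi * (Y2 - M) ≤ 3.15 * (3 * x) :=
      mul_le_mul hpi.le (by linarith) (by linarith) (by norm_num)
    linarith
  -- bounds for the coefficients
  have hlogx : 0 ≤ Real.log x + 1 := by
    have := Real.log_nonneg (by linarith : (1 : ℝ) ≤ x)
    linarith
  have hA : ann M Y1 ⊆ ann M Y2 := ann_mono le_rfl hY12
  have hB : ann M' Y2 ⊆ ann M Y2 := ann_mono hMM le_rfl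
  have he1 : ∀ n ∈ ann M Y2, (n ∈ ann M Y1 ∨ n ∈ ann M' Y2) →
      ‖e n‖ ≤ 4 ^ (oo (3 * x) n) * (Real.log x + 1) := by
    intro n hn hn'
    have h5 := he n hn
    rwa [if_pos (Finset.mem_union.2 hn')] at h5
  have he2 : ∀ n ∈ ann M Y2, ¬ (n ∈ ann M Y1 ∨ n ∈ ann M' Y2) →
      ‖e n‖ ≤ 4 ^ (oo (3 * x) n) * (1 / h) := by
    intro n hn hn'
    have h5 := he n hn
    rwa [if_neg fun h6 => hn' (Finset.mem_union.1 h6)] at h5
  have s1 : ∑ z ∈ ann M Y1, ‖e z‖ ^ 2 ≤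
      (Real.log x + 1) ^ 2 * (3 * x * Real.log (3 * x) ^ CD) :=
    sq_sum h1 _ (ann_disc (hY12.trans hY2X)) _ hlogx
      fun n hn => he1 n (hA hn) (Or.inl hn)
  have s2 : ∑ z ∈ ann M' Y2, ‖(if z ∈ ann M Y1 then 0 else e z : ℂ)‖ ^ 2 ≤
      (Real.log x + 1) ^ 2 * (3 * x * Real.log (3 * x) ^ CD) := by
    refine sq_sum h1 _ (ann_disc hY2X) _ hlogx fun n hn => ?_
    by_cases hn1 : n ∈ ann M Y1
    · rw [if_pos hn1, norm_zero]
      positivity
    · rw [if_neg hn1]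
      exact he1 n (hB hn) (Or.inr hn)
  have s3 : ∑ z ∈ ann M Y2, ‖(if z ∈ ann M Y1 ∨ z ∈ ann M' Y2 then 0 else e z : ℂ)‖ ^ 2 ≤
      (1 / h) ^ 2 * (3 * x * Real.log (3 * x) ^ CD) := by
    refine sq_sum h1 _ (ann_disc hY2X) _ ht0.le fun n hn => ?_
    by_cases hn1 : n ∈ ann M Y1 ∨ n ∈ ann M' Y2
    · rw [if_pos hn1, norm_zero]
      positivity
    · rw [if_neg hn1]
      exact he2 n hn hn1
  -- the three mean values
  have m1 := h2 ι W χ k hF' hW' M Y1 e hM hMY1 (hY12.trans hY2X)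
  have m2 := h2 ι W χ k hF' hW' M' Y2 (fun z => if z ∈ ann M Y1 then 0 else e z) hM'0 hMY2 hY2X
  have m3 := h2 ι W χ k hF' hW' M Y2
    (fun z => if z ∈ ann M Y1 ∨ z ∈ ann M' Y2 then 0 else e z) hM (hMY1.trans hY12) hY2X
  have t1 := m1.trans (mul_le_mul (hshort M hM (hMM.trans hMx)) s1
    (Finset.sum_nonneg fun _ _ => sq_nonneg _) (by positivity))
  have t2 := m2.trans (mul_le_mul (hshort M' hM'0 hMx) s2
    (Finset.sum_nonneg fun _ _ => sq_nonneg _) (by positivity))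
  have t3 := m3.trans (mul_le_mul hlong s3
    (Finset.sum_nonneg fun _ _ => sq_nonneg _) (by positivity))
  have hmain : ∑ i ∈ W, ‖T2 (hk (χ i) (k i)) x U V M M' - MN (hk (χ i) (k i)) h U Q V M M'‖ ^ 2 ≤
      3 * (10 * x / h * ((Real.log x + 1) ^ 2 * (3 * x * Real.log (3 * x) ^ CD)) +
        10 * x / h * ((Real.log x + 1) ^ 2 * (3 * x * Real.log (3 * x) ^ CD)) +
        15 * x * ((1 / h) ^ 2 * (3 * x * Real.log (3 * x) ^ CD))) := by
    refine le_trans (Finset.sum_le_sum (g := fun i =>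
      3 * (‖∑ z ∈ ann M Y1, e z * hk (χ i) (k i) z‖ ^ 2 +
        ‖∑ z ∈ ann M' Y2, (if z ∈ ann M Y1 then 0 else e z) * hk (χ i) (k i) z‖ ^ 2 +
        ‖∑ z ∈ ann M Y2, (if z ∈ ann M Y1 ∨ z ∈ ann M' Y2 then 0 else e z) *
          hk (χ i) (k i) z‖ ^ 2)) fun i hi => ?_) ?_
    · obtain ⟨m, hm1, hm2⟩ := hF.chi i hi
      rw [hψ (hk (χ i) (k i)) (X.PARM.hk_mul hm2 (k i)),
        split e (hk (χ i) (k i)) (ann M Y1) (ann M' Y2) (ann M Y2) hA hB]
      exact three_sq _ _ _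
    · rw [← Finset.mul_sum, Finset.sum_add_distrib, Finset.sum_add_distrib]
      linarith
  exact hmain.trans (numer h3 hh1 hCD0 rfl le_rfl h4)

end Pool.Agent.Lib.MP391708.XB3
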