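import Pool.Agent.Lib.MP_391708_nt.X3.SpecVB
import Pool.Agent.Lib.MP_391708_nt.X.HM

/-!
# T2M: the separated type II sum in mean square
-/

set_option autoImplicit false

namespace Pool.Agent.Lib.MP391708.XB3

open Finset Filter Topology Pool.Agent.Lib.MP391708.MR
open Pool.Agent.Lib.MP391708.X (ChiG hk Dist Fam PI)
open scoped ComplexConjugate

namespace T2MM

lemma mono_fam {ι : Type} {W : Finset ι} {χ : ι → Gi → ℂ} {k : ι → ℤ} {Q K Q' K' : ℝ}
    (h : Fam W χ k Q K) (hQ : Q ≤ Q') (hK : K ≤ K') : Fam W χ k Q' K' where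
  chi i hi := by
    obtain ⟨m, hm, hm'⟩ := h.chi i hi
    exact ⟨m, hm.trans hQ, hm'⟩
  frq i hi := (h.frq i hi).trans hK
  dist := h.dist

open Classical in
/-- the coefficients -/
noncomputable def aa (V : ℝ) (z : Gi) : ℂ := if V < (nm z : ℝ) then ((AV V z : ℝ) : ℂ) else 0

lemma Bc_eq (ψ : Gi → ℂ) (V M M' h : ℝ) (v : ℕ) :
    Bc ψ V M M' h v = ∑ z ∈ ann (M * Real.exp (-(v / h))) (M' * Real.exp (-(v / h))),
      aa V z * ψ z := by
  unfold Bc aa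
  rw [sum_filter]
  refine sum_congr rfl fun z _ => ?_
  by_cases hz : V < (nm z : ℝ)
  · rw [if_pos hz, if_pos hz]
  · rw [if_neg hz, if_neg hz, zero_mul]

lemma aa_sq (hAVP : SpecAVP) {V y : ℝ} (hVy : V ≤ y) (z : Gi) :
    ‖aa V z‖ ^ 2 ≤ (16 : ℝ) ^ (oo y z) := by
  unfold aa
  split_ifs with h
  · rw [Complex.norm_real, Real.norm_eq_abs]
    have h1 := hAVP.2.2.1 V y z hVy
    calc |AV V z| ^ 2 ≤ ((2 : ℝ) ^ (oo y z)) ^ 2 := pow_le_pow_left₀ (abs_nonneg _) h1 2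
      _ = (4 : ℝ) ^ (oo y z) := by
          rw [← pow_mul, mul_comm, pow_mul]
          norm_num
      _ ≤ (16 : ℝ) ^ (oo y z) := pow_le_pow_left₀ (by norm_num) (by norm_num) _
  · rw [norm_zero, zero_pow two_ne_zero]
    positivity

lemma bc (hAVP : SpecAVP) {C' c' y V : ℝ}
    (hDV : ∑ z ∈ disc y, (16 : ℝ) ^ (oo y z) ≤ y * Real.log y ^ C') (hy : 1 ≤ y) (hVy : V ≤ y)
    (hc' : 0 ≤ c') {ι : Type} (W : Finset ι) (χ : ι → Gi → ℂ) (k : ι → ℤ)
    (hHM : ∀ (y0 y1 : ℝ) (a : Gi → ℂ), 0 ≤ y0 → y0 ≤ y1 → y1 ≤ y →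
      ∑ i ∈ W, ‖∑ z ∈ ann y0 y1, a z * hk (χ i) (k i) z‖ ^ 2 ≤
        (Real.pi * (y1 - y0) + y ^ (1 - c')) * ∑ z ∈ ann y0 y1, ‖a z‖ ^ 2)
    {M M' h : ℝ} {v : ℕ} (hM : 0 ≤ M) (hMM : M ≤ M') (hv : M' * Real.exp (-(v / h)) = y) :
    ∑ i ∈ W, ‖Bc (hk (χ i) (k i)) V M M' h v‖ ^ 2 ≤ 5 * y ^ 2 * Real.log y ^ C' := by
  have he := Real.exp_pos (-((v : ℝ) / h))
  simp_rw [Bc_eq]
  rw [hv]
  have h0 : 0 ≤ M * Real.exp (-((v : ℝ) / h)) := by positivity
  have h1 : M * Real.exp (-((v : ℝ) / h)) ≤ y := by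
    rw [← hv]
    exact mul_le_mul_of_nonneg_right hMM he.le
  refine (hHM _ _ (aa V) h0 h1 le_rfl).trans ?_
  have h2 : ∑ z ∈ ann (M * Real.exp (-((v : ℝ) / h))) y, ‖aa V z‖ ^ 2 ≤
      y * Real.log y ^ C' := by
    refine le_trans ?_ hDV
    calc ∑ z ∈ ann (M * Real.exp (-((v : ℝ) / h))) y, ‖aa V z‖ ^ 2
        ≤ ∑ z ∈ ann (M * Real.exp (-((v : ℝ) / h))) y, (16 : ℝ) ^ (oo y z) :=
          sum_le_sum fun z _ => aa_sq hAVP hVy z
      _ ≤ ∑ z ∈ disc y, (16 : ℝ) ^ (oo y z) :=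
          sum_le_sum_of_subset_of_nonneg (ann_subset_disc _ _) fun z _ _ => by positivity
  have h3 : y ^ (1 - c') ≤ y := by
    calc y ^ (1 - c') ≤ y ^ (1 : ℝ) := Real.rpow_le_rpow_of_exponent_le hy (by linarith)
      _ = y := Real.rpow_one y
  have h4 : Real.pi * (y - M * Real.exp (-((v : ℝ) / h))) + y ^ (1 - c') ≤ 5 * y := by
    have := Real.pi_le_four
    have := Real.pi_pos
    nlinarith
  have h5 : 0 ≤ Real.log y := Real.log_nonneg hy
  have h6 : 0 ≤ ∑ z ∈ ann (M * Real.exp (-((v : ℝ) / h))) y, ‖aa V z‖ ^ 2 :=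
    sum_nonneg fun z _ => by positivity
  calc (Real.pi * (y - M * Real.exp (-((v : ℝ) / h))) + y ^ (1 - c')) *
        ∑ z ∈ ann (M * Real.exp (-((v : ℝ) / h))) y, ‖aa V z‖ ^ 2
      ≤ (5 * y) * (y * Real.log y ^ C') := by
        apply mul_le_mul h4 h2 h6
        positivity
    _ = 5 * y ^ 2 * Real.log y ^ C' := by ring

theorem main (hDVM : SpecDVM) (hAVP : SpecAVP) (hHMT : X.SpecHMT) : SpecT2M := by
  classical
  intro d hd hd1
  obtain ⟨C', hC', hDV⟩ := hDVM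
  have hA : 1 ≤ 3 / d := by
    rw [le_div_iff₀ hd]
    linarith
  obtain ⟨c', hc'0, hc'1, hHM⟩ := hHMT (3 / d) hA
  refine ⟨C' + 5, d * c', by positivity, by positivity, by nlinarith, ?_⟩
  obtain ⟨Y0, hY0⟩ := eventually_atTop.1 (hDV.and hHM)
  filter_upwards [(tendsto_rpow_atTop hd).eventually_ge_atTop Y0, eventually_gt_atTop 1,
    Real.tendsto_log_atTop.eventually_ge_atTop 20] with x hxY hx1 hxl
  intro ι W χ k hF hW U V Q M M' h δ hh hU hV hM hMM hM'x hδ hP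
  set l := Real.log x with hl
  have hx0 : 0 < x := by linarith
  have hxd1 : 1 ≤ x ^ d := Real.one_le_rpow hx1.le hd.le
  have hV1 : 1 ≤ V := hxd1.trans hV
  set G := (VV h U Q).filter (fun v : ℕ => V < M' * Real.exp (-((v : ℝ) / h))) with hG
  -- the size of the other cells
  have hBc0 : ∀ (ψ : Gi → ℂ) (v : ℕ), v ∉ G → v ∈ VV h U Q → Bc ψ V M M' h v = 0 := by
    intro ψ v hv hv'
    unfold Bc
    have h1 : M' * Real.exp (-((v : ℝ) / h)) ≤ V := by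
      by_contra hc
      exact hv (mem_filter.2 ⟨hv', not_le.1 hc⟩)
    apply sum_eq_zero
    intro b hb
    rw [mem_filter, mem_ann] at hb
    exfalso
    linarith [hb.1.2.2, hb.2]
  have hGv : ∀ v ∈ G, (v : ℝ) / h ≤ l := by
    intro v hv
    rw [hG, mem_filter] at hv
    have h1 := hv.2
    have h2 : 1 < x * Real.exp (-((v : ℝ) / h)) := by
      have he := Real.exp_pos (-((v : ℝ) / h))
      have h3 : M' * Real.exp (-((v : ℝ) / h)) ≤ x * Real.exp (-((v : ℝ) / h)) :=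
        mul_le_mul_of_nonneg_right hM'x he.le
      linarith
    have h3 : Real.exp ((v : ℝ) / h) < x := by
      rw [Real.exp_neg] at h2
      rw [← div_eq_mul_inv, one_lt_div (Real.exp_pos _)] at h2
      exact h2
    have h4 := (Real.lt_log_iff_exp_lt hx0).2 h3
    exact h4.le
  have hGcard : (G.card : ℝ) ≤ 2 * h * l := by
    have h1 : G ⊆ range (⌊h * l⌋₊ + 1) := by
      intro v hv
      rw [mem_range]
      apply Nat.lt_succ_of_le
      apply Nat.le_floor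
      have := hGv v hv
      rw [div_le_iff₀ (by linarith)] at this
      linarith
    have h2 : G.card ≤ ⌊h * l⌋₊ + 1 := by
      have := card_le_card h1
      rwa [card_range] at this
    have h3 : (G.card : ℝ) ≤ ⌊h * l⌋₊ + 1 := by exact_mod_cast h2
    have h4 : (⌊h * l⌋₊ : ℝ) ≤ h * l := Nat.floor_le (by nlinarith)
    nlinarith
  -- one character
  have hone : ∀ i ∈ W, ‖MN (hk (χ i) (k i)) h U Q V M M'‖ ^ 2 ≤
      (G.card : ℝ) * ∑ v ∈ G, (l ^ 2 * δ ^ 2 * Real.exp ((v : ℝ) / h) ^ 2) *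
        ‖Bc (hk (χ i) (k i)) V M M' h v‖ ^ 2 := by
    intro i hi
    have h1 : MN (hk (χ i) (k i)) h U Q V M M' = ∑ v ∈ G, (((v : ℝ) / h : ℝ) : ℂ) *
        Pc (hk (χ i) (k i)) h U Q v * Bc (hk (χ i) (k i)) V M M' h v := by
      unfold MN
      symm
      apply sum_subset (filter_subset _ _)
      intro v hv hv'
      rw [hBc0 _ v hv' hv, mul_zero]
    rw [h1]
    have h2 : ‖∑ v ∈ G, (((v : ℝ) / h : ℝ) : ℂ) * Pc (hk (χ i) (k i)) h U Q v *
        Bc (hk (χ i) (k i)) V M M' h v‖ ^ 2 ≤ (∑ v ∈ G, ‖(((v : ℝ) / h : ℝ) : ℂ) *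
          Pc (hk (χ i) (k i)) h U Q v * Bc (hk (χ i) (k i)) V M M' h v‖) ^ 2 :=
      pow_le_pow_left₀ (norm_nonneg _) (norm_sum_le _ _) 2
    refine h2.trans ((sq_sum_le_card_mul_sum_sq (s := G)).trans ?_)
    apply mul_le_mul_of_nonneg_left _ (Nat.cast_nonneg _)
    refine sum_le_sum fun v hv => ?_
    have h3 := hGv v hv
    have h4 := hP i hi v (mem_filter.1 hv).1
    have h5 : (0 : ℝ) ≤ (v : ℝ) / h := by positivity
    rw [norm_mul, norm_mul, mul_pow, Complex.norm_real, Real.norm_eq_abs, abs_of_nonneg h5]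
    apply mul_le_mul_of_nonneg_right _ (by positivity)
    have h6 : (v : ℝ) / h * ‖Pc (hk (χ i) (k i)) h U Q v‖ ≤ l * (δ * Real.exp ((v : ℝ) / h)) :=
      mul_le_mul h3 h4 (norm_nonneg _) (by linarith)
    calc ((v : ℝ) / h * ‖Pc (hk (χ i) (k i)) h U Q v‖) ^ 2
        ≤ (l * (δ * Real.exp ((v : ℝ) / h))) ^ 2 := pow_le_pow_left₀ (by positivity) h6 2
      _ = l ^ 2 * δ ^ 2 * Real.exp ((v : ℝ) / h) ^ 2 := by ring
  -- the mean square of `Bc`
  have hBc : ∀ v ∈ G, Real.exp ((v : ℝ) / h) ^ 2 *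
      ∑ i ∈ W, ‖Bc (hk (χ i) (k i)) V M M' h v‖ ^ 2 ≤ 5 * x ^ 2 * l ^ C' := by
    intro v hv
    have hv2 := (mem_filter.1 hv).2
    set y := M' * Real.exp (-((v : ℝ) / h)) with hy
    have hyV : V ≤ y := hv2.le
    have hyd : x ^ d ≤ y := hV.trans hyV
    have hy1 : 1 ≤ y := hV1.trans hyV
    have hyx : y ≤ x := by
      have h1 : Real.exp (-((v : ℝ) / h)) ≤ 1 := by
        rw [Real.exp_le_one_iff]
        have : (0 : ℝ) ≤ (v : ℝ) / h := by positivity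
        linarith
      have h2 : 0 ≤ M' := hM.trans hMM
      calc y = M' * Real.exp (-((v : ℝ) / h)) := hy
        _ ≤ M' * 1 := mul_le_mul_of_nonneg_left h1 h2
        _ ≤ x := by linarith
    obtain ⟨hD1, hH1⟩ := hY0 y (hxY.trans hyd)
    have e1 : x ^ (d * c') ≤ y ^ c' := by
      rw [Real.rpow_mul hx0.le]
      exact Real.rpow_le_rpow (by positivity) hyd hc'0.le
    have e2 : x ^ (3 : ℝ) ≤ y ^ (3 / d) := by
      have h1 : x ^ (3 : ℝ) = (x ^ d) ^ (3 / d) := by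
        rw [← Real.rpow_mul hx0.le]
        congr 1
        field_simp
      rw [h1]
      exact Real.rpow_le_rpow (by positivity) hyd (by positivity)
    have h1 := bc hAVP hD1 hy1 hyV hc'0.le W χ k
      (fun y0 y1 a h0 h1 h2 => hH1 ι W χ k (mono_fam hF e1 e2) (hW.trans e1) y0 y1 a h0 h1 h2)
      hM hMM hy.symm
    have h2 : Real.exp ((v : ℝ) / h) * y = M' := by
      rw [hy, mul_comm, mul_assoc, ← Real.exp_add]
      simp
    have h3 : Real.log y ^ C' ≤ l ^ C' := by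
      apply Real.rpow_le_rpow (Real.log_nonneg hy1) _ hC'.le
      exact Real.log_le_log (by linarith) hyx
    have h4 : M' ^ 2 ≤ x ^ 2 := pow_le_pow_left₀ (hM.trans hMM) hM'x 2
    calc Real.exp ((v : ℝ) / h) ^ 2 * ∑ i ∈ W, ‖Bc (hk (χ i) (k i)) V M M' h v‖ ^ 2
        ≤ Real.exp ((v : ℝ) / h) ^ 2 * (5 * y ^ 2 * Real.log y ^ C') :=
          mul_le_mul_of_nonneg_left h1 (by positivity)
      _ = 5 * (Real.exp ((v : ℝ) / h) * y) ^ 2 * Real.log y ^ C' := by ring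
      _ = 5 * M' ^ 2 * Real.log y ^ C' := by rw [h2]
      _ ≤ 5 * x ^ 2 * l ^ C' := by
          apply mul_le_mul _ h3 (Real.rpow_nonneg (Real.log_nonneg hy1) _) (by positivity)
          linarith
  have hlC : (0 : ℝ) ≤ l ^ C' := Real.rpow_nonneg (by linarith) _
  have hG0 : (0 : ℝ) ≤ (G.card : ℝ) := Nat.cast_nonneg _
  calc ∑ i ∈ W, ‖MN (hk (χ i) (k i)) h U Q V M M'‖ ^ 2
      ≤ ∑ i ∈ W, (G.card : ℝ) * ∑ v ∈ G, (l ^ 2 * δ ^ 2 * Real.exp ((v : ℝ) / h) ^ 2) *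
        ‖Bc (hk (χ i) (k i)) V M M' h v‖ ^ 2 := sum_le_sum hone
    _ = (G.card : ℝ) * ∑ v ∈ G, (l ^ 2 * δ ^ 2) * (Real.exp ((v : ℝ) / h) ^ 2 *
        ∑ i ∈ W, ‖Bc (hk (χ i) (k i)) V M M' h v‖ ^ 2) := by
        rw [← mul_sum, sum_comm]
        congr 1
        refine sum_congr rfl fun v _ => ?_
        rw [← mul_sum]
        ring
    _ ≤ (G.card : ℝ) * ∑ _v ∈ G, (l ^ 2 * δ ^ 2) * (5 * x ^ 2 * l ^ C') := by
        apply mul_le_mul_of_nonneg_left _ hG0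
        exact sum_le_sum fun v hv => mul_le_mul_of_nonneg_left (hBc v hv) (by positivity)
    _ = (G.card : ℝ) ^ 2 * ((l ^ 2 * δ ^ 2) * (5 * x ^ 2 * l ^ C')) := by
        rw [sum_const, nsmul_eq_mul]
        ring
    _ ≤ (2 * h * l) ^ 2 * ((l ^ 2 * δ ^ 2) * (5 * x ^ 2 * l ^ C')) := by
        apply mul_le_mul_of_nonneg_right _ (by positivity)
        exact pow_le_pow_left₀ hG0 hGcard 2
    _ = δ ^ 2 * h ^ 2 * x ^ 2 * (20 * l ^ 4 * l ^ C') := by ring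
    _ ≤ δ ^ 2 * h ^ 2 * x ^ 2 * l ^ (C' + 5) := by
        apply mul_le_mul_of_nonneg_left _ (by positivity)
        have h1 : l ^ (C' + 5) = l ^ C' * l ^ 5 := by
          rw [Real.rpow_add (by linarith)]
          congr 1
          exact_mod_cast Real.rpow_natCast l 5
        rw [h1]
        have h2 : 20 * l ^ 4 ≤ l ^ 5 := by
          calc 20 * l ^ 4 ≤ l * l ^ 4 := mul_le_mul_of_nonneg_right hxl (by positivity)
            _ = l ^ 5 := by ring
        calc 20 * l ^ 4 * l ^ C' ≤ l ^ 5 * l ^ C' := mul_le_mul_of_nonneg_right h2 hlC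
          _ = l ^ C' * l ^ 5 := by ring

end T2MM

theorem specT2M (hDVM : SpecDVM) (hAVP : SpecAVP) : SpecT2M :=
  T2MM.main hDVM hAVP X.hm_hmt

end Pool.Agent.Lib.MP391708.XB3
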