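import Pool.Agent.Lib.MP_391708_nt.X3.SpecVB
import Pool.Agent.Lib.MP_391708_nt.MR.Basic

/-!
# THEOREM X3 (MP_391708), part VB, module TYI: the type I sums
-/

set_option autoImplicit false

namespace Pool.Agent.Lib.MP391708.XB3

open Finset Filter Topology Pool.Agent.Lib.MP391708.MR
open Pool.Agent.Lib.MP391708.X (ChiG hk Dist Fam PI)
open scoped ComplexConjugate

namespace TYIM

/-- the sum of `FF` over the multiples of `d` -/
lemma FF_sum (ψ : Gi → ℂ) (hmul : ∀ u v, ψ (u * v) = ψ u * ψ v) {x M M' : ℝ} (hM' : 0 ≤ M') (hx : M' ≤ x)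
    {d : Gi} (hd : d ≠ 0) (g : Gi → ℂ) :
    ∑ c ∈ disc x, g c * FF ψ M M' (d * c) =
      ψ d * ∑ c ∈ ann (M / nm d) (M' / nm d), g c * ψ c := by
  classical
  have hn := nm_posR hd
  have hn1 := one_le_nm hd
  have hsub : ann (M / nm d) (M' / nm d) ⊆ disc x := by
    intro c hc
    obtain ⟨h1, -, h3⟩ := mem_ann.1 hc
    refine mem_disc.2 ⟨h1, h3.trans (le_trans ?_ hx)⟩
    exact div_le_self hM' hn1
  have hiff : ∀ c : Gi, c ≠ 0 → (c ∈ ann (M / nm d) (M' / nm d) ↔
      (M < (nm (d * c) : ℝ) ∧ (nm (d * c) : ℝ) ≤ M')) := by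
    intro c hc
    rw [mem_ann, nm_mul]
    push_cast
    rw [div_lt_iff₀ hn, le_div_iff₀ hn, mul_comm (nm c : ℝ)]
    constructor
    · rintro ⟨-, h⟩; exact h
    · intro h; exact ⟨hc, h⟩
  rw [Finset.mul_sum]
  rw [← Finset.sum_subset hsub (f := fun c => g c * FF ψ M M' (d * c))]
  · refine Finset.sum_congr rfl fun c hc => ?_
    have h1 := (hiff c (mem_ann.1 hc).1).1 hc
    unfold FF
    rw [if_pos h1, hmul]
    ring
  · intro c hc hc'
    have h1 := fun h => hc' ((hiff c (mem_disc.1 hc).1).2 h)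
    unfold FF
    rw [if_neg h1, mul_zero]

/-- the sum over an annulus -/
lemma ann_sum (ψ : Gi → ℂ) {x E : ℝ} (hE : ∀ Y : ℝ, 0 ≤ Y → Y ≤ x → ‖∑ z ∈ disc Y, ψ z‖ ≤ E)
    {a a' : ℝ} (h0 : 0 ≤ a) (h1 : a ≤ a') (h2 : a' ≤ x) : ‖∑ z ∈ ann a a', ψ z‖ ≤ 2 * E := by
  classical
  have e1 : ∑ z ∈ ann a a', ψ z = ∑ z ∈ disc a', ψ z - ∑ z ∈ disc a, ψ z := by
    rw [disc_union h1, Finset.sum_union (disc_disjoint a a')]
    ring
  rw [e1]
  have h3 := hE a' (h0.trans h1) h2
  have h4 := hE a h0 (h1.trans h2)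
  have h5 := norm_sub_le (∑ z ∈ disc a', ψ z) (∑ z ∈ disc a, ψ z)
  linarith

/-- the logarithm as a sum -/
lemma log_sum {N k : ℕ} (hk : 1 ≤ k) (hkN : k ≤ N) :
    Real.log k = ∑ j ∈ range (N - 1), if j + 2 ≤ k then
      (Real.log ((j : ℝ) + 2) - Real.log ((j : ℝ) + 1)) else 0 := by
  rw [← Finset.sum_filter]
  have h1 : (range (N - 1)).filter (fun j => j + 2 ≤ k) = range (k - 1) := by
    ext j; simp only [mem_filter, mem_range]; omega
  rw [h1]
  have h2 := Finset.sum_range_sub (fun j : ℕ => Real.log ((j : ℝ) + 1)) (k - 1)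
  simp only [Nat.cast_add, Nat.cast_one, Nat.cast_zero, zero_add, Real.log_one, sub_zero] at h2
  have h3 : ((k - 1 : ℕ) : ℝ) + 1 = k := by
    have : (k - 1) + 1 = k := by omega
    exact_mod_cast this
  rw [h3] at h2
  rw [← h2]
  refine Finset.sum_congr rfl fun j _ => ?_
  have h4 : (j : ℝ) + 1 + 1 = (j : ℝ) + 2 := by ring
  rw [h4]

end TYIM

open TYIM in
theorem specTYI : SpecTYI := by
  classical
  intro ψ x E M M' hmul hle hx hM hMM hM'x d hd hE
  have hn := nm_posR hd
  have hn1 := one_le_nm hd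
  have hM' : 0 ≤ M' := hM.trans hMM
  set a := M / nm d with ha
  set a' := M' / nm d with ha'
  have a0 : 0 ≤ a := div_nonneg hM hn.le
  have aa : a ≤ a' := div_le_div_of_nonneg_right hMM hn.le
  have hE0 : 0 ≤ E := (norm_nonneg _).trans (hE 0 le_rfl (a0.trans aa))
  have ax : a' ≤ x := (div_le_self hM' hn1).trans hM'x
  constructor
  · have h1 := FF_sum ψ hmul (M := M) hM' hM'x hd (fun _ => 1)
    simp only [one_mul] at h1
    rw [h1, norm_mul]
    have h2 := ann_sum ψ hE a0 aa le_rfl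
    calc ‖ψ d‖ * ‖∑ c ∈ ann a a', ψ c‖ ≤ 1 * (2 * E) :=
          mul_le_mul (hle d) h2 (norm_nonneg _) zero_le_one
      _ = 2 * E := one_mul _
  · rw [FF_sum ψ hmul (M := M) hM' hM'x hd (fun m => ((Real.log (nm m) : ℝ) : ℂ)), norm_mul]
    set N := ⌊x⌋₊ with hN
    have hN1 : 1 ≤ N := by
      rw [hN]; exact Nat.le_floor (by simpa using hx)
    set w : ℕ → ℝ := fun j => Real.log ((j : ℝ) + 2) - Real.log ((j : ℝ) + 1) with hw
    have hw0 : ∀ j, 0 ≤ w j := by
      intro j
      rw [hw]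
      simp only [sub_nonneg]
      exact Real.log_le_log (by positivity) (by linarith)
    have e1 : ∑ c ∈ ann a a', ((Real.log (nm c) : ℝ) : ℂ) * ψ c =
        ∑ j ∈ range (N - 1), ((w j : ℝ) : ℂ) * ∑ c ∈ (ann a a').filter (fun c => j + 2 ≤ nm c), ψ c := by
      have e2 : ∀ c ∈ ann a a', ((Real.log (nm c) : ℝ) : ℂ) * ψ c =
          ∑ j ∈ range (N - 1), if j + 2 ≤ nm c then ((w j : ℝ) : ℂ) * ψ c else 0 := by
        intro c hc
        obtain ⟨h1, -, h3⟩ := mem_ann.1 hc
        have h4 : nm c ≤ N := by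
          rw [hN]; exact Nat.le_floor (h3.trans ax)
        rw [log_sum (nm_pos h1) h4]
        push_cast
        rw [Finset.sum_mul]
        refine Finset.sum_congr rfl fun j _ => ?_
        split_ifs
        · rw [hw]
        · simp
      rw [Finset.sum_congr rfl e2, Finset.sum_comm]
      refine Finset.sum_congr rfl fun j _ => ?_
      rw [Finset.mul_sum, Finset.sum_filter]
    have e3 : ∀ j : ℕ, ‖∑ c ∈ (ann a a').filter (fun c => j + 2 ≤ nm c), ψ c‖ ≤ 2 * E := by
      intro j
      set b := max a ((j : ℝ) + 1) with hb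
      by_cases hba : b ≤ a'
      · have h1 : (ann a a').filter (fun c => j + 2 ≤ nm c) = ann b a' := by
          ext c
          rw [mem_filter, mem_ann, mem_ann, hb, max_lt_iff]
          constructor
          · rintro ⟨⟨h1, h2, h3⟩, h4⟩
            refine ⟨h1, ⟨h2, ?_⟩, h3⟩
            have : ((j + 2 : ℕ) : ℝ) ≤ nm c := by exact_mod_cast h4
            push_cast at this
            linarith
          · rintro ⟨h1, ⟨h2, h4⟩, h3⟩
            refine ⟨⟨h1, h2, h3⟩, ?_⟩
            have : ((j + 1 : ℕ) : ℝ) < nm c := by push_cast; exact h4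
            have h5 : j + 1 < nm c := by exact_mod_cast this
            omega
        rw [h1]
        exact ann_sum ψ hE (a0.trans (le_max_left _ _)) hba le_rfl
      · have h1 : (ann a a').filter (fun c => j + 2 ≤ nm c) = ∅ := by
          rw [Finset.filter_eq_empty_iff]
          intro c hc h4
          obtain ⟨-, h2, h3⟩ := mem_ann.1 hc
          apply hba
          rw [hb]
          have : ((j + 2 : ℕ) : ℝ) ≤ nm c := by exact_mod_cast h4
          push_cast at this
          exact max_le (by linarith) (by linarith)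
        rw [h1]
        simp only [Finset.sum_empty, norm_zero]
        linarith
    have e4 : ‖∑ c ∈ ann a a', ((Real.log (nm c) : ℝ) : ℂ) * ψ c‖ ≤ 2 * Real.log x * E := by
      rw [e1]
      refine (norm_sum_le _ _).trans ?_
      have e5 : ∀ j ∈ range (N - 1), ‖((w j : ℝ) : ℂ) * ∑ c ∈ (ann a a').filter (fun c => j + 2 ≤ nm c), ψ c‖ ≤
          w j * (2 * E) := by
        intro j _
        rw [norm_mul, Complex.norm_real, Real.norm_of_nonneg (hw0 j)]
        exact mul_le_mul_of_nonneg_left (e3 j) (hw0 j)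
      refine (Finset.sum_le_sum e5).trans ?_
      rw [← Finset.sum_mul]
      have e6 : ∑ j ∈ range (N - 1), w j = Real.log N := by
        have h1 := log_sum hN1 (le_refl N)
        rw [h1]
        refine Finset.sum_congr rfl fun j hj => ?_
        rw [if_pos]
        have := mem_range.1 hj
        omega
      rw [e6]
      have e7 : Real.log N ≤ Real.log x := by
        refine Real.log_le_log (by exact_mod_cast hN1) ?_
        rw [hN]; exact Nat.floor_le (by linarith)
      nlinarith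
    calc ‖ψ d‖ * ‖∑ c ∈ ann a a', ((Real.log (nm c) : ℝ) : ℂ) * ψ c‖ ≤ 1 * (2 * Real.log x * E) :=
          mul_le_mul (hle d) e4 (norm_nonneg _) zero_le_one
      _ = 2 * Real.log x * E := one_mul _

end Pool.Agent.Lib.MP391708.XB3
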