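import Pool.Agent.Lib.MP_391708_nt.X3.SpecVB
import Pool.Agent.Lib.MP_391708_nt.MR.Basic

/-!
# THEOREM X3 (MP_391708), part VB, module UNW: the weight `log nm π` is removed

Partial summation with nonnegative weights of sum at most one, and Cauchy.
-/

set_option autoImplicit false

namespace Pool.Agent.Lib.MP391708.XB3

open Finset Filter Topology Pool.Agent.Lib.MP391708.MR
open Pool.Agent.Lib.MP391708.X (ChiG hk Dist Fam PI)

namespace UNWM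

/-- `1 / log j`, cut off after `J` -/
noncomputable def g (J j : ℕ) : ℝ := if j ≤ J then 1 / Real.log j else 0

theorem g_anti {J j : ℕ} (hj : 3 ≤ j) : g J (j + 1) ≤ g J j := by
  unfold g
  have h3 : (1 : ℝ) < j := by exact_mod_cast (by omega : 1 < j)
  have hl : 0 < Real.log j := Real.log_pos h3
  split_ifs with h1 h2 h2
  · exact one_div_le_one_div_of_le hl (Real.log_le_log (by linarith) (by push_cast; linarith))
  · omega
  · positivity
  · exact le_rfl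

theorem g_le_one {J j : ℕ} (hj : 3 ≤ j) : g J j ≤ 1 := by
  unfold g
  split_ifs with h
  · have hj' : (3 : ℝ) ≤ j := by exact_mod_cast hj
    have h1 : (1 : ℝ) ≤ Real.log j := by
      rw [Real.le_log_iff_exp_le (by linarith)]
      have := Real.exp_one_lt_d9
      linarith
    rw [div_le_one (by linarith)]
    exact h1
  · exact zero_le_one

/-- telescoping -/
theorem g_tel {J n : ℕ} (hn : n ≤ J + 1) : ∑ j ∈ Ico n (J + 1), (g J j - g J (j + 1)) = g J n := by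
  have h := Finset.sum_Ico_sub (fun j => -g J j) hn
  have h2 : g J (J + 1) = 0 := by
    unfold g
    rw [if_neg (by omega)]
  have h3 : ∑ j ∈ Ico n (J + 1), (g J j - g J (j + 1)) =
      ∑ j ∈ Ico n (J + 1), (-g J (j + 1) - -g J j) := sum_congr rfl fun j _ => by ring
  rw [h3, h, h2]
  ring

/-- Cauchy for nonnegative weights -/
theorem cauchy {κ : Type} (T : Finset κ) (w : κ → ℝ) (θ : κ → ℂ) (hw : ∀ t ∈ T, 0 ≤ w t)
    (h1 : ∑ t ∈ T, w t ≤ 1) : ‖∑ t ∈ T, ((w t : ℝ) : ℂ) * θ t‖ ^ 2 ≤ ∑ t ∈ T, w t * ‖θ t‖ ^ 2 := by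
  have h2 : ‖∑ t ∈ T, ((w t : ℝ) : ℂ) * θ t‖ ≤ ∑ t ∈ T, w t * ‖θ t‖ := by
    refine (norm_sum_le _ _).trans (le_of_eq (sum_congr rfl fun t ht => ?_))
    rw [norm_mul, Complex.norm_real, Real.norm_eq_abs, abs_of_nonneg (hw t ht)]
  have h3 : (∑ t ∈ T, w t * ‖θ t‖) ^ 2 ≤ (∑ t ∈ T, w t) * ∑ t ∈ T, w t * ‖θ t‖ ^ 2 := by
    have h := Finset.sum_mul_sq_le_sq_mul_sq T (fun t => Real.sqrt (w t))
      (fun t => Real.sqrt (w t) * ‖θ t‖)
    have e1 : ∑ t ∈ T, Real.sqrt (w t) * (Real.sqrt (w t) * ‖θ t‖) = ∑ t ∈ T, w t * ‖θ t‖ :=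
      sum_congr rfl fun t ht => by rw [← mul_assoc, Real.mul_self_sqrt (hw t ht)]
    have e2 : ∑ t ∈ T, Real.sqrt (w t) ^ 2 = ∑ t ∈ T, w t :=
      sum_congr rfl fun t ht => Real.sq_sqrt (hw t ht)
    have e3 : ∑ t ∈ T, (Real.sqrt (w t) * ‖θ t‖) ^ 2 = ∑ t ∈ T, w t * ‖θ t‖ ^ 2 :=
      sum_congr rfl fun t ht => by rw [mul_pow, Real.sq_sqrt (hw t ht)]
    rw [e1, e2, e3] at h
    exact h
  have h4 : 0 ≤ ∑ t ∈ T, w t * ‖θ t‖ ^ 2 :=
    sum_nonneg fun t ht => mul_nonneg (hw t ht) (sq_nonneg _)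
  calc ‖∑ t ∈ T, ((w t : ℝ) : ℂ) * θ t‖ ^ 2 ≤ (∑ t ∈ T, w t * ‖θ t‖) ^ 2 :=
        pow_le_pow_left₀ (norm_nonneg _) h2 2
    _ ≤ (∑ t ∈ T, w t) * ∑ t ∈ T, w t * ‖θ t‖ ^ 2 := h3
    _ ≤ 1 * ∑ t ∈ T, w t * ‖θ t‖ ^ 2 := mul_le_mul_of_nonneg_right h1 h4
    _ = _ := one_mul _

/-- partial summation -/
theorem psum (M M' : ℝ) (hM : 3 ≤ M) (a : Gi → ℂ) :
    ∑ π ∈ GP M M', a π = ∑ j ∈ Ico (⌊M⌋₊ + 1) (⌊M'⌋₊ + 1),
      ((g ⌊M'⌋₊ j - g ⌊M'⌋₊ (j + 1) : ℝ) : ℂ) *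
        ∑ π ∈ GP M j, ((Real.log (nm π) : ℝ) : ℂ) * a π := by
  classical
  set J := ⌊M'⌋₊ with hJ
  set m := ⌊M⌋₊ + 1 with hm
  -- the inner sum as a filtered sum
  have h1 : ∀ j ∈ Ico m (J + 1), GP M (j : ℝ) = (GP M M').filter (fun π => nm π ≤ j) := by
    intro j hj
    rw [mem_Ico] at hj
    have hj0 : 1 ≤ j := by omega
    have hjM : (j : ℝ) ≤ M' := by
      have : j ≤ J := by omega
      exact (Nat.le_floor_iff' (by omega)).mp this
    ext π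
    rw [mem_filter, mem_GP, mem_GP]
    constructor
    · rintro ⟨a1, a2, a3, a4, a5, a6⟩
      exact ⟨⟨a1, a2, a3, a4, a5, a6.trans hjM⟩, by exact_mod_cast a6⟩
    · rintro ⟨⟨a1, a2, a3, a4, a5, a6⟩, a7⟩
      exact ⟨a1, a2, a3, a4, a5, by exact_mod_cast a7⟩
  have h2 : ∀ j ∈ Ico m (J + 1), ((g J j - g J (j + 1) : ℝ) : ℂ) *
        ∑ π ∈ GP M j, ((Real.log (nm π) : ℝ) : ℂ) * a π =
      ∑ π ∈ GP M M', if nm π ≤ j then ((g J j - g J (j + 1) : ℝ) : ℂ) *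
        (((Real.log (nm π) : ℝ) : ℂ) * a π) else 0 := by
    intro j hj
    rw [h1 j hj, mul_sum, sum_filter]
  rw [sum_congr rfl h2, sum_comm]
  refine sum_congr rfl fun π hπ => ?_
  rw [mem_GP] at hπ
  obtain ⟨-, -, -, -, hπ1, hπ2⟩ := hπ
  have hm1 : m ≤ nm π := by
    have : ⌊M⌋₊ < nm π := by
      rw [Nat.floor_lt (by linarith)]
      exact hπ1
    omega
  have hnJ : nm π ≤ J := Nat.le_floor hπ2
  have hn1 : (1 : ℝ) < (nm π : ℝ) := by linarith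
  have hl : 0 < Real.log (nm π : ℝ) := Real.log_pos hn1
  rw [← sum_filter]
  have h3 : (Ico m (J + 1)).filter (fun j => nm π ≤ j) = Ico (nm π) (J + 1) := by
    ext j
    rw [mem_filter, mem_Ico, mem_Ico]
    omega
  rw [h3, ← sum_mul, ← Complex.ofReal_sum, g_tel (by omega), ← mul_assoc, ← Complex.ofReal_mul]
  have h4 : g J (nm π) * Real.log (nm π : ℝ) = 1 := by
    unfold g
    rw [if_pos hnJ, one_div, inv_mul_cancel₀ hl.ne']
  rw [h4, Complex.ofReal_one, one_mul]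

end UNWM

open UNWM in
/-- UNW. -/
theorem specUNW : SpecUNW := by
  intro ι W a M M' D hM hMM hD h
  set J := ⌊M'⌋₊ with hJ
  set m := ⌊M⌋₊ + 1 with hm
  have hm4 : 4 ≤ m := by
    have : 3 ≤ ⌊M⌋₊ := Nat.le_floor (by exact_mod_cast hM)
    omega
  have hmJ : m ≤ J + 1 := by
    have : ⌊M⌋₊ ≤ ⌊M'⌋₊ := Nat.floor_le_floor hMM
    omega
  have hw : ∀ j ∈ Ico m (J + 1), 0 ≤ g J j - g J (j + 1) := by
    intro j hj
    rw [mem_Ico] at hj
    have := g_anti (J := J) (j := j) (by omega)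
    linarith
  have hs : ∑ j ∈ Ico m (J + 1), (g J j - g J (j + 1)) ≤ 1 := by
    rw [g_tel hmJ]
    exact g_le_one (by omega)
  calc ∑ i ∈ W, ‖∑ π ∈ GP M M', a i π‖ ^ 2
      ≤ ∑ i ∈ W, ∑ j ∈ Ico m (J + 1), (g J j - g J (j + 1)) *
          ‖∑ π ∈ GP M j, ((Real.log (nm π) : ℝ) : ℂ) * a i π‖ ^ 2 := by
        refine sum_le_sum fun i _ => ?_
        rw [psum M M' hM (a i)]
        exact cauchy _ _ _ hw hs
    _ = ∑ j ∈ Ico m (J + 1), (g J j - g J (j + 1)) *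
          ∑ i ∈ W, ‖∑ π ∈ GP M j, ((Real.log (nm π) : ℝ) : ℂ) * a i π‖ ^ 2 := by
        rw [sum_comm]
        exact sum_congr rfl fun j _ => by rw [mul_sum]
    _ ≤ ∑ j ∈ Ico m (J + 1), (g J j - g J (j + 1)) * D := by
        refine sum_le_sum fun j hj => mul_le_mul_of_nonneg_left ?_ (hw j hj)
        rw [mem_Ico] at hj
        refine h j ?_ ?_
        · have := Nat.lt_floor_add_one M
          have h1 : (m : ℝ) ≤ j := by exact_mod_cast hj.1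
          rw [hm] at h1
          push_cast at h1
          linarith
        · exact (Nat.le_floor_iff' (by omega)).mp (by omega : j ≤ J)
    _ = (∑ j ∈ Ico m (J + 1), (g J j - g J (j + 1))) * D := by rw [sum_mul]
    _ ≤ 1 * D := mul_le_mul_of_nonneg_right hs hD
    _ = D := one_mul D

end Pool.Agent.Lib.MP391708.XB3
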