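import Pool.Agent.Lib.MP_391708_nt.X3.SpecVB
import Pool.Agent.Lib.MP_391708_nt.X.VPL

/-!
# THEOREM X3 (MP_391708), part VB, module VAU: Vaughan's identity
-/

set_option autoImplicit false

namespace Pool.Agent.Lib.MP391708.XB3

open Finset Filter Topology Pool.Agent.Lib.MP391708.MR
open Pool.Agent.Lib.MP391708.X (ChiG hk Dist Fam PI)
open scoped ComplexConjugate

namespace VAUM

open scoped Classical in
/-- Change of variables `m = d c`. -/
theorem chg (x : ℝ) (d : Gi) (hd : d ≠ 0) (G : Gi → ℂ) (hG : ∀ z, G z ≠ 0 → z ∈ disc x) :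
    ∑ m ∈ (disc x).filter (fun m => d ∣ m), G m = ∑ c ∈ disc x, G (d * c) := by
  have h1 : ∑ c ∈ disc x, G (d * c) =
      ∑ c ∈ (disc x).filter (fun c => d * c ∈ disc x), G (d * c) := by
    rw [sum_filter]
    refine sum_congr rfl fun c _ => ?_
    split_ifs with h
    · rfl
    · by_contra h2
      exact h (hG _ h2)
  rw [h1]
  symm
  refine sum_bij (fun c _ => d * c) ?_ ?_ ?_ ?_
  · intro c hc
    rw [mem_filter] at hc ⊢
    exact ⟨hc.2, dvd_mul_right _ _⟩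
  · intro a _ b _ hab
    exact mul_left_cancel₀ hd hab
  · intro m hm
    rw [mem_filter] at hm
    obtain ⟨hm1, c, rfl⟩ := hm
    have hm2 := mem_disc.1 hm1
    have hc0 : c ≠ 0 := right_ne_zero_of_mul hm2.1
    refine ⟨c, ?_, rfl⟩
    rw [mem_filter]
    refine ⟨mem_disc.2 ⟨hc0, ?_⟩, hm1⟩
    refine le_trans ?_ hm2.2
    rw [nm_mul]
    push_cast
    exact le_mul_of_one_le_left (Nat.cast_nonneg _) (one_le_nm hd)
  · intro c _
    rfl

theorem supp {x M M' : ℝ} {F : Gi → ℂ} (hM' : M' ≤ x) (hF : ∀ z, F z ≠ 0 → z ∈ ann M M')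
    (e z : Gi) (h : F (e * z) ≠ 0) : z ∈ disc x := by
  have h1 := mem_ann.1 (hF _ h)
  have h2 : e ≠ 0 := left_ne_zero_of_mul h1.1
  refine mem_disc.2 ⟨right_ne_zero_of_mul h1.1, ?_⟩
  have h3 : (nm z : ℝ) ≤ nm (e * z) := by
    rw [nm_mul]
    push_cast
    exact le_mul_of_one_le_left (Nat.cast_nonneg _) (one_le_nm h2)
  linarith [h1.2.2]

theorem PP_ne {x : ℝ} {L : ℕ} {q : Gi × ℕ} (hq : q ∈ PP x L) : q.1 ^ q.2 ≠ 0 := by
  unfold PP at hq
  rw [mem_product] at hq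
  exact pow_ne_zero _ (X.VPLM.mem_PI'.1 hq.1).2.1.ne_zero

theorem prod_ne {V : ℝ} {T : Finset Gi} (hT : T ∈ TT V) : (∏ π ∈ T, π) ≠ 0 := by
  classical
  unfold TT at hT
  rw [mem_filter, mem_powerset] at hT
  rw [prod_ne_zero_iff]
  intro π hπ
  exact (X.VPLM.mem_PI'.1 (hT.1 hπ)).2.1.ne_zero

theorem stepA (hLGN : SpecLGN) {x M M' : ℝ} {L : ℕ} {F : Gi → ℂ} (hx : x < 2 ^ (L + 1))
    (hM' : M' ≤ x) (hF : ∀ z, F z ≠ 0 → z ∈ ann M M') (d : Gi) :
    ∑ m ∈ disc x, ((Real.log (nm m) : ℝ) : ℂ) * F (d * m) =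
      ∑ q ∈ PP x L, ((Real.log (nm q.1) : ℝ) : ℂ) * ∑ c ∈ disc x, F (d * (q.1 ^ q.2 * c)) := by
  classical
  calc ∑ m ∈ disc x, ((Real.log (nm m) : ℝ) : ℂ) * F (d * m)
      = ∑ m ∈ disc x, ∑ q ∈ PP x L,
          if q.1 ^ q.2 ∣ m then ((Real.log (nm q.1) : ℝ) : ℂ) * F (d * m) else 0 := by
        refine sum_congr rfl fun m hm => ?_
        obtain ⟨h0, h1⟩ := mem_disc.1 hm
        rw [hLGN x L m h0 h1 hx]
        rw [Complex.ofReal_sum, sum_mul, sum_filter]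
    _ = ∑ q ∈ PP x L, ∑ m ∈ disc x,
          if q.1 ^ q.2 ∣ m then ((Real.log (nm q.1) : ℝ) : ℂ) * F (d * m) else 0 := sum_comm
    _ = _ := by
        refine sum_congr rfl fun q hq => ?_
        rw [← sum_filter, ← mul_sum]
        congr 1
        exact chg x (q.1 ^ q.2) (PP_ne hq) (fun m => F (d * m))
          (fun z hz => supp hM' hF d z hz)

theorem stepB (V : ℝ) {x M M' : ℝ} {F : Gi → ℂ} (hM' : M' ≤ x)
    (hF : ∀ z, F z ≠ 0 → z ∈ ann M M') (q : Gi) :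
    ∑ T ∈ TT V, (-1 : ℂ) ^ T.card * ∑ c ∈ disc x, F ((∏ π ∈ T, π) * (q * c)) =
      ∑ b ∈ disc x, ((AV V b : ℝ) : ℂ) * F (q * b) := by
  classical
  symm
  calc ∑ b ∈ disc x, ((AV V b : ℝ) : ℂ) * F (q * b)
      = ∑ b ∈ disc x, ∑ T ∈ TT V,
          if (∏ π ∈ T, π) ∣ b then (-1 : ℂ) ^ T.card * F (q * b) else 0 := by
        refine sum_congr rfl fun b _ => ?_
        unfold AV
        rw [Complex.ofReal_sum, sum_mul, sum_filter]
        refine sum_congr rfl fun T _ => ?_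
        push_cast
        rfl
    _ = ∑ T ∈ TT V, ∑ b ∈ disc x,
          if (∏ π ∈ T, π) ∣ b then (-1 : ℂ) ^ T.card * F (q * b) else 0 := sum_comm
    _ = _ := by
        refine sum_congr rfl fun T hT => ?_
        rw [← sum_filter, ← mul_sum]
        congr 1
        rw [chg x (∏ π ∈ T, π) (prod_ne hT) (fun m => F (q * m))
          (fun z hz => supp hM' hF q z hz)]
        refine sum_congr rfl fun c _ => ?_
        congr 1
        ring

theorem units_sum {F : Gi → ℂ} (hI : ∀ z, F (⟨0, 1⟩ * z) = F z) {x : ℝ} (hx : 1 ≤ x) (π : Gi) :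
    ∑ b ∈ (disc x).filter (fun b => nm b = 1), F (π * b) = 4 * F π := by
  classical
  have h1 : (disc x).filter (fun b => nm b = 1) =
      ({1, -1, ⟨0, 1⟩, ⟨0, -1⟩} : Finset Gi) := by
    ext b
    rw [mem_filter, mem_disc]
    simp only [mem_insert, mem_singleton]
    constructor
    · rintro ⟨-, h⟩
      exact unit_cases h
    · intro h
      have h2 : nm b = 1 := by
        rcases h with rfl | rfl | rfl | rfl
        · exact nm_one
        · rfl
        · rfl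
        · rfl
      refine ⟨⟨?_, ?_⟩, h2⟩
      · rintro rfl
        rw [nm_zero] at h2
        exact zero_ne_one h2
      · rw [h2]
        push_cast
        exact hx
  have e1 : F (π * ⟨0, 1⟩) = F π := by rw [mul_comm]; exact hI π
  have e2 : F (π * -1) = F π := by
    have : π * -1 = ⟨0, 1⟩ * (⟨0, 1⟩ * π) := by
      rw [← mul_assoc]
      have : (⟨0, 1⟩ : Gi) * ⟨0, 1⟩ = -1 := by rfl
      rw [this]
      ring
    rw [this, hI, hI]
  have e3 : F (π * ⟨0, -1⟩) = F π := by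
    have : π * ⟨0, -1⟩ = ⟨0, 1⟩ * (π * -1) := by
      have : (⟨0, -1⟩ : Gi) = ⟨0, 1⟩ * -1 := by rfl
      rw [this]
      ring
    rw [this, hI, e2]
  rw [h1, sum_insert (by decide), sum_insert (by decide), sum_insert (by decide),
    sum_singleton, mul_one, e1, e2, e3]
  ring

theorem stepD (hAVP : SpecAVP) {F : Gi → ℂ} (hI : ∀ z, F (⟨0, 1⟩ * z) = F z) {x V : ℝ}
    (hx : 1 ≤ x) (hV : 1 ≤ V) (π : Gi) :
    ∑ b ∈ disc x, ((AV V b : ℝ) : ℂ) * F (π * b) = 4 * F π +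
      (open scoped Classical in
        ∑ b ∈ (disc x).filter (fun b => V < (nm b : ℝ)), ((AV V b : ℝ) : ℂ) * F (π * b)) := by
  classical
  obtain ⟨h1, h2, -, -⟩ := hAVP
  rw [← sum_filter_add_sum_filter_not (disc x) (fun b => V < (nm b : ℝ)), add_comm]
  congr 1
  rw [← units_sum hI hx π]
  symm
  rw [sum_filter, sum_filter]
  refine sum_congr rfl fun b hb => ?_
  obtain ⟨hb0, -⟩ := mem_disc.1 hb
  by_cases e : nm b = 1
  · rw [if_pos e, if_pos, h1 V b hV e]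
    · push_cast
      ring
    · rw [e]
      push_cast
      exact not_lt.2 hV
  · rw [if_neg e]
    split_ifs with h3
    · rfl
    · rw [h2 V b hb0 e (not_lt.1 h3)]
      push_cast
      ring

end VAUM

open VAUM

/-- VAU, from LGN and AVP. -/
theorem specVAU (hLGN : SpecLGN) (hAVP : SpecAVP) : SpecVAU := by
  classical
  intro x U V M M' L F hU hV hUM hMM' hM'x hxL hF hI
  have hx2 : 2 ≤ x := by linarith
  have hL1 : 1 ≤ L := by
    by_contra h
    have h0 : L = 0 := by omega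
    rw [h0] at hxL
    norm_num at hxL
    linarith
  -- the first sum
  have E1 : ∑ T ∈ TT V, (-1 : ℂ) ^ T.card *
      ∑ m ∈ disc x, ((Real.log (nm m) : ℝ) : ℂ) * F ((∏ π ∈ T, π) * m) =
      ∑ q ∈ PP x L, ((Real.log (nm q.1) : ℝ) : ℂ) *
        ∑ T ∈ TT V, (-1 : ℂ) ^ T.card * ∑ c ∈ disc x, F ((∏ π ∈ T, π) * (q.1 ^ q.2 * c)) := by
    calc ∑ T ∈ TT V, (-1 : ℂ) ^ T.card *
        ∑ m ∈ disc x, ((Real.log (nm m) : ℝ) : ℂ) * F ((∏ π ∈ T, π) * m)
        = ∑ T ∈ TT V, ∑ q ∈ PP x L, ((Real.log (nm q.1) : ℝ) : ℂ) *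
          ((-1 : ℂ) ^ T.card * ∑ c ∈ disc x, F ((∏ π ∈ T, π) * (q.1 ^ q.2 * c))) := by
          refine sum_congr rfl fun T _ => ?_
          rw [stepA hLGN hxL hM'x hF, mul_sum]
          refine sum_congr rfl fun q _ => ?_
          ring
      _ = ∑ q ∈ PP x L, ∑ T ∈ TT V, ((Real.log (nm q.1) : ℝ) : ℂ) *
          ((-1 : ℂ) ^ T.card * ∑ c ∈ disc x, F ((∏ π ∈ T, π) * (q.1 ^ q.2 * c))) := sum_comm
      _ = _ := by
          refine sum_congr rfl fun q _ => ?_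
          rw [mul_sum]
  set f : Gi × ℕ → ℂ := fun q => ((Real.log (nm q.1) : ℝ) : ℂ) *
    ∑ T ∈ TT V, (-1 : ℂ) ^ T.card * ∑ c ∈ disc x, F ((∏ π ∈ T, π) * (q.1 ^ q.2 * c)) with hf
  set g : Gi × ℕ → ℂ := fun q => ((Real.log (nm q.1) : ℝ) : ℂ) *
    ∑ b ∈ disc x, ((AV V b : ℝ) : ℂ) * F (q.1 ^ q.2 * b) with hg
  have hfg : ∀ q, f q = g q := by
    intro q
    rw [hf, hg]
    simp only
    rw [stepB V hM'x hF]
  have E2 : ∑ q ∈ PP x L, f q = ∑ q ∈ (PP x L).filter (fun q => (nm q.1 : ℝ) ^ q.2 ≤ U), f q +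
      (∑ q ∈ (PP x L).filter (fun q => U < (nm q.1 : ℝ) ^ q.2 ∧ ¬ (q.2 = 1 ∧ q.1 ∈ GP U x)), g q +
        ∑ π ∈ GP U x, g (π, 1)) := by
    rw [← sum_filter_add_sum_filter_not (PP x L) (fun q => (nm q.1 : ℝ) ^ q.2 ≤ U)]
    congr 1
    rw [← sum_filter_add_sum_filter_not _ (fun q => ¬ (q.2 = 1 ∧ q.1 ∈ GP U x)), filter_filter,
      filter_filter]
    congr 1
    · have : (PP x L).filter (fun q => ¬ (nm q.1 : ℝ) ^ q.2 ≤ U ∧ ¬ (q.2 = 1 ∧ q.1 ∈ GP U x)) =
          (PP x L).filter (fun q => U < (nm q.1 : ℝ) ^ q.2 ∧ ¬ (q.2 = 1 ∧ q.1 ∈ GP U x)) := by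
        refine filter_congr fun q _ => ?_
        rw [not_le]
      rw [this]
      exact sum_congr rfl fun q _ => hfg q
    · refine sum_bij (fun q _ => q.1) ?_ ?_ ?_ ?_
      · intro q hq
        rw [mem_filter, not_not] at hq
        exact hq.2.2.2
      · intro a ha b hb hab
        rw [mem_filter, not_not] at ha hb
        exact Prod.ext hab (ha.2.2.1.trans hb.2.2.1.symm)
      · intro π hπ
        refine ⟨(π, 1), ?_, rfl⟩
        rw [mem_filter, not_not]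
        refine ⟨?_, ?_, rfl, hπ⟩
        · unfold PP
          rw [mem_product, mem_Icc]
          exact ⟨X.VPLM.GP_sub U x hπ, le_rfl, hL1⟩
        · rw [not_le, pow_one]
          exact (mem_GP.1 hπ).2.2.2.2.1
      · intro q hq
        rw [mem_filter, not_not] at hq
        rw [hfg]
        congr 1
        exact Prod.ext rfl hq.2.2.1
  have E3 : ∑ π ∈ GP U x, g (π, 1) = 4 * ∑ π ∈ GP M M', ((Real.log (nm π) : ℝ) : ℂ) * F π +
      ∑ π ∈ GP U x, ((Real.log (nm π) : ℝ) : ℂ) *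
        ∑ b ∈ (disc x).filter (fun b => V < (nm b : ℝ)), ((AV V b : ℝ) : ℂ) * F (π * b) := by
    have e1 : ∑ π ∈ GP M M', ((Real.log (nm π) : ℝ) : ℂ) * F π =
        ∑ π ∈ GP U x, ((Real.log (nm π) : ℝ) : ℂ) * F π := by
      refine sum_subset ?_ ?_
      · intro π hπ
        rw [mem_GP] at hπ ⊢
        obtain ⟨a1, a2, a3, a4, a5, a6⟩ := hπ
        exact ⟨a1, a2, a3, a4, lt_of_le_of_lt hUM a5, a6.trans hM'x⟩
      · intro π hπ hπ'
        have : F π = 0 := by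
          by_contra h
          apply hπ'
          have h1 := mem_ann.1 (hF _ h)
          rw [mem_GP] at hπ ⊢
          obtain ⟨a1, a2, a3, a4, a5, a6⟩ := hπ
          exact ⟨a1, a2, a3, a4, h1.2.1, h1.2.2⟩
        rw [this, mul_zero]
    rw [e1, mul_sum, ← sum_add_distrib]
    refine sum_congr rfl fun π _ => ?_
    rw [hg]
    simp only [pow_one]
    rw [stepD hAVP hI (by linarith) hV]
    ring
  rw [E1, E2, E3]
  ring

end Pool.Agent.Lib.MP391708.XB3
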