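import Pool.Agent.Lib.MP_391708_nt.X3.SpecVB

/-!
# THEOREM X3 (MP_391708, `k ≥ 3`), part VB, module VB: the result of the part
-/

set_option autoImplicit false

namespace Pool.Agent.Lib.MP391708.XB3

open Finset Filter Topology Pool.Agent.Lib.MP391708.MR
open Pool.Agent.Lib.MP391708.X (ChiG hk Dist Fam PI Ix psi ix1)
open scoped ComplexConjugate

namespace VBM

/-- the exponents -/
lemma expo {l A₄ C : ℝ} (hl : 2 ≤ l) (hA₄ : 0 < A₄) (hC : 0 < C) :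
    l ^ (C - (A₄ + C + 2)) + l ^ (C + 2 * (A₄ + C + 2) - 2 * (A₄ + C + 2 + A₄ + C + 2)) ≤ l ^ (-A₄) := by
  have hl0 : 0 < l := by linarith
  have h1 : l ^ (C - (A₄ + C + 2)) ≤ l ^ (-A₄ - 2) :=
    Real.rpow_le_rpow_of_exponent_le (by linarith) (by linarith)
  have h2 : l ^ (C + 2 * (A₄ + C + 2) - 2 * (A₄ + C + 2 + A₄ + C + 2)) ≤ l ^ (-A₄ - 2) :=
    Real.rpow_le_rpow_of_exponent_le (by linarith) (by linarith)
  have h3 : l ^ (-A₄ - 2) = l ^ (-A₄) / l ^ 2 := by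
    rw [Real.rpow_sub hl0, Real.rpow_two]
  have h4 : l ^ (-A₄) / l ^ 2 + l ^ (-A₄) / l ^ 2 ≤ l ^ (-A₄) := by
    rw [← add_div, div_le_iff₀ (by positivity)]
    have h5 : 0 < l ^ (-A₄) := Real.rpow_pos_of_pos hl0 _
    have h6 : 2 ≤ l ^ 2 := by nlinarith
    nlinarith
  rw [h3] at h1 h2
  linarith

end VBM

open VBM in
theorem specVB (hVBL : SpecVBL) (hUNW : SpecUNW) : SpecVB := by
  obtain ⟨c, C, hc, hC, h⟩ := hVBL
  refine ⟨c, hc, fun A₄ hA₄ => ?_⟩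
  refine ⟨A₄ + C + 2, A₄ + C + 2 + A₄ + C + 2, by linarith, by linarith, ?_⟩
  have hl : ∀ᶠ N : ℝ in atTop, 2 ≤ Real.log N := Real.tendsto_log_atTop.eventually_ge_atTop 2
  have hN : ∀ᶠ N : ℝ in atTop, 3 ≤ N ^ (9 / 10 : ℝ) :=
    (tendsto_rpow_atTop (by norm_num)).eventually_ge_atTop 3
  filter_upwards [h (A₄ + C + 2 + A₄ + C + 2) (A₄ + C + 2) (by linarith) (by linarith), hl, hN]
    with N hV hlN hN3 W M X X' h1 h2 h3 h4 h5 hW hD hcard
  have hl0 : 0 < Real.log N := by linarith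
  refine hUNW Ix W (fun i π => psi i π) X X' _ (by linarith) h4
    (mul_nonneg (sq_nonneg _) (Real.rpow_nonneg hl0.le _)) (fun y hy hy' => ?_)
  refine (hV W M X y h1 h2 h3 hy (hy'.trans h5) hW hD hcard).trans ?_
  exact mul_le_mul_of_nonneg_left (expo hlN hA₄ hC) (sq_nonneg _)

end Pool.Agent.Lib.MP391708.XB3
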