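import Pool.Agent.Lib.MP_391708_nt.X3.DVM
import Pool.Agent.Lib.MP_391708_nt.X3.LGN
import Pool.Agent.Lib.MP_391708_nt.X3.AVP
import Pool.Agent.Lib.MP_391708_nt.X3.VAU
import Pool.Agent.Lib.MP_391708_nt.X3.TYI
import Pool.Agent.Lib.MP_391708_nt.X3.BAD
import Pool.Agent.Lib.MP_391708_nt.X3.T2D
import Pool.Agent.Lib.MP_391708_nt.X3.T2E
import Pool.Agent.Lib.MP_391708_nt.X3.T2M
import Pool.Agent.Lib.MP_391708_nt.X3.CLF
import Pool.Agent.Lib.MP_391708_nt.X3.UNW
import Pool.Agent.Lib.MP_391708_nt.X3.VBL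
import Pool.Agent.Lib.MP_391708_nt.X3.VB

/-!
# THEOREM X3 (MP_391708), part VB: everything without hypotheses
-/

set_option autoImplicit false

namespace Pool.Agent.Lib.MP391708.XB3

theorem vb_avp : SpecAVP := specAVP
theorem vb_vau : SpecVAU := specVAU specLGN vb_avp
theorem vb_bad : SpecBAD := specBAD vb_avp
theorem vb_t2e : SpecT2E := specT2E specDVM (specT2D vb_avp)
theorem vb_t2m : SpecT2M := specT2M specDVM vb_avp
theorem vb_vbl : SpecVBL := specVBL vb_vau specTYI vb_bad vb_t2e vb_t2m specCLF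

/-- the Vaughan part of Theorem X3 -/
theorem vb_vb : X3.SpecVB := specVB vb_vbl specUNW

end Pool.Agent.Lib.MP391708.XB3
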