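import Pool.Agent.Lib.MP_391708_nt.X3.V.LIN3
import Pool.Agent.Lib.MP_391708_nt.X3.V.SML3
import Pool.Agent.Lib.MP_391708_nt.X3.V.BXS3
import Pool.Agent.Lib.MP_391708_nt.X3.V.HTM3
import Pool.Agent.Lib.MP_391708_nt.X3.V.FNA3
import Pool.Agent.Lib.MP_391708_nt.X3.V.VAR3

/-!
# Theorem X for `k = 3` (MP_391708), part V: the variance inequality with a mean square, without hypotheses
-/

set_option autoImplicit false

namespace Pool.Agent.Lib.MP391708.XV3

theorem vm_wpc : X3.SpecWPC := X3.specWPC XV.vm_pcn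

theorem vm_fna3 : SpecFNA3 :=
  specFNA3 specBXS3 specHTM3 vm_wpc XV.vm_ttb XV.specPNC XV.vm_pcn XV.vm_ncs XV.specHTM

/-- the variance inequality with a mean square -/
theorem vm_var3 : SpecVAR3 := specVAR3 specLIN3 specSML3 vm_wpc specHTM3 vm_fna3

end Pool.Agent.Lib.MP391708.XV3
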