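import Pool.Agent.Lib.MP_391708_nt.XP.Final0
import Pool.Agent.Lib.MP_391708_nt.X3.VM3
import Pool.Agent.Lib.MP_391708_nt.X3.VBM
import Pool.Agent.Lib.MP_391708_nt.X3.MT.Main
import Pool.Agent.Lib.MP_391708_nt.X3.U.Spec2
import Pool.Agent.Lib.MP_391708_nt.X3.U.ETH
import Pool.Agent.Lib.MP_391708_nt.X3.U.HJS
import Pool.Agent.Lib.MP_391708_nt.X3.U.HTS
import Pool.Agent.Lib.MP_391708_nt.X3.U.HTA
import Pool.Agent.Lib.MP_391708_nt.X3.U.L2B
import Pool.Agent.Lib.MP_391708_nt.X3.U.LNS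
import Pool.Agent.Lib.MP_391708_nt.X3.U.LVX
import Pool.Agent.Lib.MP_391708_nt.X3.U.PRC
import Pool.Agent.Lib.MP_391708_nt.X3.U.SUP
import Pool.Agent.Lib.MP_391708_nt.X3.U.USET
import Pool.Agent.Lib.MP_391708_nt.X3.U.VB2
import Pool.Agent.Lib.MP_391708_nt.X3.O.CNB
import Pool.Agent.Lib.MP_391708_nt.X3.O.CSX
import Pool.Agent.Lib.MP_391708_nt.X3.O.BXC
import Pool.Agent.Lib.MP_391708_nt.X3.O.ONE
import Pool.Agent.Lib.MP_391708_nt.X3.O.UNP

/-!
# THEOREM X3 (MP_391708): assembly of everything except the module `FIN`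
-/

set_option autoImplicit false

namespace Pool.Agent.Lib.MP391708.X3

open Pool.Agent.Lib.MP391708

theorem x3_prc : X3U.SpecPRC := X3U.specPRC X3U.specHJS X3U.specSUP X3U.specL2B
theorem x3_uset : X3U.SpecUSET := X3U.specUSET XU.specBRG XU.specCON (X3U.specLVX XU.specBRG)
theorem x3_hts : X3U.SpecHTS := X3U.specHTS XPU.specRGS X3U.specHJS X3U.specETH XU.specBRG
theorem x3_hta : X3U.SpecHTA := X3U.specHTA XPU.specRGS XU.specNCD X3U.specHJS X3U.specETH X3U.specSUP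
theorem x3_vb2 : X3U.SpecVB2 := X3U.specVB2 XB3.vb_vb XU.specBRG

theorem x3_varOf (h : X3U.SpecFIN) : SpecVAR := h XV3.vm_var3 XV.vm_phi XU.specBRG
  (XPU.specATY XV.vm_mot) X3U.specHJS X3U.specSUP x3_hts x3_hta x3_prc (X3U.specLNS X3U.specHJS) x3_uset x3_vb2

theorem x3_oneOf (h : X3U.SpecFIN) : SpecONE :=
  specONE (x3_varOf h) X3M.mt (X.specYSET MR.specPG) specCNB specCSX (specBXC XP.specBXC) XP.specSSB XL.ls_lsm

/-- THEOREM X3 from `FIN` -/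
theorem mainX3Of (h : X3U.SpecFIN) : MainX3 := specUNP (x3_oneOf h) (XP.specHGB XP.specH1C)

end Pool.Agent.Lib.MP391708.X3
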