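import Pool.Agent.Lib.MP_391708_nt.X3.SpecVB
import Pool.Agent.Lib.MP_391708_nt.MR.Basic

/-!
# Theorem X3, part VB, module GGI (helper33): a coarse cell is an interval
-/

set_option autoImplicit false

namespace Pool.Agent.Lib.MP391708.XB3

open Finset Filter Topology Pool.Agent.Lib.MP391708.MR
open Pool.Agent.Lib.MP391708.X (ChiG hk Dist Fam PI)

namespace GGIM

theorem mem_gp {P Q : ℝ} {z : Gi} : z ∈ GP P Q ↔
    (z ≠ 0 ∧ (nm z : ℝ) ≤ Q) ∧ 0 < z.re ∧ 0 < z.im ∧ (nm z).Prime ∧ (nm z) % 4 = 1 ∧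
      P < (nm z : ℝ) := by
  unfold GP
  rw [mem_filter, mem_disc]

theorem mono {h : ℝ} (hh : 0 ≤ h) (m : ℕ) {n n' : ℕ} (h0 : 0 < n) (hn : n ≤ n') :
    ⌊h * Real.log n⌋₊ / m ≤ ⌊h * Real.log n'⌋₊ / m := by
  apply Nat.div_le_div_right
  apply Nat.floor_le_floor
  apply mul_le_mul_of_nonneg_left _ hh
  apply Real.log_le_log
  · exact_mod_cast h0
  · exact_mod_cast hn

end GGIM

open GGIM in
theorem specGGI : SpecGGI := by
  intro h P m a hh hP
  by_cases hF : ((GP P (2 * P)).filter (fun π => ⌊h * Real.log (nm π)⌋₊ / m = a)) = ∅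
  · refine ⟨P, P, le_refl _, le_refl _, by linarith, ?_⟩
    rw [hF]
    symm
    rw [Finset.eq_empty_iff_forall_notMem]
    intro z hz
    rw [mem_gp] at hz
    obtain ⟨⟨_, h1⟩, _, _, _, _, h2⟩ := hz
    linarith
  · have hne := Finset.nonempty_iff_ne_empty.2 hF
    obtain ⟨z1, hz1, hmin⟩ := Finset.exists_min_image _ nm hne
    obtain ⟨z2, hz2, hmax⟩ := Finset.exists_max_image _ nm hne
    rw [mem_filter, mem_gp] at hz1 hz2
    obtain ⟨⟨⟨h10, h11⟩, h12, h13, h14, h15, h16⟩, h17⟩ := hz1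
    obtain ⟨⟨⟨h20, h21⟩, h22, h23, h24, h25, h26⟩, h27⟩ := hz2
    have h12' : nm z1 ≤ nm z2 := by
      apply hmin
      rw [mem_filter, mem_gp]
      exact ⟨⟨⟨h20, h21⟩, h22, h23, h24, h25, h26⟩, h27⟩
    have h12r : (nm z1 : ℝ) ≤ (nm z2 : ℝ) := by exact_mod_cast h12'
    refine ⟨max P ((nm z1 : ℝ) - 1), (nm z2 : ℝ), le_max_left _ _, ?_, h21, ?_⟩
    · apply max_le
      · linarith
      · linarith
    · ext z
      rw [mem_filter]
      constructor
      · rintro ⟨hz, hza⟩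
        have h1 := hmin z (by rw [mem_filter]; exact ⟨hz, hza⟩)
        have h2 := hmax z (by rw [mem_filter]; exact ⟨hz, hza⟩)
        have h1r : (nm z1 : ℝ) ≤ (nm z : ℝ) := by exact_mod_cast h1
        have h2r : (nm z : ℝ) ≤ (nm z2 : ℝ) := by exact_mod_cast h2
        rw [mem_gp] at hz ⊢
        obtain ⟨⟨a0, a1⟩, a2, a3, a4, a5, a6⟩ := hz
        refine ⟨⟨a0, h2r⟩, a2, a3, a4, a5, ?_⟩
        apply max_lt a6
        linarith
      · intro hz
        rw [mem_gp] at hz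
        obtain ⟨⟨a0, a1⟩, a2, a3, a4, a5, a6⟩ := hz
        have b1 : P < (nm z : ℝ) := lt_of_le_of_lt (le_max_left _ _) a6
        have b2 : (nm z1 : ℝ) - 1 < (nm z : ℝ) := lt_of_le_of_lt (le_max_right _ _) a6
        have b3 : nm z1 ≤ nm z := by
          have : (nm z1 : ℝ) < (nm z : ℝ) + 1 := by linarith
          have h' : nm z1 < nm z + 1 := by exact_mod_cast this
          omega
        have b4 : nm z ≤ nm z2 := by exact_mod_cast a1
        refine ⟨?_, ?_⟩
        · rw [mem_gp]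
          exact ⟨⟨a0, a1.trans h21⟩, a2, a3, a4, a5, b1⟩
        · have c1 := mono hh m h14.pos b3
          have c2 := mono hh m a4.pos b4
          rw [h17] at c1
          rw [h27] at c2
          exact le_antisymm c2 c1

end Pool.Agent.Lib.MP391708.XB3
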