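import Pool.Agent.Lib.MP_391708_nt.X.SpecCEL
import Pool.Agent.Lib.MP_391708_nt.X.PH.SpecC
import Pool.Agent.Lib.MP_391708_nt.QPA.FLW

/-!
# THEOREM X for `k = 3` (MP_391708), part D: the prime sums are small in mean square over the nontrivial characters

THEOREM D (`SpecTHX`, `SpecTHD`): for `U` a set of at most `(log x)^A` Hecke characters (conductors at most `(log x)^A`,
frequencies at most `x^A`), `∑_{ψ ∈ U, ψ ≠ 1} |∑_{π ∈ GP x x'} ψ(π)|² ≤ ε (x/log x)²`, `x ≤ x' ≤ 2x`.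

IDEA.  `w = (log x)^(2A+20)`, `z = x^e`, `e` small and fixed.  (1) The Gram matrix of the rough numbers (`RZ w z`: no Gaussian prime of
norm `≤ w`, no rational prime of `(w, z)` divides the norm) is `π (y'-y) VZ` times (identity + operator norm `C e^(-b)`), by the
fundamental lemma `QPA.SpecFLW` with the weights `om(n) = |∑ a_i ψ_i(n)|²`, and the Gram matrix `X.SpecGRM` of the `w`-rough numbers.  So
`∑_{ψ≠1} |∑_{RZ} ψ|² ≤ (C e^(-b) x/(e log x))²`, and Halász–Montgomery over `RZ` with the constant `C x/(e log x)`.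
(2) `∑_{RZ} ψ = 4 ∑_π ψ(π) + ∑_v (∑_{π ∈ cell v} ψ(π)) (∑_{m ∈ MS v} ψ(m)) + ∑_{n ∈ E} a(n) ψ(n)`: the composite numbers by their least prime
factor in cells of ratio `e^κ`; `sup |∑_{cell v}| ≤ η ..` by `PH.SpecPHX`, mean square of the second factor by (1).
(3) `#E ≤ C κ/e² · x/log x`.  Choose `e` (`b = ⌊c/(8e)⌋ - 3`), then `κ`, then `η`, then `x`.

Form of a module: file `X3/D/XXX.lean`, `import Pool.Agent.Lib.MP_391708_nt.X3.SpecD`, `set_option autoImplicit false`,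
namespace `Pool.Agent.Lib.MP391708.XD3`, own lemmas in the namespace `XXXM`, `theorem specXXX (hYYY : SpecYYY) .. : SpecXXX`
(the hypotheses are the Specs named in brackets, in this order).
-/

set_option autoImplicit false

namespace Pool.Agent.Lib.MP391708.XD3

open Finset Filter Topology Pool.Agent.Lib.MP391708.MR
open Pool.Agent.Lib.MP391708.X
open Pool.Agent.Lib.MP391708.QPA (PB)
open scoped ComplexConjugate

/-! ## Definitions -/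

/-- the sifting limit `w` -/
noncomputable def ww (A x : ℝ) : ℝ := Real.log x ^ (2 * A + 20)

/-- no Gaussian prime of norm `≤ w` divides `n`, no rational prime `w < p < z` divides the norm of `n` -/
def rz (w z : ℝ) (n : Gi) : Prop := rgh w n ∧ ∀ p : ℕ, p.Prime → w < (p : ℝ) → (p : ℝ) < z → ¬ p ∣ nm n

open scoped Classical in
/-- the rough numbers of an annulus -/
noncomputable def RZ (w z y y' : ℝ) : Finset Gi := (ann y y').filter (rz w z)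

open scoped Classical in
/-- the density of `{n : p ∣ N(n)}`, for `p > w` (`w ≥ 2`) -/
noncomputable def gp (w : ℝ) (p : ℕ) : ℝ :=
  if w < (p : ℝ) then (if p % 4 = 1 then 2 / (p : ℝ) - 1 / (p : ℝ) ^ 2 else 1 / (p : ℝ) ^ 2) else 0

/-- the density of the rough numbers -/
noncomputable def VZ (w z : ℝ) : ℝ := VP w * ∏ p ∈ PB z, (1 - gp w p)

/-- the ends of the cells; `z - 1 ≤ tt 0 = ⌈z⌉ - 1 < z`: the primes of the cells have norm `≥ z` -/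
noncomputable def tt (z κ : ℝ) (v : ℕ) : ℝ := ((⌈z⌉₊ : ℝ) - 1) * Real.exp (κ * v)

/-- the cells of the least prime factor -/
noncomputable def cl (z κ : ℝ) (v : ℕ) : Finset Gi := GP (tt z κ v) (tt z κ (v + 1))

open scoped Classical in
/-- the cofactors of the cell `v`: rough, not units, all prime factors split and beyond the cell -/
noncomputable def MS (w z κ y y' : ℝ) (v : ℕ) : Finset Gi :=
  (RZ w z (y / tt z κ v) (y' / tt z κ v)).filter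
    (fun m => ¬ IsUnit m ∧ ∀ π : Gi, Prime π → π ∣ m → (nm π).Prime ∧ tt z κ (v + 1) < (nm π : ℝ))

open scoped Classical in
/-- the number of representations `n = π m`, `π` in a cell `v < V`, `m` a cofactor -/
noncomputable def rr (w z κ y y' : ℝ) (V : ℕ) (n : Gi) : ℕ :=
  ∑ v ∈ range V, ((cl z κ v ×ˢ MS w z κ y y' v).filter (fun q => q.1 * q.2 = n)).card

/-- the exceptional elements: near the ends, or with an inert factor, or with two prime factors in one cell -/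
def exc (z κ y y' : ℝ) (n : Gi) : Prop :=
  (nm n : ℝ) ≤ y * Real.exp κ ∨ y' < (nm n : ℝ) ∨ (∃ q : ℕ, q.Prime ∧ q % 4 = 3 ∧ (q : Gi) ∣ n) ∨
    ∃ (v : ℕ) (π π' : Gi), π ∈ cl z κ v ∧ π' ∈ cl z κ v ∧ π * π' ∣ n

open scoped Classical in
/-- the exceptional elements of the annulus -/
noncomputable def EE (w z κ y y' : ℝ) : Finset Gi := (RZ w z y (y' * Real.exp κ)).filter (exc z κ y y')

/-! ## The Gram matrix of the rough numbers -/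

/-- MLT (200 lines).  `{n : δ ∣ N(n)}` as a combination of the sets `{n : d ∣ n}`, `δ` squarefree with all prime factors `> w`.
Proof.  Induction on the set of the primes of `δ` (product of the index sets).  One prime `p > w ≥ 2`: if `p ≡ 1 mod 4`, `p = N(π)`,
`[p ∣ N(n)] = [π ∣ n] + [star π ∣ n] - [p ∣ n]` (`p ∣ N(n) = n star n` iff `π ∣ n` or `π ∣ star n`; `π`, `star π` are not associated, so both divide `n` iff
`p = π star π ∣ n`), `2/p - 1/p² = gp w p`; if `p ≡ 3 mod 4`, `p` is a Gaussian prime and `[p ∣ N(n)] = [p ∣ n]`, `N(p) = p²`.  Coprimality: for `d` made of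
primes over `p' ≠ p` and `d₁ ∈ {π, star π, p}`: `d ∣ n` and `d₁ ∣ n` iff `d d₁ ∣ n` (keep in the induction: every Gaussian prime dividing `d k` divides
some rational prime factor of `δ`).  `rgh w`: a prime dividing `π`, `star π` or `p` has norm `p` or `p²`, `> w`. -/
def SpecMLT : Prop := ∀ (w : ℝ) (δ : ℕ), 2 ≤ w → Squarefree δ → (∀ p : ℕ, p.Prime → p ∣ δ → w < (p : ℝ)) →
  ∃ (ι : Type) (D : Finset ι) (d : ι → Gi) (c : ι → ℝ), (D.card : ℝ) ≤ (δ : ℝ) ^ 2 ∧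
    (∀ k ∈ D, d k ≠ 0 ∧ rgh w (d k) ∧ |c k| ≤ 1) ∧
    (∀ n : Gi, n ≠ 0 → (∑ k ∈ D, (open scoped Classical in if d k ∣ n then c k else 0)) =
      if δ ∣ nm n then 1 else 0) ∧
    ∑ k ∈ D, c k / (nm (d k) : ℝ) = ∏ p ∈ δ.primeFactors, gp w p

/-- GRZ (300 lines, strong; from QPA.SpecFLW, MLT, X.SpecGRM, X.SpecRG0, X.SpecPSI).  The Gram matrix of the rough numbers.
Proof.  Let `om(n) = |∑ a_i ψ_i(n)|²`, `S₀` = the `n ∈ ann y y'` with `rgh w n`, `X = π (y'-y) VP w ∑|a|²`.  FLW with `κ₀ = 2`, `T = S₀`,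
`a p n = 1` if `w < p ∣ N(n)`, else `0`, `g = gp w`; `∏_{p ∈ PB z} (1 - a p n)` is the indicator of `rz`.  Remainders, `δ ∈ Dset z b`: if `δ` has a
prime factor `≤ w` both terms vanish (`gp w p = 0`).  Otherwise MLT: `∑_{n ∈ S₀} om(n) [δ ∣ N(n)] = ∑_k c_k ∑_{n ∈ S₀, d_k ∣ n} om(n)`, and for `d` rough, `n = d n'`:
`n' ∈ ann (y/N(d)) (y'/N(d))`, `rgh w n'`, `om(n) = |∑ (a_i ψ_i(d)) ψ_i(n')|²`, `|ψ_i(d)| = 1` (PSI: `Q² ≤ w`).  GRM and RG0 with `x := Y`, `A' := 2A + 21`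
(`log Y ≥ (log x)/3`), exponent `3A` (`|k| ≤ x^A ≤ Y^(3A)`; `nm (i.1) = i.1² ≤ w`): it is `π ((y'-y)/N(d)) VP w ∑|a|² + O(Y^(1-c') (#U + 1) ∑|a|²)`.  Sum over `k ∈ D` (`≤ δ²` terms) and
over `δ ≤ z^(8b+16) = x^(e(8b+16)) ≤ x^c`: the total remainder is `≤ C (1 + log x) x^(3c) (2 (log x)^A) Y^(1-c') ∑|a|² ≤ Y^(1-c) ∑|a|²` for `c = c'/20`. -/
def SpecGRZ : Prop := ∃ C : ℝ, 0 < C ∧ ∀ A : ℝ, 1 ≤ A → ∃ c : ℝ, 0 < c ∧ c < 1 ∧ ∀ (b : ℕ) (e : ℝ), 0 < e →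
  e * (8 * b + 16) ≤ c → ∀ᶠ x : ℝ in atTop, ∀ U : Finset Ix, UOK (Real.log x ^ A) (x ^ A) (Real.log x ^ A) U →
  ∀ Y y y' : ℝ, x ^ (1 / 3 : ℝ) ≤ Y → Y ≤ 8 * x → 0 ≤ y → y ≤ y' → y' ≤ Y → ∀ a : Ix → ℂ,
    |(∑ n ∈ RZ (ww A x) (x ^ e) y y', ‖∑ i ∈ U, a i * psi i n‖ ^ 2) -
      Real.pi * (y' - y) * VZ (ww A x) (x ^ e) * ∑ i ∈ U, ‖a i‖ ^ 2| ≤
    (C * Real.exp (-(b : ℝ)) * (Real.pi * (y' - y) * VZ (ww A x) (x ^ e)) + Y ^ (1 - c)) * ∑ i ∈ U, ‖a i‖ ^ 2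

/-- VZB (150 lines, from X.SpecVPL, MR.SpecPG).  The size of the density.
Proof.  `VP w ≤ C/log w` (VPL).  `0 ≤ gp ≤ 2/3` for `w ≥ 2`.  `∏_{p ∈ PB z} (1 - gp w p) ≤ ∏_{w<p<z, p ≡ 1 mod 4} (1 - 1/p)² ≤ exp(-∑ 2/p)`, and
`∑_{w<p<z} 2/p ≥ WW w z - 2/z` (every `p ≡ 1 mod 4` is the norm of exactly two elements of `GP`, see `MR/PG.lean`), PG (2): `≤ C log w/log z`. -/
def SpecVZB : Prop := ∃ C : ℝ, 0 < C ∧ ∀ A e : ℝ, 1 ≤ A → 0 < e → e ≤ 1 → ∀ᶠ x : ℝ in atTop,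
  0 < VZ (ww A x) (x ^ e) ∧ VZ (ww A x) (x ^ e) ≤ C / (e * Real.log x)

/-- HMZ (250 lines, from GRZ, VZB).  Halász–Montgomery over the rough numbers, the row of the trivial character, counting.
Proof.  Let `E = C e^(-b) π (y'-y) VZ + Y^(1-c)`.  (3): GRZ with `a` the indicator of `ix1` (`psi ix1 n = 1`).  (1): `T_i = ∑_{n∈S} a_n ψ_i(n)`,
`∑|T_i|² = ∑_n a_n ∑_i conj(T_i) ψ_i(n) ≤ (∑|a|²)^(1/2) (∑_{n ∈ RZ} |∑_i conj(T_i) ψ_i(n)|²)^(1/2)` and GRZ with `a i = conj T_i` (`0 ≤ VZ`, `e^(-b) ≤ 1`).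
(2): `b_i = conj(∑_{n ∈ RZ} ψ_i(n))` for `i ≠ ix1`, `b_(ix1) = 0`, `B² = ∑|b_i|²`, `Z = ∑_n ∑_i b_i ψ_i(n) = B²`.  GRZ for `a = b + s δ_(ix1)`, `a = b`, `a = s δ_(ix1)`, `s = B`: the forms satisfy
`Q(b + sδ) - Q(b) - Q(sδ) = 2 Re(s Z) = 2 B³`, and each is its main term up to `E · (norm squared)`; the main terms cancel, so `2 B³ ≤ E (2B² + B² + B²)`, `B ≤ 2E`. -/
def SpecHMZ : Prop := ∃ C : ℝ, 0 < C ∧ ∀ A : ℝ, 1 ≤ A → ∃ c : ℝ, 0 < c ∧ c < 1 ∧ ∀ (b : ℕ) (e : ℝ), 0 < e →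
  e * (8 * b + 16) ≤ c → ∀ᶠ x : ℝ in atTop, ∀ U : Finset Ix, UOK (Real.log x ^ A) (x ^ A) (Real.log x ^ A) U →
  ∀ Y y y' : ℝ, x ^ (1 / 3 : ℝ) ≤ Y → Y ≤ 8 * x → 0 ≤ y → y ≤ y' → y' ≤ Y →
    (∀ (S : Finset Gi) (a : Gi → ℂ), S ⊆ RZ (ww A x) (x ^ e) y y' →
      ∑ i ∈ U, ‖∑ n ∈ S, a n * psi i n‖ ^ 2 ≤
        (C * ((y' - y) / (e * Real.log x)) + Y ^ (1 - c)) * ∑ n ∈ S, ‖a n‖ ^ 2) ∧
    (open scoped Classical in ∑ i ∈ U.filter (fun i => i ≠ ix1), ‖∑ n ∈ RZ (ww A x) (x ^ e) y y', psi i n‖ ^ 2 ≤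
        (C * Real.exp (-(b : ℝ)) * ((y' - y) / (e * Real.log x)) + 2 * Y ^ (1 - c)) ^ 2) ∧
    ((RZ (ww A x) (x ^ e) y y').card : ℝ) ≤ C * ((y' - y) / (e * Real.log x)) + Y ^ (1 - c)

/-! ## The least prime factor -/

/-- RLE (300 lines, strong; arithmetic of `ℤ[i]`).  The number of representations.
Proof.  A prime of a cell has norm `> ⌈z⌉ - 1`, so `≥ z > w`; with the size of `m` this gives `π m ∈ RZ w z y (y' e^κ)`.  (a) `rr ≤ 1`.  Let `n = π m = π' m'`, in the cells `v ≤ v'`.  The prime `π` divides `π' m'`.  If `v < v'`: all primes dividing `π' m'` have norm `> tt v' ≥ tt (v+1) ≥ N(π)`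
(associates of `π'`, or divisors of `m'`), impossible.  So `v = v'`; `π ∣ m'` is impossible (norm), so `π` is an associate of `π'`; both are in the open first quadrant,
so `π = π'`, `m = m'`.  (b) if `N(n)` is prime then `n` is prime in `ℤ[i]`, and `n = π m` with `m` not a unit is impossible.  (c) let `n ∈ RZ w z y y'`, `N(n)` not prime, `n` not exceptional.
`n ≠ 0`, `N(n) > y ≥ 1`, so `n` is not a unit; let `π` be a prime factor of least norm.  No inert prime divides `n`, `1 + i` does not (`w ≥ 2`), so `N(π)` is a prime `≡ 1 mod 4`; replace `π` by its associate in the open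
first quadrant.  `N(π) ∣ N(n)`, so `N(π) ≥ z` (it is `> w` by `rgh`), so `N(π) ≥ ⌈z⌉ > tt 0` and `tt v < N(π) ≤ tt (v+1)` for some `v`.  `m = n/π` is not a unit (else `N(n) = N(π)` is prime); all
its prime factors have norm `≥ N(π) > tt v`, and if one, `π'`, has norm `≤ tt (v+1)`, then its associate in the quadrant is in the cell and `π π' ∣ n`: exceptional.  Size: `N(m) = N(n)/N(π)`,
`< y'/tt v`, and `≥ N(n)/(tt v e^κ) > y/tt v` as `N(n) > y e^κ`.  `rz` passes to divisors.  `tt v < N(π) ≤ N(m) ≤ y'/tt v` gives `(tt v)² < y' ≤ (tt V)²`, so `v < V`. -/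
def SpecRLE : Prop := ∀ (w z κ y y' : ℝ) (V : ℕ), 2 ≤ w → w < z → 4 ≤ z → 0 < κ → κ ≤ 1 → 1 ≤ y → y ≤ y' → y' ≤ (tt z κ V) ^ 2 →
  ∀ n : Gi, rr w z κ y y' V n ≤ 1 ∧ (rr w z κ y y' V n ≠ 0 → n ∈ RZ w z y (y' * Real.exp κ) ∧ ¬ (nm n).Prime) ∧
    (n ∈ RZ w z y y' → ¬ (nm n).Prime → ¬ exc z κ y y' n → rr w z κ y y' V n = 1)

/-- SPL (120 lines).  The elements of `RZ` of prime norm, `y ≥ w, z`.
Proof.  `GP y y' ×ˢ units → {n ∈ RZ y y' : N(n) prime}`, `(π, u) ↦ u π` is a bijection (an element of prime norm `p > 2` has exactly one associate in the open first quadrant, `p ≡ 1 mod 4` as a sum of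
two squares; a Gaussian prime dividing `u π` is an associate of `π`, its norm is `p > y ≥ w`; a rational prime dividing `p` is `p > y ≥ z`). -/
def SpecSPL : Prop := ∀ (w z y y' : ℝ), 2 ≤ w → w ≤ y → z ≤ y → y ≤ y' → ∀ f : Gi → ℂ,
  (∀ u n, IsUnit u → f (u * n) = f n) →
    ∑ n ∈ (RZ w z y y').filter (fun n => (nm n).Prime), f n = 4 * ∑ π ∈ GP y y', f π

/-- DCP (150 lines, from RLE, SPL).  The decomposition.
Proof.  `a(n) = [N(n) ≤ y'] - [N(n) ≤ y', N(n) prime] - rr(n)`.  By RLE: `a(n) ∈ {0, 1, -1}` for `n ∈ RZ y (y' e^κ)`, and `a(n) = 0` if `n` is not exceptional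
(`N(n) > y'` is exceptional; `N(n)` prime: `rr = 0`, `a = 0`; otherwise `rr = 1`).  `∑_v ∑_π ∑_m f(π m) = ∑_{n ∈ RZ y (y' e^κ)} rr(n) f(n)`. -/
def SpecDCP : Prop := ∀ (w z κ y y' : ℝ) (V : ℕ), 2 ≤ w → w < z → 4 ≤ z → 0 < κ → κ ≤ 1 → z ≤ y → y ≤ y' →
  y' ≤ (tt z κ V) ^ 2 → ∃ a : Gi → ℝ, (∀ n, |a n| ≤ 1) ∧ ∀ f : Gi → ℂ, (∀ u n, IsUnit u → f (u * n) = f n) →
    ∑ n ∈ RZ w z y y', f n = 4 * (∑ π ∈ GP y y', f π) +
      (∑ v ∈ range V, ∑ π ∈ cl z κ v, ∑ m ∈ MS w z κ y y' v, f (π * m)) + ∑ n ∈ EE w z κ y y', (a n : ℂ) * f n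

/-! ## The error terms -/

/-- TWO (200 lines, from XH.SpecBTG).  Elements with two prime factors in one cell, or with an inert factor.
Proof.  `#(multiples of d in disc Y) ≤ 9 Y/N(d)` for all `Y ≥ 0` (`card_disc_le`; no multiple at all if `Y < N(d)`).  Cells: `v` with `(tt v)² ≤ 6x` (otherwise no `n`), so `v ≤ (2 log x)/κ`;
`#cl v ≤ C κ tt v/log(tt v) ≤ C κ tt v/(e log x/2)` (BTG, `tt v ≥ x^e/2` is large); the number of `n` is at most `∑_v (#cl v)² · 9 · 6x/(tt v)² ≤ (2 log x/κ + 1) · C' κ² x/(e log x)² ≤ C'' (κ/e²) x/log x`.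
Inert: `q ∣ n`, `rgh w n` gives `q² > w`, and `∑_{q > √w} 9 · 6x/q² ≤ 200 x/√w ≤ x/(log x)²`. -/
def SpecTWO : Prop := ∃ C : ℝ, 0 < C ∧ ∀ A e κ : ℝ, 1 ≤ A → 0 < e → e ≤ 1 → 0 < κ → κ ≤ 1 → ∀ᶠ x : ℝ in atTop,
  ∀ S : Finset Gi, (∀ n ∈ S, n ≠ 0 ∧ (nm n : ℝ) ≤ 6 * x ∧ rgh (ww A x) n ∧
    ((∃ q : ℕ, q.Prime ∧ q % 4 = 3 ∧ (q : Gi) ∣ n) ∨
      ∃ (v : ℕ) (π π' : Gi), π ∈ cl (x ^ e) κ v ∧ π' ∈ cl (x ^ e) κ v ∧ π * π' ∣ n)) →
    (S.card : ℝ) ≤ C * (κ / e ^ 2) * (x / Real.log x)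

/-- CNE (120 lines, from HMZ, TWO).  The number of exceptional elements.
Proof.  `EE ⊆ RZ x (x e^κ) ∪ RZ x' (x' e^κ) ∪ (the set of TWO)`; HMZ (3) with `Y = 8x`, `U = {ix1}` (`UOK` for `{ix1}` is immediate), `e^κ - 1 ≤ 2κ`, `x' ≤ 2x`; `(8x)^(1-c) ≤ κ x/log x`; `1/e ≤ 1/e²`. -/
def SpecCNE : Prop := ∃ C : ℝ, 0 < C ∧ ∀ A : ℝ, 1 ≤ A → ∃ c : ℝ, 0 < c ∧ c < 1 ∧ ∀ e κ : ℝ, 0 < e → 16 * e ≤ c →
  0 < κ → κ ≤ 1 → ∀ᶠ x : ℝ in atTop, ∀ x' : ℝ, x ≤ x' → x' ≤ 2 * x →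
    ((EE (ww A x) (x ^ e) κ x x').card : ℝ) ≤ C * (κ / e ^ 2) * (x / Real.log x)

/-- PHC (80 lines, from X.PH.SpecPHX).  The prime sums are small for every nontrivial character.
Proof.  PHX with `N := x`, `δ₀ = e/2`; `f = i.1`, `χ = i.2.1`, `k = i.2.2`; nontrivial: `UOK.dif` with `ix1` (`Dist` gives `k ≠ 0` or `χ z ≠ 0`, `χ z ≠ 1`); `hk χ k i = 1` is `adm`. -/
def SpecPHC : Prop := ∀ A e η : ℝ, 1 ≤ A → 0 < e → e ≤ 1 → 0 < η → ∀ᶠ x : ℝ in atTop,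
  ∀ U : Finset Ix, UOK (Real.log x ^ A) (x ^ A) (Real.log x ^ A) U → ∀ i ∈ U, i ≠ ix1 →
    ∀ y y' : ℝ, x ^ (e / 2) ≤ y → y ≤ y' → y' ≤ x → ‖∑ π ∈ GP y y', psi i π‖ ≤ η * y' / Real.log y'

/-- SMV (200 lines, from HMZ, PHC, X.SpecPSI).  The main sum.
Proof.  `psi i (π m) = psi i π psi i m`.  `V ≤ 2 (log x)/κ` by the hypothesis on `V`.  If `(tt v)² ≥ x'` then `MS v = ∅` (a nonunit has a prime factor, of norm `> tt v`, and `N(m) ≤ x'/tt v`).  Otherwise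
`Y = x'/tt v ≥ √x' ≥ x^(1/3)`, HMZ (1) with `a = 1`, `S = MS v` and (3): `∑_i |B_i|² ≤ (C x/(tt v e log x) + Y^(1-c))² ≤ (2 C x/(tt v e log x))²` (`x' - x ≤ x`; `Y ≤ 2x/tt v`, `Y^(-c) ≤ x^(-c/3)`), and
`|A_i| ≤ η tt (v+1)/log(tt (v+1)) ≤ 6 η tt v/(e log x)` (PHC, `tt v ≥ x^e/2 ≥ x^(e/2)`, `tt (v+1) ≤ 3 √(2x) ≤ x`).  Minkowski in `ℓ²(U)` over at most `V` cells:
`(∑_i |∑_v A B|²)^(1/2) ≤ V · 6 η · 2 C x/(e log x)² ≤ C' (η/(κ e²)) x/log x`. -/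
def SpecSMV : Prop := ∃ C : ℝ, 0 < C ∧ ∀ A : ℝ, 1 ≤ A → ∃ c : ℝ, 0 < c ∧ c < 1 ∧ ∀ e κ η : ℝ, 0 < e → 16 * e ≤ c →
  0 < κ → κ ≤ 1 → 0 < η → ∀ᶠ x : ℝ in atTop, ∀ U : Finset Ix,
  UOK (Real.log x ^ A) (x ^ A) (Real.log x ^ A) U → ∀ (x' : ℝ) (V : ℕ), x ≤ x' → x' ≤ 2 * x → κ * V ≤ 2 * Real.log x →
    (open scoped Classical in ∑ i ∈ U.filter (fun i => i ≠ ix1),
      ‖∑ v ∈ range V, ∑ π ∈ cl (x ^ e) κ v, ∑ m ∈ MS (ww A x) (x ^ e) κ x x' v, psi i (π * m)‖ ^ 2) ≤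
      (C * (η / (κ * e ^ 2)) * (x / Real.log x)) ^ 2

/-! ## Conclusion -/

/-- THX (200 lines, from HMZ, DCP, CNE, SMV, X.SpecPSI).  THEOREM D.
Proof.  `V = ⌈(log x)/κ⌉₊`: `(tt V)² ≥ (x^e - 1)² x² ≥ 2x ≥ x'`, `κ V ≤ 2 log x`.  DCP for `f = psi i`: `4 ∑_π = R - M - E`, `|4 ∑_π|² ≤ 3 (|R|² + |M|² + |E|²)`.  `∑ |R|² ≤ (C e^(-b) x/(e log x) + 2 (8x)^(1-c))²` (HMZ (2)),
`∑ |M|² ≤ (C (η/(κ e²)) x/log x)²` (SMV), `∑ |E|² ≤ (C · 6x/(e log x) + (8x)^(1-c)) #EE` (HMZ (1), `EE ⊆ RZ x (x' e^κ)`, `|a| ≤ 1`), `#EE ≤ C (κ/e²) x/log x` (CNE).  Let `c` be the least of the three.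
Choose `e` small, `b = ⌊c/(8e)⌋ - 3` (`e (8b+16) ≤ c`, `b ≥ c/(8e) - 4`), so that `C e^(-b)/e` is small; then `κ` with `C² κ/e³` small; then `η`. -/
def SpecTHX : Prop := ∀ A ε : ℝ, 1 ≤ A → 0 < ε → ∀ᶠ x : ℝ in atTop, ∀ U : Finset Ix,
  UOK (Real.log x ^ A) (x ^ A) (Real.log x ^ A) U → ∀ x' : ℝ, x ≤ x' → x' ≤ 2 * x →
    (open scoped Classical in ∑ i ∈ U.filter (fun i => i ≠ ix1), ‖∑ π ∈ GP x x', psi i π‖ ^ 2) ≤
      ε * (x / Real.log x) ^ 2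

/-- THD (80 lines, from THX).  The same in terms of `N`, for all blocks with `N^d ≤ y ≤ N²` (for blocks `(y, (1 + κ) y]` with `κ` fixed take `ε κ²`).
Proof.  `A = max (a+1) (2/d)`: `(log N)^a ≤ ((log y)/d)^a ≤ (log y)^(a+1)` for `log y` large, `N² ≤ y^(2/d)`; `UOK` is monotone in the three bounds; `log y ≥ d log N`, THX with `ε d²`. -/
def SpecTHD : Prop := ∀ a d ε : ℝ, 1 ≤ a → 0 < d → d ≤ 1 → 0 < ε → ∀ᶠ N : ℝ in atTop, ∀ U : Finset Ix,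
  UOK (Real.log N ^ a) (N ^ (2 : ℝ)) (Real.log N ^ a) U → ∀ y y' : ℝ, N ^ d ≤ y → y ≤ y' → y' ≤ 2 * y → y ≤ N ^ (2 : ℝ) →
    (open scoped Classical in ∑ i ∈ U.filter (fun i => i ≠ ix1), ‖∑ π ∈ GP y y', psi i π‖ ^ 2) ≤
      ε * (y / Real.log N) ^ 2

end Pool.Agent.Lib.MP391708.XD3
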