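import Pool.Agent.Lib.MP_391708_nt.X3.Spec
import Pool.Agent.Lib.MP_391708_nt.X3.SpecD
import Pool.Agent.Lib.MP_391708_nt.X.SpecLS2
import Pool.Agent.Lib.MP_391708_nt.X.SpecHML
import Pool.Agent.Lib.MP_391708_nt.X.SpecMT
import Pool.Agent.Lib.MP_391708_nt.X.M4

/-!
# THEOREM X3 (MP_391708), part MT: the main term for `k ≥ 3`

`XP/SpecMT.lean` without `π₄`.  Two differences.

(1) SIEVE.  The coefficients `cc i v = S2/RR` are bounded only in mean square over `i`, so the relative error `e^(-m)` of the sieve on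
the line cannot be summed over `i ∈ U`.  We use UNIVERSAL sieve weights (`Wt`, from the proof of `QPA.specFLW`): `[rgh] ≤ lam c`,
`lam c - [rgh] ≤ lam d`, `lam = ∑ (weight of δ) [δ ∣ N(z)]`, a condition on `n` only (`ω z = n + ib`, `ω` rough).  The main term is computed with
`lam c` (no sieve error, all errors are `O(ℓ^(-A))`, LPM), the difference is bounded by Cauchy–Schwarz:
`∑ lam d |F|`, `F(z) = ∑_i a_i conj ψ_i(z)`, and `∑ lam d |F|²` over `z₁` in a cell and `z` on the line is, up to `O(ℓ^(-A))`, a mean over `n` of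
`lam d(n) ∑_{z₁} |∑_i a_i .. ψ_i(z₁)|²`, bounded by the DUAL Halász–Montgomery inequality (DUA) for fixed `n` (module SQE).

(2) For `ψ ≠ 1` the sums of `S2` over blocks are small in mean square over `i` (THEOREM D, `XD3.SpecTHD`): PSM, BIL, BLX.

Form of a module: file `X3/MT/XXX.lean`, `import Pool.Agent.Lib.MP_391708_nt.X3.SpecMT`, `set_option autoImplicit false`, namespace
`Pool.Agent.Lib.MP391708.X3M`, own lemmas in `XXXM`, `theorem specXXX (hYYY : SpecYYY) .. : SpecXXX` (the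
hypotheses are the Specs named in brackets, in this order).  Where it says COPY, start from the file `X/MT/XXX.lean` or `XP/MT/XXX.lean`.

Every statement is of the form `EV Φ`: `Φ` holds for all contexts `(p, B, U, b, y)` of `SpecMT`, for suitable
exponents and `N` large.  `EV.and`, `EV.mono`, `EV.of_all` combine them: never unfold `EV` if you can avoid it.
Write `ℓ = log N`, `K' = K/N(y)`.
-/

set_option autoImplicit false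

namespace Pool.Agent.Lib.MP391708.X3M

open Finset Filter Topology Pool.Agent.Lib.MP391708.MR
open Pool.Agent.Lib.MP391708.X (ChiG hk Dist Fam rgh VP Ix psi ix1 UOK lc On)
open Pool.Agent.Lib.MP391708.X3
open Pool.Agent.Lib.MP391708.XL (gb VS PS pt LN)
open Pool.Agent.Lib.MP391708.QPA (PB)
open Pool.Agent.Lib.MP391708.QPA.FLW (Dset)
open scoped ComplexConjugate

/-- the data of a context: exponents, the box, the set of indices, the line, the outer factor -/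
structure Cx (cw aU aQ aF ch δ cP cT cB N T P B : ℝ) (U : Finset Ix) (b : ℕ) (y : Gi) : Prop where
  box : Box δ cP cT cB N T P B
  ok : UOK (Real.log N ^ aQ) (Real.log N ^ aF * (N / B)) (Real.log N ^ aU) U
  b1 : B < b
  b2 : (b : ℝ) ≤ 2 * B
  y1 : prim y
  y2 : (nm y : ℝ) ≤ Real.log N ^ (cP / 2)
  y3 : ∀ π : Gi, Prime π → π ∣ y → Real.log N ^ cw < (nm π : ℝ) ∧ Real.log N ^ aQ < (nm π : ℝ)

/-- `Φ` holds in all contexts -/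
def EV (Φ : Par → ℝ → Finset Ix → ℕ → Gi → Prop) : Prop := ∀ cw aU aQ aF : ℝ, 1 ≤ cw → 2 * aQ ≤ cw → 1 ≤ aU →
  1 ≤ aQ → 1 ≤ aF → ∃ ch0 δ0 : ℝ, 0 < δ0 ∧ ∀ ch : ℝ, ch0 ≤ ch → ∀ δ : ℝ, 0 < δ → δ ≤ δ0 →
  ∃ cP0 : ℝ, ∀ cP : ℝ, cP0 ≤ cP → ∃ cT0 : ℝ, ∀ cT : ℝ, cT0 ≤ cT → ∃ cB0 : ℝ, ∀ cB : ℝ, cB0 ≤ cB →
  ∀ᶠ N : ℝ in atTop, ∀ (T P B : ℝ) (U : Finset Ix) (b : ℕ) (y : Gi),
    Cx cw aU aQ aF ch δ cP cT cB N T P B U b y → Φ (par N T P ch cw) B U b y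

lemma EV.mono {Φ Ψ : Par → ℝ → Finset Ix → ℕ → Gi → Prop} (h : EV Φ)
    (hi : ∀ p B U b y, Φ p B U b y → Ψ p B U b y) : EV Ψ := by
  intro cw aU aQ aF h0 h1 h2 h3 h4
  obtain ⟨ch0, δ0, hδ0, h5⟩ := h cw aU aQ aF h0 h1 h2 h3 h4
  refine ⟨ch0, δ0, hδ0, fun ch hch δ hδ hδ2 => ?_⟩
  obtain ⟨cP0, h6⟩ := h5 ch hch δ hδ hδ2
  refine ⟨cP0, fun cP hcP => ?_⟩
  obtain ⟨cT0, h7⟩ := h6 cP hcP
  refine ⟨cT0, fun cT hcT => ?_⟩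
  obtain ⟨cB0, h8⟩ := h7 cT hcT
  refine ⟨cB0, fun cB hcB => ?_⟩
  filter_upwards [h8 cB hcB] with N hN T P B U b y hc
  exact hi _ _ _ _ _ (hN T P B U b y hc)

lemma EV.and {Φ Ψ : Par → ℝ → Finset Ix → ℕ → Gi → Prop} (h : EV Φ) (h' : EV Ψ) :
    EV (fun p B U b y => Φ p B U b y ∧ Ψ p B U b y) := by
  intro cw aU aQ aF h0 h1 h2 h3 h4
  obtain ⟨ch0, δ0, hδ0, h5⟩ := h cw aU aQ aF h0 h1 h2 h3 h4
  obtain ⟨ch0', δ0', hδ0', h5'⟩ := h' cw aU aQ aF h0 h1 h2 h3 h4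
  refine ⟨max ch0 ch0', min δ0 δ0', lt_min hδ0 hδ0', fun ch hch δ hδ hδ2 => ?_⟩
  obtain ⟨cP0, h6⟩ := h5 ch ((le_max_left _ _).trans hch) δ hδ (hδ2.trans (min_le_left _ _))
  obtain ⟨cP0', h6'⟩ := h5' ch ((le_max_right _ _).trans hch) δ hδ (hδ2.trans (min_le_right _ _))
  refine ⟨max cP0 cP0', fun cP hcP => ?_⟩
  obtain ⟨cT0, h7⟩ := h6 cP ((le_max_left _ _).trans hcP)
  obtain ⟨cT0', h7'⟩ := h6' cP ((le_max_right _ _).trans hcP)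
  refine ⟨max cT0 cT0', fun cT hcT => ?_⟩
  obtain ⟨cB0, h8⟩ := h7 cT ((le_max_left _ _).trans hcT)
  obtain ⟨cB0', h8'⟩ := h7' cT ((le_max_right _ _).trans hcT)
  refine ⟨max cB0 cB0', fun cB hcB => ?_⟩
  filter_upwards [h8 cB ((le_max_left _ _).trans hcB), h8' cB ((le_max_right _ _).trans hcB)] with
    N hN hN' T P B U b y hc
  exact ⟨hN T P B U b y hc, hN' T P B U b y hc⟩

lemma EV.of_all {Φ : Par → ℝ → Finset Ix → ℕ → Gi → Prop} (h : ∀ p B U b y, Φ p B U b y) : EV Φ := by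
  intro cw aU aQ aF _ _ _ _ _
  refine ⟨0, 1, one_pos, fun ch _ δ _ _ => ⟨0, fun cP _ => ⟨0, fun cT _ => ⟨0, fun cB _ => ?_⟩⟩⟩⟩
  exact Filter.Eventually.of_forall fun N T P B U b y _ => h _ _ _ _ _

/-- the indices of a context -/
lemma EV.uok : EV (fun _ _ U _ _ => ix1 ∈ U ∧ ∀ i ∈ U, 1 ≤ i.1 ∧ ChiG (i.1 : Gi) i.2.1 ∧
    psi i ⟨0, 1⟩ = 1 ∧ (i ≠ ix1 → Dist i.2.1 (fun _ => 1) i.2.2 0)) := by
  intro cw aU aQ aF _ _ _ _ _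
  refine ⟨0, 1, one_pos, fun ch _ δ _ _ => ⟨0, fun cP _ => ⟨0, fun cT _ => ⟨0, fun cB _ => ?_⟩⟩⟩⟩
  exact Filter.Eventually.of_forall fun N T P B U b y hc =>
    ⟨hc.ok.one, fun i hi => ⟨(hc.ok.ch i hi).1, (hc.ok.ch i hi).2.2, hc.ok.adm i hi,
      fun hne => hc.ok.dif i hi ix1 hc.ok.one hne⟩⟩

/-- `EV` is what `SpecMT` needs -/
lemma EV.specMT {c : ℝ} (hc : 0 < c) (h : EV (fun p _ U b y =>
    c * (VS b (PS p.w) / VP p.w) * (p.N / (Real.log p.N ^ 2 * Real.log p.P * nm y)) ≤ (sy p y b (Kap p U)).re)) :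
    SpecMT := by
  refine ⟨c, hc, ?_⟩
  intro cw aU aQ aF h0 h1 h2 h3 h4
  obtain ⟨ch0, δ0, hδ0, h5⟩ := h cw aU aQ aF h0 h1 h2 h3 h4
  refine ⟨ch0, δ0, hδ0, fun ch hch δ hδ hδ2 => ?_⟩
  obtain ⟨cP0, h6⟩ := h5 ch hch δ hδ hδ2
  refine ⟨cP0, fun cP hcP => ?_⟩
  obtain ⟨cT0, h7⟩ := h6 cP hcP
  refine ⟨cT0, fun cT hcT => ?_⟩
  obtain ⟨cB0, h8⟩ := h7 cT hcT
  refine ⟨cB0, fun cB hcB => ?_⟩
  filter_upwards [h8 cB hcB] with N hN T P B hB U hU b hb1 hb2 y hy1 hy2 hy3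
  exact hN T P B U b y ⟨hB, hU, hb1, hb2, hy1, hy2, hy3⟩

/-! ## Definitions -/

/-- the cells of `z₁` -/
noncomputable def I1 (p : Par) (y : Gi) : Finset ℕ := VV p.h (p.K / nm y) (2 * (p.K / nm y))

/-- the sum of `ψ` over the `z₁` in the cell `u` -/
noncomputable def S1 (p : Par) (y : Gi) (i : Ix) (u : ℕ) : ℂ :=
  ∑ z ∈ cell p.h (p.K / nm y) (2 * (p.K / nm y)) u, psi i z

/-- the radius `√(N(y) N(π) e^(s/h))`, `s = u + v` -/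
noncomputable def rad (p : Par) (y π : Gi) (s : ℕ) : ℝ :=
  Real.sqrt ((nm y : ℝ) * nm π * Real.exp (s / p.h))

/-- the bilinear sum over the cells -/
noncomputable def TT (p : Par) (y π : Gi) (b : ℕ) (i : Ix) : ℂ :=
  ∑ u ∈ I1 p y, ∑ v ∈ I2 p, S1 p y i u * S2 p i v *
    (((1 / rad p y π (u + v) : ℝ) : ℂ) *
      Complex.exp (-(Complex.I * i.2.2 * b / (rad p y π (u + v) : ℝ))))

/-- the size of the main term for one `π₃`, without the sieve factor -/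
noncomputable def Z0 (p : Par) (y : Gi) : ℝ :=
  p.K / nm y * p.M2 / (p.N * Real.log p.N ^ 2)

/-- the size of the main term -/
noncomputable def XX (p : Par) (y : Gi) (b : ℕ) : ℝ :=
  VS b (PS p.w) / VP p.w * (GP p.P (2 * p.P)).card * Z0 p y

/-- the points `z` of the lattice cell `v` on the line `Im (ω z) = b`, `Re > 0` -/
noncomputable def LC (p : Par) (ω : Gi) (b v : ℕ) : Finset Gi := by
  classical exact (disc (p.N * p.T)).filter (fun z => On ω b z ∧ z ∈ lc p.h v)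

/-- sieve weights (fundamental lemma, dimension 2): `∑ c_δ a_δ` is an upper bound for `∏ (1 - a_p)`, the difference is at most
`∑ d_δ a_δ`, which is small for densities `g`; `a_δ = ∏_{p ∣ δ} a_p` -/
structure Wt (C z : ℝ) (m : ℕ) (c d : ℕ → ℝ) : Prop where
  bc : ∀ δ, |c δ| ≤ 1 + Real.log z
  bd : ∀ δ, |d δ| ≤ C * (1 + Real.log z)
  lo : ∀ a : ℕ → ℝ, (∀ p, p.Prime → 0 ≤ a p ∧ a p ≤ 1) →
    ∏ p ∈ PB z, (1 - a p) ≤ ∑ δ ∈ Dset z m, c δ * ∏ p ∈ δ.primeFactors, a p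
  up : ∀ a : ℕ → ℝ, (∀ p, p.Prime → 0 ≤ a p ∧ a p ≤ 1) →
    (∑ δ ∈ Dset z m, c δ * ∏ p ∈ δ.primeFactors, a p) - ∏ p ∈ PB z, (1 - a p) ≤
      ∑ δ ∈ Dset z m, d δ * ∏ p ∈ δ.primeFactors, a p
  mn : ∀ g : ℕ → ℝ, (∀ p, p.Prime → 0 ≤ g p ∧ g p ≤ 2 / (p : ℝ) ∧ g p ≤ 2 / 3) →
    ∑ δ ∈ Dset z m, d δ * ∏ p ∈ δ.primeFactors, g p ≤ C * Real.exp (-(m : ℝ)) * ∏ p ∈ PB z, (1 - g p)

open scoped Classical in
/-- the divisor sum `∑ c_δ [δ ∣ N(z)]` over the `δ` composed of primes of `PS w` -/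
noncomputable def lam (w : ℝ) (m : ℕ) (c : ℕ → ℝ) (z : Gi) : ℝ :=
  ∑ δ ∈ (Dset (w + 1) m).filter (fun δ => δ.primeFactors ⊆ PS w ∧ δ ∣ nm z), c δ

open scoped Classical in
/-- the indicator of the rough numbers -/
noncomputable def ro (w : ℝ) (z : Gi) : ℝ := if rgh w z then 1 else 0

/-- the mean of `G` over `0, .., L - 1` -/
noncomputable def av (L : ℕ) (G : ℤ → ℂ) : ℂ := (1 / (L : ℂ)) * ∑ n ∈ range L, G n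

/-- a common period of all the functions of `n` -/
noncomputable def per (w : ℝ) (U : Finset Ix) : ℕ := (∏ p ∈ PS w, p) * (∏ i ∈ U, i.1) ^ 2

/-- the mean over `n` of `lam c (n + ib) conj χ_i(n + ib) χ_j(n + ib)` -/
noncomputable def AV (p : Par) (m : ℕ) (c : ℕ → ℝ) (U : Finset Ix) (b : ℕ) (i j : Ix) : ℂ :=
  av (per p.w U) (fun n => (lam p.w m c (pt n b) : ℂ) * conj (i.2.1 (pt n b)) * j.2.1 (pt n b))

/-- the line sum of `lam c · conj ψ_i · ψ_j` over the lattice cell `v` -/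
noncomputable def PL (p : Par) (m : ℕ) (c : ℕ → ℝ) (i j : Ix) (ω : Gi) (b v : ℕ) : ℂ :=
  ∑ z ∈ LC p ω b v, (lam p.w m c z : ℂ) * conj (psi i z) * psi j z

/-! ## Sizes -/

/-- elementary facts (all of them for `N` large) -/
structure Siz (p : Par) (U : Finset Ix) (b : ℕ) (y : Gi) : Prop where
  N1 : 1000000 ≤ p.N
  l1 : 100 ≤ Real.log p.N
  h1 : 100 ≤ p.h
  h2 : p.h ^ 2 ≤ p.N / 10
  w1 : 1 ≤ p.w
  P1 : 100 ≤ p.P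
  T1 : 1000 * p.P ≤ p.T
  b1 : 1 ≤ b
  b2 : (b : ℝ) ^ 2 ≤ 8 * p.N
  ny : 1 ≤ nm y
  K1 : p.N ^ (9 / 10 : ℝ) ≤ p.K / nm y
  K2 : p.K / nm y ≤ p.N
  M21 : p.N ≤ p.M2
  M22 : 2 * p.M2 ≤ p.N ^ (3 / 2 : ℝ)
  nT : 2 * p.M2 * Real.exp (2 / p.h) ≤ p.N * p.T
  prod : 8 * p.K * p.P * p.M2 = p.N ^ 2
  /-- the outer point `ω = y z₁ π₃` -/
  om : ∀ π ∈ GP p.P (2 * p.P), ∀ z ∈ GP (p.K / nm y) (2 * (p.K / nm y)),
    prim (y * z * π) ∧ rgh p.w (y * z * π) ∧ (∀ i ∈ U, Nat.Coprime (nm (y * z * π)) i.1) ∧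
    (nm (y * z * π) : ℝ) = nm y * nm z * nm π ∧ 0 < nm (y * z * π) ∧ (nm (y * z * π) : ℝ) ≤ 4 * (p.K * p.P)
  /-- `z₁` and its cell -/
  ce : ∀ z ∈ GP (p.K / nm y) (2 * (p.K / nm y)), ⌊p.h * Real.log (nm z)⌋₊ ∈ I1 p y ∧
    z ∈ cell p.h (p.K / nm y) (2 * (p.K / nm y)) ⌊p.h * Real.log (nm z)⌋₊ ∧
    Real.exp ((⌊p.h * Real.log (nm z)⌋₊ : ℝ) / p.h) ≤ nm z ∧
    (nm z : ℝ) ≤ Real.exp ((⌊p.h * Real.log (nm z)⌋₊ : ℝ) / p.h) * Real.exp (1 / p.h)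
  /-- `y`, `π₃` -/
  py : ∀ π ∈ GP p.P (2 * p.P), (0 : ℝ) < nm y * nm π
  /-- the radii -/
  ra : ∀ π ∈ GP p.P (2 * p.P), ∀ u ∈ I1 p y, ∀ v ∈ I2 p,
    p.N / 8 ≤ rad p y π (u + v) ∧ rad p y π (u + v) ≤ 2 * p.N
  /-- the lattice cells -/
  jj : ∀ v ∈ I2 p, p.N / 20 ≤ Real.exp ((v : ℝ) / p.h) ∧ Real.exp (((v : ℝ) + 1) / p.h) ≤ p.N * p.T
  /-- the numbers of cells -/
  c1 : ((I1 p y).card : ℝ) ≤ p.h
  c2 : ((I2 p).card : ℝ) ≤ p.h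

/-- SIZ (350 lines, strong; COPY of X/MT/SIZ or XP/MT/SIZ).  Proof.  `ℓ^cP ≤ P ≤ ℓ^(2cP)`, `P ℓ^cT ≤ T ≤ N^δ`, `h = ℓ^ch`, `w = ℓ^cw`, `K = N/T`,
`M2 = N T/(8 P)`, `N(y) ≤ ℓ^(cP/2)`; take `ch0 = 1`, `δ0 = 1/100`, `cP0 = max(2 cw, 2 aQ) + 2` (so that `w, Q < P`, `Q = ℓ^aQ`), `cT0 = 1`, `cB0 = 1`.
Powers of `ℓ` are `≤ N^(1/100)`.  `K/N(y) ≥ N^0.98`, `N ≤ M2 ≤ N^1.01`.  `b ≥ 1` since `b > B ≥ 1`; `b² ≤ 4B² ≤ 8N`.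
`om`, `ce`: as in `X/SpecMT.lean`; `N(y z π) ≤ N(y) · 2K' · 2P = 4 K P`.
`ra`: `N(y) N(π) e^((u+v)/h) ∈ [K P M2 e^(-2/h), 8 K P M2] = [N² e^(-2/h)/8, N²]`.
`jj`: `e^(v/h) ≥ M2 e^(-1/h) ≥ N/20`; `e^((v+1)/h) ≤ 2 M2 e^(1/h) ≤ N T`.
Cells: `#VV h M 2M ≤ h log 2 + 2 ≤ h`. -/
def SpecSIZ : Prop := EV (fun p _ U b y => Siz p U b y)

/-- FRQ (100 lines, COPY).  The phase is nearly constant on a cell: `|k| b ≤ δ h N`.  Proof: `|k| ≤ ℓ^aF N/B`, `b ≤ 2B`, so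
`|k| b ≤ 2 ℓ^aF N ≤ δ ℓ^ch N` for `ch ≥ ch0 = aF + 1`, `ℓ ≥ 2/δ`. -/
def SpecFRQ : Prop := ∀ δ : ℝ, 0 < δ → EV (fun p _ U b _ => ∀ i ∈ U, |(i.2.2 : ℝ)| * b ≤ δ * p.h * p.N)

/-- FRU (120 lines, from XL.SpecLSM).  All the errors of the line sums: powers of `#U`, `w` against `h`.
Proof.  `#U ≤ ℓ^aU`, `w + 1 ≤ 2 ℓ^cw`, `|k| b/(h N) ≤ 2 ℓ^aF/h`, `|k| (b/N)³ ≤ ℓ^aF (N/B) 8 B³/N³ = 8 ℓ^aF B²/N² ≤ 16 ℓ^aF/N`, `h = ℓ^ch`; `VS b (PS w) ≥ c/log(w+1)^4 ≥ 1/ℓ` (LSM, last claim).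
`ch0 = 2 aU + aF + n cw + 5`. -/
def SpecFRU : Prop := ∀ (n : ℕ) (δ : ℝ), 0 < δ → EV (fun p _ U b _ => ∀ i ∈ U,
  (U.card : ℝ) ^ 2 * (p.w + 1) ^ n * (1 / p.h + |(i.2.2 : ℝ)| * (b / (p.h * p.N) + ((b : ℝ) / p.N) ^ 3)) ≤
    δ * VS b (PS p.w))

/-- TBU (120 lines, from XL.SpecLSM; COPY of TBG).  There are many points on a line.
Proof.  `i.1, j.1 ≤ ℓ^aQ`, `w = ℓ^cw`, `h = ℓ^ch`, `#U ≤ ℓ^aU`, `T/P ≥ ℓ^cT`: `cT0 = ch + 2 aQ + 2 aU + cw (n + 1) + 10`; `VS b (PS w) ≥ 1/ℓ`. -/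
def SpecTBU : Prop := ∀ (n : ℕ) (δ : ℝ), 0 < δ → EV (fun p _ U b _ => ∀ i ∈ U, ∀ j ∈ U,
  (U.card : ℝ) ^ 2 * (i.1 * j.1) * (p.w + 1) ^ n ≤ δ * (p.T / (p.P * p.h)) * VS b (PS p.w))

/-! ## Inputs, in the form of the contexts -/

/-- CE3 (150 lines, from X.SpecCELB; COPY of X/MT/CE3).  Thin Halász–Montgomery for the cells of `z₁` and `π₂`, in a context.
`S2` has the factor `4`.  `CELB` has `F ≤ N`: `F = ℓ^aF N/B ≤ N` since `B ≥ ℓ^cB`, `cB ≥ aF`. -/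
def SpecCE3 : Prop := ∃ C : ℝ, 0 < C ∧ EV (fun p _ U _ y =>
  (∀ u : ℕ, ∑ i ∈ U, ‖S1 p y i u‖ ^ 2 ≤ (C * (p.K / nm y) / (p.h * Real.log p.N)) ^ 2) ∧
  (∀ v : ℕ, ∑ i ∈ U, ‖S2 p i v‖ ^ 2 ≤ (C * p.M2 / (p.h * Real.log p.N)) ^ 2) ∧
  ∀ u : ℕ, ((cell p.h (p.K / nm y) (2 * (p.K / nm y)) u).card : ℝ) ≤ C * (p.K / nm y) / (p.h * Real.log p.N))

/-- DUA (100 lines, from X.SpecCELB).  The dual inequality for the cells of `z₁`.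
Proof.  CELB, first claim: `∑_{i ∈ U} |∑_z t_z ψ_i(z)|² ≤ C (K'/(h ℓ)) ∑ |t_z|²` for all `t`.  With `t_z = conj (∑_i a_i ψ_i(z))`:
`∑_z |t_z|² = ∑_i a_i ∑_z t_z ψ_i(z) ≤ (∑|a_i|²)^(1/2) (C (K'/(h ℓ)) ∑ |t_z|²)^(1/2)`. -/
def SpecDUA : Prop := ∃ C : ℝ, 0 < C ∧ EV (fun p _ U _ y => ∀ (u : ℕ) (a : Ix → ℂ),
  ∑ z ∈ cell p.h (p.K / nm y) (2 * (p.K / nm y)) u, ‖∑ i ∈ U, a i * psi i z‖ ^ 2 ≤
    C * ((p.K / nm y) / (p.h * Real.log p.N)) * ∑ i ∈ U, ‖a i‖ ^ 2)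

/-- RRA (200 lines, from X.SpecRG0, SpecSIZ; COPY of X/MT/RRA, error `O(1/h)`).  The number of rough elements of a lattice cell.
Proof.  As in `X/SpecMT.lean`: `RR = π (e^((v+1)/h) - e^(v/h)) VP + O(x^(1-c))`, `(e^(1/h) - 1) h = 1 + O(1/h)`, `|(e^(1/h) - 1) h - 1| ≤ 1/h`; the error `x^(1-c)` (and the `O(1)` of the
roundings) is `≤ (1/h) π e^(v/h) VP/h` for `N` large, since `VP w ≥ w^(-2)` and `h, w` are powers of `ℓ`. -/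
def SpecRRA : Prop := EV (fun p _ _ _ _ => 0 < VP p.w ∧ VP p.w ≤ 1 ∧
  ∀ v ∈ I2 p, |RR p v * p.h / (Real.pi * Real.exp ((v : ℝ) / p.h) * VP p.w) - 1| ≤ 4 / p.h)

/-- CCB (80 lines, from SpecCE3, SpecRRA).  The coefficients in mean square.
Proof.  `‖cc‖ = ‖S2‖/RR`, `RR ≥ (1/2) π e^(v/h) VP/h` (RRA, `h ≥ 100` by SIZ or: `4/h ≤ 1/2`). -/
def SpecCCB : Prop := ∃ C : ℝ, 0 < C ∧ EV (fun p _ U _ _ => ∀ v ∈ I2 p,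
  ∑ i ∈ U, ‖cc p i v‖ ^ 2 ≤ (C * p.M2 / (Real.log p.N * (Real.exp ((v : ℝ) / p.h) * VP p.w))) ^ 2)

/-- PSM (120 lines, from XD3.SpecTHD, SpecSIZ).  The initial sums of `S2` are small in mean square over the nontrivial `ψ`.
Proof.  The union of the cells `v < m`, `v ∈ I2`, is `{π ∈ GP M2 2M2 : N(π) < e^(m/h)}`, that is `GP M2 y'` with
`y' = min(2 M2, ⌈e^(m/h)⌉ - 1)` (empty if `y' ≤ M2`), see `X/MT/PSM.lean`.  THD with `a = max(aQ, aU, 1)`, `d = 1/2`, `ε = δ/16`: `f = i.1 ≤ ℓ^aQ`,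
`|k| ≤ ℓ^aF N/B ≤ N²`; `UOK` is monotone in the bounds. -/
def SpecPSM : Prop := ∀ δ : ℝ, 0 < δ → EV (fun p _ U _ _ => ∀ m : ℕ,
  (open scoped Classical in ∑ i ∈ U.filter (fun i => i ≠ ix1),
    ‖∑ v ∈ (I2 p).filter (fun v => v < m), S2 p i v‖ ^ 2) ≤ δ * (p.M2 / Real.log p.N) ^ 2)

/-! ## The sieve weights -/

/-- FLP (200 lines).  The weights exist.  PROOF = the first half of the proof of `QPA.specFLW` (`QPA/FLW.lean`, `κ₀ = 2`): with `K` from `exists_K`,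
`κ j = kap (2 (m + (K - j)))`, `w l j = del (..)` if `j = l`, else `kap (..)`: `c δ = ∏_{j ≤ K} κ j (#(δ.primeFactors ∩ Blk z j))`, `d δ = ∑_{l ≤ K} ∏_{j ≤ K} w l j (#..)` for
`δ ∈ Dset z m` (and `0` elsewhere); `prod_blocks` (as in `FLW.rem_le`: the sum over the subsets `s` of `PB z` with nonzero coefficient is the sum over `δ = ∏ s ∈ Dset`, and every
`δ ∈ Dset` is such a product, with the coefficient `c δ`, possibly `0`); `hupp` is `lo`, `hlow` is `up`, `block_bounds` and `sum_rho_le` give `mn` (end of the proof of `specFLW`: `W ≤ C e^(-m) PG`).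
`|c| ≤ 1 ≤ 1 + log z`, `|d| ≤ K + 1 ≤ 2 (1 + log z)` (`K_le`). -/
def SpecFLP : Prop := ∃ C : ℝ, 0 < C ∧ ∀ (m : ℕ) (z : ℝ), 2 ≤ z → ∃ c d : ℕ → ℝ, Wt C z m c d

/-- LAM (120 lines, from XL.SpecRGB).  Pointwise.
Proof.  `lo`, `up` with `a p = 1` if `p ∈ PS w` and `p ∣ N(z)`, else `0`: `∏_{p ∈ PB (w+1)} (1 - a p) = ro w z` (RGB: `rgh w z ↔ rg (PS w) z`, `PS w ⊆ PB (w+1)`);
for `δ ∈ Dset` (squarefree) `∏_{p ∣ δ} a p = 1` iff `δ.primeFactors ⊆ PS w` and `δ ∣ N(z)`. -/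
def SpecLAM : Prop := ∀ (C w : ℝ) (m : ℕ) (c d : ℕ → ℝ), 1 ≤ w → Wt C (w + 1) m c d → ∀ z : Gi, z ≠ 0 →
  ro w z ≤ lam w m c z ∧ lam w m c z - ro w z ≤ lam w m d z

/-- AVW (200 lines, from XL.SpecCRTP, XL.SpecGBB).  The means of `lam c`, `lam d` on the line.
Proof.  `[δ ∣ N(n + ib)] = ∏_{p ∣ δ} [p ∣ N(n + ib)]` (`δ` squarefree) has period `δ ∣ L`, its mean is `∏_{p ∣ δ} gb b p` (CRTP with `D = 1`).  Let `g p = gb b p` for `p ∈ PS w`, else `0`: the mean of `lam c` is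
`∑_{δ ∈ Dset} c δ ∏_{p ∣ δ} g p`, and `∏_{p ∈ PB (w+1)} (1 - g p) = VS b (PS w)`.  Now `lo`, `up`, `mn` for `a = g` (GBB: `0 ≤ g ≤ 2/p`, `≤ 2/3`). -/
def SpecAVW : Prop := ∀ (C w : ℝ) (m : ℕ) (c d : ℕ → ℝ) (b : ℤ) (L : ℕ), 1 ≤ w → Wt C (w + 1) m c d → 0 < L →
  (∏ p ∈ PS w, p) ∣ L → ∃ x x' : ℝ, av L (fun n => (lam w m c (pt n b) : ℂ)) = x ∧
    av L (fun n => (lam w m d (pt n b) : ℂ)) = x' ∧ VS b (PS w) ≤ x ∧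
    x ≤ (1 + C * Real.exp (-(m : ℝ))) * VS b (PS w) ∧ x' ≤ C * Real.exp (-(m : ℝ)) * VS b (PS w)

/-- AVB (120 lines, from LAM, AVW, SIZ, XL.SpecCHB).  The means with characters.
Proof.  `lam c (n + ib) ≥ 0` (LAM, `b ≥ 1`), `|χ| ≤ 1` (CHB), so `‖AV i ix1‖ ≤ av (lam c)`; `ix1`: the character is `1`.  `per w U > 0` (`1 ≤ i.1`, primes), divisible by `∏ PS w`. -/
def SpecAVB : Prop := ∀ (C : ℝ) (m : ℕ), EV (fun p _ U b _ => ∀ c d : ℕ → ℝ, Wt C (p.w + 1) m c d →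
  (∀ i ∈ U, ‖AV p m c U b i ix1‖ ≤ (1 + C * Real.exp (-(m : ℝ))) * VS b (PS p.w)) ∧
  (AV p m c U b ix1 ix1).im = 0 ∧ VS b (PS p.w) ≤ (AV p m c U b ix1 ix1).re)

/-! ## Line sums -/

/-- AVP (60 lines).  The mean does not depend on the period. -/
def SpecAVP : Prop := ∀ (q L : ℕ) (G : ℤ → ℂ), 0 < q → 0 < L → q ∣ L → (∀ n, G (n + q) = G n) → av L G = av q G

/-- LNQ (150 lines, from XL.SpecCLS, XL.SpecPER).  Periodic functions on the line.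
Proof.  `w ∣ n + ib` is one class modulo `N(w)` (CLS).  For a class `a` modulo `q` the function `[n ≡ a (q)] [w ∣ n + ib]` has period `D = q N(w)` and sum `1` over a period (Chinese remainder theorem,
`gcd(N(w), q) = 1`); PER: its sum over `(X, X']` is `(X' - X)/D + O(2)`.  Sum over `a` with `G(a)`. -/
def SpecLNQ : Prop := ∀ (q : ℕ) (G : ℤ → ℂ) (M : ℝ) (w : Gi) (b : ℤ) (X X' : ℝ), 0 < q → 0 ≤ M →
  (∀ n, G (n + q) = G n) → (∀ n, ‖G n‖ ≤ M) → prim w → Nat.Coprime (nm w) q → X ≤ X' →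
    ‖∑ n ∈ LN w b X X', G n - (((X' - X) / nm w : ℝ) : ℂ) * av q G‖ ≤ 2 * q * M

/-- LPA (300 lines, strong; from LNQ, AVP, XL.SpecGEO, XL.SpecQT, XL.SpecPHA, XL.SpecRGB, XL.SpecCHB).  The line sums with weights, for pairs of characters (no `EV`).
Proof.  Let `Dw` = the `δ ∈ Dset (w+1) m` with primes in `PS w`: at most `(w+1)^(8m+16)` of them, each `≤ (w+1)^(8m+16)`.  GEO with `D = N T`: the sum over `LC` is the sum over `n ∈ LN ω b X X'` at `z = qt ω n b`, `ω z = n + ib`: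
`conj ψ_i(z) = ψ_i(ω) conj ψ_i(n + ib)`, `ψ_j(z) = conj ψ_j(ω) ψ_j(n + ib)` (`|ψ(ω)| = 1`: `N(ω)` is prime to `i.1`, `j.1`; CHB, `MR.xi_mul`, `norm_xi`); `lam c (z) = lam c (n + ib)` (`N(ω) N(z) = N(n + ib)` (QT), `N(ω)` is prime to every
`δ` with primes in `PS w`: RGB).  Phase: `ξ_k(n + ib) = e^(ikb/r) + O(|k| (b/(h r) + (b/r)³))` (PHA, `|n - r| ≤ C r/h`, `n > r/2`), and both have norm `≤ 1`.  `|lam c| ≤ M₁ (w+1)^(8m+16)`, the number of the `n` is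
`≤ C r/(h N(ω)) + 2` (LNQ with `G = 1`, `q = 1`; `X' - X ≤ C r/h`), so the phase error is `≤ C M₁ (w+1)^(8m+16) ((|k_i| + |k_j|) (b/(h r) + (b/r)³) r/(h N(ω)) + 4)`.
Then for every `δ ∈ Dw`: LNQ with `G(n) = [δ ∣ N(n + ib)] conj χ_i χ_j(n + ib)`, `q = δ i.1 j.1` (period: CHB `per`; `pt (n + q) b = pt n b + q`), error `2 q`; sum over `δ`: `≤ 2 M₁ (w+1)^(16m+32) i.1 j.1`; `q ∣ per` (`δ ∣ ∏ PS w`, `i.1 j.1 ∣ (∏ i.1)²`): AVP.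
`|X' - X - r/(2h)| ≤ C r/h²`: error `(C/h) (r/(h N(ω))) M₁ (w+1)^(8m+16)` (`|av G| ≤ 1`). -/
def SpecLPA : Prop := ∃ C : ℝ, 0 < C ∧ ∀ (p : Par) (U : Finset Ix) (m : ℕ) (c : ℕ → ℝ) (M₁ : ℝ) (i j : Ix) (ω : Gi)
  (b v : ℕ) (r : ℝ), (∀ i ∈ U, 1 ≤ i.1 ∧ ChiG (i.1 : Gi) i.2.1) → i ∈ U → j ∈ U → 0 ≤ M₁ → (∀ e, |c e| ≤ M₁) →
  prim ω → rgh p.w ω → Nat.Coprime (nm ω) i.1 → Nat.Coprime (nm ω) j.1 → 1 ≤ p.w → 1 ≤ b → 1 ≤ p.h → 1000 ≤ r →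
  (b : ℝ) ^ 2 ≤ 100 * r → p.h ^ 2 ≤ r → Real.exp (((v : ℝ) + 1) / p.h) ≤ p.N * p.T →
  r ≤ Real.sqrt (nm ω * Real.exp ((v : ℝ) / p.h)) → Real.sqrt (nm ω * Real.exp ((v : ℝ) / p.h)) ≤ r * Real.exp (4 / p.h) →
    ‖PL p m c i j ω b v - ((r / (2 * p.h * nm ω) : ℝ) : ℂ) * (psi i ω * conj (psi j ω)) * AV p m c U b i j *
        Complex.exp (-(Complex.I * ((i.2.2 : ℂ) - j.2.2) * b / (r : ℝ)))‖ ≤
      C * M₁ * (p.w + 1) ^ (16 * m + 34) * ((r / (p.h * nm ω)) *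
        (1 / p.h + (|(i.2.2 : ℝ)| + |(j.2.2 : ℝ)|) * (b / (p.h * r) + ((b : ℝ) / r) ^ 3)) + i.1 * j.1)

/-- LPM (120 lines, from LPA, SIZ, FRU, TBU; see X/MT/LIN).  The same in a context.
Proof.  `ω = y z π`, `r = rad p y π (u + v)`, `u = ⌊h log N(z)⌋`, so `r ≤ √(N(ω) e^(v/h)) ≤ r e^(1/h)` (SIZ.ce).  Conditions: SIZ (`r ≥ N/8 ≥ 1000`, `b² ≤ 8N ≤ 100 r`, `h² ≤ N/10 ≤ r`; `om`, `jj`).  `M₁ (1 + log (w+1)) ≤ M₁ 2 (w+1)`.  The first error by FRU with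
`n = 16m + 35` (`b/r ≤ 8 b/N`: factor `512`), for `i` and for `j`; `i.1 j.1` by TBU: `r/(h N(ω)) ≥ (N/8)/(h 4 K P) = T/(32 h P)` (`K = N/T`). -/
def SpecLPM : Prop := ∀ (M₁ δ : ℝ) (m : ℕ), 0 ≤ M₁ → 0 < δ → EV (fun p _ U b y => ∀ c : ℕ → ℝ,
  (∀ e, |c e| ≤ M₁ * (1 + Real.log (p.w + 1))) → ∀ i ∈ U, ∀ j ∈ U, ∀ π ∈ GP p.P (2 * p.P),
  ∀ z ∈ GP (p.K / nm y) (2 * (p.K / nm y)), ∀ v ∈ I2 p,
    (U.card : ℝ) ^ 2 * ‖PL p m c i j (y * z * π) b v -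
      ((rad p y π (⌊p.h * Real.log (nm z)⌋₊ + v) / (2 * p.h * nm (y * z * π)) : ℝ) : ℂ) *
        (psi i (y * z * π) * conj (psi j (y * z * π))) * AV p m c U b i j *
        Complex.exp (-(Complex.I * ((i.2.2 : ℂ) - j.2.2) * b /
          (rad p y π (⌊p.h * Real.log (nm z)⌋₊ + v) : ℝ)))‖ ≤
      δ * (rad p y π (⌊p.h * Real.log (nm z)⌋₊ + v) / (p.h * nm (y * z * π))) * VS b (PS p.w))

/-! ## The sieve error in mean square -/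

/-- SQE (300 lines, strong; from LPM, LAM, AVW, DUA, CE3, SIZ, XL.SpecCHB).  `∑ lam d |F|²` over `z₁` in a cell and `z` on the line.
Proof.  Expand: `∑_{i,j} a_i conj a_j ∑_{z₁} PL d i j`.  Replace `PL` by the main term of LPM (`M₁ = C`): the error is `≤ ∑_{z₁} (∑|a_i|)² #U^(-2) δ' (r/(h N(ω))) VS`, `(∑|a_i|)² ≤ #U ∑|a_i|²`, `N(ω) ≥ N(y) N(π) e^(u/h)` (SIZ.ce),
`r/(N(y) N(π) e^(u/h)) = e^(v/h)/r`, `#cell ≤ C K'/(h ℓ)` (CE3).  Here `r = rad p y π (u + v)` is the same for all `z₁` of the cell (`z ∈ cell .. u` means `⌊h log N(z)⌋ = u`).  The main terms add up to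
`∑_{z₁} (r/(2h N(ω))) av_n (lam d (n + ib) |∑_i a_i ψ_i(y π) e^(-i k_i b/r) conj χ_i(n + ib) ψ_i(z₁)|²)`, real and `≥ 0` (`lam d ≥ lam c - ro ≥ 0`, LAM: `ro ≤ lam c`, `n + ib ≠ 0`); replace `N(ω)` by `N(y) N(π) e^(u/h)`, exchange the sums over `z₁` and `n`, and apply DUA for every fixed `n` to
`a_i ψ_i(y π) e^(..) conj χ_i(n + ib)` (`|ψ|, |χ| ≤ 1`): `≤ (e^(v/h)/(2 h r)) C' (K'/(h ℓ)) ∑|a_i|² · av (lam d)`, and `av (lam d) ≤ C e^(-m) VS` (AVW).  Choose `m₀` with `C C' e^(-m₀) ≤ δ`. -/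
def SpecSQE : Prop := ∀ C δ : ℝ, 0 < C → 0 < δ → ∃ m₀ : ℕ, ∀ m : ℕ, m₀ ≤ m → EV (fun p _ U b y => ∀ c d : ℕ → ℝ,
  Wt C (p.w + 1) m c d → ∀ π ∈ GP p.P (2 * p.P), ∀ u ∈ I1 p y, ∀ v ∈ I2 p, ∀ a : Ix → ℂ,
    ∑ z₁ ∈ cell p.h (p.K / nm y) (2 * (p.K / nm y)) u, ∑ z ∈ LC p (y * z₁ * π) b v,
      lam p.w m d z * ‖∑ i ∈ U, a i * conj (psi i z)‖ ^ 2 ≤
    δ * VS b (PS p.w) * (Real.exp ((v : ℝ) / p.h) / (p.h * rad p y π (u + v))) *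
      ((p.K / nm y) / (p.h * Real.log p.N)) * ∑ i ∈ U, ‖a i‖ ^ 2)

/-- SER (120 lines, from SQE, LAM).  The sieve error.
Proof.  `|ro - lam c| ≤ lam d` (LAM; the `z` of `LC` are `≠ 0` since `Im (ω z) = b ≥ 1`, use SIZ, or `disc` does not contain `0`), Cauchy–Schwarz with the weights `lam d ≥ 0`: `(∑ lam d)^(1/2) (∑ lam d |F|²)^(1/2)`; the first factor is SQE for
`a` = the indicator of `ix1` (`psi ix1 = 1`, `ix1 ∈ U`: `EV.uok`). -/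
def SpecSER : Prop := ∀ C δ : ℝ, 0 < C → 0 < δ → ∃ m₀ : ℕ, ∀ m : ℕ, m₀ ≤ m → EV (fun p _ U b y => ∀ c d : ℕ → ℝ,
  Wt C (p.w + 1) m c d → ∀ π ∈ GP p.P (2 * p.P), ∀ u ∈ I1 p y, ∀ v ∈ I2 p, ∀ a : Ix → ℂ,
    ‖∑ z₁ ∈ cell p.h (p.K / nm y) (2 * (p.K / nm y)) u, ∑ z ∈ LC p (y * z₁ * π) b v,
      ((ro p.w z - lam p.w m c z : ℝ) : ℂ) * ∑ i ∈ U, a i * conj (psi i z)‖ ≤
    δ * VS b (PS p.w) * (Real.exp ((v : ℝ) / p.h) / (p.h * rad p y π (u + v))) *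
      ((p.K / nm y) / (p.h * Real.log p.N)) * Real.sqrt (∑ i ∈ U, ‖a i‖ ^ 2))

/-! ## The reduction -/

/-- EXC (150 lines, COPY).  Exchange of the sums.  Pure algebra: unfold `sy`, `ls`, `Kap`, `kap`; `y * z₁ * π` is the point of the line;
`2 * p.K / nm y = 2 * (p.K / nm y)`. -/
def SpecEXC : Prop := ∀ (p : Par) (U : Finset Ix) (b : ℕ) (y : Gi),
  sy p y b (Kap p U) = ∑ π ∈ GP p.P (2 * p.P), ∑ z₁ ∈ GP (p.K / nm y) (2 * (p.K / nm y)),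
    ∑ v ∈ I2 p, ∑ z ∈ LC p (y * z₁ * π) b v, (ro p.w z : ℂ) * ∑ i ∈ U, cc p i v * conj (psi i z)

/-- RED (400 lines, strong; from EXC, SER, LPM, AVB, CCB, RRA, SIZ, CE3, FRU, XL.SpecCHB; start from X/MT/RED).  The reduction to the bilinear sums.
Proof.  EXC; the sum over `z₁ ∈ GP` is the sum over `u ∈ I1` and the cell `u` (SIZ.ce).  (a) `ro = lam c + (ro - lam c)`: SER with `a_i = cc p i v`, CCB: for each `(π, u, v)` the error is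
`≤ δ' VS (e^(v/h)/(h r)) (K'/(h ℓ)) C M2/(ℓ e^(v/h) VP) = δ' C (VS/VP) K' M2/(h² ℓ² r)`, `r ≥ N/8`, at most `h²` pairs `(u, v)`: `≤ 8 C δ' XX`.
(b) `∑_z lam c(z) ∑_i cc_i conj ψ_i(z) = ∑_i cc_i PL c i ix1` (`psi ix1 = 1`); LPM (`M₁ = 1`): the error for `(π, z₁, v)` is `≤ ∑_i ‖cc_i‖ #U^(-2) δ' (r/(h N(ω))) VS`, `∑_i ‖cc_i‖ ≤ #U (∑ ‖cc_i‖²)^(1/2)`, CCB, `#U ≥ 1`, `N(ω) e^(v/h) ≥ r²`,
`#cell u ≤ C K'/(h ℓ)` (CE3): as in (a).  (c) Main terms: `cc_i · r/(2h N(ω)) = S2_i r/(2h N(ω) RR(v))`, `N(ω) e^(v/h) = r² (1 + O(1/h))` (SIZ.ce), `RR(v) = (π/h) e^(v/h) VP (1 + O(1/h))` (RRA): the coefficient is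
`(1/(2π VP)) (1/r) (1 + O(1/h))`; the error is `≤ (C/h) (1/(VP r)) ∑_i ‖S2_i‖ ‖AV_i‖ ≤ (C/h) (1/(VP r)) #U (C M2/(h ℓ)) 2 (1 + C) VS` (CE3, AVB) per `z₁`, and `#U/h ≤ δ'` (FRU with `n = 0`, `VS ≤ 1`).  Finally `psi i (y z π) = psi i y psi i z psi i π`,
`conj (psi ix1 ..) = 1`, `ix1.2.2 = 0`, and the sum over `z₁` in the cell `u` of `psi i z₁` is `S1 p y i u`; `rad` depends on the cell only. -/
def SpecRED : Prop := ∀ C δ : ℝ, 0 < C → 0 < δ → ∃ m₀ : ℕ, ∀ m : ℕ, m₀ ≤ m → EV (fun p _ U b y => ∀ c d : ℕ → ℝ,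
  Wt C (p.w + 1) m c d →
    ‖sy p y b (Kap p U) - ((1 / (2 * Real.pi * VP p.w) : ℝ) : ℂ) * ∑ π ∈ GP p.P (2 * p.P), ∑ i ∈ U,
      psi i y * psi i π * (AV p m c U b i ix1 * TT p y π b i)‖ ≤ δ * XX p y b)

/-! ## The bilinear sums -/

/-- BIL (helper6).  The bounded analysis.  `H θ β s = β^s e^(-i θ β^s)`. -/
def SpecBIL : Prop := ∀ C c : ℝ, 1 ≤ C → 0 < c → c ≤ 1 → ∀ (β : ℝ) (n : ℕ), 0 < β → β < 1 → 1 ≤ n →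
  1 ≤ C * n * (1 - β) → c ≤ β ^ n → ∀ (ι : Type) (Ψ : Finset ι) (θ : ι → ℝ) (g : ι → ℂ)
  (a y : ι → ℕ → ℂ) (A Y ε T₀ : ℝ), 0 ≤ A → 0 ≤ Y → 0 ≤ ε → 1 ≤ T₀ →
  (∀ i ∈ Ψ, |θ i| * (1 - β) ≤ 1) → (∀ i ∈ Ψ, ‖g i‖ ≤ 1) →
  (∀ u, u < n → ∑ i ∈ Ψ, ‖a i u‖ ^ 2 ≤ A ^ 2) → (∀ v, v < n → ∑ i ∈ Ψ, ‖y i v‖ ^ 2 ≤ Y ^ 2) →
  (∀ m, m ≤ n → ∑ i ∈ Ψ, ‖∑ v ∈ range m, y i v‖ ^ 2 ≤ (ε * Y * n) ^ 2) →
    ∑ i ∈ Ψ, ‖g i * ∑ u ∈ range n, ∑ v ∈ range n,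
      a i u * y i v * Pool.Agent.Lib.MP391708.X.M4.H (θ i) β (u + v)‖ ≤
      (3 * T₀ * ε + 8 * (C / c ^ 2) * T₀ ^ (-(1 / 4) : ℝ)) * n ^ 2 * (A * Y)

/-- BLX (300 lines, strong; from BIL, CE3, PSM, SIZ, FRQ, AVB, XL.SpecLSM (`VS > 0`); start from X/MT/BLX).  The nontrivial characters contribute little.
Proof.  Fix `π`.  `u₀, v₀` = the least elements of `I1, I2` (`VV = Icc ..`), `n = ⌊h⌋₊` (both have at most `n` elements by SIZ, c1 c2), extend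
`S1, S2` by zero outside.  `β = e^(-1/(2h))`: `1 - β ≥ 1/(4h)`, so `1 ≤ 8 n (1 - β)` (`C = 8`), `β^n ≥ e^(-1/2) ≥ 1/2 = c`.
`1/rad(u + v) = β^(..)/r₀`, `r₀ = rad p y π (u₀ + v₀) ≥ N/8`, and `k b/rad = θ β^(..)`, `θ = k b/r₀`, `|θ| (1 - β) ≤ |k| b · 8/(2 h N) ≤ 1` (FRQ with
`δ = 1/4`).  `g = AV i ix1/((1 + C) VS)` (AVB, `e^(-m) ≤ 1`).  `A, Y` from CE3; the third condition: PSM with `δ'`: `δ' (M2/ℓ)² ≤ (ε Y n)²`, `Y = C M2/(h ℓ)`, `n ≥ h/2`: `ε = 2 √δ'/C`.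
BIL: `∑ ‖AV TT‖ ≤ ((1 + C) VS/r₀) (3 T₀ ε + 256 T₀^(-1/4)) n² A Y ≤ C'' (3 T₀ ε + 256 T₀^(-1/4)) VS Z0`.  Choose first `T₀`, then `δ'`. -/
def SpecBLX : Prop := ∀ (C δ : ℝ) (m : ℕ), 0 < C → 0 < δ → EV (fun p _ U b y => ∀ c d : ℕ → ℝ,
  Wt C (p.w + 1) m c d → ∀ π ∈ GP p.P (2 * p.P),
    (open scoped Classical in ∑ i ∈ U.filter (fun i => i ≠ ix1), ‖AV p m c U b i ix1 * TT p y π b i‖) ≤
      δ * VS b (PS p.w) * Z0 p y)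

/-- MNX (150 lines, from XM.SpecCNT, SIZ, AVB, XL.SpecLSM; COPY).  The trivial character.
Proof.  `psi ix1 = 1`, `k = 0`: `TT` is the sum of `#cell(u) 4 #cell(v)/rad ≥ ../(2N)`, all terms `≥ 0`; the cells partition
`GP M (2M)` (SIZ.ce for `z₁`, the same monotonicity for `M2`), CNT for `K'`, `M2` (`log ≤ 2 ℓ`); `AV ix1 ix1` is real and `≥ VS ≥ 0` (AVB; `VS > 0`: LSM (E)). -/
def SpecMNX : Prop := ∃ c : ℝ, 0 < c ∧ ∀ (C : ℝ) (m : ℕ), EV (fun p _ U b y => ∀ c' d : ℕ → ℝ,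
  Wt C (p.w + 1) m c' d → ∀ π ∈ GP p.P (2 * p.P),
    (AV p m c' U b ix1 ix1 * TT p y π b ix1).im = 0 ∧
    c * VS b (PS p.w) * Z0 p y ≤ (AV p m c' U b ix1 ix1 * TT p y π b ix1).re)

/-- XXL (120 lines, from XM.SpecCNT, SIZ, RRA, XL.SpecLSM: (E); COPY).  The size of the main term.
Proof.  `8 K P M2 = N²`, `#GP P 2P ≥ c P/log P` (CNT: `P ≥ ℓ^cP → ∞` uniformly), `VP > 0` (RRA), `VS > 0` (E):
`XX = VS/VP · #GP · K' M2/(N ℓ²) ≥ (c/8) (VS/VP) N/(N(y) ℓ² log P)`. -/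
def SpecXXL : Prop := ∃ c : ℝ, 0 < c ∧ EV (fun p _ _ b y =>
  c * (VS b (PS p.w) / VP p.w) * (p.N / (Real.log p.N ^ 2 * Real.log p.P * nm y)) ≤ XX p y b ∧ 0 ≤ XX p y b)

/-- FMT (120 lines, from FLP, RED, BLX, MNX, XXL, RRA, SIZ, XL.SpecCHB; `EV.uok`; COPY).  The conclusion.  Proof.  `C` from FLP, `c` from MNX; `δ` small against `c`; `m = m₀` of RED.  In a context take `c', d` from FLP (`z = w + 1 ≥ 2`).  `(1/(2π VP)) ∑_π (c - δ) VS Z0 - δ XX ≥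
(c/(2π) - 2δ) XX`; `psi ix1 = 1`, `ix1 ∈ U` (`EV.uok`), `‖psi i y psi i π‖ ≤ 1` (XL.SpecCHB).  Then SpecMT is `EV.specMT`. -/
def SpecFMT : Prop := ∃ c : ℝ, 0 < c ∧ EV (fun p _ U b y =>
  c * (VS b (PS p.w) / VP p.w) * (p.N / (Real.log p.N ^ 2 * Real.log p.P * nm y)) ≤ (sy p y b (Kap p U)).re)

end Pool.Agent.Lib.MP391708.X3M
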