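import Pool.Agent.Lib.MP_391708_nt.X.SpecHM
import Pool.Agent.Lib.MP_391708_nt.X3.Big

/-!
# THEOREM X3 (MP_391708, `k ≥ 3`), part VB: Vaughan's identity in `ℤ[i]`

Result: `X3.SpecVB` (`X3/Big.lean`).  Hecke characters whose sums over all cells of primes of norm between `N^0.1` and `N^1.2` are
small (not `Big`) have small sums over the primes of every interval in `(M, 2M]`, in mean square over `≤ N^c` characters; here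
`M` is between `N^0.9` and `N^1.1`, the saving is any power of `log N`.

Modules: files `X3/XXX.lean`, `import Pool.Agent.Lib.MP_391708_nt.X3.SpecVB`, namespace `Pool.Agent.Lib.MP391708.XB3`, own
lemmas in the namespace `XXXM`, `theorem specXXX (hYYY : SpecYYY) .. : SpecXXX` (hypotheses in the order of the brackets).
The statements of `X/SpecHM.lean` are proved without hypotheses in `X/HM.lean` (`hm_anc`, `hm_hmt`, `hm_nts`, ..) and may be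
cited; also `X/VPL.lean` (`VPLM.mem_PI'`, `VPLM.GP_sub`, `VPLM.rest_sub`), `X/CELAll.lean` (`ce_vpl : SpecVPL`), `X/LGD.lean`
(`LGDM.prod_dvd_iff`, `LGDM.exists_assoc`, `LGDM.assoc_eq`), `X/RKN.lean` (`RKNM.sumW`: `∑_{disc W} 1/nm z ≤ 18 + 9 log W`).

Everywhere `∏ π ∈ T, π` is the product of a set `T` of primes of `PI V` (`X/SpecHM.lean`: one of each class of associates).
-/

set_option autoImplicit false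

namespace Pool.Agent.Lib.MP391708.XB3

open Finset Filter Topology Pool.Agent.Lib.MP391708.MR
open Pool.Agent.Lib.MP391708.X (ChiG hk Dist Fam PI Ix psi ix1)
open scoped ComplexConjugate

/-! ## Definitions -/

open scoped Classical in
/-- the sets of primes with product of norm at most `V` -/
noncomputable def TT (V : ℝ) : Finset (Finset Gi) :=
  (PI V).powerset.filter (fun T => ∏ π ∈ T, (nm π : ℝ) ≤ V)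

open scoped Classical in
/-- the sum of `μ(d)` over the divisors `d` of `b` of norm at most `V` -/
noncomputable def AV (V : ℝ) (b : Gi) : ℝ :=
  ∑ T ∈ (TT V).filter (fun T => (∏ π ∈ T, π) ∣ b), (-1 : ℝ) ^ T.card

open scoped Classical in
/-- the number of the primes of norm at most `x` dividing `z` -/
noncomputable def oo (x : ℝ) (z : Gi) : ℕ := ((PI x).filter (fun π => π ∣ z)).card

/-- the pairs `(π, k)`, standing for the prime powers `π ^ k` -/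
noncomputable def PP (x : ℝ) (L : ℕ) : Finset (Gi × ℕ) := PI x ×ˢ Icc 1 L

/-- `ψ` on the norms in `(M, M']` -/
noncomputable def FF (ψ : Gi → ℂ) (M M' : ℝ) (z : Gi) : ℂ :=
  open scoped Classical in if M < (nm z : ℝ) ∧ (nm z : ℝ) ≤ M' then ψ z else 0

/-- the type II sum -/
noncomputable def T2 (ψ : Gi → ℂ) (x U V M M' : ℝ) : ℂ :=
  ∑ π ∈ GP U x, ((Real.log (nm π) : ℝ) : ℂ) *
    ∑ b ∈ (disc x).filter (fun b => V < (nm b : ℝ)), ((AV V b : ℝ) : ℂ) * FF ψ M M' (π * b)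

/-- the sum over the primes of a cell -/
noncomputable def Pc (ψ : Gi → ℂ) (h U Q : ℝ) (v : ℕ) : ℂ := ∑ π ∈ cell h U Q v, ψ π

/-- the other variable -/
noncomputable def Bc (ψ : Gi → ℂ) (V M M' h : ℝ) (v : ℕ) : ℂ :=
  ∑ b ∈ (ann (M * Real.exp (-(v / h))) (M' * Real.exp (-(v / h)))).filter (fun b => V < (nm b : ℝ)),
    ((AV V b : ℝ) : ℂ) * ψ b

/-- the type II sum with separated variables -/
noncomputable def MN (ψ : Gi → ℂ) (h U Q V M M' : ℝ) : ℂ :=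
  ∑ v ∈ VV h U Q, (((v : ℝ) / h : ℝ) : ℂ) * Pc ψ h U Q v * Bc ψ V M M' h v

/-! ## Elementary part -/

/-- DVM (150 lines, from `ce_vpl`).  A divisor moment.
Proof.  `16^(oo x z) = ∑ 15^|T|` over the subsets `T` of `{π ∈ PI x | π ∣ z}`, i.e. over the `T ⊆ PI x` with `∏T ∣ z` (`LGDM.prod_dvd_iff`).  Swap: for
each `T` the number of `z ∈ disc x` with `∏T ∣ z` is `≤ 9 x/∏ nm` (`z = d z'`, `card_disc_le`; `0` if `∏ nm > x`).  So the sum is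
`≤ 9x ∏_{π ∈ PI x} (1 + 15/nm π) ≤ 9x ∏ (1 - 1/nm π)^(-15) = 9 x VP(x)^(-15) ≤ 9 x (log x/c)^15` (`1 + 15 t ≤ (1 + t)^15 ≤ (1-t)^(-15)`). -/
def SpecDVM : Prop := ∃ C : ℝ, 0 < C ∧ ∀ᶠ x : ℝ in atTop,
  ∑ z ∈ disc x, (16 : ℝ) ^ (oo x z) ≤ x * Real.log x ^ C

open scoped Classical in
/-- LGN (150 lines).  The logarithm of the norm as a sum over prime powers.
Proof.  Induction on `nm m`: `nm m = 1`: no prime power divides `m`.  Otherwise `m = π₀ m'` with `π₀ ∈ PI x` (`LGDM.exists_assoc` for a prime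
divisor).  `π₀^k ∣ π₀ m'` iff `k = 0` or `π₀^(k-1) ∣ m'`, for `π ≠ π₀` in `PI x`: `π^k ∣ π₀ m'` iff `π^k ∣ m'`; the new pair `(π₀, k+1)` has
`k + 1 ≤ L` because `2^(k+1) ≤ nm π₀^(k+1) ≤ nm m ≤ x < 2^(L+1)`.  (Or: `#{k ∈ [1, L] | π^k ∣ m}` is the multiplicity.) -/
def SpecLGN : Prop := ∀ (x : ℝ) (L : ℕ) (m : Gi), m ≠ 0 → (nm m : ℝ) ≤ x → x < 2 ^ (L + 1) →
  Real.log (nm m) = ∑ q ∈ (PP x L).filter (fun q => q.1 ^ q.2 ∣ m), Real.log (nm q.1)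

/-- AVP (150 lines, from `hm_nts`).  Properties of `AV`.
Proof.  (1) only `T = ∅` divides a unit.  (2) `T ⊆ PI V` with `∏T ∣ b` has `∏ nm ≤ nm b ≤ V`; so the sum is over all subsets of
`{π ∈ PI V | π ∣ b}`, which is not empty (`b` is not a unit), and `∑ (-1)^|T| = 0` (`Finset.sum_powerset_neg_one_pow_card_of_nonempty`).
(3) `T ↦` subsets of `{π ∈ PI x | π ∣ b}`.  (4) `|AV| ≤ #TT V ≤ 9 V` (NTS) and `#disc y ≤ 9 y`. -/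
def SpecAVP : Prop :=
  (∀ (V : ℝ) (b : Gi), 1 ≤ V → nm b = 1 → AV V b = 1) ∧
  (∀ (V : ℝ) (b : Gi), b ≠ 0 → nm b ≠ 1 → (nm b : ℝ) ≤ V → AV V b = 0) ∧
  (∀ (V x : ℝ) (b : Gi), V ≤ x → |AV V b| ≤ 2 ^ (oo x b)) ∧
  (∀ V y : ℝ, 1 ≤ V → 0 ≤ y → ∑ b ∈ disc y, |AV V b| ≤ 81 * V * y)

open scoped Classical in
/-- VAU (250 lines, strong; from LGN, AVP).  Vaughan's identity, for `F` supported on norms in `(M, M']` and invariant under units.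
Proof.  `∑_{T ∈ TT V} (-1)^|T| ∑_{m ∈ disc x} log nm m F(∏T m)`: insert LGN, and `∑_{m ∈ disc x, q ∣ m} F(∏T m) = ∑_{c ∈ disc x} F(∏T q c)`,
`q = π^k` (`m = q c`; if `q c ∉ disc x` then `F = 0`).  So it is `∑_{q ∈ PP x L} log nm π ∑_T (-1)^|T| ∑_{c ∈ disc x} F(∏T q c)`.  For the `q` of norm `> U`:
`∑_T (-1)^|T| ∑_c F(q ∏T c) = ∑_{b ∈ disc x} AV V b F(q b)` (`b = ∏T c`, the same argument, then swap).  The `q` of norm `> U` are the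
`(π, 1)`, `π ∈ GP U x` (`⊆ PI x`, `L ≥ 1`) and the others (second filter).  For `π ∈ GP U x`: `∑_{b ∈ disc x} AV V b F(π b)` = the part `V < nm b`, plus the four
units, `4 F(π)`, (AVP (1), (2): `0` for `1 < nm b ≤ V`).  `F(π) ≠ 0` for `π ∈ GP U x` iff `π ∈ GP M M'` (or `F π = 0` anyway). -/
def SpecVAU : Prop := ∀ (x U V M M' : ℝ) (L : ℕ) (F : Gi → ℂ), 2 ≤ U → 1 ≤ V → U ≤ M → M ≤ M' → M' ≤ x →
  x < 2 ^ (L + 1) → (∀ z, F z ≠ 0 → z ∈ ann M M') → (∀ z, F (⟨0, 1⟩ * z) = F z) →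
  4 * ∑ π ∈ GP M M', ((Real.log (nm π) : ℝ) : ℂ) * F π =
    ∑ T ∈ TT V, (-1 : ℂ) ^ T.card * ∑ m ∈ disc x, ((Real.log (nm m) : ℝ) : ℂ) * F ((∏ π ∈ T, π) * m)
    - ∑ q ∈ (PP x L).filter (fun q => (nm q.1 : ℝ) ^ q.2 ≤ U), ((Real.log (nm q.1) : ℝ) : ℂ) *
        ∑ T ∈ TT V, (-1 : ℂ) ^ T.card * ∑ c ∈ disc x, F ((∏ π ∈ T, π) * (q.1 ^ q.2 * c))
    - ∑ q ∈ (PP x L).filter (fun q => U < (nm q.1 : ℝ) ^ q.2 ∧ ¬ (q.2 = 1 ∧ q.1 ∈ GP U x)),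
        ((Real.log (nm q.1) : ℝ) : ℂ) * ∑ b ∈ disc x, ((AV V b : ℝ) : ℂ) * F (q.1 ^ q.2 * b)
    - ∑ π ∈ GP U x, ((Real.log (nm π) : ℝ) : ℂ) *
        ∑ b ∈ (disc x).filter (fun b => V < (nm b : ℝ)), ((AV V b : ℝ) : ℂ) * F (π * b)

/-- TYI (120 lines).  The type I sums, `S(Y) = ∑_{disc Y} ψ`.
Proof.  `n = nm d ≥ 1`.  `∑_{c ∈ disc x} FF(d c) = ψ(d) (S(M'/n) - S(M/n))` (all `c` with `nm c ≤ M'/n ≤ x` are in `disc x`).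
`log nm m = ∑_{2 ≤ j ≤ ⌊x⌋, j ≤ nm m} (log j - log (j-1))`; swap: the inner sum over `m ∈ ann (M/n) (M'/n)` with `nm m ≥ j` is
`S(M'/n) - S(max (M/n) (j-1))` or `0`, of modulus `≤ 2 E`, and `∑_{2 ≤ j ≤ ⌊x⌋} (log j - log (j-1)) ≤ log x`. -/
def SpecTYI : Prop := ∀ (ψ : Gi → ℂ) (x E M M' : ℝ), (∀ u v, ψ (u * v) = ψ u * ψ v) → (∀ z, ‖ψ z‖ ≤ 1) → 1 ≤ x →
  0 ≤ M → M ≤ M' → M' ≤ x → ∀ d : Gi, d ≠ 0 → (∀ Y : ℝ, 0 ≤ Y → Y ≤ M' / nm d → ‖∑ z ∈ disc Y, ψ z‖ ≤ E) →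
    ‖∑ c ∈ disc x, FF ψ M M' (d * c)‖ ≤ 2 * E ∧
    ‖∑ m ∈ disc x, ((Real.log (nm m) : ℝ) : ℂ) * FF ψ M M' (d * m)‖ ≤ 2 * Real.log x * E

/-- CLF (80 lines).  For suitable end points (integers) all cells of `GP U Q` are full cells or empty.
Proof.  For an integer `n ≥ 1`: `⌈y⌉₊ - 1 < n` iff `y ≤ n`, `n ≤ ⌈y⌉₊ - 1` iff `n < y`; with `y = e^(v₀/h)`: iff `v₀ ≤ h log n` iff
`v₀ ≤ ⌊h log n⌋₊`.  If `⌊h log nm π⌋₊ = v` then `nm π < e^((v+1)/h)`. -/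
def SpecCLF : Prop := ∀ (h : ℝ) (v₀ v₁ v : ℕ), 1 ≤ h →
  cell h ((⌈Real.exp (v₀ / h)⌉₊ : ℝ) - 1) ((⌈Real.exp (v₁ / h)⌉₊ : ℝ) - 1) v = if v₀ ≤ v ∧ v < v₁ then X3.cl h v else ∅

open scoped Classical in
/-- BAD (200 lines, from AVP).  Prime powers and inert primes: trivial bound.
Proof.  `q = (π, k)` in the filter, `n = nm π ^ k > U`.  `∑_{b ∈ disc x} |AV V b| |F(π^k b)| ≤ ∑_{b ∈ disc (x/n)} |AV V b| ≤ 81 V x/n` (AVP (4)), and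
`1/n ≤ U^(-1/4) n^(-3/4)`.  `k ≥ 2`: `n^(-3/4) ≤ nm π^(-3/2) ≤ 1/nm π`; `∑_{π ∈ PI x} 1/nm π ≤ 18 + 9 log x` (`RKNM.sumW`), `L` values of `k`.
`k = 1`: `π ∉ GP U x`, `nm π > U ≥ 2`, so `π ∉ GP 3 x` and `π = a` is a rational integer `≤ x` (`VPLM.rest_sub`; `nm ⟨1,1⟩ = 2 ≤ U` is excluded):
`n^(-3/4) = a^(-3/2) ≤ 1/a`, `∑_{1 ≤ a ≤ x} 1/a ≤ 1 + log x`.  `log nm π ≤ log x` whenever the inner sum is not `0` (`nm π ≤ x` for `π ∈ PI x`). -/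
def SpecBAD : Prop := ∃ C : ℝ, 0 < C ∧ ∀ᶠ x : ℝ in atTop, ∀ (U V : ℝ) (L : ℕ) (F : Gi → ℂ), 2 ≤ U → 1 ≤ V →
  (L : ℝ) ≤ 4 * Real.log x → (∀ z, ‖F z‖ ≤ 1) → (∀ z, F z ≠ 0 → z ≠ 0 ∧ (nm z : ℝ) ≤ x) →
    ‖∑ q ∈ (PP x L).filter (fun q => U < (nm q.1 : ℝ) ^ q.2 ∧ ¬ (q.2 = 1 ∧ q.1 ∈ GP U x)),
        ((Real.log (nm q.1) : ℝ) : ℂ) * ∑ b ∈ disc x, ((AV V b : ℝ) : ℂ) * F (q.1 ^ q.2 * b)‖ ≤
      V * x * U ^ (-(1 / 4) : ℝ) * Real.log x ^ C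

open scoped Classical in
/-- T2D (250 lines, strong; from AVP).  The separation of the variables; `e` does not depend on `ψ`.
Proof.  In `T2` one has `π ∈ GP U Q` (`nm π V < nm (π b) ≤ M' ≤ V Q`).  For `π ∈ GP U Q` put `v = ⌊h log nm π⌋₊ ∈ VV h U Q`, so
`e^(v/h) ≤ nm π < e^((v+1)/h)` and `GP U Q` is the disjoint union of the cells.  Both sums run over `(π, b)`, `V < nm b`, with the weights
`log nm π [M < nm (π b) ≤ M']` and `(v/h) [M e^(-v/h) < nm b ≤ M' e^(-v/h)]`; collect `n = π b`: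
`e n = ∑_{π ∈ GP U Q, π ∣ n} AV V (n/π) [V < nm (n/π)] (first weight - second weight)`; `n ∈ ann M (M' e^(1/h))` if one of the weights is not `0`.
Both brackets `1`: `|log nm π - v/h| ≤ 1/h ≤ 1 ≤ 1 + log x`.  Only the first: `nm b ≤ M e^(-v/h)`, so `nm n < M e^(1/h)`.  Only the second: `M' < nm n < M' e^(1/h)`.
`log nm π ≤ log x` in the first case, `v/h ≤ log (M'/V) ≤ log x` in the second.  The number of the `π` dividing `n` is `≤ oo (3x) n ≤ 2^oo`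
(`nm n ≤ M' e ≤ 3x`), and `|AV V (n/π)| ≤ 2^(oo (3x) (n/π)) ≤ 2^(oo (3x) n)` (AVP (3), `V ≤ 3x` may be assumed: otherwise `V < nm b` is impossible). -/
def SpecT2D : Prop := ∀ (x U V Q M M' h : ℝ), 1 ≤ x → 1 ≤ h → 2 ≤ U → 1 ≤ V → 0 ≤ M → M ≤ M' → M' ≤ x → M' ≤ V * Q →
  ∃ e : Gi → ℂ, (∀ n ∈ ann M (M' * Real.exp (1 / h)), ‖e n‖ ≤ 4 ^ (oo (3 * x) n) *
      (if n ∈ ann M (M * Real.exp (1 / h)) ∪ ann M' (M' * Real.exp (1 / h)) then Real.log x + 1 else 1 / h)) ∧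
    ∀ ψ : Gi → ℂ, (∀ u v, ψ (u * v) = ψ u * ψ v) →
      T2 ψ x U V M M' - MN ψ h U Q V M M' = ∑ n ∈ ann M (M' * Real.exp (1 / h)), e n * ψ n

/-! ## Mean values -/

/-- T2E (200 lines, from DVM, T2D, `hm_hmt`).  The separation error in mean square.
Proof.  `X = 3x`, HMT with `A = 3` at `X`, `c` = half of its `c'` (`x^c ≤ X^c'`).  The sum over `n` is split into `n ∈ ann M (M e^(1/h))`, `n ∈ ann M' (M' e^(1/h))` not in the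
first, and the others; for each HMT with `a n = e n` on the part and `0` outside, and `‖a + b + c‖² ≤ 3(..)`.  Short annuli:
`π M (e^(1/h) - 1) + X^(1-c') ≤ C x/h` (`e^t - 1 ≤ 2t`, `h ≤ x^c`), `∑ |e|² ≤ (log x + 1)² ∑_{disc X} 16^(oo X n)` (DVM).  The others:
`(π X + X) (1/h²) ∑ 16^oo`. -/
def SpecT2E : Prop := ∃ C c : ℝ, 0 < C ∧ 0 < c ∧ c < 1 ∧ ∀ᶠ x : ℝ in atTop,
  ∀ (ι : Type) (W : Finset ι) (χ : ι → Gi → ℂ) (k : ι → ℤ), Fam W χ k (x ^ c) (x ^ (3 : ℝ)) → (W.card : ℝ) ≤ x ^ c →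
  ∀ U V Q M M' h : ℝ, 1 ≤ h → h ≤ x ^ c → 2 ≤ U → 1 ≤ V → 0 ≤ M → M ≤ M' → M' ≤ x → M' ≤ V * Q →
    ∑ i ∈ W, ‖T2 (hk (χ i) (k i)) x U V M M' - MN (hk (χ i) (k i)) h U Q V M M'‖ ^ 2 ≤
      x ^ 2 * Real.log x ^ C / h

/-- T2M (200 lines, from DVM, AVP, `hm_hmt`).  The separated sum in mean square, from the pointwise bound for the cells.
Proof.  `Bc v = 0` unless `y = M' e^(-v/h) > V`; then `e^(v/h) ≤ x/V ≤ x`, so at most `h log x + 1 ≤ 2 h log x` values of `v` count, and `v/h ≤ log x`.  Cauchy: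
`‖MN‖² ≤ 2 h log x · ∑_v (log x)² ‖Pc‖² ‖Bc‖²`.  HMT with `A = 3/d` at `y ≥ V ≥ x^d` (`c = d c'`: `x^c ≤ y^c'`, `x³ ≤ y^A`):
`∑_i ‖Bc v‖² ≤ (π y + y) ∑_{b ∈ disc y} |AV V b|² ≤ 5 y · y (log y)^C` (`|AV V b|² ≤ 4^(oo y b)`, `V ≤ y`, DVM at `y`).  And `‖Pc‖² ≤ δ² e^(2v/h)`,
`e^(2v/h) y² = M'² ≤ x²`.  Total `≤ 20 δ² h² x² (log x)^(C+4)`. -/
def SpecT2M : Prop := ∀ d : ℝ, 0 < d → d ≤ 1 → ∃ C c : ℝ, 0 < C ∧ 0 < c ∧ c < 1 ∧ ∀ᶠ x : ℝ in atTop,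
  ∀ (ι : Type) (W : Finset ι) (χ : ι → Gi → ℂ) (k : ι → ℤ), Fam W χ k (x ^ c) (x ^ (3 : ℝ)) → (W.card : ℝ) ≤ x ^ c →
  ∀ U V Q M M' h δ : ℝ, 1 ≤ h → 2 ≤ U → x ^ d ≤ V → 0 ≤ M → M ≤ M' → M' ≤ x → 0 ≤ δ →
  (∀ i ∈ W, ∀ v ∈ VV h U Q, ‖Pc (hk (χ i) (k i)) h U Q v‖ ≤ δ * Real.exp (v / h)) →
    ∑ i ∈ W, ‖MN (hk (χ i) (k i)) h U Q V M M'‖ ^ 2 ≤ δ ^ 2 * h ^ 2 * x ^ 2 * Real.log x ^ C

/-- UNW (100 lines).  The weight `log nm π` is removed.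
Proof.  `g n = 1/log n`, `g 3 ≤ 1`, decreasing.  `J = ⌊M'⌋₊`.  For `π ∈ GP M M'`, `n = nm π`: `1 = log n · g n = log n (g J + ∑_{n < j ≤ J} (g (j-1) - g j))`.  So
`∑_{GP M M'} a π = g J Θ(M') + ∑_{⌊M⌋+2 ≤ j ≤ J} (g (j-1) - g j) Θ(j-1)`, `Θ(y) = ∑_{GP M y} log nm π a π`, with nonnegative weights of sum
`≤ 1`: Cauchy (`‖∑ w θ‖² ≤ ∑ w ‖θ‖²` if `∑ w ≤ 1`), then the sum over `i`. -/
def SpecUNW : Prop := ∀ (ι : Type) (W : Finset ι) (a : ι → Gi → ℂ) (M M' D : ℝ), 3 ≤ M → M ≤ M' → 0 ≤ D →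
  (∀ y : ℝ, M ≤ y → y ≤ M' → ∑ i ∈ W, ‖∑ π ∈ GP M y, ((Real.log (nm π) : ℝ) : ℂ) * a i π‖ ^ 2 ≤ D) →
    ∑ i ∈ W, ‖∑ π ∈ GP M M', a i π‖ ^ 2 ≤ D

/-- VBL (300 lines, strong; from VAU, TYI, BAD, T2E, T2M, CLF, `hm_anc`, `hm_nts`).  The statement with the weight `log nm π`.
Proof.  `c₀` = the `c` of ANC with `A = 3`, `B = 1`; `h = ℓ^A₃`; `v₀ = ⌈h log N/10⌉₊`, `v₁ = ⌊1.2 h log N⌋₊`, `U = ⌈e^(v₀/h)⌉ - 1`, `Q = ⌈e^(v₁/h)⌉ - 1`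
(`N^(1/10)/2 ≤ U ≤ 3 N^(1/10)`, `Q ≥ N^(1.2)/4`), `V = N^c₂`, `c₂ = c₀/200` (`c₀ < 1`), `x = 2M` (`2N^0.9 ≤ x ≤ 2N^1.1`), `δ = ℓ^(-A₁)`,
`L = ⌊log x/log 2⌋₊` (`x < 2^(L+1)`, `L ≤ 4 log x`), `F = FF ψ X X'` (`ψ(i z) = ψ(z)`).  `X' ≤ x ≤ V Q`.  `c` = the least of
`c₂`, `c₀/4` and a third of the `c` of T2E and of T2M with `d = c₂/2` (`x^d ≤ V`; norms of the moduli `i.1² ≤ N^(2c) ≤ x^(..)`).
VAU: `4Θ_i = (I₁) - (I₂) - (bad) - T2`.  ANC at the scale `y = X'/nm d ≥ N^0.7` (`nm d ≤ U V`; `N² ≤ y³`): `|S(Y)| ≤ y^(1-c₀)` for `Y ≤ y`; `y ≤ x/nm q`, `q = π^k`, so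
`y^(1-c₀) ≤ x^(1-c₀) nm q^(c₀ - 1) ≤ x^(1-c₀) U^c₀/nm q`.
TYI, NTS (`#TT V ≤ 9V`): `|I₁| ≤ 9V · 2 log x · x^(1-c₀)`; `|I₂| ≤ log x · 9V · 2 x^(1-c₀) U^c₀ ∑_q 1/nm q`, `∑_q 1/nm q ≤ L (18 + 9 log x)`
(`nm π^k ≥ nm π`, RKN `sumW`); both `≤ x^(1 - c₀/2)` (`(U/x)^c₀ ≤ x^(-0.8 c₀)`, roughly).  BAD: `≤ V x U^(-1/4) (log x)^C ≤ x N^(-1/60)`.
Their squares, times `#W ≤ N^c`, are `≤ x² N^(-c₂)`.  `∑_i ‖T2‖² ≤ 2 (T2E) + 2 (T2M) ≤ x² ℓ^C' (1/h + δ² h²)`: the hypothesis of T2M: by CLF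
`Pc ψ h U Q v` is the sum over the full cell, `v₀ ≤ v < v₁`, or `0`, and `ψ` is not `Big`. -/
def SpecVBL : Prop := ∃ c C : ℝ, 0 < c ∧ 0 < C ∧ ∀ A₁ A₃ : ℝ, 0 ≤ A₁ → 1 ≤ A₃ → ∀ᶠ N : ℝ in atTop,
  ∀ (W : Finset Ix) (M X X' : ℝ), N ^ (9 / 10 : ℝ) ≤ M → M ≤ N ^ (11 / 10 : ℝ) → M ≤ X → X ≤ X' → X' ≤ 2 * M →
  (∀ i ∈ W, 1 ≤ i.1 ∧ (i.1 : ℝ) ≤ N ^ c ∧ ChiG (i.1 : Gi) i.2.1 ∧ |(i.2.2 : ℝ)| ≤ N ^ 2 ∧ psi i ⟨0, 1⟩ = 1 ∧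
    Dist i.2.1 ix1.2.1 i.2.2 ix1.2.2 ∧ ¬ X3.Big N (Real.log N ^ A₃) A₁ i) →
  (∀ i ∈ W, ∀ j ∈ W, i ≠ j → Dist i.2.1 j.2.1 i.2.2 j.2.2) → (W.card : ℝ) ≤ N ^ c →
    ∑ i ∈ W, ‖∑ π ∈ GP X X', ((Real.log (nm π) : ℝ) : ℂ) * psi i π‖ ^ 2 ≤
      M ^ 2 * (Real.log N ^ (C - A₃) + Real.log N ^ (C + 2 * A₃ - 2 * A₁))

/-- VB (60 lines, from VBL, UNW).  THE RESULT OF THIS PART.
Proof.  `A₃ = A₄ + C + 2`, `A₁ = A₃ + A₄ + C + 2`; `D = M² ℓ^(-A₄)`. -/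
def SpecVB : Prop := X3.SpecVB

/-- GGI (80 lines).  A coarse cell is an interval.
Proof.  If the left side is empty take `M = M' = P`.  Otherwise `n₁`, `n₂` = the least and the largest norm; `M = max P (n₁ - 1)`, `M' = n₂`.  The floor and
the division are monotone in the norm. -/
def SpecGGI : Prop := ∀ (h P : ℝ) (m a : ℕ), 0 ≤ h → 0 ≤ P → ∃ M M' : ℝ, P ≤ M ∧ M ≤ M' ∧ M' ≤ 2 * P ∧
  (GP P (2 * P)).filter (fun π => ⌊h * Real.log (nm π)⌋₊ / m = a) = GP M M'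

end Pool.Agent.Lib.MP391708.XB3
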