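import Pool.Agent.Lib.MP_391708_nt.X.U.BRG
import Pool.Agent.Lib.MP_391708_nt.X.U.CND1
import Pool.Agent.Lib.MP_391708_nt.X.U.NCD
import Pool.Agent.Lib.MP_391708_nt.XP.U.ATY
import Pool.Agent.Lib.MP_391708_nt.XP.U.RGS
import Pool.Agent.Lib.MP_391708_nt.X3.VM3
import Pool.Agent.Lib.MP_391708_nt.X3.VBM
import Pool.Agent.Lib.MP_391708_nt.X3.U.LVX
import Pool.Agent.Lib.MP_391708_nt.X3.U.VB2
import Pool.Agent.Lib.MP_391708_nt.X3.U.SUP
import Pool.Agent.Lib.MP_391708_nt.X3.U.L2B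
import Pool.Agent.Lib.MP_391708_nt.X3.U.HJS
import Pool.Agent.Lib.MP_391708_nt.X3.U.ETH
import Pool.Agent.Lib.MP_391708_nt.X3.U.HTS
import Pool.Agent.Lib.MP_391708_nt.X3.U.HTA
import Pool.Agent.Lib.MP_391708_nt.X3.U.LNS
import Pool.Agent.Lib.MP_391708_nt.X3.U.USET
import Pool.Agent.Lib.MP_391708_nt.X3.U.PRC
import Pool.Agent.Lib.MP_391708_nt.X3.U.FIN

/-!
# THEOREM X3 (MP_391708), part U: `X3.SpecVAR` without hypotheses
-/

set_option autoImplicit false

namespace Pool.Agent.Lib.MP391708.X3U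

theorem u_lvx : SpecLVX := specLVX XU.specBRG
theorem u_vb2 : SpecVB2 := specVB2 XB3.vb_vb XU.specBRG
theorem u_hts : SpecHTS := specHTS XPU.specRGS specHJS specETH XU.specBRG
theorem u_hta : SpecHTA := specHTA XPU.specRGS XU.specNCD specHJS specETH specSUP
theorem u_lns : SpecLNS := specLNS specHJS
theorem u_uset : SpecUSET := specUSET XU.specBRG XU.specCON u_lvx
theorem u_prc : SpecPRC := specPRC specHJS specSUP specL2B

/-- the variance for `k ≥ 3`, uniform in the boxes -/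
theorem u_var : X3.SpecVAR := specFIN XV3.vm_var3 XV.vm_phi XU.specBRG (XPU.specATY XV.vm_mot) specHJS specSUP
  u_hts u_hta u_prc u_lns u_uset u_vb2

end Pool.Agent.Lib.MP391708.X3U
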