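import Pool.Agent.Lib.MP_391708_nt.X3.SpecVB
import Pool.Agent.Lib.MP_391708_nt.X.HM
import Pool.Agent.Lib.MP_391708_nt.X.VPL
import Pool.Agent.Lib.MP_391708_nt.X.PSI

/-!
# Theorem X3, part VB, module VBL (helper9): the statement with the weight `log nm π`
-/

set_option autoImplicit false

namespace Pool.Agent.Lib.MP391708.XB3

open Finset Filter Topology Pool.Agent.Lib.MP391708.MR
open Pool.Agent.Lib.MP391708.X (ChiG hk Dist Fam PI Ix psi ix1)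
open scoped ComplexConjugate

namespace VBLM

theorem nm_pow' (z : Gi) (n : ℕ) : nm (z ^ n) = nm z ^ n := by
  induction n with
  | zero => simp [nm]
  | succ n ih => rw [pow_succ, nm_mul, ih, pow_succ]

theorem nm_nat' (g : ℕ) : nm (g : Gi) = g ^ 2 := by
  have h := nm_cast (g : Gi)
  have h1 : ((g : Gi)).re = g := by simp
  have h2 : ((g : Gi)).im = 0 := by simp
  rw [h1, h2] at h
  have : ((nm (g : Gi) : ℕ) : ℤ) = ((g ^ 2 : ℕ) : ℤ) := by rw [h]; push_cast; ring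
  exact_mod_cast this

theorem FF_supp {ψ : Gi → ℂ} {M M' : ℝ} {z : Gi} (hM : 0 ≤ M) (h : FF ψ M M' z ≠ 0) :
    z ∈ ann M M' := by
  classical
  unfold FF at h
  split_ifs at h with h1
  · rw [mem_ann]
    refine ⟨?_, h1⟩
    rintro rfl
    have h2 : nm (0 : Gi) = 0 := nm_eq_zero.2 rfl
    rw [h2] at h1
    push_cast at h1
    linarith [h1.1]
  · exact absurd rfl h

theorem FF_le {ψ : Gi → ℂ} (hψ : ∀ z, ‖ψ z‖ ≤ 1) {M M' : ℝ} (z : Gi) : ‖FF ψ M M' z‖ ≤ 1 := by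
  classical
  unfold FF
  split_ifs with h1
  · exact hψ z
  · rw [norm_zero]
    exact zero_le_one

theorem FF_I {ψ : Gi → ℂ} (hmul : ∀ u v, ψ (u * v) = ψ u * ψ v) (hI : ψ ⟨0, 1⟩ = 1)
    {M M' : ℝ} (z : Gi) : FF ψ M M' (⟨0, 1⟩ * z) = FF ψ M M' z := by
  unfold FF
  rw [hmul, hI, one_mul, nm_mul, nm_I, one_mul]

theorem mem_PI'' {x : ℝ} {π : Gi} (h : π ∈ PI x) :
    Prime π ∧ π ≠ 0 ∧ (2 : ℝ) ≤ nm π ∧ (nm π : ℝ) ≤ x := by
  have h1 := X.RKNM.PI_disc x h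
  rw [mem_disc] at h1
  have h2 := (X.NTSM.mem_PI.1 h).2.1
  exact ⟨h2, h1.1, X.VPLM.two_leR h2, h1.2⟩

theorem sum_PP {x : ℝ} (hx : 1 ≤ x) (L : ℕ) :
    ∑ q ∈ PP x L, 1 / (nm q.1 : ℝ) ^ q.2 ≤ L * (18 + 9 * Real.log x) := by
  unfold PP
  rw [Finset.sum_product_right]
  have h1 : ∀ k ∈ Icc 1 L, ∑ π ∈ PI x, 1 / (nm π : ℝ) ^ k ≤ 18 + 9 * Real.log x := by
    intro k hk
    rw [mem_Icc] at hk
    refine le_trans ?_ (X.RKNM.sumW x hx)
    refine le_trans (Finset.sum_le_sum fun π hπ => ?_)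
      (Finset.sum_le_sum_of_subset_of_nonneg (X.RKNM.PI_disc x) fun z _ _ => by positivity)
    obtain ⟨-, -, h2, -⟩ := mem_PI'' hπ
    refine one_div_le_one_div_of_le (by linarith) ?_
    calc (nm π : ℝ) = (nm π : ℝ) ^ 1 := (pow_one _).symm
      _ ≤ (nm π : ℝ) ^ k := pow_le_pow_right₀ (by linarith) hk.1
  calc ∑ k ∈ Icc 1 L, ∑ π ∈ PI x, 1 / (nm π : ℝ) ^ k ≤ ∑ k ∈ Icc 1 L, (18 + 9 * Real.log x) :=
        Finset.sum_le_sum h1
    _ = L * (18 + 9 * Real.log x) := by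
        rw [Finset.sum_const, Nat.card_Icc, nsmul_eq_mul]
        simp

theorem card_TT {V : ℝ} (hV : 1 ≤ V) : ((TT V).card : ℝ) ≤ 9 * V := by
  classical
  have h := X.hm_nts V V (by linarith)
  unfold TT
  convert h using 3

theorem mem_TT {V : ℝ} {T : Finset Gi} (h : T ∈ TT V) :
    (∏ π ∈ T, π) ≠ 0 ∧ (1 : ℝ) ≤ nm (∏ π ∈ T, π) := by
  classical
  unfold TT at h
  rw [mem_filter, mem_powerset] at h
  have h1 : (∏ π ∈ T, π) ≠ 0 := by
    rw [Finset.prod_ne_zero_iff]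
    intro π hπ
    exact (mem_PI'' (h.1 hπ)).2.1
  exact ⟨h1, one_le_nm h1⟩

theorem mem_GPr {P Q : ℝ} {π : Gi} (h : π ∈ GP P Q) : P < (nm π : ℝ) ∧ (nm π : ℝ) ≤ Q := by
  rw [X.VPLM.mem_GP'] at h
  exact ⟨by tauto, by tauto⟩

theorem perchar (hVAU : SpecVAU) (hTYI : SpecTYI) {ψ : Gi → ℂ}
    (hmul : ∀ u v, ψ (u * v) = ψ u * ψ v) (hψ : ∀ z, ‖ψ z‖ ≤ 1) (hI : ψ ⟨0, 1⟩ = 1)
    {x U V X X' G B₀ : ℝ} {L : ℕ} (hU : 2 ≤ U) (hV : 1 ≤ V) (hUX : U ≤ X) (hXX : X ≤ X')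
    (hXx : X' ≤ x) (hL : x < 2 ^ (L + 1)) (hG : 0 ≤ G)
    (hS : ∀ n : ℝ, 1 ≤ n → n ≤ U → ∀ Y : ℝ, 0 ≤ Y → Y ≤ x / n → ‖∑ z ∈ disc Y, ψ z‖ ≤ G / n)
    (hB : open scoped Classical in
      ‖∑ q ∈ (PP x L).filter (fun q => U < (nm q.1 : ℝ) ^ q.2 ∧ ¬ (q.2 = 1 ∧ q.1 ∈ GP U x)),
        ((Real.log (nm q.1) : ℝ) : ℂ) * ∑ b ∈ disc x, ((AV V b : ℝ) : ℂ) *
          FF ψ X X' (q.1 ^ q.2 * b)‖ ≤ B₀) :
    ‖4 * ∑ π ∈ GP X X', ((Real.log (nm π) : ℝ) : ℂ) * ψ π + T2 ψ x U V X X'‖ ≤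
      18 * V * Real.log x * G * (1 + L * (18 + 9 * Real.log x)) + B₀ := by
  classical
  have hx : 1 ≤ x := by linarith
  have hlx : 0 ≤ Real.log x := Real.log_nonneg hx
  have hV0 : 0 < V := by linarith
  have h := hVAU x U V X X' L (FF ψ X X') hU hV hUX hXX hXx hL
    (fun z hz => FF_supp (by linarith) hz) (FF_I hmul hI)
  have e1 : ∑ π ∈ GP X X', ((Real.log (nm π) : ℝ) : ℂ) * FF ψ X X' π =
      ∑ π ∈ GP X X', ((Real.log (nm π) : ℝ) : ℂ) * ψ π := by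
    refine Finset.sum_congr rfl fun π hπ => ?_
    unfold FF
    rw [if_pos (mem_GPr hπ)]
  rw [e1] at h
  have hA : ‖∑ T ∈ TT V, (-1 : ℂ) ^ T.card * ∑ m ∈ disc x, ((Real.log (nm m) : ℝ) : ℂ) *
      FF ψ X X' ((∏ π ∈ T, π) * m)‖ ≤ 18 * V * Real.log x * G := by
    refine (norm_sum_le _ _).trans ?_
    have h1 : ∀ T ∈ TT V, ‖(-1 : ℂ) ^ T.card * ∑ m ∈ disc x, ((Real.log (nm m) : ℝ) : ℂ) *
        FF ψ X X' ((∏ π ∈ T, π) * m)‖ ≤ 2 * Real.log x * G := by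
      intro T hT
      obtain ⟨h2, h3⟩ := mem_TT hT
      rw [norm_mul, norm_pow, norm_neg, norm_one, one_pow, one_mul]
      refine (hTYI ψ x G X X' hmul hψ hx (by linarith) hXX hXx _ h2 ?_).2
      intro Y hY hY'
      have h4 := hS 1 le_rfl (by linarith) Y hY (by
        rw [div_one]
        refine hY'.trans ((div_le_self (by linarith) h3).trans hXx))
      rwa [div_one] at h4
    refine (Finset.sum_le_sum h1).trans ?_
    rw [Finset.sum_const, nsmul_eq_mul]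
    calc ((TT V).card : ℝ) * (2 * Real.log x * G) ≤ (9 * V) * (2 * Real.log x * G) :=
          mul_le_mul_of_nonneg_right (card_TT hV) (by positivity)
      _ = _ := by ring
  have hBB : ‖∑ q ∈ (PP x L).filter (fun q => (nm q.1 : ℝ) ^ q.2 ≤ U),
      ((Real.log (nm q.1) : ℝ) : ℂ) * ∑ T ∈ TT V, (-1 : ℂ) ^ T.card *
        ∑ c ∈ disc x, FF ψ X X' ((∏ π ∈ T, π) * (q.1 ^ q.2 * c))‖ ≤
      18 * V * Real.log x * G * (L * (18 + 9 * Real.log x)) := by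
    refine (norm_sum_le _ _).trans ?_
    have h1 : ∀ q ∈ (PP x L).filter (fun q => (nm q.1 : ℝ) ^ q.2 ≤ U),
        ‖((Real.log (nm q.1) : ℝ) : ℂ) * ∑ T ∈ TT V, (-1 : ℂ) ^ T.card *
          ∑ c ∈ disc x, FF ψ X X' ((∏ π ∈ T, π) * (q.1 ^ q.2 * c))‖ ≤
        (18 * V * Real.log x * G) * (1 / (nm q.1 : ℝ) ^ q.2) := by
      intro q hq
      rw [mem_filter] at hq
      obtain ⟨hq1, hq2⟩ := hq
      unfold PP at hq1
      rw [mem_product] at hq1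
      obtain ⟨-, g1, g2, g3⟩ := mem_PI'' hq1.1
      have g4 : (1 : ℝ) ≤ (nm q.1 : ℝ) ^ q.2 := one_le_pow₀ (by linarith)
      have g5 : ‖((Real.log (nm q.1) : ℝ) : ℂ)‖ ≤ Real.log x := by
        rw [Complex.norm_real, Real.norm_eq_abs, abs_of_nonneg (Real.log_nonneg (by linarith))]
        exact Real.log_le_log (by linarith) g3
      have g6 : ‖∑ T ∈ TT V, (-1 : ℂ) ^ T.card *
          ∑ c ∈ disc x, FF ψ X X' ((∏ π ∈ T, π) * (q.1 ^ q.2 * c))‖ ≤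
          9 * V * (2 * (G / (nm q.1 : ℝ) ^ q.2)) := by
        refine (norm_sum_le _ _).trans ?_
        have g7 : ∀ T ∈ TT V, ‖(-1 : ℂ) ^ T.card *
            ∑ c ∈ disc x, FF ψ X X' ((∏ π ∈ T, π) * (q.1 ^ q.2 * c))‖ ≤
            2 * (G / (nm q.1 : ℝ) ^ q.2) := by
          intro T hT
          obtain ⟨h2, h3⟩ := mem_TT hT
          rw [norm_mul, norm_pow, norm_neg, norm_one, one_pow, one_mul]
          have e2 : ∑ c ∈ disc x, FF ψ X X' ((∏ π ∈ T, π) * (q.1 ^ q.2 * c)) =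
              ∑ c ∈ disc x, FF ψ X X' (((∏ π ∈ T, π) * q.1 ^ q.2) * c) :=
            Finset.sum_congr rfl fun c _ => by rw [mul_assoc]
          rw [e2]
          refine (hTYI ψ x (G / (nm q.1 : ℝ) ^ q.2) X X' hmul hψ hx (by linarith) hXX hXx
            ((∏ π ∈ T, π) * q.1 ^ q.2) (mul_ne_zero h2 (pow_ne_zero _ g1)) ?_).1
          intro Y hY hY'
          refine hS _ g4 hq2 Y hY (hY'.trans ?_)
          rw [nm_mul, nm_pow']
          push_cast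
          refine (div_le_div_of_nonneg_right hXx (by positivity)).trans ?_
          refine div_le_div_of_nonneg_left (by linarith) (by linarith) ?_
          exact le_mul_of_one_le_left (by linarith) h3
        refine (Finset.sum_le_sum g7).trans ?_
        rw [Finset.sum_const, nsmul_eq_mul]
        exact mul_le_mul_of_nonneg_right (card_TT hV) (by positivity)
      rw [norm_mul]
      calc _ ≤ Real.log x * (9 * V * (2 * (G / (nm q.1 : ℝ) ^ q.2))) :=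
            mul_le_mul g5 g6 (norm_nonneg _) hlx
        _ = _ := by ring
    refine (Finset.sum_le_sum h1).trans ?_
    rw [← Finset.mul_sum]
    refine mul_le_mul_of_nonneg_left ?_ (by positivity)
    refine le_trans ?_ (sum_PP hx L)
    exact Finset.sum_le_sum_of_subset_of_nonneg (Finset.filter_subset _ _)
      fun q _ _ => by positivity
  have e3 : 4 * ∑ π ∈ GP X X', ((Real.log (nm π) : ℝ) : ℂ) * ψ π + T2 ψ x U V X X' =
      ∑ T ∈ TT V, (-1 : ℂ) ^ T.card * ∑ m ∈ disc x, ((Real.log (nm m) : ℝ) : ℂ) *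
        FF ψ X X' ((∏ π ∈ T, π) * m)
      - ∑ q ∈ (PP x L).filter (fun q => (nm q.1 : ℝ) ^ q.2 ≤ U),
        ((Real.log (nm q.1) : ℝ) : ℂ) * ∑ T ∈ TT V, (-1 : ℂ) ^ T.card *
          ∑ c ∈ disc x, FF ψ X X' ((∏ π ∈ T, π) * (q.1 ^ q.2 * c))
      - ∑ q ∈ (PP x L).filter (fun q => U < (nm q.1 : ℝ) ^ q.2 ∧ ¬ (q.2 = 1 ∧ q.1 ∈ GP U x)),
        ((Real.log (nm q.1) : ℝ) : ℂ) * ∑ b ∈ disc x, ((AV V b : ℝ) : ℂ) *
          FF ψ X X' (q.1 ^ q.2 * b) := by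
    rw [h]
    unfold T2
    rw [sub_add_cancel]
  rw [e3]
  refine (norm_sub_le _ _).trans ?_
  have h5 := norm_sub_le (∑ T ∈ TT V, (-1 : ℂ) ^ T.card * ∑ m ∈ disc x,
      ((Real.log (nm m) : ℝ) : ℂ) * FF ψ X X' ((∏ π ∈ T, π) * m))
      (∑ q ∈ (PP x L).filter (fun q => (nm q.1 : ℝ) ^ q.2 ≤ U),
        ((Real.log (nm q.1) : ℝ) : ℂ) * ∑ T ∈ TT V, (-1 : ℂ) ^ T.card *
          ∑ c ∈ disc x, FF ψ X X' ((∏ π ∈ T, π) * (q.1 ^ q.2 * c)))
  have h6 := add_le_add (h5.trans (add_le_add hA hBB)) hB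
  refine h6.trans (le_of_eq ?_)
  ring

/-! ## the cells -/

/-- the first cell -/
noncomputable def v0 (N h : ℝ) : ℕ := ⌈h * Real.log N / 10⌉₊

/-- the last cell -/
noncomputable def v1 (N h : ℝ) : ℕ := ⌊12 / 10 * (h * Real.log N)⌋₊

/-- the lower limit -/
noncomputable def Uu (N h : ℝ) : ℝ := (⌈Real.exp (v0 N h / h)⌉₊ : ℝ) - 1

/-- the upper limit -/
noncomputable def QU (N h : ℝ) : ℝ := (⌈Real.exp (v1 N h / h)⌉₊ : ℝ) - 1

theorem Uu_ge {N h : ℝ} (hN : 1 ≤ N) (hh : 1 ≤ h) : N ^ (1 / 10 : ℝ) - 1 ≤ Uu N h := by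
  unfold Uu
  have h0 : 0 < h := by linarith
  have h1 := Nat.le_ceil (Real.exp (v0 N h / h))
  have h2 : N ^ (1 / 10 : ℝ) ≤ Real.exp (v0 N h / h) := by
    rw [Real.rpow_def_of_pos (by linarith), Real.exp_le_exp, le_div_iff₀ h0]
    have h3 := Nat.le_ceil (h * Real.log N / 10)
    unfold v0
    linarith
  linarith

theorem exp_one_div_le {h : ℝ} (hh : 1 ≤ h) : Real.exp (1 / h) ≤ 3 := by
  have h1 : Real.exp (1 / h) ≤ Real.exp 1 := by
    rw [Real.exp_le_exp, div_le_one (by linarith)]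
    exact hh
  have h2 := Real.exp_one_lt_d9
  linarith

theorem Uu_le {N h : ℝ} (hN : 1 ≤ N) (hh : 1 ≤ h) : Uu N h ≤ 3 * N ^ (1 / 10 : ℝ) := by
  unfold Uu
  have h0 : 0 < h := by linarith
  have hl : 0 ≤ Real.log N := Real.log_nonneg hN
  have h1 := Nat.ceil_lt_add_one (Real.exp_pos (v0 N h / h)).le
  have h2 : Real.exp (v0 N h / h) ≤ 3 * N ^ (1 / 10 : ℝ) := by
    have h3 : (v0 N h : ℝ) / h ≤ Real.log N * (1 / 10) + 1 / h := by
      rw [div_le_iff₀ h0, add_mul, one_div_mul_cancel h0.ne']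
      have h4 := Nat.ceil_lt_add_one (show 0 ≤ h * Real.log N / 10 by positivity)
      unfold v0
      linarith
    calc Real.exp (v0 N h / h) ≤ Real.exp (Real.log N * (1 / 10) + 1 / h) :=
          Real.exp_le_exp.2 h3
      _ = N ^ (1 / 10 : ℝ) * Real.exp (1 / h) := by
          rw [Real.exp_add, Real.rpow_def_of_pos (by linarith)]
      _ ≤ N ^ (1 / 10 : ℝ) * 3 := mul_le_mul_of_nonneg_left (exp_one_div_le hh) (by positivity)
      _ = _ := by ring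
  linarith

theorem QU_ge {N h : ℝ} (hN : 1 ≤ N) (hh : 1 ≤ h) : N ^ (12 / 10 : ℝ) / 3 - 1 ≤ QU N h := by
  unfold QU
  have h0 : 0 < h := by linarith
  have h1 := Nat.le_ceil (Real.exp (v1 N h / h))
  have h2 : N ^ (12 / 10 : ℝ) ≤ 3 * Real.exp (v1 N h / h) := by
    have h3 : Real.log N * (12 / 10) ≤ (v1 N h : ℝ) / h + 1 / h := by
      rw [← add_div, le_div_iff₀ h0]
      have h4 := Nat.lt_floor_add_one (12 / 10 * (h * Real.log N))
      unfold v1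
      linarith
    calc N ^ (12 / 10 : ℝ) = Real.exp (Real.log N * (12 / 10)) := by
          rw [Real.rpow_def_of_pos (by linarith)]
      _ ≤ Real.exp ((v1 N h : ℝ) / h + 1 / h) := Real.exp_le_exp.2 h3
      _ = Real.exp (v1 N h / h) * Real.exp (1 / h) := by rw [Real.exp_add]
      _ ≤ Real.exp (v1 N h / h) * 3 := mul_le_mul_of_nonneg_left (exp_one_div_le hh)
          (Real.exp_pos _).le
      _ = _ := by ring
  linarith

theorem pc_le (hCLF : SpecCLF) {N h A₁ : ℝ} (hN : 1 ≤ N) (hh : 1 ≤ h) {i : Ix}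
    (hb : ¬ X3.Big N h A₁ i) (v : ℕ) :
    ‖Pc (psi i) h (Uu N h) (QU N h) v‖ ≤ Real.log N ^ (-A₁) * Real.exp (v / h) := by
  have h0 : 0 < h := by linarith
  have hl : 0 ≤ Real.log N := Real.log_nonneg hN
  unfold Pc Uu QU
  rw [hCLF h (v0 N h) (v1 N h) v hh]
  split_ifs with h1
  · by_contra h2
    push Not at h2
    apply hb
    refine ⟨v, ?_, ?_, ?_⟩
    · have h3 := Nat.le_ceil (h * Real.log N / 10)
      have h4 : ((v0 N h : ℕ) : ℝ) ≤ v := by exact_mod_cast h1.1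
      unfold v0 at h4
      linarith
    · have h3 := Nat.floor_le (show 0 ≤ 12 / 10 * (h * Real.log N) by positivity)
      have h4 : (v : ℝ) ≤ ((v1 N h : ℕ) : ℝ) := by exact_mod_cast h1.2.le
      unfold v1 at h4
      linarith
    · rw [mul_comm]
      exact h2
  · rw [Finset.sum_empty, norm_zero]
    positivity

/-! ## the numbers -/

theorem evL (K a b : ℝ) (hb : 0 < b) : ∀ᶠ N : ℝ in atTop, K * Real.log N ^ a ≤ N ^ b := by
  have h := isLittleO_log_rpow_rpow_atTop a hb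
  have hc : 0 < 1 / (|K| + 1) := by positivity
  filter_upwards [h.def hc, eventually_ge_atTop 1] with N h1 h2
  rw [Real.norm_of_nonneg (by have := Real.log_nonneg h2; positivity),
    Real.norm_of_nonneg (by positivity)] at h1
  have h3 : 0 ≤ Real.log N ^ a := by have := Real.log_nonneg h2; positivity
  have h4 : (|K| + 1) * Real.log N ^ a ≤ N ^ b := by
    rw [div_mul_eq_mul_div, one_mul, le_div_iff₀ (by positivity)] at h1
    linarith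
  nlinarith [le_abs_self K]

theorem Rbound {N x U V L c₀ c₂ CB : ℝ} (hc2 : c₀ = 200 * c₂) (hc : 0 < c₂) (hc1 : c₀ < 1)
    (hN : 1 ≤ N) (hl : 1 ≤ Real.log N) (hx1 : N ^ (9 / 10 : ℝ) ≤ x)
    (hx2 : Real.log x ≤ 2 * Real.log N) (hU1 : N ^ (1 / 10 : ℝ) / 2 ≤ U)
    (hU2 : U ≤ 3 * N ^ (1 / 10 : ℝ)) (hV : V = N ^ c₂) (hL0 : 0 ≤ L) (hL : L ≤ 2 * Real.log x)
    (hCB : 0 < CB)
    (hE1 : 31320 * Real.log N ^ (3 : ℝ) ≤ N ^ (158 * c₂))
    (hE2 : 4 * 2 ^ CB * Real.log N ^ CB ≤ N ^ (1 / 40 - 2 * c₂)) :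
    18 * V * Real.log x * (x ^ (1 - c₀) * U ^ c₀) * (1 + L * (18 + 9 * Real.log x)) +
      V * x * U ^ (-(1 / 4) : ℝ) * Real.log x ^ CB ≤ x * N ^ (-c₂) := by
  have hN0 : 0 < N := by linarith
  have hx0 : 0 < x := lt_of_lt_of_le (by positivity) hx1
  have hx11 : 1 ≤ x := le_trans (Real.one_le_rpow hN (by norm_num)) hx1
  have hlx : 0 ≤ Real.log x := Real.log_nonneg hx11
  have hU0 : 0 < U := lt_of_lt_of_le (by positivity) hU1
  have hc0 : 0 < c₀ := by linarith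
  set l := Real.log N with hl_def
  have hl0 : 0 < l := by linarith
  -- the first term
  have h1 : x ^ (1 - c₀) ≤ x * N ^ (-(9 / 10) * c₀) := by
    rw [sub_eq_add_neg, Real.rpow_add hx0, Real.rpow_one]
    refine mul_le_mul_of_nonneg_left ?_ hx0.le
    calc x ^ (-c₀) ≤ (N ^ (9 / 10 : ℝ)) ^ (-c₀) :=
          Real.rpow_le_rpow_of_nonpos (by positivity) hx1 (by linarith)
      _ = N ^ (-(9 / 10) * c₀) := by
          rw [← Real.rpow_mul hN0.le]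
          congr 1
          ring
  have h2 : U ^ c₀ ≤ 3 * N ^ ((1 / 10) * c₀) := by
    calc U ^ c₀ ≤ (3 * N ^ (1 / 10 : ℝ)) ^ c₀ := Real.rpow_le_rpow hU0.le hU2 hc0.le
      _ = 3 ^ c₀ * N ^ ((1 / 10) * c₀) := by
          rw [Real.mul_rpow (by norm_num) (by positivity), ← Real.rpow_mul hN0.le]
      _ ≤ 3 * N ^ ((1 / 10) * c₀) := by
          refine mul_le_mul_of_nonneg_right ?_ (by positivity)
          calc (3 : ℝ) ^ c₀ ≤ 3 ^ (1 : ℝ) :=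
                Real.rpow_le_rpow_of_exponent_le (by norm_num) hc1.le
            _ = 3 := Real.rpow_one 3
  have h3 : x ^ (1 - c₀) * U ^ c₀ ≤ 3 * x * N ^ (-(160 * c₂)) := by
    calc x ^ (1 - c₀) * U ^ c₀ ≤ (x * N ^ (-(9 / 10) * c₀)) * (3 * N ^ ((1 / 10) * c₀)) :=
          mul_le_mul h1 h2 (by positivity) (by positivity)
      _ = 3 * x * (N ^ (-(9 / 10) * c₀) * N ^ ((1 / 10) * c₀)) := by ring
      _ = 3 * x * N ^ (-(160 * c₂)) := by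
          rw [← Real.rpow_add hN0]
          congr 2
          rw [hc2]
          ring
  have h4 : 1 + L * (18 + 9 * Real.log x) ≤ 145 * l ^ 2 := by
    have h5 : L ≤ 4 * l := by linarith
    have h6 : L * (18 + 9 * Real.log x) ≤ (4 * l) * (18 + 9 * (2 * l)) :=
      mul_le_mul h5 (by linarith) (by linarith) (by positivity)
    nlinarith
  have h5 : 18 * V * Real.log x * (x ^ (1 - c₀) * U ^ c₀) * (1 + L * (18 + 9 * Real.log x)) ≤
      x * N ^ (-c₂) / 2 := by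
    have hV0 : 0 < V := by rw [hV]; positivity
    calc 18 * V * Real.log x * (x ^ (1 - c₀) * U ^ c₀) * (1 + L * (18 + 9 * Real.log x)) ≤
          18 * V * (2 * l) * (3 * x * N ^ (-(160 * c₂))) * (145 * l ^ 2) := by
          gcongr
      _ = x * (N ^ c₂ * N ^ (-(160 * c₂))) * (15660 * l ^ 3) := by
          rw [hV]
          ring
      _ = x * N ^ (-(159 * c₂)) * (15660 * l ^ 3) := by
          rw [← Real.rpow_add hN0]
          congr 3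
          ring
      _ ≤ x * N ^ (-(159 * c₂)) * (N ^ (158 * c₂) / 2) := by
          refine mul_le_mul_of_nonneg_left ?_ (by positivity)
          have h6 : l ^ (3 : ℝ) = l ^ 3 := by exact_mod_cast Real.rpow_natCast l 3
          rw [h6] at hE1
          linarith
      _ = x * (N ^ (-(159 * c₂)) * N ^ (158 * c₂)) / 2 := by ring
      _ = x * N ^ (-c₂) / 2 := by
          rw [← Real.rpow_add hN0]
          congr 3
          ring
  have h6 : V * x * U ^ (-(1 / 4) : ℝ) * Real.log x ^ CB ≤ x * N ^ (-c₂) / 2 := by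
    have h7 : U ^ (-(1 / 4) : ℝ) ≤ 2 * N ^ (-(1 / 40) : ℝ) := by
      calc U ^ (-(1 / 4) : ℝ) ≤ (N ^ (1 / 10 : ℝ) / 2) ^ (-(1 / 4) : ℝ) :=
            Real.rpow_le_rpow_of_nonpos (by positivity) hU1 (by norm_num)
        _ = N ^ (-(1 / 40) : ℝ) / 2 ^ (-(1 / 4) : ℝ) := by
            rw [Real.div_rpow (by positivity) (by norm_num), ← Real.rpow_mul hN0.le]
            congr 2
            norm_num
        _ = N ^ (-(1 / 40) : ℝ) * 2 ^ (1 / 4 : ℝ) := by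
            rw [Real.rpow_neg (by norm_num : (0 : ℝ) ≤ 2), div_inv_eq_mul]
        _ ≤ N ^ (-(1 / 40) : ℝ) * 2 := by
            refine mul_le_mul_of_nonneg_left ?_ (by positivity)
            calc (2 : ℝ) ^ (1 / 4 : ℝ) ≤ 2 ^ (1 : ℝ) :=
                  Real.rpow_le_rpow_of_exponent_le (by norm_num) (by norm_num)
              _ = 2 := Real.rpow_one 2
        _ = _ := by ring
    have h8 : Real.log x ^ CB ≤ 2 ^ CB * l ^ CB := by
      rw [← Real.mul_rpow (by norm_num) hl0.le]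
      exact Real.rpow_le_rpow hlx hx2 hCB.le
    have hV0 : 0 < V := by rw [hV]; positivity
    calc V * x * U ^ (-(1 / 4) : ℝ) * Real.log x ^ CB ≤
          V * x * (2 * N ^ (-(1 / 40) : ℝ)) * (2 ^ CB * l ^ CB) := by gcongr
      _ = x * (N ^ c₂ * N ^ (-(1 / 40) : ℝ)) * (4 * 2 ^ CB * l ^ CB) / 2 := by
          rw [hV]
          ring
      _ ≤ x * (N ^ c₂ * N ^ (-(1 / 40) : ℝ)) * N ^ (1 / 40 - 2 * c₂) / 2 := by
          gcongr
      _ = x * (N ^ c₂ * N ^ (-(1 / 40) : ℝ) * N ^ (1 / 40 - 2 * c₂)) / 2 := by ring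
      _ = x * N ^ (-c₂) / 2 := by
          rw [← Real.rpow_add hN0, ← Real.rpow_add hN0]
          congr 3
          ring
  linarith

theorem S_le {N x U c₀ Y₀ : ℝ} (hc0 : 0 < c₀) (hN : 1 ≤ N) (hY₀ : Y₀ ≤ N ^ (7 / 10 : ℝ))
    (hx0 : 0 < x) (hxU : N ^ (7 / 10 : ℝ) ≤ x / U)
    (hanc : ∀ y : ℝ, Y₀ ≤ y → ∀ (m : Gi) (χ : Gi → ℂ) (k : ℤ), ChiG m χ → (nm m : ℝ) ≤ y ^ c₀ →
      |(k : ℝ)| ≤ y ^ (3 : ℝ) → (k ≠ 0 ∨ ∃ z, χ z ≠ 0 ∧ χ z ≠ 1) → ∀ Y : ℝ, 0 ≤ Y → Y ≤ y →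
      ‖∑ z ∈ disc Y, hk χ k z‖ ≤ y ^ (1 - 1 * c₀))
    {m : Gi} {χ : Gi → ℂ} {k : ℤ} (hχ : ChiG m χ) (hm : (nm m : ℝ) ≤ N ^ (7 / 10 * c₀))
    (hk0 : |(k : ℝ)| ≤ N ^ 2) (hnt : k ≠ 0 ∨ ∃ z, χ z ≠ 0 ∧ χ z ≠ 1) :
    ∀ n : ℝ, 1 ≤ n → n ≤ U → ∀ Y : ℝ, 0 ≤ Y → Y ≤ x / n →
      ‖∑ z ∈ disc Y, hk χ k z‖ ≤ (x ^ (1 - c₀) * U ^ c₀) / n := by
  intro n hn1 hnU Y hY hYn
  have hN0 : 0 < N := by linarith
  have hn0 : 0 < n := by linarith
  have h1 : N ^ (7 / 10 : ℝ) ≤ x / n :=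
    hxU.trans (div_le_div_of_nonneg_left hx0.le hn0 hnU)
  have h2 := hanc (x / n) (hY₀.trans h1) m χ k hχ (hm.trans ?_) (hk0.trans ?_) hnt Y hY hYn
  · refine h2.trans ?_
    rw [one_mul, Real.div_rpow hx0.le hn0.le, div_eq_mul_inv, ← Real.rpow_neg hn0.le,
      mul_div_assoc]
    refine mul_le_mul_of_nonneg_left ?_ (by positivity)
    rw [le_div_iff₀ hn0]
    calc n ^ (-(1 - c₀)) * n = n ^ (-(1 - c₀)) * n ^ (1 : ℝ) := by rw [Real.rpow_one]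
      _ = n ^ c₀ := by
          rw [← Real.rpow_add hn0]
          congr 1
          ring
      _ ≤ U ^ c₀ := Real.rpow_le_rpow hn0.le hnU hc0.le
  · rw [Real.rpow_mul hN0.le]
    exact Real.rpow_le_rpow (by positivity) h1 hc0.le
  · calc N ^ 2 = N ^ (2 : ℝ) := by exact_mod_cast (Real.rpow_natCast N 2).symm
      _ ≤ N ^ (7 / 10 * 3 : ℝ) := Real.rpow_le_rpow_of_exponent_le hN (by norm_num)
      _ = (N ^ (7 / 10 : ℝ)) ^ (3 : ℝ) := by rw [Real.rpow_mul hN0.le]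
      _ ≤ (x / n) ^ (3 : ℝ) := Real.rpow_le_rpow (by positivity) h1 (by norm_num)

theorem three (a b c : ℂ) : ‖a - b - c‖ ^ 2 ≤ 3 * (‖a‖ ^ 2 + ‖b‖ ^ 2 + ‖c‖ ^ 2) := by
  have h1 : ‖a - b - c‖ ≤ ‖a‖ + ‖b‖ + ‖c‖ :=
    (norm_sub_le _ _).trans (add_le_add (norm_sub_le _ _) le_rfl)
  have h2 : ‖a - b - c‖ ^ 2 ≤ (‖a‖ + ‖b‖ + ‖c‖) ^ 2 :=
    pow_le_pow_left₀ (norm_nonneg _) h1 2
  nlinarith [sq_nonneg (‖a‖ - ‖b‖), sq_nonneg (‖a‖ - ‖c‖), sq_nonneg (‖b‖ - ‖c‖)]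

theorem final {N M l lx w c₂ A₁ A₃ C₁ C₂ : ℝ} (hN : 0 < N) (hl : 2 ≤ l) (hlx0 : 0 ≤ lx)
    (hlx : lx ≤ 2 * l) (hC₁ : 0 < C₁) (hC₂ : 0 < C₂) (hw : w ≤ N ^ c₂) (_hw0 : 0 ≤ w)
    (h4 : l ^ A₃ ≤ N ^ c₂) :
    3 * (w * ((2 * M) * N ^ (-c₂)) ^ 2) + 3 * ((2 * M) ^ 2 * lx ^ C₁ / l ^ A₃) +
      3 * ((l ^ (-A₁)) ^ 2 * (l ^ A₃) ^ 2 * (2 * M) ^ 2 * lx ^ C₂) ≤
      16 * (M ^ 2 * (l ^ (2 * C₁ + 2 * C₂ + 1 - A₃) +
        l ^ (2 * C₁ + 2 * C₂ + 1 + 2 * A₃ - 2 * A₁))) := by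
  have hl0 : 0 < l := by linarith
  have hl1 : 1 ≤ l := by linarith
  have h2 : ∀ C : ℝ, 0 < C → lx ^ C ≤ l ^ (2 * C) := by
    intro C hC
    calc lx ^ C ≤ (l ^ (2 : ℝ)) ^ C := by
          refine Real.rpow_le_rpow hlx0 (hlx.trans ?_) hC.le
          have : l ^ (2 : ℝ) = l ^ 2 := by exact_mod_cast Real.rpow_natCast l 2
          rw [this]
          nlinarith
      _ = l ^ (2 * C) := by rw [← Real.rpow_mul hl0.le]
  have a1 : w * ((2 * M) * N ^ (-c₂)) ^ 2 ≤ 4 * M ^ 2 * l ^ (2 * C₁ - A₃) := by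
    have b1 : N ^ (-c₂) ≤ l ^ (-A₃) := by
      rw [Real.rpow_neg hN.le, Real.rpow_neg hl0.le]
      exact inv_anti₀ (by positivity) h4
    have b2 : w * N ^ (-c₂) ≤ 1 := by
      calc w * N ^ (-c₂) ≤ N ^ c₂ * N ^ (-c₂) := mul_le_mul_of_nonneg_right hw (by positivity)
        _ = 1 := by rw [← Real.rpow_add hN, add_neg_cancel, Real.rpow_zero]
    have b3 : l ^ (-A₃) ≤ l ^ (2 * C₁ - A₃) :=
      Real.rpow_le_rpow_of_exponent_le hl1 (by linarith)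
    calc w * ((2 * M) * N ^ (-c₂)) ^ 2 = 4 * M ^ 2 * ((w * N ^ (-c₂)) * N ^ (-c₂)) := by ring
      _ ≤ 4 * M ^ 2 * (1 * l ^ (2 * C₁ - A₃)) := by
          refine mul_le_mul_of_nonneg_left ?_ (by positivity)
          exact mul_le_mul b2 (b1.trans b3) (by positivity) (by norm_num)
      _ = _ := by ring
  have a2 : (2 * M) ^ 2 * lx ^ C₁ / l ^ A₃ ≤ 4 * M ^ 2 * l ^ (2 * C₁ - A₃) := by
    calc (2 * M) ^ 2 * lx ^ C₁ / l ^ A₃ = 4 * M ^ 2 * (lx ^ C₁ * l ^ (-A₃)) := by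
          rw [Real.rpow_neg hl0.le]
          ring
      _ ≤ 4 * M ^ 2 * (l ^ (2 * C₁) * l ^ (-A₃)) := by
          refine mul_le_mul_of_nonneg_left ?_ (by positivity)
          exact mul_le_mul_of_nonneg_right (h2 C₁ hC₁) (by positivity)
      _ = 4 * M ^ 2 * l ^ (2 * C₁ - A₃) := by
          rw [← Real.rpow_add hl0]
          rfl
  have a3 : (l ^ (-A₁)) ^ 2 * (l ^ A₃) ^ 2 * (2 * M) ^ 2 * lx ^ C₂ ≤
      4 * M ^ 2 * l ^ (2 * C₂ + 2 * A₃ - 2 * A₁) := by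
    have b1 : (l ^ (-A₁)) ^ 2 = l ^ (-(2 * A₁)) := by
      rw [← Real.rpow_natCast, ← Real.rpow_mul hl0.le]
      congr 1
      push_cast
      ring
    have b2 : (l ^ A₃) ^ 2 = l ^ (2 * A₃) := by
      rw [← Real.rpow_natCast, ← Real.rpow_mul hl0.le]
      congr 1
      push_cast
      ring
    calc (l ^ (-A₁)) ^ 2 * (l ^ A₃) ^ 2 * (2 * M) ^ 2 * lx ^ C₂ =
          4 * M ^ 2 * (l ^ (-(2 * A₁)) * l ^ (2 * A₃) * lx ^ C₂) := by
          rw [b1, b2]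
          ring
      _ ≤ 4 * M ^ 2 * (l ^ (-(2 * A₁)) * l ^ (2 * A₃) * l ^ (2 * C₂)) := by
          refine mul_le_mul_of_nonneg_left ?_ (by positivity)
          exact mul_le_mul_of_nonneg_left (h2 C₂ hC₂) (by positivity)
      _ = _ := by
          rw [← Real.rpow_add hl0, ← Real.rpow_add hl0]
          congr 2
          ring
  have a4 : 2 * l ^ (2 * C₁ - A₃) ≤ l ^ (2 * C₁ + 2 * C₂ + 1 - A₃) := by
    calc 2 * l ^ (2 * C₁ - A₃) ≤ l * l ^ (2 * C₁ - A₃) :=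
          mul_le_mul_of_nonneg_right hl (by positivity)
      _ = l ^ (1 + (2 * C₁ - A₃)) := by rw [Real.rpow_add hl0, Real.rpow_one]
      _ ≤ _ := Real.rpow_le_rpow_of_exponent_le hl1 (by linarith)
  have a5 : l ^ (2 * C₂ + 2 * A₃ - 2 * A₁) ≤ l ^ (2 * C₁ + 2 * C₂ + 1 + 2 * A₃ - 2 * A₁) :=
    Real.rpow_le_rpow_of_exponent_le hl1 (by linarith)
  have hM2 : 0 ≤ M ^ 2 := sq_nonneg M
  have a6 := mul_le_mul_of_nonneg_left a4 hM2
  have a7 := mul_le_mul_of_nonneg_left a5 hM2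
  have a8 : 0 ≤ M ^ 2 * l ^ (2 * C₁ + 2 * C₂ + 1 + 2 * A₃ - 2 * A₁) := by positivity
  have a9 : 0 ≤ M ^ 2 * l ^ (2 * C₁ + 2 * C₂ + 1 - A₃) := by positivity
  nlinarith

theorem psi_facts {m : Gi} {i : Ix} (h : ChiG m i.2.1) :
    (∀ u v, psi i (u * v) = psi i u * psi i v) ∧ (∀ z, ‖psi i z‖ ≤ 1) :=
  ⟨X.PSIM.psi_mul h, X.PSIM.norm_psi_le h⟩

end VBLM

open VBLM in
theorem specVBL (hVAU : SpecVAU) (hTYI : SpecTYI) (hBAD : SpecBAD) (hT2E : SpecT2E)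
    (hT2M : SpecT2M) (hCLF : SpecCLF) : SpecVBL := by
  classical
  obtain ⟨c₀, hc0, hc01, hanc⟩ := X.hm_anc 3 1 (by norm_num) le_rfl
  rw [one_mul] at hc01
  obtain ⟨CB, hCB, hbad⟩ := hBAD
  obtain ⟨C₁, c₁, hC₁, hc₁, hc₁1, h2E⟩ := hT2E
  obtain ⟨c₂, hc₂⟩ : ∃ c₂ : ℝ, c₀ = 200 * c₂ := ⟨c₀ / 200, by ring⟩
  have hc20 : 0 < c₂ := by linarith
  obtain ⟨C₂, c₃, hC₂, hc₃, hc₃1, h2M⟩ := hT2M (c₂ / 2) (by positivity) (by linarith)
  obtain ⟨Y₁, hanc⟩ := eventually_atTop.1 hanc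
  obtain ⟨Y₂, hbad⟩ := eventually_atTop.1 hbad
  obtain ⟨Y₃, h2E⟩ := eventually_atTop.1 h2E
  obtain ⟨Y₄, h2M⟩ := eventually_atTop.1 h2M
  obtain ⟨c, hc_def⟩ : ∃ c : ℝ, c = min c₂ (min (c₁ / 3) (c₃ / 3)) := ⟨_, rfl⟩
  have hcc2 : c ≤ c₂ := by rw [hc_def]; exact min_le_left _ _
  have hcc1 : c ≤ c₁ / 3 := by
    rw [hc_def]; exact (min_le_right _ _).trans (min_le_left _ _)
  have hcc3 : c ≤ c₃ / 3 := by
    rw [hc_def]; exact (min_le_right _ _).trans (min_le_right _ _)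
  have hc : 0 < c := by
    rw [hc_def]; exact lt_min hc20 (lt_min (by positivity) (by positivity))
  refine ⟨c, 2 * C₁ + 2 * C₂ + 1, hc, by positivity, fun A₁ A₃ hA₁ hA₃ => ?_⟩
  filter_upwards [evL 31320 3 (158 * c₂) (by positivity),
    evL (4 * 2 ^ CB) CB (1 / 40 - 2 * c₂) (by linarith),
    evL 1 A₃ (9 / 10 * c₁) (by positivity), evL 1 A₃ c₂ hc20,
    (tendsto_rpow_atTop (by norm_num : (0 : ℝ) < 7 / 10)).eventually_ge_atTop
      (max (max Y₁ Y₂) (max Y₃ Y₄)),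
    (tendsto_rpow_atTop (by norm_num : (0 : ℝ) < 1 / 10)).eventually_ge_atTop 1000,
    Real.tendsto_log_atTop.eventually_ge_atTop 2, eventually_ge_atTop 1]
    with N e1 e2 e3 e4 e5 e6 e7 hN
  intro W M X X' hM1 hM2 hX1 hX2 hX3 hW hWd hWc
  have hN0 : 0 < N := by linarith
  have hl0 : 0 < Real.log N := by linarith
  rw [one_mul] at e3 e4
  have hY1 : Y₁ ≤ N ^ (7 / 10 : ℝ) := (le_max_left _ _).trans ((le_max_left _ _).trans e5)
  have hY2 : Y₂ ≤ N ^ (7 / 10 : ℝ) := (le_max_right _ _).trans ((le_max_left _ _).trans e5)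
  have hY3 : Y₃ ≤ N ^ (7 / 10 : ℝ) := (le_max_left _ _).trans ((le_max_right _ _).trans e5)
  have hY4 : Y₄ ≤ N ^ (7 / 10 : ℝ) := (le_max_right _ _).trans ((le_max_right _ _).trans e5)
  -- the powers of `N`
  have hpow : ∀ a b : ℝ, N ^ (a + b) = N ^ a * N ^ b := fun a b => Real.rpow_add hN0 a b
  have p2 : N ^ (2 / 10 : ℝ) = N ^ (1 / 10 : ℝ) * N ^ (1 / 10 : ℝ) := by
    rw [← hpow]; norm_num
  have p9 : N ^ (9 / 10 : ℝ) = N ^ (1 / 10 : ℝ) * N ^ (1 / 10 : ℝ) * N ^ (7 / 10 : ℝ) := by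
    rw [← p2, ← hpow]; norm_num
  have p12 : N ^ (12 / 10 : ℝ) = N ^ (1 / 10 : ℝ) * N ^ (11 / 10 : ℝ) := by
    rw [← hpow]; norm_num
  have p20 : N ^ (2 : ℝ) = N ^ (9 / 10 : ℝ) * N ^ (11 / 10 : ℝ) := by
    rw [← hpow]; norm_num
  have q7 : 1 ≤ N ^ (7 / 10 : ℝ) := Real.one_le_rpow hN (by norm_num)
  have q11 : 1 ≤ N ^ (11 / 10 : ℝ) := Real.one_le_rpow hN (by norm_num)
  set n1 := N ^ (1 / 10 : ℝ) with hn1
  set n7 := N ^ (7 / 10 : ℝ) with hn7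
  have q9 : 1000 * n1 ≤ N ^ (9 / 10 : ℝ) := by
    rw [p9]
    nlinarith [mul_le_mul_of_nonneg_left q7 (show 0 ≤ n1 * n1 by positivity)]
  -- the parameters
  obtain ⟨h, hh_def⟩ : ∃ h : ℝ, h = Real.log N ^ A₃ := ⟨_, rfl⟩
  have hh : 1 ≤ h := by
    rw [hh_def]
    exact Real.one_le_rpow (by linarith) (by linarith)
  rw [← hh_def] at e3 e4
  obtain ⟨x, hx_def⟩ : ∃ x : ℝ, x = 2 * M := ⟨_, rfl⟩
  rw [← hx_def] at hX3
  have hM0 : 0 < M := lt_of_lt_of_le (by positivity) hM1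
  have hx0 : 0 < x := by linarith
  have hx1 : N ^ (9 / 10 : ℝ) ≤ x := by linarith
  have hx7 : n7 ≤ x := by
    refine le_trans ?_ hx1
    rw [p9]
    nlinarith [mul_le_mul_of_nonneg_right (show (1 : ℝ) ≤ n1 * n1 by nlinarith)
      (show 0 ≤ n7 by positivity)]
  have hxN2 : x ≤ N ^ (2 : ℝ) := by
    rw [p20]
    have : 2 * N ^ (11 / 10 : ℝ) ≤ N ^ (9 / 10 : ℝ) * N ^ (11 / 10 : ℝ) :=
      mul_le_mul_of_nonneg_right (by linarith) (by positivity)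
    linarith
  have hlx : Real.log x ≤ 2 * Real.log N := by
    calc Real.log x ≤ Real.log (N ^ (2 : ℝ)) := Real.log_le_log hx0 hxN2
      _ = 2 * Real.log N := Real.log_rpow hN0 2
  have hx11 : 1 ≤ x := by linarith
  have hlx0 : 0 ≤ Real.log x := Real.log_nonneg hx11
  obtain ⟨U, hU_def⟩ : ∃ U : ℝ, U = Uu N h := ⟨_, rfl⟩
  obtain ⟨Q, hQ_def⟩ : ∃ Q : ℝ, Q = QU N h := ⟨_, rfl⟩
  have hU1 : n1 / 2 ≤ U := by
    have := Uu_ge hN hh
    rw [hU_def]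
    linarith
  have hU3 : U ≤ 3 * n1 := by
    rw [hU_def]
    exact Uu_le hN hh
  have hU2 : 2 ≤ U := by linarith
  have hUX : U ≤ X := by linarith
  obtain ⟨V, hV_def⟩ : ∃ V : ℝ, V = N ^ c₂ := ⟨_, rfl⟩
  have hV : 1 ≤ V := by
    rw [hV_def]
    exact Real.one_le_rpow hN hc20.le
  have hVQ : X' ≤ V * Q := by
    have h1 := QU_ge hN hh
    rw [← hQ_def, p12] at h1
    have h2 : 1000 * N ^ (11 / 10 : ℝ) ≤ n1 * N ^ (11 / 10 : ℝ) :=
      mul_le_mul_of_nonneg_right e6 (by positivity)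
    have h3 : x ≤ Q := by linarith
    have h4 : Q ≤ V * Q := le_mul_of_one_le_left (by linarith) hV
    linarith
  -- the number `L`
  obtain ⟨L, hL_def⟩ : ∃ L : ℕ, L = ⌊Real.log x / Real.log 2⌋₊ := ⟨_, rfl⟩
  have hlog2 : 1 / 2 < Real.log 2 := by
    have := Real.log_two_gt_d9
    linarith
  have hL1 : x < 2 ^ (L + 1) := by
    have h1 := Nat.lt_floor_add_one (Real.log x / Real.log 2)
    rw [← hL_def, div_lt_iff₀ (by linarith)] at h1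
    have h2 : Real.log x < Real.log (2 ^ (L + 1)) := by
      rw [Real.log_pow]
      push_cast
      exact h1
    exact (Real.log_lt_log_iff hx0 (by positivity)).1 h2
  have hL2 : (L : ℝ) ≤ 2 * Real.log x := by
    have h1 := Nat.floor_le (show 0 ≤ Real.log x / Real.log 2 by positivity)
    rw [← hL_def] at h1
    refine h1.trans ?_
    rw [div_le_iff₀ (by linarith)]
    nlinarith
  -- the characters
  have hX'0 : 0 ≤ X' := by linarith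
  have hpsi : ∀ i ∈ W, (∀ u v, psi i (u * v) = psi i u * psi i v) ∧ (∀ z, ‖psi i z‖ ≤ 1) := by
    intro i hi
    obtain ⟨-, -, h3, -⟩ := hW i hi
    exact psi_facts h3
  have hq2 : ∀ i ∈ W, (nm (i.1 : Gi) : ℝ) ≤ N ^ (2 * c) := by
    intro i hi
    obtain ⟨-, h2, -⟩ := hW i hi
    rw [nm_nat']
    push_cast
    calc (i.1 : ℝ) ^ 2 ≤ (N ^ c) ^ 2 := pow_le_pow_left₀ (by positivity) h2 2
      _ = N ^ (2 * c) := by
          rw [← Real.rpow_natCast, ← Real.rpow_mul hN0.le]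
          congr 1
          push_cast
          ring
  have hxpow : ∀ a b : ℝ, 0 ≤ b → a ≤ 9 / 10 * b → N ^ a ≤ x ^ b := by
    intro a b hb hab
    calc N ^ a ≤ N ^ (9 / 10 * b) := Real.rpow_le_rpow_of_exponent_le hN hab
      _ = (N ^ (9 / 10 : ℝ)) ^ b := by rw [Real.rpow_mul hN0.le]
      _ ≤ x ^ b := Real.rpow_le_rpow (by positivity) hx1 hb
  have hFam : ∀ c' : ℝ, 0 < c' → c ≤ c' / 3 →
      Fam W (fun i => i.2.1) (fun i => i.2.2) (x ^ c') (x ^ (3 : ℝ)) := by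
    intro c' hc' hcc'
    refine ⟨fun i hi => ?_, fun i hi => ?_, hWd⟩
    · obtain ⟨-, -, h3, -⟩ := hW i hi
      exact ⟨(i.1 : Gi), (hq2 i hi).trans (hxpow _ _ hc'.le (by linarith)), h3⟩
    · obtain ⟨-, -, -, h4, -⟩ := hW i hi
      refine h4.trans ?_
      have : N ^ 2 = N ^ (2 : ℝ) := by exact_mod_cast (Real.rpow_natCast N 2).symm
      rw [this]
      exact hxpow _ _ (by norm_num) (by norm_num)
  -- the remainder
  have hR : ∀ i ∈ W, ‖4 * ∑ π ∈ GP X X', ((Real.log (nm π) : ℝ) : ℂ) * psi i π +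
      T2 (psi i) x U V X X'‖ ≤ x * N ^ (-c₂) := by
    intro i hi
    obtain ⟨g1, g2, g3, g4, g5, g6, g7⟩ := hW i hi
    have hnt : i.2.2 ≠ 0 ∨ ∃ z, i.2.1 z ≠ 0 ∧ i.2.1 z ≠ 1 := by
      rcases g6 with g | ⟨z, z1, -, z3⟩
      · exact Or.inl g
      · exact Or.inr ⟨z, z1, z3⟩
    have hxU : N ^ (7 / 10 : ℝ) ≤ x / U := by
      rw [le_div_iff₀ (by linarith)]
      calc N ^ (7 / 10 : ℝ) * U ≤ n7 * (n1 * n1) := by
            refine mul_le_mul_of_nonneg_left ?_ (by positivity)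
            nlinarith
        _ = N ^ (9 / 10 : ℝ) := by rw [p9]; ring
        _ ≤ x := hx1
    have hS := S_le hc0 hN hY1 hx0 hxU hanc g3
      ((hq2 i hi).trans (Real.rpow_le_rpow_of_exponent_le hN (by linarith))) g4 hnt
    have hB := hbad x (hY2.trans hx7) U V L (FF (psi i) X X') hU2 hV (by linarith)
      (FF_le (hpsi i hi).2) (fun z hz => by
        have := FF_supp (by linarith) hz
        rw [mem_ann] at this
        exact ⟨this.1, this.2.2.trans hX3⟩)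
    refine (perchar hVAU hTYI (hpsi i hi).1 (hpsi i hi).2 g5 hU2 hV hUX hX2 hX3 hL1
      (by positivity) hS hB).trans ?_
    exact Rbound hc₂ hc20 hc01 hN (by linarith) hx1 hlx hU1 hU3 hV_def (by positivity) hL2
      hCB e1 e2
  -- the bilinear part
  have hcard : ∀ c' : ℝ, 0 < c' → c ≤ c' / 3 → (W.card : ℝ) ≤ x ^ c' :=
    fun c' hc' hcc' => hWc.trans (hxpow _ _ hc'.le (by linarith))
  have hE := h2E x (hY3.trans hx7) Ix W (fun i => i.2.1) (fun i => i.2.2) (hFam c₁ hc₁ hcc1)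
    (hcard c₁ hc₁ hcc1) U V Q X X' h hh (e3.trans (hxpow _ _ hc₁.le le_rfl)) hU2 hV
    (by linarith) hX2 hX3 hVQ
  have hxV : x ^ (c₂ / 2) ≤ V := by
    calc x ^ (c₂ / 2) ≤ (N ^ (2 : ℝ)) ^ (c₂ / 2) :=
          Real.rpow_le_rpow hx0.le hxN2 (by positivity)
      _ = V := by
          rw [← Real.rpow_mul hN0.le, hV_def]
          congr 1
          ring
  have hMm := h2M x (hY4.trans hx7) Ix W (fun i => i.2.1) (fun i => i.2.2) (hFam c₃ hc₃ hcc3)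
    (hcard c₃ hc₃ hcc3) U V Q X X' h (Real.log N ^ (-A₁)) hh hU2 hxV (by linarith) hX2 hX3
    (by positivity) (fun i hi v _ => by
      obtain ⟨-, -, -, -, -, -, g7⟩ := hW i hi
      rw [← hh_def] at g7
      rw [hU_def, hQ_def]
      exact pc_le hCLF hN hh g7 v)
  -- conclusion
  have hsum : 16 * ∑ i ∈ W, ‖∑ π ∈ GP X X', ((Real.log (nm π) : ℝ) : ℂ) * psi i π‖ ^ 2 ≤
      3 * ((W.card : ℝ) * (x * N ^ (-c₂)) ^ 2) + 3 * (x ^ 2 * Real.log x ^ C₁ / h) +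
        3 * ((Real.log N ^ (-A₁)) ^ 2 * h ^ 2 * x ^ 2 * Real.log x ^ C₂) := by
    have h1 : ∀ i ∈ W, 16 * ‖∑ π ∈ GP X X', ((Real.log (nm π) : ℝ) : ℂ) * psi i π‖ ^ 2 ≤
        3 * (x * N ^ (-c₂)) ^ 2 +
        3 * ‖T2 (hk i.2.1 i.2.2) x U V X X' - MN (hk i.2.1 i.2.2) h U Q V X X'‖ ^ 2 +
        3 * ‖MN (hk i.2.1 i.2.2) h U Q V X X'‖ ^ 2 := by
      intro i hi
      have h2 := hR i hi
      have h3 := three (4 * ∑ π ∈ GP X X', ((Real.log (nm π) : ℝ) : ℂ) * psi i π +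
        T2 (psi i) x U V X X') (T2 (psi i) x U V X X' - MN (psi i) h U Q V X X')
        (MN (psi i) h U Q V X X')
      have h4 : 4 * ∑ π ∈ GP X X', ((Real.log (nm π) : ℝ) : ℂ) * psi i π +
        T2 (psi i) x U V X X' - (T2 (psi i) x U V X X' - MN (psi i) h U Q V X X') -
        MN (psi i) h U Q V X X' = 4 * ∑ π ∈ GP X X', ((Real.log (nm π) : ℝ) : ℂ) * psi i π := by
        ring
      rw [h4, norm_mul, mul_pow] at h3
      have h5 : ‖(4 : ℂ)‖ ^ 2 = 16 := by norm_num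
      rw [h5] at h3
      have h6 := pow_le_pow_left₀ (norm_nonneg _) h2 2
      change _ ≤ 3 * (x * N ^ (-c₂)) ^ 2 +
        3 * ‖T2 (psi i) x U V X X' - MN (psi i) h U Q V X X'‖ ^ 2 +
        3 * ‖MN (psi i) h U Q V X X'‖ ^ 2
      linarith
    rw [Finset.mul_sum]
    refine (Finset.sum_le_sum h1).trans ?_
    rw [Finset.sum_add_distrib, Finset.sum_add_distrib, ← Finset.mul_sum, ← Finset.mul_sum,
      ← Finset.mul_sum, Finset.sum_const, nsmul_eq_mul]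
    linarith
  have hfin := final (N := N) (M := M) (l := Real.log N) (lx := Real.log x) (w := W.card)
    (c₂ := c₂) (A₁ := A₁) (A₃ := A₃) (C₁ := C₁) (C₂ := C₂) hN0 e7 hlx0 hlx hC₁ hC₂
    (hWc.trans (Real.rpow_le_rpow_of_exponent_le hN hcc2)) (by positivity)
    (by rw [← hh_def]; exact e4)
  rw [← hh_def, ← hx_def] at hfin
  linarith

end Pool.Agent.Lib.MP391708.XB3
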